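import Pool.Agent.Lib.MP_c38eaf_pr.Defs2

/-!
# Monotonicity of `ψ` and the zero-one law for infinite clusters
-/

open MeasureTheory ProbabilityTheory

namespace MP_c38eaf_pr

/-! ## Measurability of connection events -/

/-- An event that depends on two labels is measurable. -/
lemma measurableSet_two (x y : Site) (P : Bool → Bool → Prop) :
    MeasurableSet {ω : Site → Bool | P (ω x) (ω y)} := by
  have h : Measurable fun ω : Site → Bool => (ω x, ω y) :=
    (measurable_pi_apply x).prodMk (measurable_pi_apply y)
  exact h (MeasurableSet.of_discrete (s := {b : Bool × Bool | P b.1 b.2}))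

lemma measurableSet_reachable {G : (Site → Bool) → SimpleGraph Site}
    (hG : ∀ x y, MeasurableSet {ω | (G ω).Adj x y}) (x y : Site) :
    MeasurableSet {ω | (G ω).Reachable x y} := by
  have hn : ∀ (n : ℕ) (x : Site), MeasurableSet {ω | ∃ w : (G ω).Walk x y, w.length = n} := by
    intro n
    induction n with
    | zero =>
      intro x
      by_cases hxy : x = y
      · subst hxy
        convert MeasurableSet.univ using 1
        ext ω
        simp only [Set.mem_ofPred_eq, Set.mem_univ, iff_true]
        exact ⟨SimpleGraph.Walk.nil, rfl⟩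
      · convert MeasurableSet.empty using 1
        ext ω
        simp only [Set.mem_ofPred_eq, Set.mem_empty_iff_false, iff_false]
        rintro ⟨w, hw⟩
        exact hxy (SimpleGraph.Walk.eq_of_length_eq_zero hw)
    | succ n ih =>
      intro x
      have e : {ω | ∃ w : (G ω).Walk x y, w.length = n + 1} =
          ⋃ z : Site, {ω | (G ω).Adj x z} ∩ {ω | ∃ w : (G ω).Walk z y, w.length = n} := by
        ext ω
        simp only [Set.mem_ofPred_eq, Set.mem_iUnion, Set.mem_inter_iff]
        constructor
        · rintro ⟨w, hw⟩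
          cases w with
          | nil => simp at hw
          | @cons _ z _ h w => exact ⟨z, h, w, by simpa using hw⟩
        · rintro ⟨z, h, w, hw⟩
          exact ⟨SimpleGraph.Walk.cons h w, by simp [hw]⟩
      rw [e]
      exact MeasurableSet.iUnion fun z => (hG x z).inter (ih z)
  have e : {ω | (G ω).Reachable x y} = ⋃ n : ℕ, {ω | ∃ w : (G ω).Walk x y, w.length = n} := by
    ext ω
    simp only [Set.mem_ofPred_eq, Set.mem_iUnion]
    constructor
    · rintro ⟨w⟩
      exact ⟨w.length, w, rfl⟩
    · rintro ⟨_, w, _⟩
      exact ⟨w⟩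
  rw [e]
  exact MeasurableSet.iUnion fun n => hn n x

lemma measurableSet_infinite {G : (Site → Bool) → SimpleGraph Site}
    (hG : ∀ x y, MeasurableSet {ω | (G ω).Adj x y}) (x : Site) :
    MeasurableSet {ω | {y | (G ω).Reachable x y}.Infinite} := by
  have e : {ω | {y | (G ω).Reachable x y}.Infinite} =
      ⋂ F : Finset Site, ⋃ y : Site, ⋃ _ : y ∉ F, {ω | (G ω).Reachable x y} := by
    ext ω
    simp only [Set.mem_ofPred_eq, Set.mem_iUnion, Set.mem_iInter]
    constructor
    · intro h F
      obtain ⟨y, hy, hyF⟩ := h.exists_notMem_finset F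
      exact ⟨y, hyF, hy⟩
    · intro h hfin
      obtain ⟨y, hyF, hy⟩ := h hfin.toFinset
      exact hyF (hfin.mem_toFinset.2 hy)
  rw [e]
  exact MeasurableSet.iInter fun F => MeasurableSet.iUnion fun y => MeasurableSet.iUnion fun _ =>
    measurableSet_reachable hG x y

lemma measurableSet_two_adj (x y : Site) : MeasurableSet {ω | (twoGraph ω).Adj x y} :=
  measurableSet_two x y fun a b =>
    x ≠ y ∧ a = true ∧ b = true ∧ (tri.Adj x y ∨ ∃ z, tri.Adj x z ∧ tri.Adj z y)

lemma measurableSet_or_adj (x y : Site) : MeasurableSet {ω | (orGraph ω).Adj x y} :=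
  measurableSet_two x y fun a b => tri.Adj x y ∧ (a = true ∨ b = true)

/-! ## Monotonicity -/

/-- The coupling of the label laws with parameters `p ≤ q`: the first coordinate has law
`Bernoulli(p)` and the disjunction of the two coordinates has law `Bernoulli(q)`. -/
noncomputable def couple (p q : unitInterval) : Measure (Bool × Bool) :=
  ENNReal.ofReal p • Measure.dirac (true, true) +
    (ENNReal.ofReal (q - p) • Measure.dirac (false, true) +
      ENNReal.ofReal (1 - q) • Measure.dirac (false, false))

lemma bernoulli_eq (p : unitInterval) : bernoulliMeasure true false p =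
    ENNReal.ofReal p • Measure.dirac true + ENNReal.ofReal (1 - p) • Measure.dirac false := by
  have h1 : (unitInterval.toNNReal p : ENNReal) = ENNReal.ofReal p := by
    rw [ENNReal.ofReal]
    congr 1
    exact NNReal.eq (by rw [Real.coe_toNNReal _ p.2.1]; rfl)
  have h2 : (unitInterval.toNNReal (unitInterval.symm p) : ENNReal) = ENNReal.ofReal (1 - p) := by
    rw [ENNReal.ofReal]
    congr 1
    exact NNReal.eq (by rw [Real.coe_toNNReal _ (by linarith [p.2.2])]; rfl)
  rw [bernoulliMeasure_def, ← h1, ← h2]
  rfl

lemma couple_fst {p q : unitInterval} (h : p ≤ q) :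
    (couple p q).map Prod.fst = bernoulliMeasure true false p := by
  have hm : Measurable (Prod.fst : Bool × Bool → Bool) := measurable_fst
  have hpq : (p : ℝ) ≤ q := h
  rw [couple, bernoulli_eq, Measure.map_add _ _ hm, Measure.map_add _ _ hm, Measure.map_smul,
    Measure.map_smul, Measure.map_smul, Measure.map_dirac' hm, Measure.map_dirac' hm,
    Measure.map_dirac' hm, ← add_smul,
    ← ENNReal.ofReal_add (by linarith) (by linarith [q.2.2])]
  congr 3
  ring

lemma couple_or {p q : unitInterval} (h : p ≤ q) :
    (couple p q).map (fun b => b.1 || b.2) = bernoulliMeasure true false q := by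
  have hm : Measurable (fun b : Bool × Bool => b.1 || b.2) := measurable_of_countable _
  have hpq : (p : ℝ) ≤ q := h
  rw [couple, bernoulli_eq, Measure.map_add _ _ hm, Measure.map_add _ _ hm, Measure.map_smul,
    Measure.map_smul, Measure.map_smul, Measure.map_dirac' hm, Measure.map_dirac' hm,
    Measure.map_dirac' hm, ← add_assoc]
  show ENNReal.ofReal p • Measure.dirac true + ENNReal.ofReal (q - p) • Measure.dirac true +
    ENNReal.ofReal (1 - q) • Measure.dirac false = _
  rw [← add_smul, ← ENNReal.ofReal_add p.2.1 (by linarith)]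
  congr 3
  ring

lemma couple_prob {p q : unitInterval} (h : p ≤ q) : IsProbabilityMeasure (couple p q) := by
  have hpq : (p : ℝ) ≤ q := h
  refine ⟨?_⟩
  have h1 : (couple p q) Set.univ = (couple p q).map Prod.fst Set.univ := by
    rw [Measure.map_apply measurable_fst MeasurableSet.univ, Set.preimage_univ]
  rw [h1, couple_fst h, measure_univ]

lemma twoGraph_mono {ω ω' : Site → Bool} (h : ∀ x, ω x = true → ω' x = true) :
    twoGraph ω ≤ twoGraph ω' := by
  intro x y hxy
  exact ⟨hxy.1, h x hxy.2.1, h y hxy.2.2.1, hxy.2.2.2⟩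

/-- `ψ` is nondecreasing. -/
theorem psi_mono {p q : unitInterval} (h : p ≤ q) : psi p ≤ psi q := by
  have := couple_prob h
  set E : Set (Site → Bool) := {ω | {y | (twoGraph ω).Reachable 0 y}.Infinite} with hE
  have hEm : MeasurableSet E := measurableSet_infinite measurableSet_two_adj 0
  have hm1 : ∀ _ : Site, Measurable (Prod.fst : Bool × Bool → Bool) := fun _ => measurable_fst
  have hm2 : ∀ _ : Site, Measurable (fun b : Bool × Bool => b.1 || b.2) :=
    fun _ => measurable_of_countable _
  have h1 := Measure.infinitePi_map_pi (fun _ : Site => couple p q) (Y := fun _ => Bool)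
    (f := fun _ => Prod.fst) hm1
  have h2 := Measure.infinitePi_map_pi (fun _ : Site => couple p q) (Y := fun _ => Bool)
    (f := fun _ b => b.1 || b.2) hm2
  simp only [couple_fst h] at h1
  simp only [couple_or h] at h2
  have hf1 : Measurable fun (y : Site → Bool × Bool) (i : Site) => (y i).1 :=
    measurable_pi_lambda _ fun i => measurable_fst.comp (measurable_pi_apply i)
  have hf2 : Measurable fun (y : Site → Bool × Bool) (i : Site) => ((y i).1 || (y i).2) :=
    measurable_pi_lambda _ fun i => (hm2 i).comp (measurable_pi_apply i)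
  rw [psi, psi, labels, labels, ← h1, ← h2, Measure.map_apply hf1 hEm, Measure.map_apply hf2 hEm]
  apply measure_mono
  intro y hy
  refine Set.Infinite.mono ?_ hy
  intro z hz
  exact SimpleGraph.Reachable.mono (twoGraph_mono fun x hx => by simp [hx]) hz

/-! ## The zero-one law -/

/-- Some component of `orGraph ω` is infinite. -/
def InfEv : Set (Site → Bool) := ⋃ x, {ω | {y | (orGraph ω).Reachable x y}.Infinite}

lemma measurableSet_InfEv : MeasurableSet InfEv :=
  MeasurableSet.iUnion fun x => measurableSet_infinite measurableSet_or_adj x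

lemma two_reachable_or {ω : Site → Bool} {x y : Site} (h : (twoGraph ω).Reachable x y) :
    (orGraph ω).Reachable x y := by
  rw [SimpleGraph.reachable_iff_reflTransGen] at h
  induction h with
  | refl => exact SimpleGraph.Reachable.refl _
  | @tail a b _ hab ih =>
    refine ih.trans ?_
    obtain ⟨_, ha, hb, h | ⟨z, h1, h2⟩⟩ := hab
    · exact SimpleGraph.Adj.reachable ⟨h, Or.inl ha⟩
    · exact (SimpleGraph.Adj.reachable (G := orGraph ω) ⟨h1, Or.inl ha⟩).trans
        (SimpleGraph.Adj.reachable ⟨h2, Or.inr hb⟩)

lemma psi_le_InfEv (p : unitInterval) : psi p ≤ labels p InfEv := by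
  apply measure_mono
  intro ω hω
  refine Set.mem_iUnion.2 ⟨0, ?_⟩
  exact Set.Infinite.mono (fun y hy => two_reachable_or hy) hω

/-- Changing finitely many labels does not change the existence of an infinite component. -/
lemma InfEv_finite_change {D : Set Site} (hD : D.Finite) {ω ω' : Site → Bool}
    (h : ∀ x ∉ D, ω x = ω' x) (hω : ω ∈ InfEv) : ω' ∈ InfEv := by
  by_contra hcon
  obtain ⟨x, hx⟩ := Set.mem_iUnion.1 hω
  apply hx
  have hfin : ∀ z, {y | (orGraph ω').Reachable z y}.Finite := by
    intro z
    by_contra hz
    exact hcon (Set.mem_iUnion.2 ⟨z, hz⟩)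
  set N : Set Site := {x} ∪ (D ∪ ⋃ i : Fin 6, (fun z => z + d i) '' D) with hN
  have hNfin : N.Finite :=
    (Set.finite_singleton x).union (hD.union (Set.finite_iUnion fun i => hD.image _))
  have hUfin : (⋃ z ∈ N, {y | (orGraph ω').Reachable z y}).Finite :=
    hNfin.biUnion fun z _ => hfin z
  apply hUfin.subset
  intro y hy
  rw [Set.mem_ofPred_eq, SimpleGraph.reachable_iff_reflTransGen] at hy
  induction hy with
  | refl => exact Set.mem_biUnion (Or.inl rfl) (SimpleGraph.Reachable.refl _)
  | @tail a b _ hab ih =>
    by_cases hb : b ∈ N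
    · exact Set.mem_biUnion hb (SimpleGraph.Reachable.refl _)
    have hbD : b ∉ D := fun hb' => hb (Or.inr (Or.inl hb'))
    have haD : a ∉ D := by
      intro ha
      apply hb
      obtain ⟨i, hi⟩ := hab.1
      exact Or.inr (Or.inr (Set.mem_iUnion.2 ⟨i, a, ha, hi.symm⟩))
    have hab' : (orGraph ω').Adj a b := by
      refine ⟨hab.1, ?_⟩
      rw [← h a haD, ← h b hbD]
      exact hab.2
    obtain ⟨z, hz, hza⟩ := Set.mem_iUnion₂.1 ih
    exact Set.mem_biUnion hz (SimpleGraph.Reachable.trans hza hab'.reachable)

/-- Put the label `false` on `D`. -/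
def clear (D : Set Site) [DecidablePred (· ∈ D)] (ω : Site → Bool) : Site → Bool :=
  fun x => if x ∈ D then false else ω x

lemma mem_InfEv_clear {D : Set Site} [DecidablePred (· ∈ D)] (hD : D.Finite) (ω : Site → Bool) :
    clear D ω ∈ InfEv ↔ ω ∈ InfEv := by
  have h : ∀ x ∉ D, clear D ω x = ω x := fun x hx => by simp [clear, hx]
  exact ⟨InfEv_finite_change hD h, InfEv_finite_change hD fun x hx => (h x hx).symm⟩

/-- **Zero-one law** for the existence of an infinite component. -/
theorem InfEv_zero_one (p : unitInterval) : labels p InfEv = 0 ∨ labels p InfEv = 1 := by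
  classical
  set s : Site → MeasurableSpace (Site → Bool) :=
    fun x => MeasurableSpace.comap (fun ω : Site → Bool => ω x) inferInstance with hs
  have hind : iIndep s (labels p) :=
    iIndepFun_infinitePi (P := fun _ : Site => bernoulliMeasure true false p)
      (X := fun _ b => b) fun _ => measurable_id
  refine measure_zero_or_one_of_measurableSet_limsup (f := Filter.cofinite)
    (p := Set.Finite) (ns := fun F : Finset Site => (F : Set Site)) ?_ hind ?_ ?_ ?_ ?_ ?_
  · intro x
    exact (measurable_pi_apply x).comap_le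
  · intro t ht
    exact ht.compl_mem_cofinite
  · intro F F'
    exact ⟨F ∪ F', by simp, by simp⟩
  · intro F
    exact F.finite_toSet
  · intro x
    exact ⟨{x}, by simp⟩
  · rw [Filter.limsup_eq, MeasurableSpace.measurableSet_sInf]
    intro m hm
    rw [Set.mem_ofPred_eq, Filter.eventually_cofinite] at hm
    set D : Set Site := {x | ¬ s x ≤ m} with hD
    have e : InfEv = clear D ⁻¹' InfEv := by
      ext ω
      exact (mem_InfEv_clear hm ω).symm
    have hmeas : @Measurable (Site → Bool) (Site → Bool) m MeasurableSpace.pi (clear D) := by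
      refine @measurable_pi_lambda (Site → Bool) Site (fun _ => Bool) m (fun _ => inferInstance)
        (clear D) ?_
      intro x
      by_cases hx : x ∈ D
      · have : (fun ω => clear D ω x) = fun _ => false := by funext ω; simp [clear, hx]
        rw [this]
        exact @measurable_const _ _ _ m _
      · have : (fun ω => clear D ω x) = fun ω => ω x := by funext ω; simp [clear, hx]
        rw [this]
        have hx' : s x ≤ m := by
          by_contra h
          exact hx h
        exact measurable_iff_comap_le.2 hx'
    rw [e]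
    exact hmeas measurableSet_InfEv

theorem box_infinite_tendsto (p : unitInterval) (h : 0 < psi p) :
    Filter.Tendsto (fun n : ℕ => labels p (⋃ x ∈ box n, {ω | {y | (orGraph ω).Reachable x y}.Infinite}))
      Filter.atTop (nhds 1) := by
  have h1 : labels p InfEv = 1 := by
    rcases InfEv_zero_one p with h0 | h1
    · exact absurd (h.trans_le (psi_le_InfEv p)) (by rw [h0]; simp)
    · exact h1
  have hmono : Monotone fun n : ℕ =>
      (⋃ x ∈ box n, {ω : Site → Bool | {y | (orGraph ω).Reachable x y}.Infinite}) := by
    intro n m hnm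
    apply Set.biUnion_subset_biUnion_left
    intro x hx
    rw [mem_box] at hx ⊢
    have : (n : ℤ) ≤ m := by exact_mod_cast hnm
    omega
  have hU : (⋃ n : ℕ, ⋃ x ∈ box n, {ω : Site → Bool | {y | (orGraph ω).Reachable x y}.Infinite}) =
      InfEv := by
    apply Set.Subset.antisymm
    · intro ω hω
      obtain ⟨n, hn⟩ := Set.mem_iUnion.1 hω
      obtain ⟨x, _, hx⟩ := Set.mem_iUnion₂.1 hn
      exact Set.mem_iUnion.2 ⟨x, hx⟩
    · intro ω hω
      obtain ⟨x, hx⟩ := Set.mem_iUnion.1 hω
      refine Set.mem_iUnion.2 ⟨x.1.natAbs + x.2.natAbs, Set.mem_iUnion₂.2 ⟨x, ?_, hx⟩⟩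
      rw [mem_box]
      omega
  have := tendsto_measure_iUnion_atTop (μ := labels p) hmono
  rwa [hU, h1] at this

end MP_c38eaf_pr
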