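import Pool.Agent.Lib.MP_c38eaf_pr.Defs3
import Pool.Agent.Lib.MP_c38eaf_pr.ZeroOne

/-!
# Arm events and the probability of a link
-/

open MeasureTheory ProbabilityTheory

namespace MP_c38eaf_pr

variable {p : unitInterval}

lemma pr_nonneg (E : Set (Site → Bool)) : 0 ≤ pr p E := measureReal_nonneg

lemma pr_le_one (E : Set (Site → Bool)) : pr p E ≤ 1 := measureReal_le_one

lemma pr_mono {E F : Set (Site → Bool)} (h : E ⊆ F) : pr p E ≤ pr p F := measureReal_mono h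

lemma pr_comp (e : Site ≃ Site) (E : Set (Site → Bool)) :
    pr p {ω | (fun x => ω (e x)) ∈ E} = pr p E := by
  rw [pr, pr, Measure.real, Measure.real, labels_comp_equiv]

lemma orIn_congr {ω ω' : Site → Bool} {D : Set Site} (h : ∀ x ∈ D, ω x = ω' x) :
    orIn ω D = orIn ω' D := by
  ext x y
  constructor
  · rintro ⟨⟨h1, h2⟩, h3, h4⟩
    exact ⟨⟨h1, by rwa [← h x h3, ← h y h4]⟩, h3, h4⟩
  · rintro ⟨⟨h1, h2⟩, h3, h4⟩
    exact ⟨⟨h1, by rwa [h x h3, h y h4]⟩, h3, h4⟩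

lemma loc_conn (D X Y : Set Site) : Loc D {ω | Conn ω D X Y} := by
  intro ω ω' h
  rw [Set.mem_ofPred_eq, Set.mem_ofPred_eq, Conn, Conn, orIn_congr h]

lemma true_of_le {ω ω' : Site → Bool} (h : ω ≤ ω') (x : Site) (hx : ω x = true) :
    ω' x = true := by
  have := h x
  rw [hx] at this
  exact Bool.eq_true_of_true_le this

lemma upper_conn (D X Y : Set Site) : IsUpperSet {ω | Conn ω D X Y} := by
  rintro ω ω' h ⟨x, hx, y, hy, h1⟩
  exact ⟨x, hx, y, hy, h1.mono (orIn_mono (true_of_le h) subset_rfl)⟩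

lemma conn_mono {ω : Site → Bool} {D X Y Y' : Set Site} (h : Y ∩ D ⊆ Y')
    (h1 : Conn ω D X Y) : Conn ω D X Y' := by
  obtain ⟨x, hx, y, hy, h1⟩ := h1
  exact ⟨x, hx, y, ⟨h hy, hy.2⟩, h1⟩

lemma pr_conn_sy {e : Equiv.Perm Site} (he : Sy e) (D X Y : Set Site) :
    pr p {ω | Conn ω (e '' D) (e '' X) (e '' Y)} = pr p {ω | Conn ω D X Y} := by
  rw [← pr_comp e {ω | Conn ω D X Y}]
  congr 1
  ext ω
  exact (conn_comp he ω D X Y).symm

lemma pr_conn_fix {e : Equiv.Perm Site} (he : Sy e) (h0 : e 0 = 0) (N n : ℕ) (Y : Set Site) :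
    pr p {ω | Conn ω (hex 0 N) (hex 0 n) (e '' Y)} =
      pr p {ω | Conn ω (hex 0 N) (hex 0 n) Y} := by
  have := pr_conn_sy (p := p) he (hex 0 N) (hex 0 n) Y
  rwa [he.image_hex, he.image_hex, h0] at this

/-! ### Square-root trick -/

lemma two_union {D : Set Site} (hD : D.Finite) {E F : Set (Site → Bool)} (hE : Loc D E)
    (hF : Loc D F) (uE : IsUpperSet E) (uF : IsUpperSet F) :
    (1 - pr p E) * (1 - pr p F) ≤ 1 - pr p (E ∪ F) := by
  have h1 : pr p (E ∪ F) + pr p (E ∩ F) = pr p E + pr p F :=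
    measureReal_union_add_inter (hF.measurableSet hD)
  have h2 : pr p E * pr p F ≤ pr p (E ∩ F) := by
    have := fkg_local p hD hE hF uE uF
    have h3 := ENNReal.toReal_mono (measure_ne_top _ _) this
    rwa [ENNReal.toReal_mul] at h3
  nlinarith

lemma loc_union {D : Set Site} {E F : Set (Site → Bool)} (hE : Loc D E) (hF : Loc D F) :
    Loc D (E ∪ F) := fun ω ω' h => or_congr (hE ω ω' h) (hF ω ω' h)

lemma prod_union {D : Set Site} (hD : D.Finite) {ι : Type*} (s : Finset ι)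
    (E : ι → Set (Site → Bool)) (hE : ∀ i, Loc D (E i)) (uE : ∀ i, IsUpperSet (E i)) :
    Loc D (⋃ i ∈ s, E i) ∧ IsUpperSet (⋃ i ∈ s, E i) ∧
      ∏ i ∈ s, (1 - pr p (E i)) ≤ 1 - pr p (⋃ i ∈ s, E i) := by
  classical
  induction s using Finset.induction_on with
  | empty =>
    refine ⟨fun _ _ _ => by simp, by simp [isUpperSet_empty], by simp [pr]⟩
  | insert a s ha ih =>
    obtain ⟨h1, h2, h3⟩ := ih
    rw [Finset.set_biUnion_insert, Finset.prod_insert ha]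
    refine ⟨loc_union (hE a) h1, (uE a).union h2, ?_⟩
    calc (1 - pr p (E a)) * ∏ i ∈ s, (1 - pr p (E i))
        ≤ (1 - pr p (E a)) * (1 - pr p (⋃ i ∈ s, E i)) :=
          mul_le_mul_of_nonneg_left h3 (by linarith [pr_le_one (p := p) (E a)])
      _ ≤ _ := two_union hD (hE a) h1 (uE a) h2

/-! ### Reaching the boundary of a large hexagon -/

/-- The boundary of the hexagon. -/
def bd (N : ℕ) : Set Site := {z | z.1 + z.2 = N ∨ z.2 = N ∨ -z.1 = N ∨ -(z.1 + z.2) = N ∨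
  -z.2 = N ∨ z.1 = N}

lemma exit_hex {ω : Site → Bool} {N : ℕ} {x y : Site} (q : (orGraph ω).Walk x y)
    (hx : x ∈ hex 0 N) (hy : y ∉ hex 0 N) :
    ∃ z ∈ bd N ∩ hex 0 N, (orIn ω (hex 0 N)).Reachable x z := by
  induction q with
  | nil => exact absurd hx hy
  | @cons x x' y hxx' q ih =>
    by_cases hb : x ∈ bd N
    · exact ⟨x, ⟨hb, hx⟩, SimpleGraph.Reachable.refl _⟩
    · have hx' : x' ∈ hex 0 N := by
        obtain ⟨⟨i, rfl⟩, _⟩ := hxx'
        rw [bd, Set.mem_ofPred_eq] at hb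
        rw [mem_hex] at hx ⊢
        simp only [Prod.fst_zero, Prod.snd_zero, Prod.fst_add, Prod.snd_add] at hx ⊢
        rcases d_list i with h | h | h | h | h | h <;> omega
      obtain ⟨z, hz, h1⟩ := ih hx' hy
      have hadj : (orIn ω (hex 0 N)).Adj x x' := ⟨hxx', hx, hx'⟩
      exact ⟨z, hz, hadj.reachable.trans h1⟩

lemma arms_boundary (hp : 0 < psi p) (ε : ℝ) (hε : 0 < ε) :
    ∃ n₀ : ℕ, ∀ n, n₀ ≤ n → ∀ N, n ≤ N →
      1 - pr p {ω | Conn ω (hex 0 N) (hex 0 n) (bd N)} ≤ ε := by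
  have h1 := (ENNReal.tendsto_toReal ENNReal.one_ne_top).comp (box_infinite_tendsto p hp)
  rw [ENNReal.toReal_one] at h1
  have h2 := h1.eventually (lt_mem_nhds (show 1 - ε < 1 by linarith))
  obtain ⟨m, hm⟩ := h2.exists
  refine ⟨2 * m, fun n hn N hN => ?_⟩
  have hsub : (⋃ x ∈ box m, {ω | {y | (orGraph ω).Reachable x y}.Infinite}) ⊆
      {ω | Conn ω (hex 0 N) (hex 0 n) (bd N)} := by
    intro ω hω
    rw [Set.mem_iUnion₂] at hω
    obtain ⟨x, hx, hinf⟩ := hω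
    have hxn : x ∈ hex 0 n := by
      rw [mem_box] at hx
      rw [mem_hex]
      simp only [Prod.fst_zero, Prod.snd_zero]
      omega
    have hxN := hex_mono hN hxn
    obtain ⟨y, hy, hyN⟩ := hinf.exists_notMem_finite (hex_finite 0 N)
    obtain ⟨q⟩ := hy
    obtain ⟨z, hz, h3⟩ := exit_hex (ω := ω) q hxN hyN
    have h4 : Conn ω (hex 0 N) (hex 0 n) (bd N) := ⟨x, ⟨hxn, hxN⟩, z, hz, h3⟩
    exact h4
  have h4 : 1 - ε < pr p (⋃ x ∈ box m, {ω | {y | (orGraph ω).Reachable x y}.Infinite}) := hm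
  have h5 := h4.trans_le (pr_mono hsub)
  linarith

/-! ### Sides and half-sides -/

lemma rho_pow_zero (k : ℕ) : (rho ^ k) 0 = 0 := by
  induction k with
  | zero => rfl
  | succ k ih => rw [pow_succ, Equiv.Perm.mul_apply]; exact ih

lemma bd_subset (N : ℕ) : bd N ⊆ ⋃ k ∈ Finset.range 6, (rho ^ k) '' {z : Site | z.1 + z.2 = N} := by
  intro z hz
  have key : ∀ (k : ℕ) (hk : k < 6) (w : Site), (rho ^ k) w = z → w.1 + w.2 = N →
      z ∈ ⋃ k ∈ Finset.range 6, (rho ^ k) '' {z : Site | z.1 + z.2 = N} := by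
    intro k hk w h1 h2
    rw [Set.mem_iUnion₂]
    exact ⟨k, Finset.mem_range.2 hk, w, h2, h1⟩
  obtain ⟨x, y⟩ := z
  simp only [bd, Set.mem_ofPred_eq] at hz
  rcases hz with h | h | h | h | h | h
  · exact key 0 (by norm_num) (x, y) rfl h
  · exact key 1 (by norm_num) (x + y, -x) (by
      simp [rho_apply]) (by simp only; omega)
  · exact key 2 (by norm_num) (y, -x - y) (by
      simp [pow_succ, rho_apply]) (by simp only; omega)
  · exact key 3 (by norm_num) (-x, -y) (by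
      simp [pow_succ, rho_apply]) (by simp only; omega)
  · exact key 4 (by norm_num) (-x - y, x) (by
      simp [pow_succ, rho_apply]) (by simp only; omega)
  · exact key 5 (by norm_num) (-y, x + y) (by
      simp [pow_succ, rho_apply]) (by simp only; omega)

/-- The event of reaching `Y` from the hub. -/
def Arm (n N : ℕ) (Y : Set Site) : Set (Site → Bool) := {ω | Conn ω (hex 0 N) (hex 0 n) Y}

lemma arm_loc (n N : ℕ) (Y : Set Site) : Loc (hex 0 N) (Arm n N Y) := loc_conn _ _ _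

lemma arm_upper (n N : ℕ) (Y : Set Site) : IsUpperSet (Arm n N Y) := upper_conn _ _ _

lemma arm_iUnion {n N : ℕ} {Y : Set Site} {ι : Type*} {s : Finset ι} {Z : ι → Set Site}
    (h : Y ∩ hex 0 N ⊆ ⋃ i ∈ s, Z i) : Arm n N Y ⊆ ⋃ i ∈ s, Arm n N (Z i) := by
  rintro ω ⟨x, hx, y, hy, h1⟩
  have := h hy
  rw [Set.mem_iUnion₂] at this ⊢
  obtain ⟨i, hi, hyi⟩ := this
  exact ⟨i, hi, x, hx, y, ⟨hyi, hy.2⟩, h1⟩

lemma arm_union {n N : ℕ} {Y Z Z' : Set Site} (h : Y ∩ hex 0 N ⊆ Z ∪ Z') :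
    Arm n N Y ⊆ Arm n N Z ∪ Arm n N Z' := by
  rintro ω ⟨x, hx, y, hy, h1⟩
  rcases h hy with h2 | h2
  · exact Or.inl ⟨x, hx, y, ⟨h2, hy.2⟩, h1⟩
  · exact Or.inr ⟨x, hx, y, ⟨h2, hy.2⟩, h1⟩

lemma arm_mono {n N : ℕ} {Y Z : Set Site} (h : Y ∩ hex 0 N ⊆ Z) : Arm n N Y ⊆ Arm n N Z :=
  fun _ hω => conn_mono h hω

lemma side_bound (n N : ℕ) :
    (1 - pr p (Arm n N {z | z.1 + z.2 = N})) ^ 6 ≤ 1 - pr p (Arm n N (bd N)) := by
  have h1 := (prod_union (p := p) (hex_finite 0 N) (Finset.range 6)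
    (fun k => Arm n N ((rho ^ k) '' {z : Site | z.1 + z.2 = N})) (fun k => arm_loc _ _ _)
    (fun k => arm_upper _ _ _)).2.2
  have h2 : ∏ k ∈ Finset.range 6, (1 - pr p (Arm n N ((rho ^ k) '' {z : Site | z.1 + z.2 = N}))) =
      (1 - pr p (Arm n N {z | z.1 + z.2 = N})) ^ 6 := by
    rw [Finset.prod_congr rfl (fun k _ => by
      rw [Arm, pr_conn_fix (sy_rho.pow k) (rho_pow_zero k)]), Finset.prod_const, Finset.card_range]
    rfl
  rw [h2] at h1
  have h3 : pr p (Arm n N (bd N)) ≤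
      pr p (⋃ k ∈ Finset.range 6, Arm n N ((rho ^ k) '' {z : Site | z.1 + z.2 = N})) :=
    pr_mono (arm_iUnion (Set.inter_subset_left.trans (bd_subset N)))
  linarith

lemma tau_image (N : ℤ) (a b : ℤ) :
    tau '' {z : Site | z.1 + z.2 = N ∧ a ≤ z.2 - z.1 ∧ z.2 - z.1 ≤ b} =
      {z | z.1 + z.2 = N ∧ -b ≤ z.2 - z.1 ∧ z.2 - z.1 ≤ -a} := by
  ext z
  constructor
  · rintro ⟨y, ⟨h1, h2, h3⟩, rfl⟩
    rw [tau_apply, Set.mem_ofPred_eq]
    simp only
    omega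
  · rintro ⟨h1, h2, h3⟩
    exact ⟨tau z, ⟨by simp only [tau_apply]; omega, by simp only [tau_apply]; omega,
      by simp only [tau_apply]; omega⟩, rfl⟩

/-- Half-side. -/
lemma half_bound (n N : ℕ) :
    (1 - pr p (Arm n N {z | z.1 + z.2 = N ∧ 0 ≤ z.2 - z.1 ∧ z.2 - z.1 ≤ N})) ^ 2 ≤
      1 - pr p (Arm n N {z | z.1 + z.2 = N}) := by
  have h1 := two_union (p := p) (hex_finite 0 N)
    (arm_loc n N {z | z.1 + z.2 = N ∧ 0 ≤ z.2 - z.1 ∧ z.2 - z.1 ≤ N})
    (arm_loc n N (tau '' {z | z.1 + z.2 = N ∧ 0 ≤ z.2 - z.1 ∧ z.2 - z.1 ≤ N}))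
    (arm_upper _ _ _) (arm_upper _ _ _)
  have h2 : pr p (Arm n N (tau '' {z | z.1 + z.2 = N ∧ 0 ≤ z.2 - z.1 ∧ z.2 - z.1 ≤ N})) =
      pr p (Arm n N {z | z.1 + z.2 = N ∧ 0 ≤ z.2 - z.1 ∧ z.2 - z.1 ≤ N}) :=
    pr_conn_fix sy_tau rfl _ _ _
  rw [h2, ← pow_two] at h1
  have h3 : pr p (Arm n N {z | z.1 + z.2 = N}) ≤ _ := pr_mono (arm_union (Z := {z | z.1 + z.2 = N ∧
      0 ≤ z.2 - z.1 ∧ z.2 - z.1 ≤ N}) (Z' := tau '' {z | z.1 + z.2 = N ∧ 0 ≤ z.2 - z.1 ∧
      z.2 - z.1 ≤ N}) (by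
    rintro z ⟨hz, hz'⟩
    rw [mem_hex] at hz'
    simp only [Prod.fst_zero, Prod.snd_zero] at hz'
    rw [Set.mem_ofPred_eq] at hz
    rw [tau_image]
    rcases le_total 0 (z.2 - z.1) with h | h
    · left; exact ⟨hz, h, by omega⟩
    · right; exact ⟨hz, by omega, by omega⟩))
  linarith

/-- **Arms.** For a large hub and every scale there is a height `α` such that the hub is connected
with high probability to each of the relevant parts of the boundary. -/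
theorem arms (hp : 0 < psi p) (δ : ℝ) (hδ : 0 < δ) : ∃ n₀ : ℕ, ∀ n, n₀ ≤ n → ∀ N, n ≤ N →
    ∃ α : ℕ, α ≤ N ∧
      1 - pr p (Arm n N {z | z.1 + z.2 = N ∧ 0 ≤ z.2 - z.1 ∧ z.2 - z.1 ≤ α}) ≤ δ ∧
      1 - pr p (Arm n N {z | z.1 + z.2 = N ∧ α ≤ z.2 - z.1}) ≤ δ ∧
      1 - pr p (Arm n N {z | z.1 + z.2 = N ∧ z.2 - z.1 ≤ -α}) ≤ δ ∧
      1 - pr p (Arm n N {z | z.1 + z.2 = -N}) ≤ δ := by
  set e : ℝ := min δ 1 with he
  have he0 : 0 < e := lt_min hδ one_pos
  have he1 : e ≤ 1 := min_le_right _ _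
  have heδ : e ≤ δ := min_le_left _ _
  obtain ⟨n₀, hn₀⟩ := arms_boundary hp ((e ^ 2) ^ 12) (by positivity)
  refine ⟨n₀, fun n hn N hN => ?_⟩
  have h1 := hn₀ n hn N hN
  change 1 - pr p (Arm n N (bd N)) ≤ _ at h1
  set b0 := pr p (Arm n N {z | z.1 + z.2 = N}) with hb0
  set f : ℕ → ℝ := fun α => pr p (Arm n N {z | z.1 + z.2 = N ∧ 0 ≤ z.2 - z.1 ∧ z.2 - z.1 ≤ α})
    with hf
  have h2 : (1 - b0) ^ 6 ≤ (e ^ 2) ^ 12 := (side_bound n N).trans h1
  have h3 : (1 - f N) ^ 2 ≤ 1 - b0 := half_bound n N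
  have hfN : 1 - f N ≤ e ^ 2 := by
    have h4 : (1 - f N) ^ 12 ≤ (e ^ 2) ^ 12 := by
      calc (1 - f N) ^ 12 = ((1 - f N) ^ 2) ^ 6 := by ring
        _ ≤ (1 - b0) ^ 6 := pow_le_pow_left₀ (by positivity) h3 6
        _ ≤ _ := h2
    exact le_of_pow_le_pow_left₀ (by norm_num) (by positivity) h4
  have hb0' : 1 - b0 ≤ e ^ 2 := by
    have h5 : f N ≤ b0 := pr_mono (arm_mono (by
      rintro z ⟨⟨hz, _⟩, _⟩; exact hz))
    linarith
  have he2 : e ^ 2 ≤ e := by nlinarith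
  have hex : ∃ α : ℕ, 1 - f α ≤ e := ⟨N, by linarith⟩
  classical
  set α := Nat.find hex with hα
  have hα1 : 1 - f α ≤ e := Nat.find_spec hex
  have hα2 : α ≤ N := Nat.find_min' hex (by linarith)
  have hB : 1 - pr p (Arm n N {z | z.1 + z.2 = N ∧ (α : ℤ) ≤ z.2 - z.1}) ≤ e := by
    rcases Nat.eq_zero_or_pos α with h0 | h0
    · have h6 : f N ≤ pr p (Arm n N {z | z.1 + z.2 = N ∧ (α : ℤ) ≤ z.2 - z.1}) :=
        pr_mono (arm_mono (by
          rintro z ⟨⟨hz, hz1, _⟩, _⟩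
          exact ⟨hz, by rw [h0]; simpa using hz1⟩))
      linarith
    · have h7 : ¬ (1 - f (α - 1) ≤ e) := Nat.find_min hex (by omega)
      push Not at h7
      have h8 := two_union (p := p) (hex_finite 0 N)
        (arm_loc n N {z | z.1 + z.2 = N ∧ 0 ≤ z.2 - z.1 ∧ z.2 - z.1 ≤ ((α - 1 : ℕ) : ℤ)})
        (arm_loc n N {z | z.1 + z.2 = N ∧ (α : ℤ) ≤ z.2 - z.1}) (arm_upper _ _ _)
        (arm_upper _ _ _)
      have h9 : f N ≤ pr p (Arm n N {z | z.1 + z.2 = N ∧ 0 ≤ z.2 - z.1 ∧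
          z.2 - z.1 ≤ ((α - 1 : ℕ) : ℤ)} ∪ Arm n N {z | z.1 + z.2 = N ∧ (α : ℤ) ≤ z.2 - z.1}) :=
        pr_mono (arm_union (by
          rintro z ⟨⟨hz, hz1, _⟩, _⟩
          rcases le_or_gt (α : ℤ) (z.2 - z.1) with h | h
          · exact Or.inr ⟨hz, h⟩
          · exact Or.inl ⟨hz, hz1, by omega⟩))
      set g := pr p (Arm n N {z | z.1 + z.2 = N ∧ (α : ℤ) ≤ z.2 - z.1})
      change (1 - f (α - 1)) * (1 - g) ≤ _ at h8
      have h10 : (1 - f (α - 1)) * (1 - g) ≤ e * e := by nlinarith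
      by_contra hcon
      push Not at hcon
      nlinarith
  refine ⟨α, hα2, hα1.trans heδ, hB.trans heδ, ?_, ?_⟩
  · have h11 : tau '' {z : Site | z.1 + z.2 = N ∧ (α : ℤ) ≤ z.2 - z.1} =
        {z : Site | z.1 + z.2 = N ∧ z.2 - z.1 ≤ -(α : ℤ)} := by
      ext z
      constructor
      · rintro ⟨y, ⟨h1, h2⟩, rfl⟩
        rw [tau_apply, Set.mem_ofPred_eq]
        simp only
        omega
      · rintro ⟨h1, h2⟩
        exact ⟨tau z, ⟨by simp only [tau_apply]; omega, by simp only [tau_apply]; omega⟩, rfl⟩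
    rw [← h11, Arm, pr_conn_fix sy_tau rfl]
    exact hB.trans heδ
  · have h12 : (rho ^ 3 : Equiv.Perm Site) '' {z : Site | z.1 + z.2 = N} =
        {z : Site | z.1 + z.2 = -(N : ℤ)} := by
      have h13 : ∀ z : Site, (rho ^ 3) z = -z := by
        intro z
        simp only [pow_succ, pow_zero, one_mul, Equiv.Perm.mul_apply, rho_apply]
        ext <;> simp
      ext z
      constructor
      · rintro ⟨y, h1, rfl⟩
        rw [h13, Set.mem_ofPred_eq]
        rw [Set.mem_ofPred_eq] at h1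
        simp only [Prod.fst_neg, Prod.snd_neg]
        omega
      · intro h1
        rw [Set.mem_ofPred_eq] at h1
        refine ⟨-z, ?_, by rw [h13, neg_neg]⟩
        rw [Set.mem_ofPred_eq, Prod.fst_neg, Prod.snd_neg]
        omega
    rw [← h12, Arm, pr_conn_fix (sy_rho.pow 3) (rho_pow_zero 3)]
    exact (hb0'.trans he2).trans heδ

/-! ### Good scales -/

/-- Among all large scales `M`, with `h = 2 (M / 4)`, there is one for which the segment reached at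
scale `M + h` fits, after a vertical shift, into the gap at scale `M`. -/
theorem good_scale (n : ℕ) (α : ℕ → ℕ) (hα : ∀ N, n ≤ N → α N ≤ N) (H : ℕ) :
    ∃ M, H ≤ M ∧ ∃ w : ℤ, 0 ≤ w ∧ w ≤ α M ∧ (α (M + 2 * (M / 4)) : ℤ) - w ≤ α M ∧ w % 2 = 0 := by
  by_contra hcon
  push Not at hcon
  set M₀ := max (max H n) 1 with hM₀
  -- all scales are bad
  have hbad : ∀ M, M₀ ≤ M → 1 ≤ α (M + 2 * (M / 4)) ∧ 2 * α M ≤ α (M + 2 * (M / 4)) := by
    intro M hM
    have hHM : H ≤ M := ((le_max_left _ _).trans (le_max_left _ _)).trans hM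
    have h1 := hcon M hHM
    by_contra h2
    rw [not_and_or] at h2
    push Not at h2
    set A := α (M + 2 * (M / 4)) with hA
    rcases Nat.lt_or_ge A 1 with h3 | h3
    · have h4 : A = 0 := by omega
      have := h1 0 le_rfl (by positivity) (by rw [h4]; simp)
      exact this rfl
    · have h4 : A < 2 * α M := by
        rcases h2 with h2 | h2
        · omega
        · exact h2
      -- choose the even number among `A / 2`, `A / 2 + 1`
      rcases Nat.even_or_odd (A / 2) with h5 | h5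
      · obtain ⟨r, hr⟩ := h5
        have := h1 ((A / 2 : ℕ) : ℤ) (by positivity) (by omega) (by omega)
        omega
      · obtain ⟨r, hr⟩ := h5
        have := h1 ((A / 2 + 1 : ℕ) : ℤ) (by positivity) (by omega) (by omega)
        omega
  let seq : ℕ → ℕ := fun k => Nat.rec M₀ (fun _ m => m + 2 * (m / 4)) k
  have hseq0 : seq 0 = M₀ := rfl
  have hseq : ∀ k, seq (k + 1) = seq k + 2 * (seq k / 4) := fun k => rfl
  have hge : ∀ k, M₀ ≤ seq k := by
    intro k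
    induction k with
    | zero => exact le_rfl
    | succ k ih => rw [hseq]; omega
  have hup : ∀ k, 2 ^ k * seq k ≤ 3 ^ k * M₀ := by
    intro k
    induction k with
    | zero => simp [hseq0]
    | succ k ih =>
      rw [hseq]
      have h1 : 2 * (seq k + 2 * (seq k / 4)) ≤ 3 * seq k := by omega
      calc 2 ^ (k + 1) * (seq k + 2 * (seq k / 4)) = 2 ^ k * (2 * (seq k + 2 * (seq k / 4))) := by
            ring
        _ ≤ 2 ^ k * (3 * seq k) := Nat.mul_le_mul_left _ h1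
        _ = 3 * (2 ^ k * seq k) := by ring
        _ ≤ 3 * (3 ^ k * M₀) := Nat.mul_le_mul_left _ ih
        _ = 3 ^ (k + 1) * M₀ := by ring
  have hlow : ∀ k, 2 ^ k ≤ α (seq (k + 1)) := by
    intro k
    induction k with
    | zero => rw [hseq]; simpa using (hbad (seq 0) (hge 0)).1
    | succ k ih =>
      rw [hseq (k + 1)]
      have := (hbad (seq (k + 1)) (hge (k + 1))).2
      calc 2 ^ (k + 1) = 2 * 2 ^ k := by ring
        _ ≤ 2 * α (seq (k + 1)) := Nat.mul_le_mul_left _ ih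
        _ ≤ _ := this
  have hnM : n ≤ M₀ := (le_max_right _ _).trans (le_max_left _ _)
  have hfin : ∀ k, 4 ^ k ≤ 3 ^ k * (3 * M₀) := by
    intro k
    have h1 := hlow k
    have h2 := hα (seq (k + 1)) (hnM.trans (hge (k + 1)))
    have h3 := hup (k + 1)
    calc 4 ^ k = 2 ^ k * 2 ^ k := by rw [← mul_pow]; norm_num
      _ ≤ 2 ^ (k + 1) * 2 ^ k := by
          apply Nat.mul_le_mul_right
          exact Nat.pow_le_pow_right (by norm_num) (by omega)
      _ ≤ 2 ^ (k + 1) * seq (k + 1) := Nat.mul_le_mul_left _ (h1.trans h2)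
      _ ≤ 3 ^ (k + 1) * M₀ := h3
      _ = 3 ^ k * (3 * M₀) := by ring
  -- contradiction: (4/3)^k is unbounded
  have h4 : Filter.Tendsto (fun k : ℕ => ((4 : ℝ) / 3) ^ k) Filter.atTop Filter.atTop :=
    tendsto_pow_atTop_atTop_of_one_lt (by norm_num)
  obtain ⟨k, hk⟩ := (h4.eventually (Filter.eventually_gt_atTop ((3 * M₀ : ℕ) : ℝ))).exists
  have h5 : ((4 : ℝ)) ^ k ≤ 3 ^ k * ((3 * M₀ : ℕ) : ℝ) := by exact_mod_cast hfin k
  rw [div_pow, lt_div_iff₀ (by positivity)] at hk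
  linarith

/-- Links of arbitrarily large scale have probability close to one. -/
theorem link_prob (p : unitInterval) (hp : 0 < psi p) (δ : ℝ) (hδ : 0 < δ) :
    ∃ n : ℕ, ∀ H : ℕ, ∃ (h M : ℕ) (c : Site), H ≤ h ∧ n ≤ M ∧ M ≤ 3 * h ∧ c.1 + c.2 = h ∧
      0 ≤ c.2 - c.1 ∧ c.2 - c.1 ≤ M ∧
      1 - pr p {ω | Linked ω n (hex 0 (M + h) ∪ hex c M) 0 c} ≤ δ := by
  classical
  obtain ⟨n, hn⟩ := arms hp (δ / 4) (by positivity)
  have hn' := hn n le_rfl
  choose! α hα using hn'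
  refine ⟨n, fun H => ?_⟩
  obtain ⟨M, hM, w, hw0, hwα, hw1, hw2⟩ := good_scale n α (fun N hN => (hα N hN).1)
    (max n (4 * H + 20))
  have hnM : n ≤ M := (le_max_left _ _).trans hM
  have hHM : 4 * H + 20 ≤ M := (le_max_right _ _).trans hM
  set h := 2 * (M / 4) with hh
  obtain ⟨a1, a2, a3, a4, a5⟩ := hα M hnM
  obtain ⟨b1, b2, b3, b4, b5⟩ := hα (M + h) (by omega)
  let c : Site := ((h - w) / 2, (h + w) / 2)
  have hc : c.1 + c.2 = h := by
    show ((h : ℤ) - w) / 2 + (h + w) / 2 = h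
    omega
  have hcw : c.2 - c.1 = w := by
    show ((h : ℤ) + w) / 2 - (h - w) / 2 = w
    omega
  refine ⟨h, M, c, by omega, hnM, by omega, hc, by omega, by omega, ?_⟩
  -- the four events
  set E1 := Arm n (M + h) {z : Site | z.1 + z.2 = ((M + h : ℕ) : ℤ) ∧ 0 ≤ z.2 - z.1 ∧
    z.2 - z.1 ≤ (α (M + h) : ℤ)} with hE1
  set E2 := Arm n (M + h) {z : Site | z.1 + z.2 = -((M + h : ℕ) : ℤ)} with hE2
  set E3 : Set (Site → Bool) := {ω | Conn ω (trans c '' hex 0 M) (trans c '' hex 0 n)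
    (trans c '' {z : Site | z.1 + z.2 = (M : ℤ) ∧ (α M : ℤ) ≤ z.2 - z.1})} with hE3
  set E4 : Set (Site → Bool) := {ω | Conn ω (trans c '' hex 0 M) (trans c '' hex 0 n)
    (trans c '' {z : Site | z.1 + z.2 = (M : ℤ) ∧ z.2 - z.1 ≤ -(α M : ℤ)})} with hE4
  have p3 : 1 - pr p E3 ≤ δ / 4 := by
    rw [hE3, pr_conn_sy (sy_trans c)]; exact a3
  have p4 : 1 - pr p E4 ≤ δ / 4 := by
    rw [hE4, pr_conn_sy (sy_trans c)]; exact a4
  have htc : ∀ k : ℕ, trans c '' hex 0 k = hex c k := by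
    intro k
    rw [(sy_trans c).image_hex, trans_apply, zero_add]
  rw [htc, htc] at hE3 hE4
  have hsub : E1 ∩ E2 ∩ E3 ∩ E4 ⊆ {ω | Linked ω n (hex 0 (M + h) ∪ hex c M) 0 c} := by
    rintro ω ⟨⟨⟨h1, h2⟩, h3⟩, h4⟩
    rw [hE3, Set.mem_ofPred_eq] at h3
    rw [hE4, Set.mem_ofPred_eq] at h4
    refine hub_link (h := h) (α := α (M + h)) (β := α M) rfl (by omega) hnM hc h1 h2
      (conn_mono ?_ h3) (conn_mono ?_ h4) (by rw [hcw]; exact hw1) (by rw [hcw]; exact hwα)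
    · rintro _ ⟨⟨z, ⟨hz1, hz2⟩, rfl⟩, _⟩
      rw [trans_apply, Set.mem_ofPred_eq, Prod.fst_add, Prod.snd_add]
      omega
    · rintro _ ⟨⟨z, ⟨hz1, hz2⟩, rfl⟩, _⟩
      rw [trans_apply, Set.mem_ofPred_eq, Prod.fst_add, Prod.snd_add]
      omega
  have hloc : ∀ D : Set Site, ∀ X Y : Set Site, D.Finite →
      MeasurableSet {ω : Site → Bool | Conn ω D X Y} :=
    fun D X Y hD => (loc_conn D X Y).measurableSet hD
  have m1 : MeasurableSet E1 := hloc _ _ _ (hex_finite _ _)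
  have m2 : MeasurableSet E2 := hloc _ _ _ (hex_finite _ _)
  have m3 : MeasurableSet E3 := by rw [hE3]; exact hloc _ _ _ (hex_finite _ _)
  have m4 : MeasurableSet E4 := by rw [hE4]; exact hloc _ _ _ (hex_finite _ _)
  have hint : ∀ E F : Set (Site → Bool), MeasurableSet F →
      1 - pr p (E ∩ F) ≤ (1 - pr p E) + (1 - pr p F) := by
    intro E F hF
    have h1 : pr p (E ∪ F) + pr p (E ∩ F) = pr p E + pr p F := measureReal_union_add_inter hF
    have h2 := pr_le_one (p := p) (E ∪ F)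
    linarith
  have q1 := hint E1 E2 m2
  have q2 := hint (E1 ∩ E2) E3 m3
  have q3 := hint (E1 ∩ E2 ∩ E3) E4 m4
  have q4 := pr_mono (p := p) hsub
  have q5 : 1 - pr p E1 ≤ δ / 4 := b2
  have q6 : 1 - pr p E2 ≤ δ / 4 := b5
  linarith

end MP_c38eaf_pr
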