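import Pool.Agent.Lib.MP_c38eaf_pr.Defs3

/-!
# Chains of links block strips
-/

open MeasureTheory ProbabilityTheory

namespace MP_c38eaf_pr

/-! ### The points of the chain -/

lemma pt_succ_even (z₀ c : Site) (j : ℕ) (h : j % 2 = 0) : pt z₀ c (j + 1) = pt z₀ c j + c := by
  rw [pt, if_pos h]

lemma pt_succ_odd (z₀ c : Site) (j : ℕ) (h : j % 2 = 1) :
    pt z₀ c (j + 1) = pt z₀ c j + tau c := by
  rw [pt, if_neg (by omega)]

lemma pt_even {z₀ c : Site} {h : ℕ} (hc : c.1 + c.2 = h) (i : ℕ) :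
    pt z₀ c (2 * i) = (z₀.1 + i * h, z₀.2 + i * h) := by
  induction i with
  | zero => simp [pt]
  | succ i ih =>
    have e : 2 * (i + 1) = 2 * i + 1 + 1 := by ring
    rw [e, pt_succ_odd _ _ _ (by omega), pt_succ_even _ _ _ (by omega), ih, tau_apply]
    ext
    · simp only [Prod.fst_add]; push_cast; rw [← hc]; ring
    · simp only [Prod.snd_add]; push_cast; rw [← hc]; ring

/-- The second difference `v` along the chain. -/
lemma pt_v {z₀ c : Site} {h : ℕ} (hc : c.1 + c.2 = h) (j : ℕ) :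
    (pt z₀ c j).2 - (pt z₀ c j).1 = z₀.2 - z₀.1 ∨
      (pt z₀ c j).2 - (pt z₀ c j).1 = z₀.2 - z₀.1 + (c.2 - c.1) := by
  rcases Nat.even_or_odd' j with ⟨i, rfl | rfl⟩
  · left
    rw [pt_even hc]; simp only; ring
  · right
    rw [pt_succ_even _ _ _ (by omega), pt_even hc]; simp only [Prod.fst_add, Prod.snd_add]; ring

/-! ### Strip walks and doubled walks -/

lemma strip_le_tri (ω : Site → Bool) (s : Bool) : strip ω s ≤ tri := by
  intro M M' h
  obtain ⟨x, i, h, _⟩ := h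
  have key : ∀ i : Fin 6, d (i + 1) + d (i + 5) = d i := d_add_one_add_five
  have h1 : tri.Adj (mid x (i + 1)) (mid x i) := ⟨i + 5, by
    rw [mid, mid, add_assoc (x + x), key]⟩
  rcases h with ⟨rfl, rfl⟩ | ⟨rfl, rfl⟩
  · exact h1.symm
  · exact h1

/-- A vertex with a strip neighbour is the midpoint of a monochromatic edge. -/
lemma strip_adj_mid {ω : Site → Bool} {s : Bool} {M M' : Site} (h : (strip ω s).Adj M M') :
    ∃ x k, M = mid x k ∧ ω x = s ∧ ω (x + d k) = s := by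
  obtain ⟨x, i, h, h1, h2, h3⟩ := h
  rcases h with ⟨rfl, rfl⟩ | ⟨rfl, rfl⟩
  · exact ⟨x, i, rfl, h1, h2⟩
  · exact ⟨x, i + 1, rfl, h1, h3⟩

lemma exists_adj_of_reach {V : Type*} {G : SimpleGraph V} {x y : V} (h : G.Reachable x y)
    (hxy : x ≠ y) : ∃ z, G.Adj x z := by
  rw [SimpleGraph.reachable_iff_reflTransGen] at h
  rcases Relation.ReflTransGen.cases_head h with h | ⟨z, hz, _⟩
  · exact absurd h hxy
  · exact ⟨z, hz⟩

lemma mid_ne_double (x u : Site) (i : Fin 6) : mid x i ≠ u + u := by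
  intro h
  rw [mid, Prod.ext_iff] at h
  simp only [Prod.fst_add, Prod.snd_add] at h
  have h1 := d_list i
  omega

/-- Doubling a walk. -/
lemma exists_double {G : SimpleGraph Site} (hG : G ≤ tri) {x y : Site} (p : G.Walk x y) :
    ∃ w : tri.Walk (x + x) (y + y), ∀ z ∈ w.support, (∃ u ∈ p.support, z = u + u) ∨
      ∃ u i, z = mid u i ∧ G.Adj u (u + d i) := by
  induction p with
  | nil => exact ⟨SimpleGraph.Walk.nil, fun z hz => by simp at hz; simp [hz]⟩
  | @cons x x' y h p ih =>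
    obtain ⟨w, hw⟩ := ih
    obtain ⟨i, rfl⟩ := hG h
    have h1 : tri.Adj (x + x) (mid x i) := ⟨i, rfl⟩
    have h2 : tri.Adj (mid x i) (x + d i + (x + d i)) := ⟨i, by rw [mid]; abel⟩
    refine ⟨SimpleGraph.Walk.cons h1 (SimpleGraph.Walk.cons h2 w), fun z hz => ?_⟩
    rw [SimpleGraph.Walk.support_cons, SimpleGraph.Walk.support_cons, List.mem_cons,
      List.mem_cons] at hz
    rcases hz with rfl | rfl | hz
    · exact Or.inl ⟨x, by simp, rfl⟩
    · exact Or.inr ⟨x, i, rfl, h⟩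
    · rcases hw z hz with ⟨u, hu, rfl⟩ | h'
      · exact Or.inl ⟨u, by simp [hu], rfl⟩
      · exact Or.inr h'

lemma mem_of_orIn {ω : Site → Bool} {D : Set Site} {x y z : Site} (hx : x ∈ D)
    (p : (orIn ω D).Walk x y) (hz : z ∈ p.support) : z ∈ D := by
  have h1 : (orIn ω D).Reachable x z := ⟨p.takeUntil z hz⟩
  rw [SimpleGraph.reachable_iff_reflTransGen] at h1
  rcases Relation.ReflTransGen.cases_tail h1 with h2 | ⟨c, _, h2⟩
  · rw [h2]; exact hx
  · exact h2.2.2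

/-! ### The block -/

/-- The chain is connected in the union of its regions, its hubs being filled. -/
lemma chain_reach {ω : Site → Bool} {n N M : ℕ} {z₀ c : Site} {K : ℕ}
    (hchain : ChainOK ω n N M z₀ c K) (j : ℕ) (hj : j ≤ K) :
    (orIn (fill {x | ∃ j ≤ K, x ∈ hex (pt z₀ c j) n} ω) {x | ∃ j < K, x ∈ reg z₀ c N M j}).Reachable
      z₀ (pt z₀ c j) := by
  induction j with
  | zero => exact SimpleGraph.Reachable.refl _
  | succ j ih =>
    refine (ih (by omega)).trans ((hchain j (by omega)).mono (orIn_mono (fun x hx => ?_) ?_))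
    · refine fill_mono ?_ hx
      rintro y (hy | hy)
      · exact ⟨j, by omega, hy⟩
      · exact ⟨j + 1, hj, hy⟩
    · exact fun x hx => ⟨j, by omega, hx⟩

/-- The slab containing the regions of the chain. -/
lemma reg_slab {N M h : ℕ} {c : Site} {z₀ : Site} (hM : M ≤ 3 * h) (hN : N = M + h)
    (hc : c.1 + c.2 = h) (hc0 : 0 ≤ c.2 - c.1) (hcM : c.2 - c.1 ≤ M) (hz₀ : z₀.2 - z₀.1 = 24 * h)
    {j : ℕ} {x : Site} (hx : x ∈ reg z₀ c N M j) : 16 * (h : ℤ) ≤ x.2 - x.1 ∧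
      x.2 - x.1 ≤ 35 * h := by
  have h1 := pt_v (z₀ := z₀) hc j
  have h2 := pt_v (z₀ := z₀) hc (j + 1)
  rcases hx with hx | hx
  · rw [mem_hex] at hx
    push_cast [hN] at hx
    rcases h1 with h1 | h1 <;> constructor <;> omega
  · rw [mem_hex] at hx
    rcases h2 with h2 | h2 <;> constructor <;> omega

theorem block {ω : Site → Bool} {n h M : ℕ} {c : Site} (hh : 4 ≤ h) (hM : M ≤ 3 * h) (hn : n ≤ M)
    (hc : c.1 + c.2 = h) (hc0 : 0 ≤ c.2 - c.1) (hcM : c.2 - c.1 ≤ M)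
    (hchain : ChainOK ω n (M + h) M (-(28 * h : ℤ), -(4 * h : ℤ)) c 112)
    (hbad : BadSide ω (4 * h)) :
    ∃ j ≤ 112, Touch ω n (24 * h) (pt (-(28 * h : ℤ), -(4 * h : ℤ)) c j) := by
  obtain ⟨P, Q, S, hP, hQ, hS⟩ := hbad
  push_cast at hP hQ hS
  set z₀ : Site := (-(28 * h : ℤ), -(4 * h : ℤ)) with hz₀
  set W : Set Site := {x | ∃ j ≤ 112, x ∈ hex (pt z₀ c j) n} with hW
  set D : Set Site := {x | ∃ j < 112, x ∈ reg z₀ c (M + h) M j} with hD
  obtain ⟨p⟩ := chain_reach hchain 112 le_rfl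
  rw [← hW, ← hD] at p
  have hz₀D : z₀ ∈ D := ⟨0, by omega, Or.inl (center_mem_hex _ _)⟩
  have hDs : ∀ x ∈ D, 16 * (h : ℤ) ≤ x.2 - x.1 ∧ x.2 - x.1 ≤ 35 * h := by
    rintro x ⟨j, _, hx⟩
    exact reg_slab hM rfl hc hc0 hcM (by rw [hz₀]; simp only; ring) hx
  obtain ⟨C, hC⟩ := exists_double (orIn_le_tri _ _) p
  have hend : pt z₀ c 112 = ((28 * h : ℤ), (52 * h : ℤ)) := by
    have := pt_even (z₀ := z₀) hc 56
    rw [show 2 * 56 = 112 from rfl] at this
    rw [this, hz₀]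
    ext
    · simp only; push_cast; ring
    · simp only; push_cast; ring
  have hPQ : P ≠ Q := by
    rintro rfl
    omega
  obtain ⟨Z, hZS, hZC⟩ := block_cross (r1 := 24 * h) (r2 := 72 * h) C (S.mapLe (strip_le_tri _ _))
    (fun z hz => by
      rcases hC z hz with ⟨u, hu, rfl⟩ | ⟨u, i, rfl, hu⟩
      · have := hDs u (mem_of_orIn hz₀D p hu)
        simp only [Prod.fst_add, Prod.snd_add]
        omega
      · have h1 := hDs u hu.2.1
        have h2 := hDs _ hu.2.2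
        simp only [mid, Prod.fst_add, Prod.snd_add] at h1 h2 ⊢
        omega)
    (by omega) (by omega)
    (fun z hz => by
      rw [SimpleGraph.Walk.support_mapLe_eq_support] at hz
      have h1 := hS z hz
      rw [dn, max_le_iff, max_le_iff, abs_le, abs_le, abs_le] at h1
      rw [hend, hz₀]
      simp only [Prod.fst_add]
      constructor <;> omega)
    (by
      have h1 := hS Q S.end_mem_support
      rw [dn, max_le_iff, max_le_iff, abs_le, abs_le, abs_le] at h1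
      rw [hz₀]
      simp only [Prod.snd_add]
      omega)
  rw [SimpleGraph.Walk.support_mapLe_eq_support] at hZS
  have hPZ : (strip ω false).Reachable P Z := ⟨S.takeUntil Z hZS⟩
  have hZQ : (strip ω false).Reachable Z Q := ⟨S.dropUntil Z hZS⟩
  obtain ⟨Z', hZ'⟩ : ∃ Z', (strip ω false).Adj Z Z' := by
    by_cases h1 : Z = P
    · exact exists_adj_of_reach hZQ (h1 ▸ hPQ)
    · exact exists_adj_of_reach hPZ.symm h1
  obtain ⟨x, k, hZx, hx1, hx2⟩ := strip_adj_mid hZ'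
  rcases hC Z hZC with ⟨u, _, hu⟩ | ⟨u, i, hu, huadj⟩
  · exact absurd (hZx.symm.trans hu) (mid_ne_double _ _ _)
  have hlab : ω u = false ∧ ω (u + d i) = false := by
    rcases mid_eq_mid (hZx.symm.trans hu) with ⟨h1, h2⟩ | ⟨h1, h2⟩
    · subst h1; subst h2; exact ⟨hx1, hx2⟩
    · subst h1; subst h2
      refine ⟨hx2, ?_⟩
      rw [d_add_three, add_neg_cancel_right]; exact hx1
  have hin : ∃ j ≤ 112, u ∈ hex (pt z₀ c j) n ∨ u + d i ∈ hex (pt z₀ c j) n := by
    rcases huadj.1.2 with h1 | h1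
    · by_cases hu' : u ∈ W
      · obtain ⟨j, hj, hj'⟩ := hu'; exact ⟨j, hj, Or.inl hj'⟩
      · rw [fill_of_notMem hu', hlab.1] at h1; exact absurd h1 (by decide)
    · by_cases hu' : u + d i ∈ W
      · obtain ⟨j, hj, hj'⟩ := hu'; exact ⟨j, hj, Or.inr hj'⟩
      · rw [fill_of_notMem hu', hlab.2] at h1; exact absurd h1 (by decide)
  obtain ⟨j, hj, hj'⟩ := hin
  refine ⟨j, hj, u, i, P, hj', hlab.1, hlab.2, ?_, ?_⟩
  · rw [← hu]; exact hPZ.symm
  · rw [dn]
    apply le_max_of_le_left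
    apply le_trans _ (le_abs_self _)
    have hv := pt_v (z₀ := z₀) hc j
    have e : z₀.2 - z₀.1 = 24 * h := by rw [hz₀]; simp only; ring
    simp only [Prod.fst_sub, Prod.snd_sub, Prod.fst_add, Prod.snd_add]
    rcases hv with hv | hv <;> omega

/-! ### Rotations -/

lemma dn_rho (z : Site) : dn (rho z) = dn z := by
  obtain ⟨x, y⟩ := z
  simp only [dn, rho_apply]
  have e1 : |(-y) - (x + y)| = |x + 2 * y| := by rw [← abs_neg]; congr 1; ring
  have e2 : |2 * (-y) + (x + y)| = |x - y| := by congr 1; ring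
  have e3 : |(-y) + 2 * (x + y)| = |2 * x + y| := by congr 1; ring
  rw [e1, e2, e3]
  omega

lemma dn_rho_pow (k : ℕ) (z : Site) : dn ((rho ^ k) z) = dn z := by
  induction k with
  | zero => simp
  | succ k ih => rw [pow_succ', Equiv.Perm.mul_apply, dn_rho, ih]

lemma dn_le_iff {z : Site} {r : ℤ} : dn z ≤ r ↔ (-r ≤ z.1 - z.2 ∧ z.1 - z.2 ≤ r) ∧
    (-r ≤ 2 * z.1 + z.2 ∧ 2 * z.1 + z.2 ≤ r) ∧ (-r ≤ z.1 + 2 * z.2 ∧ z.1 + 2 * z.2 ≤ r) := by
  rw [dn, max_le_iff, max_le_iff, abs_le, abs_le, abs_le]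

lemma dn_step {x y : Site} (h : tri.Adj x y) : dn y ≤ dn x + 2 := by
  obtain ⟨i, rfl⟩ := h
  have h1 := dn_le_iff.1 (le_refl (dn x))
  have h2 := d_list i
  rw [dn_le_iff]
  simp only [Prod.fst_add, Prod.snd_add]
  rcases h2 with ⟨h3, h4⟩ | ⟨h3, h4⟩ | ⟨h3, h4⟩ | ⟨h3, h4⟩ | ⟨h3, h4⟩ | ⟨h3, h4⟩ <;>
    rw [h3, h4] <;> omega

/-- Stop a walk when it reaches distance `b`. -/
lemma exists_first_block {G : SimpleGraph Site} (hG : G ≤ tri) {b : ℤ} {x y : Site} (p : G.Walk x y)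
    (hx : dn x ≤ b + 2) (hy : b ≤ dn y) :
    ∃ (Q : Site) (S : G.Walk x Q), b ≤ dn Q ∧ ∀ z ∈ S.support, dn z ≤ b + 2 := by
  induction p with
  | @nil x => exact ⟨x, SimpleGraph.Walk.nil, hy, fun z hz => by simp at hz; rw [hz]; exact hx⟩
  | @cons x x' y h p ih =>
    by_cases hb : b ≤ dn x
    · exact ⟨x, SimpleGraph.Walk.nil, hb, fun z hz => by simp at hz; rw [hz]; exact hx⟩
    · have h1 := dn_step (hG h)
      obtain ⟨Q, S, h2, h3⟩ := ih (by omega) hy
      refine ⟨Q, SimpleGraph.Walk.cons h S, h2, fun z hz => ?_⟩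
      rw [SimpleGraph.Walk.support_cons, List.mem_cons] at hz
      rcases hz with rfl | hz
      · exact hx
      · exact h3 z hz

lemma rho_symm_succ (k : ℕ) (x : Site) : (rho ^ (k + 1)).symm (rho x) = (rho ^ k).symm x := by
  rw [Equiv.symm_apply_eq, pow_succ', Equiv.Perm.mul_apply, Equiv.apply_symm_apply]

/-- Rotating a strip walk. -/
lemma rot_walk {ω : Site → Bool} {M Q : Site} (S : (strip ω false).Walk M Q) (k : ℕ) :
    ∃ S' : (strip (fun x => ω ((rho ^ k).symm x)) false).Walk ((rho ^ k) M) ((rho ^ k) Q),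
      ∀ z ∈ S'.support, ∃ y ∈ S.support, dn z = dn y := by
  induction k with
  | zero => exact ⟨S, fun z hz => ⟨z, hz, rfl⟩⟩
  | succ k ih =>
    obtain ⟨S', hS'⟩ := ih
    let f : strip (fun x => ω ((rho ^ k).symm x)) false →g
        strip (fun x => ω ((rho ^ (k + 1)).symm x)) false :=
      { toFun := rho
        map_rel' := fun {a b} h => by
          apply strip_rho
          have e : (fun x => (fun y => ω ((rho ^ (k + 1)).symm y)) (rho x)) =
              fun x => ω ((rho ^ k).symm x) := by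
            funext x; simp only [rho_symm_succ]
          rw [e]; exact h }
    have e' : ∀ x, rho ((rho ^ k) x) = (rho ^ (k + 1)) x := fun x => by
      rw [pow_succ', Equiv.Perm.mul_apply]
    have e : ∀ x, f ((rho ^ k) x) = (rho ^ (k + 1)) x := e'
    refine ⟨(S'.map f).copy (e M) (e Q), fun z hz => ?_⟩
    rw [SimpleGraph.Walk.support_copy, SimpleGraph.Walk.support_map, List.mem_map] at hz
    obtain ⟨y, hy, rfl⟩ := hz
    obtain ⟨u, hu, hu'⟩ := hS' y hy
    exact ⟨u, hu, (dn_rho y).trans hu'⟩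

/-- One of the six rotations turns the exit side into the upper one. -/
lemma exists_rot {Q : Site} {b : ℤ} (h : b ≤ dn Q) : ∃ k ∈ Finset.range 6,
    b ≤ ((rho ^ k) Q).2 - ((rho ^ k) Q).1 := by
  obtain ⟨x, y⟩ := Q
  have e0 : (rho ^ 0) (x, y) = (x, y) := rfl
  have e1 : (rho ^ 1) (x, y) = (-y, x + y) := rfl
  have e2 : (rho ^ 2) (x, y) = (-(x + y), -y + (x + y)) := rfl
  have e3 : (rho ^ 3) (x, y) = (-(-y + (x + y)), -(x + y) + (-y + (x + y))) := rfl
  have e4 : (rho ^ 4) (x, y) = (-(-(x + y) + (-y + (x + y))),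
    -(-y + (x + y)) + (-(x + y) + (-y + (x + y)))) := rfl
  have e5 : (rho ^ 5) (x, y) = (-(-(-y + (x + y)) + (-(x + y) + (-y + (x + y)))),
    -(-(x + y) + (-y + (x + y))) + (-(-y + (x + y)) + (-(x + y) + (-y + (x + y))))) := rfl
  simp only [dn, le_max_iff, le_abs'] at h
  rcases h with (h | h) | (h | h) | (h | h)
  · exact ⟨0, by decide, by rw [e0]; simp only; omega⟩
  · exact ⟨3, by decide, by rw [e3]; simp only; omega⟩
  · exact ⟨5, by decide, by rw [e5]; simp only; omega⟩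
  · exact ⟨2, by decide, by rw [e2]; simp only; omega⟩
  · exact ⟨4, by decide, by rw [e4]; simp only; omega⟩
  · exact ⟨1, by decide, by rw [e1]; simp only; omega⟩

/-- The exit side of a crossing of the annulus is one of six, all equivalent under rotation. -/
theorem SC_subset_BadSide (a : ℕ) (ha : 1 ≤ a) :
    SC (6 * a) (18 * a) ⊆ ⋃ k ∈ Finset.range 6, {ω | BadSide (fun x => ω ((rho ^ k).symm x)) a} := by
  rintro ω ⟨M, M', hM, hM', ⟨p⟩⟩
  obtain ⟨Q, S, hQ, hS⟩ := exists_first_block (strip_le_tri _ _) p (by omega) hM'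
  obtain ⟨k, hk, hk'⟩ := exists_rot hQ
  obtain ⟨S', hS'⟩ := rot_walk S k
  simp only [Set.mem_iUnion]
  refine ⟨k, hk, (rho ^ k) M, (rho ^ k) Q, S', ?_, hk', fun z hz => ?_⟩
  · have h1 : dn ((rho ^ k) M) ≤ 6 * a := by rw [dn_rho_pow]; exact hM
    rw [dn_le_iff] at h1
    omega
  · obtain ⟨y, hy, hy'⟩ := hS' z hz
    rw [hy']
    exact hS y hy

end MP_c38eaf_pr
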