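import Pool.Agent.Lib.MP_c38eaf_pr.Defs

/-!
# The outer boundary of a finite set of sites

For a finite set `U` of sites, a cut edge of `U` is a `T`-edge with exactly one endpoint in `U`.
Edges are represented by their doubled midpoints `mid x i = 2x + d i`.  Two cut edges are linked
when they lie in a common triangle.
-/

namespace MP_c38eaf_pr

/-- The doubled midpoint of the edge `{x, x + d i}`. -/
def mid (x : Site) (i : Fin 6) : Site := x + x + d i

lemma d_bound (i : Fin 6) : -1 ≤ (d i).1 ∧ (d i).1 ≤ 1 ∧ -1 ≤ (d i).2 ∧ (d i).2 ≤ 1 := by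
  revert i; decide

lemma d_sub_even : ∀ i j : Fin 6, ∀ a ∈ Finset.Icc (-1 : ℤ) 1, ∀ b ∈ Finset.Icc (-1 : ℤ) 1,
    ((d i).1 = a + a + (d j).1 ∧ (d i).2 = b + b + (d j).2) →
    ((a, b) = (0, 0) ∧ i = j) ∨ ((a, b) = d i ∧ j = i + 3) := by
  decide

lemma mid_eq_mid {x y : Site} {i j : Fin 6} (h : mid x i = mid y j) :
    (x = y ∧ i = j) ∨ (y = x + d i ∧ j = i + 3) := by
  obtain ⟨x1, x2⟩ := x
  obtain ⟨y1, y2⟩ := y
  rw [mid, mid, Prod.ext_iff] at h
  simp only [Prod.fst_add, Prod.snd_add] at h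
  have hi := d_bound i
  have hj := d_bound j
  rcases d_sub_even i j (y1 - x1) (by rw [Finset.mem_Icc]; omega) (y2 - x2)
    (by rw [Finset.mem_Icc]; omega) (by omega) with ⟨h1, h2⟩ | ⟨h1, h2⟩
  · left
    rw [Prod.ext_iff] at h1 ⊢
    refine ⟨⟨?_, ?_⟩, h2⟩ <;> simp only at h1 ⊢ <;> omega
  · right
    refine ⟨?_, h2⟩
    rw [← h1, Prod.ext_iff]
    constructor <;> simp

lemma mid_rev (x : Site) (i : Fin 6) : mid (x + d i) (i + 3) = mid x i := by
  simp only [mid, d_add_three]; abel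

lemma mid_third (x : Site) (i : Fin 6) : mid (x + d i) (i + 2) = mid (x + d (i + 1)) (i + 5) := by
  have h : d i + d i + d (i + 2) = d (i + 1) + d (i + 1) + d (i + 5) := by revert i; decide
  have h1 : mid (x + d i) (i + 2) = x + x + (d i + d i + d (i + 2)) := by simp only [mid]; abel
  have h2 : mid (x + d (i + 1)) (i + 5) = x + x + (d (i + 1) + d (i + 1) + d (i + 5)) := by
    simp only [mid]; abel
  rw [h1, h2, h]

lemma d_add_two (i : Fin 6) : d i + d (i + 2) = d (i + 1) := by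
  revert i; decide

/-- The link relation on cut edges of `U`: the vertex `x` of the triangle `x, x + d i,
x + d (i+1)` is separated by `U` from the two others. -/
def CutLink (U : Set Site) (M M' : Site) : Prop :=
  ∃ x i, ((M = mid x i ∧ M' = mid x (i + 1)) ∨ (M' = mid x i ∧ M = mid x (i + 1))) ∧
    ((x ∈ U ∧ x + d i ∉ U ∧ x + d (i + 1) ∉ U) ∨ (x ∉ U ∧ x + d i ∈ U ∧ x + d (i + 1) ∈ U))

lemma CutLink.symm {U : Set Site} {M M' : Site} (h : CutLink U M M') : CutLink U M' M := by
  obtain ⟨x, i, h1, h2⟩ := h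
  exact ⟨x, i, h1.symm, h2⟩

/-- `M` is the midpoint of a cut edge. -/
def IsCut (U : Set Site) (M : Site) : Prop := ∃ x i, M = mid x i ∧ x ∈ U ∧ x + d i ∉ U

lemma isCut_mid {U : Set Site} {x : Site} {i : Fin 6} :
    IsCut U (mid x i) ↔ (x ∈ U ∧ x + d i ∉ U) ∨ (x ∉ U ∧ x + d i ∈ U) := by
  constructor
  · rintro ⟨y, j, h, hy, hy'⟩
    rcases mid_eq_mid h with ⟨rfl, rfl⟩ | ⟨rfl, rfl⟩
    · exact Or.inl ⟨hy, hy'⟩
    · refine Or.inr ⟨?_, hy⟩
      rwa [d_add_three, add_neg_cancel_right] at hy'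
  · rintro (⟨h1, h2⟩ | ⟨h1, h2⟩)
    · exact ⟨x, i, rfl, h1, h2⟩
    · exact ⟨x + d i, i + 3, (mid_rev x i).symm, h2, by
        rwa [d_add_three, add_neg_cancel_right]⟩

lemma CutLink.isCut {U : Set Site} {M M' : Site} (h : CutLink U M M') : IsCut U M' := by
  obtain ⟨x, i, (⟨rfl, rfl⟩ | ⟨rfl, rfl⟩), (⟨h1, h2, h3⟩ | ⟨h1, h2, h3⟩)⟩ := h <;>
    rw [isCut_mid] <;> simp [h1, h2, h3]

section

variable (U : Set Site) (M₀ : Site)

/-- The class of `M₀` under links. -/
def cls : Set Site := {M | Relation.ReflTransGen (CutLink U) M₀ M}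

open Classical in
/-- Indicator of the class of `M₀`. -/
noncomputable def g (M : Site) : ZMod 2 := if M ∈ cls U M₀ then 1 else 0

variable {U M₀}

lemma g_eq_of_link {M M' : Site} (h : CutLink U M M') : g U M₀ M = g U M₀ M' := by
  have : M ∈ cls U M₀ ↔ M' ∈ cls U M₀ := ⟨fun h1 => h1.tail h, fun h1 => h1.tail h.symm⟩
  by_cases hM : M ∈ cls U M₀
  · rw [g, g, if_pos hM, if_pos (this.1 hM)]
  · rw [g, g, if_neg hM, if_neg (fun h => hM (this.2 h))]

lemma isCut_of_mem_cls (h0 : IsCut U M₀) {M : Site} (h : M ∈ cls U M₀) : IsCut U M := by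
  rcases Relation.ReflTransGen.cases_tail h with h | ⟨c, _, h⟩
  · exact h ▸ h0
  · exact h.isCut

lemma g_eq_zero (h0 : IsCut U M₀) {M : Site} (h : ¬ IsCut U M) : g U M₀ M = 0 := by
  rw [g, if_neg]
  exact fun h1 => h (isCut_of_mem_cls h0 h1)

lemma zmod2_add_self (a : ZMod 2) : a + a = 0 := by
  revert a; decide

lemma d_aux1 (i : Fin 6) : d (i + 1) + d (i + 4) = 0 := by revert i; decide
lemma d_aux2 (i : Fin 6) : d (i + 1) + d (i + 4 + 1) = d i := by revert i; decide
lemma d_aux3 (i : Fin 6) : d i + d (i + 2 + 1) = 0 := by revert i; decide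
lemma f_aux1 (i : Fin 6) : i + 1 + 3 = i + 4 := by revert i; decide
lemma f_aux2 (i : Fin 6) : i + 5 = i + 4 + 1 := by revert i; decide
lemma f_aux3 (i : Fin 6) : i + 3 = i + 2 + 1 := by revert i; decide
lemma f_aux4 (i : Fin 6) : i = i + 3 + 3 := by revert i; decide

lemma linkX {x : Site} {i : Fin 6} (h : (x ∈ U ∧ x + d i ∉ U ∧ x + d (i + 1) ∉ U) ∨
    (x ∉ U ∧ x + d i ∈ U ∧ x + d (i + 1) ∈ U)) : CutLink U (mid x i) (mid x (i + 1)) :=
  ⟨x, i, Or.inl ⟨rfl, rfl⟩, h⟩

lemma linkY {x : Site} {i : Fin 6} (h : (x + d i ∈ U ∧ x + d (i + 1) ∉ U ∧ x ∉ U) ∨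
    (x + d i ∉ U ∧ x + d (i + 1) ∈ U ∧ x ∈ U)) :
    CutLink U (mid x i) (mid (x + d i) (i + 2)) := by
  refine ⟨x + d i, i + 2, Or.inr ⟨rfl, ?_⟩, ?_⟩
  · rw [← mid_rev x i, f_aux3]
  · rw [add_assoc x (d i) (d (i + 2 + 1)), d_aux3, add_zero, add_assoc, d_add_two]; exact h

lemma linkZ {x : Site} {i : Fin 6} (h : (x + d (i + 1) ∈ U ∧ x ∉ U ∧ x + d i ∉ U) ∨
    (x + d (i + 1) ∉ U ∧ x ∈ U ∧ x + d i ∈ U)) :
    CutLink U (mid x (i + 1)) (mid (x + d i) (i + 2)) := by
  refine ⟨x + d (i + 1), i + 4, Or.inl ⟨?_, ?_⟩, ?_⟩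
  · rw [← mid_rev x (i + 1), f_aux1]
  · rw [mid_third, f_aux2]
  · rw [add_assoc x _ (d (i + 4)), d_aux1, add_zero, add_assoc, d_aux2]; exact h

/-- The cocycle identity. -/
lemma g_triangle (h0 : IsCut U M₀) (x : Site) (i : Fin 6) :
    g U M₀ (mid x i) + g U M₀ (mid x (i + 1)) + g U M₀ (mid (x + d i) (i + 2)) = 0 := by
  have e3 : x + d i + d (i + 2) = x + d (i + 1) := by rw [add_assoc, d_add_two]
  by_cases hx : x ∈ U <;> by_cases hy : x + d i ∈ U <;> by_cases hz : x + d (i + 1) ∈ U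
  · rw [g_eq_zero h0 (by rw [isCut_mid]; simp [hx, hy]), g_eq_zero h0 (by
      rw [isCut_mid]; simp [hx, hz]), g_eq_zero h0 (by rw [isCut_mid, e3]; simp [hy, hz])]; simp
  · rw [← g_eq_of_link (linkZ (by simp [hx, hy, hz])), g_eq_zero h0 (M := mid x i) (by
      rw [isCut_mid]; simp [hx, hy]), zero_add, zmod2_add_self]
  · rw [← g_eq_of_link (linkY (by simp [hx, hy, hz])), g_eq_zero h0 (M := mid x (i + 1)) (by
      rw [isCut_mid]; simp [hx, hz]), add_zero, zmod2_add_self]
  · rw [← g_eq_of_link (linkX (by simp [hx, hy, hz])),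
      g_eq_zero h0 (M := mid (x + d i) (i + 2)) (by rw [isCut_mid, e3]; simp [hy, hz]),
      add_zero, zmod2_add_self]
  · rw [← g_eq_of_link (linkX (by simp [hx, hy, hz])),
      g_eq_zero h0 (M := mid (x + d i) (i + 2)) (by rw [isCut_mid, e3]; simp [hy, hz]),
      add_zero, zmod2_add_self]
  · rw [← g_eq_of_link (linkY (by simp [hx, hy, hz])), g_eq_zero h0 (M := mid x (i + 1)) (by
      rw [isCut_mid]; simp [hx, hz]), add_zero, zmod2_add_self]
  · rw [← g_eq_of_link (linkZ (by simp [hx, hy, hz])), g_eq_zero h0 (M := mid x i) (by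
      rw [isCut_mid]; simp [hx, hy]), zero_add, zmod2_add_self]
  · rw [g_eq_zero h0 (by rw [isCut_mid]; simp [hx, hy]), g_eq_zero h0 (by
      rw [isCut_mid]; simp [hx, hz]), g_eq_zero h0 (by rw [isCut_mid, e3]; simp [hy, hz])]; simp

/-- The potential of the cocycle: the number of edges of the class on the horizontal ray to the
right of `v`, cut off at the vertical line `N`. -/
noncomputable def pot (U : Set Site) (M₀ : Site) (N : ℤ) (v : Site) : ZMod 2 :=
  ∑ t ∈ Finset.range (N - v.1).toNat, g U M₀ (mid (v.1 + t, v.2) 0)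

lemma pot_of_le {N : ℤ} {v : Site} (h : N ≤ v.1) : pot U M₀ N v = 0 := by
  have : (N - v.1).toNat = 0 := by omega
  rw [pot, this, Finset.sum_range_zero]

lemma pot_step {N : ℤ} (v : Site) (h : v.1 < N) :
    pot U M₀ N v = g U M₀ (mid v 0) + pot U M₀ N (v + d 0) := by
  have h1 : (N - v.1).toNat = (N - (v + d 0).1).toNat + 1 := by
    have : (v + d 0).1 = v.1 + 1 := rfl
    rw [this]; omega
  rw [pot, pot, h1, Finset.sum_range_succ', add_comm]
  congr 1
  · simp
  · apply Finset.sum_congr rfl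
    intro t _
    have e1 : (v + d 0).1 = v.1 + 1 := rfl
    have e2 : (v + d 0).2 = v.2 := by simp [d]
    rw [e1, e2]
    congr 3
    push_cast; ring

end

section

variable {U : Set Site} {M₀ : Site} (h0 : IsCut U M₀) {N : ℤ}
  (hN : ∀ x ∈ U, -N < x.1 ∧ x.1 < N ∧ -N < x.2 ∧ x.2 < N)

include h0 hN

omit hN in
/-- Edges with both endpoints outside the box are not cut. -/
lemma g_far {x : Site} {i : Fin 6} (h : x ∉ U) (h' : x + d i ∉ U) : g U M₀ (mid x i) = 0 :=
  g_eq_zero h0 (by rw [isCut_mid]; simp [h, h'])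

omit h0 in
lemma far_right {x : Site} (h : N ≤ x.1) : x ∉ U := fun h1 => by have := hN x h1; omega

omit h0 in
lemma far_left {x : Site} (h : x.1 ≤ -N) : x ∉ U := fun h1 => by have := hN x h1; omega

omit h0 in
lemma far_up {x : Site} (h : N ≤ x.2) : x ∉ U := fun h1 => by have := hN x h1; omega

omit h0 in
lemma far_down {x : Site} (h : x.2 ≤ -N) : x ∉ U := fun h1 => by have := hN x h1; omega

/-- Horizontal edges. -/
lemma pot_d0 (v : Site) : pot U M₀ N v + pot U M₀ N (v + d 0) = g U M₀ (mid v 0) := by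
  rcases lt_or_ge v.1 N with h | h
  · rw [pot_step v h, add_assoc, zmod2_add_self, add_zero]
  · rw [pot_of_le h, pot_of_le (by simp [d]; omega),
      g_far h0 (far_right hN h) (far_right hN (by simp [d]; omega)), add_zero]

/-- Edges of direction `1`, by telescoping along the strip of triangles between two rows. -/
lemma pot_d1_aux (n : ℕ) : ∀ v : Site, N ≤ v.1 + n →
    pot U M₀ N v + pot U M₀ N (v + d 1) = g U M₀ (mid v 1) := by
  induction n with
  | zero =>
    intro v hv
    rw [pot_of_le (by simpa using hv), pot_of_le (by simpa [d] using hv),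
      g_far h0 (far_right hN (by simpa using hv)) (far_right hN (by simpa [d] using hv)),
      add_zero]
  | succ n ih =>
    intro v hv
    rcases lt_or_ge v.1 N with h | h
    · have ih1 := ih (v + d 0) (by simp [d]; push_cast at hv; omega)
      have t1 := g_triangle h0 v 0
      have t2 := g_triangle h0 (v + d 0) 1
      have e1 : v + d 0 + d 1 = v + d 1 + d 0 := by abel
      have e2 : mid (v + d 0 + d 1) (1 + 2) = mid (v + d 1) 0 := by
        have := mid_rev (v + d 1) 0
        rw [← this, ← e1]; rfl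
      rw [e2] at t2
      rw [pot_step v h, pot_step (v + d 1) (by simpa [d] using h), ← e1]
      have f1 : (0 : Fin 6) + 1 = 1 := rfl
      have f2 : (0 : Fin 6) + 2 = 2 := rfl
      have f3 : (1 : Fin 6) + 1 = 2 := rfl
      rw [f1, f2] at t1
      rw [f3] at t2
      generalize g U M₀ (mid v 0) = a at *
      generalize g U M₀ (mid v 1) = b at *
      generalize g U M₀ (mid (v + d 0) 2) = c at *
      generalize g U M₀ (mid (v + d 0) 1) = e at *
      generalize g U M₀ (mid (v + d 1) 0) = f at *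
      generalize pot U M₀ N (v + d 0) = p at *
      generalize pot U M₀ N (v + d 0 + d 1) = q at *
      revert a b c e f p q
      decide
    · rw [pot_of_le h, pot_of_le (by simp [d]; omega),
        g_far h0 (far_right hN h) (far_right hN (by simp [d]; omega)), add_zero]

lemma pot_d1 (v : Site) : pot U M₀ N v + pot U M₀ N (v + d 1) = g U M₀ (mid v 1) :=
  pot_d1_aux h0 hN (N - v.1).toNat v (by omega)

lemma pot_d2 (v : Site) : pot U M₀ N v + pot U M₀ N (v + d 2) = g U M₀ (mid v 2) := by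
  have t1 := g_triangle h0 v 1
  have h1 := pot_d1 h0 hN v
  have h2 := pot_d0 h0 hN (v + d 2)
  have e1 : v + d 2 + d 0 = v + d 1 := by
    rw [add_assoc]; congr 1
  have e2 : mid (v + d 1) (1 + 2) = mid (v + d 2) 0 := by
    have := mid_rev (v + d 2) 0
    rw [← this, e1]; rfl
  rw [e2] at t1
  have f3 : (1 : Fin 6) + 1 = 2 := rfl
  rw [f3] at t1
  rw [e1] at h2
  generalize g U M₀ (mid v 1) = b at *
  generalize g U M₀ (mid v 2) = c at *
  generalize g U M₀ (mid (v + d 2) 0) = e at *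
  generalize pot U M₀ N v = p at *
  generalize pot U M₀ N (v + d 1) = q at *
  generalize pot U M₀ N (v + d 2) = r at *
  revert b c e p q r
  decide

/-- The potential changes across an edge exactly when the edge is in the class. -/
lemma pot_edge (v : Site) (i : Fin 6) :
    pot U M₀ N v + pot U M₀ N (v + d i) = g U M₀ (mid v i) := by
  have key : ∀ j : Fin 6, (∀ w : Site, pot U M₀ N w + pot U M₀ N (w + d j) = g U M₀ (mid w j)) →
      pot U M₀ N v + pot U M₀ N (v + d (j + 3)) = g U M₀ (mid v (j + 3)) := by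
    intro j hj
    have := hj (v + d (j + 3))
    have e : v + d (j + 3) + d j = v := by rw [d_add_three]; abel
    have e2 : mid (v + d (j + 3)) j = mid v (j + 3) := by
      rw [← mid_rev v (j + 3), ← f_aux4]
    rw [e, e2] at this
    rw [← this, add_comm]
  fin_cases i
  · exact pot_d0 h0 hN v
  · exact pot_d1 h0 hN v
  · exact pot_d2 h0 hN v
  · exact key 0 (pot_d0 h0 hN)
  · exact key 1 (pot_d1 h0 hN)
  · exact key 2 (pot_d2 h0 hN)

lemma pot_up {v : Site} (h : N ≤ v.2) : pot U M₀ N v = 0 := by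
  rw [pot]
  apply Finset.sum_eq_zero
  intro t _
  exact g_far h0 (far_up hN (by simpa using h)) (far_up hN (by simpa [d] using h))

lemma pot_down {v : Site} (h : v.2 ≤ -N) : pot U M₀ N v = 0 := by
  rw [pot]
  apply Finset.sum_eq_zero
  intro t _
  exact g_far h0 (far_down hN (by simpa using h)) (far_down hN (by simpa [d] using h))

lemma pot_left_aux (n : ℕ) : ∀ v : Site, v.1 ≤ -N → N ≤ v.2 + n → pot U M₀ N v = 0 := by
  induction n with
  | zero => intro v _ h; exact pot_up h0 hN (by simpa using h)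
  | succ n ih =>
    intro v h1 h2
    have h3 := pot_edge h0 hN v 1
    rw [ih (v + d 1) (by simpa [d] using h1) (by simp [d]; push_cast at h2; omega), add_zero] at h3
    rw [h3]
    exact g_far h0 (far_left hN h1) (far_left hN (by simpa [d] using h1))

lemma pot_left {v : Site} (h : v.1 ≤ -N) : pot U M₀ N v = 0 :=
  pot_left_aux h0 hN (N - v.2).toNat v h (by omega)

end

/-- **Outer boundary of a finite connected set.**  The cut edges in the class of the rightmost
edge of `U` on the axis contain the whole boundary of a finite set `J ⊇ U`. -/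
theorem outer_boundary {U : Set Site} (hfin : U.Finite)
    (hconn : ∀ h : Site → ZMod 2, (∀ x ∈ U, ∀ i, x + d i ∈ U → h x = h (x + d i)) →
      ∀ x ∈ U, ∀ y ∈ U, h x = h y)
    {k : ℤ} (hk : (k, 0) ∈ U) (hmax : ∀ j, k < j → ((j, 0) : Site) ∉ U) :
    ∃ J : Set Site, J.Finite ∧ U ⊆ J ∧ ∀ x ∈ J, ∀ i, x + d i ∉ J →
      mid x i ∈ cls U (mid (k, 0) 0) := by
  obtain ⟨N, hN⟩ : ∃ N : ℤ, ∀ x ∈ U, -N < x.1 ∧ x.1 < N ∧ -N < x.2 ∧ x.2 < N := by
    obtain ⟨N, hN⟩ := (hfin.image (fun x => max |x.1| |x.2|)).bddAbove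
    refine ⟨N + 1, fun x hx => ?_⟩
    have h1 : max |x.1| |x.2| ≤ N := hN ⟨x, hx, rfl⟩
    have h2 := (le_max_left _ _).trans h1
    have h3 := (le_max_right _ _).trans h1
    rw [abs_le] at h2 h3
    omega
  have h0 : IsCut U (mid (k, 0) 0) := ⟨(k, 0), 0, rfl, hk, by
    have : ((k, 0) : Site) + d 0 = (k + 1, 0) := by simp [d]
    rw [this]; exact hmax _ (by omega)⟩
  have hcases : ∀ a : ZMod 2, a = 0 ∨ a = 1 := by decide
  refine ⟨{v | pot U (mid (k, 0) 0) N v = 1}, ?_, ?_, ?_⟩
  · apply (Set.finite_Icc ((-N, -N) : Site) (N, N)).subset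
    intro v hv
    rw [Set.mem_ofPred_eq] at hv
    have hne : pot U (mid (k, 0) 0) N v ≠ 0 := by rw [hv]; decide
    have h1 : ¬ N ≤ v.1 := fun h => hne (pot_of_le h)
    have h2 : ¬ v.1 ≤ -N := fun h => hne (pot_left h0 hN h)
    have h3 : ¬ N ≤ v.2 := fun h => hne (pot_up h0 hN h)
    have h4 : ¬ v.2 ≤ -N := fun h => hne (pot_down h0 hN h)
    rw [Set.mem_Icc, Prod.le_def, Prod.le_def]
    simp only
    omega
  · intro x hx
    rw [Set.mem_ofPred_eq]
    have hc := hconn (pot U (mid (k, 0) 0) N) (by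
      intro x hx i hi
      have h1 := pot_edge h0 hN x i
      rw [g_eq_zero h0 (by rw [isCut_mid]; simp [hx, hi])] at h1
      revert h1
      generalize pot U (mid (k, 0) 0) N x = a
      generalize pot U (mid (k, 0) 0) N (x + d i) = b
      revert a b; decide) x hx _ hk
    rw [hc, pot_step _ (by simpa using (hN _ hk).2.1)]
    have h2 : pot U (mid (k, 0) 0) N ((k, 0) + d 0) = 0 := by
      rw [pot]
      apply Finset.sum_eq_zero
      intro t _
      apply g_far h0
      · have : ((((k, 0) : Site) + d 0).1 + (t : ℤ), (((k, 0) : Site) + d 0).2) = (k + 1 + t, 0) := by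
          simp [d]
        rw [this]; exact hmax _ (by omega)
      · have : ((((k, 0) : Site) + d 0).1 + (t : ℤ), (((k, 0) : Site) + d 0).2) + d 0
          = (k + 1 + t + 1, 0) := by
          simp [d]
        rw [this]; exact hmax _ (by omega)
    rw [h2, add_zero, g, if_pos]
    exact Relation.ReflTransGen.refl
  · intro x hx i hi
    rw [Set.mem_ofPred_eq] at hx hi
    have h1 := pot_edge h0 hN x i
    rw [hx, (hcases _).resolve_right hi, add_zero] at h1
    by_contra hcon
    rw [g, if_neg hcon] at h1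
    exact absurd h1 (by decide)

end MP_c38eaf_pr
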