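import Pool.Agent.Lib.MP_c38eaf_pr.Invariance

/-!
# `θ(p) > 0` if and only if `ψ(min(p, 1-p)) > 0`
-/

open MeasureTheory ProbabilityTheory

namespace MP_c38eaf_pr

lemma dens_true (p : unitInterval) : dens p true = ENNReal.ofReal p := by
  rw [dens, bernoulliMeasure_apply_of_mem_of_notMem p (measurableSet_singleton _) rfl (by simp)]
  rw [ENNReal.ofReal]
  congr 1
  exact NNReal.eq (by rw [Real.coe_toNNReal _ p.2.1]; rfl)

lemma dens_false (p : unitInterval) : dens p false = ENNReal.ofReal (1 - p) := by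
  rw [dens, bernoulliMeasure_apply_of_notMem_of_mem p (measurableSet_singleton _) (by simp) rfl]
  rw [ENNReal.ofReal]
  congr 1
  exact NNReal.eq (by rw [Real.coe_toNNReal _ (by linarith [p.2.2])]; rfl)

/-- The sum over all arcs beyond `3 R`. -/
theorem labels_Arc_sum_le (p : unitInterval) (s : Bool) (R : ℕ) :
    labels p (⋃ k : ℕ, Arc s (((3 * R : ℕ) : ℤ) + k)) ≤
      6 * (31 * dens p s ^ 5) ^ R * (1 - 31 * dens p s ^ 5)⁻¹ := by
  set a : ENNReal := 31 * dens p s ^ 5 with ha
  have hsub : (⋃ k : ℕ, Arc s (((3 * R : ℕ) : ℤ) + k)) ⊆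
      ⋃ j : ℕ, ⋃ r ∈ Finset.range 3, Arc s (((3 * R : ℕ) : ℤ) + ((3 * j + r : ℕ) : ℤ)) := by
    intro ω hω
    rw [Set.mem_iUnion] at hω ⊢
    obtain ⟨k, hk⟩ := hω
    refine ⟨k / 3, ?_⟩
    rw [Set.mem_iUnion₂]
    exact ⟨k % 3, Finset.mem_range.2 (Nat.mod_lt _ (by norm_num)), by rwa [Nat.div_add_mod]⟩
  calc labels p (⋃ k : ℕ, Arc s (((3 * R : ℕ) : ℤ) + k))
      ≤ labels p (⋃ j : ℕ, ⋃ r ∈ Finset.range 3,
          Arc s (((3 * R : ℕ) : ℤ) + ((3 * j + r : ℕ) : ℤ))) := measure_mono hsub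
    _ ≤ ∑' j : ℕ, ∑ r ∈ Finset.range 3,
          labels p (Arc s (((3 * R : ℕ) : ℤ) + ((3 * j + r : ℕ) : ℤ))) :=
        (measure_iUnion_le _).trans (ENNReal.tsum_le_tsum fun j => measure_biUnion_finset_le _ _)
    _ ≤ ∑' j : ℕ, ∑ r ∈ Finset.range 3, 2 * a ^ (R + j) := by
        apply ENNReal.tsum_le_tsum
        intro j
        apply Finset.sum_le_sum
        intro r hr
        rw [Finset.mem_range] at hr
        exact labels_Arc_le p s _ (by positivity) (R + j) (by push_cast; omega)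
    _ = ∑' j : ℕ, (6 * a ^ R) * a ^ j := by
        congr 1
        funext j
        rw [Finset.sum_const, Finset.card_range, nsmul_eq_mul, pow_add]
        push_cast; ring
    _ = 6 * a ^ R * (1 - a)⁻¹ := by rw [ENNReal.tsum_mul_left, ENNReal.tsum_geometric]

lemma arc_tendsto {a : ENNReal} (ha : a < 1) :
    Filter.Tendsto (fun R : ℕ => 6 * a ^ R * (1 - a)⁻¹) Filter.atTop (nhds 0) := by
  have h1 := ENNReal.tendsto_pow_atTop_nhds_zero_of_lt_one ha
  have h2 : Filter.Tendsto (fun R : ℕ => 6 * a ^ R) Filter.atTop (nhds (6 * 0)) :=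
    ENNReal.Tendsto.const_mul h1 (Or.inr (by norm_num))
  have h3 : (1 - a)⁻¹ ≠ ⊤ := by
    rw [ENNReal.inv_ne_top]
    exact (tsub_pos_of_lt ha).ne'
  have h4 := ENNReal.Tendsto.mul_const h2 (b := (1 - a)⁻¹) (Or.inr h3)
  simpa using h4

lemma thirty_one_lt {p : unitInterval} {s : Bool} (h : dens p s ≤ 1 / 2) :
    31 * dens p s ^ 5 < 1 := by
  calc 31 * dens p s ^ 5 ≤ 31 * (1 / 2) ^ 5 := by gcongr
    _ < 1 := by
      rw [one_div, ← ENNReal.inv_pow]
      have : ((2 : ENNReal) ^ 5) = 32 := by norm_num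
      rw [this, ← div_eq_mul_inv, ENNReal.div_lt_iff (Or.inl (by norm_num)) (Or.inl (by norm_num))]
      norm_num

/-- If no site lies in an infinite AB cluster with positive probability and `p ≤ 1/2`, then
distance-two percolation of `A` sites does not occur. -/
theorem psi_eq_zero {p : unitInterval} (hp : dens p true ≤ 1 / 2) (hθ : theta p = 0) :
    psi p = 0 := by
  have h1 : ∀ R : ℕ, psi p ≤ 6 * (31 * dens p true ^ 5) ^ R * (1 - 31 * dens p true ^ 5)⁻¹ := by
    intro R
    have hnull : labels p (⋃ x ∈ box (3 * R), {ω | {y | (abGraph ω).Reachable x y}.Infinite})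
        = 0 := by
      rw [measure_biUnion_null_iff (box_finite _).countable]
      intro x _
      rw [theta_site, hθ]
    calc psi p ≤ labels p ((⋃ x ∈ box (3 * R), {ω | {y | (abGraph ω).Reachable x y}.Infinite}) ∪
          ⋃ k : ℕ, Arc true (((3 * R : ℕ) : ℤ) + k)) := measure_mono (two_inf_subset _)
      _ ≤ 0 + 6 * (31 * dens p true ^ 5) ^ R * (1 - 31 * dens p true ^ 5)⁻¹ :=
          (measure_union_le _ _).trans (add_le_add hnull.le (labels_Arc_sum_le p true R))
      _ = _ := zero_add _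
  have h2 := ge_of_tendsto' (arc_tendsto (thirty_one_lt hp)) h1
  exact le_antisymm h2 bot_le

lemma theta_pos_of_psi {p : unitInterval} (hp : dens p true ≤ 1 / 2) (h : 0 < psi p) :
    0 < theta p := by
  rw [pos_iff_ne_zero] at h ⊢
  exact fun h0 => h (psi_eq_zero hp h0)

lemma psi_pos_of_theta {p : unitInterval} (h : 0 < theta p) : 0 < psi p := by
  rw [pos_iff_ne_zero] at h ⊢
  intro h0
  have := theta_le_psi p
  rw [h0, mul_zero] at this
  exact h (le_antisymm this bot_le)

lemma dens_true_le_half {p : unitInterval} (h : (p : ℝ) ≤ 1 / 2) : dens p true ≤ 1 / 2 := by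
  rw [dens_true]
  calc ENNReal.ofReal p ≤ ENNReal.ofReal (1 / 2) := ENNReal.ofReal_le_ofReal h
    _ = 1 / 2 := by rw [ENNReal.ofReal_div_of_pos (by norm_num)]; simp

/-- **AB percolation on `T` is equivalent to distance-two percolation of the rarer label.** -/
theorem theta_pos_iff (p : unitInterval) :
    0 < theta p ↔ 0 < psi (min p (unitInterval.symm p)) := by
  constructor
  · intro h
    rcases min_choice p (unitInterval.symm p) with h1 | h1 <;> rw [h1]
    · exact psi_pos_of_theta h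
    · exact psi_pos_of_theta (by rwa [theta_symm])
  · intro h
    rcases le_total p (unitInterval.symm p) with h1 | h1
    · rw [min_eq_left h1] at h
      refine theta_pos_of_psi (dens_true_le_half ?_) h
      have : (p : ℝ) ≤ 1 - p := h1
      linarith
    · rw [min_eq_right h1] at h
      rw [← theta_symm]
      refine theta_pos_of_psi (dens_true_le_half ?_) h
      have : 1 - (p : ℝ) ≤ p := h1
      show 1 - (p : ℝ) ≤ 1 / 2
      linarith

end MP_c38eaf_pr
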