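import Pool.Agent.Lib.MP_c38eaf_pr.Local

/-!
# Finite-size criterion for strips
-/

open MeasureTheory ProbabilityTheory

namespace MP_c38eaf_pr

/-! ### The norm -/

lemma dn_le {M : Site} {c : ℤ} : dn M ≤ c ↔ (-c ≤ M.1 - M.2 ∧ M.1 - M.2 ≤ c ∧
    -c ≤ 2 * M.1 + M.2 ∧ 2 * M.1 + M.2 ≤ c ∧ -c ≤ M.1 + 2 * M.2 ∧ M.1 + 2 * M.2 ≤ c) := by
  rw [dn, max_le_iff, max_le_iff, abs_le, abs_le, abs_le]
  tauto

lemma dn_add_le (x y : Site) : dn (x + y) ≤ dn x + dn y := by
  have hx := dn_le.1 (le_refl (dn x))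
  have hy := dn_le.1 (le_refl (dn y))
  rw [dn_le]
  simp only [Prod.fst_add, Prod.snd_add]
  omega

lemma dn_neg (x : Site) : dn (-x) = dn x := by
  have h : ∀ y : Site, dn (-y) ≤ dn y := by
    intro y
    have hy := dn_le.1 (le_refl (dn y))
    rw [dn_le]
    simp only [Prod.fst_neg, Prod.snd_neg]
    omega
  apply le_antisymm (h x)
  have := h (-x)
  rwa [neg_neg] at this

lemma dn_sub_le (x y : Site) : dn (x - y) ≤ dn x + dn y := by
  rw [sub_eq_add_neg, ← dn_neg y]
  exact dn_add_le _ _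

lemma dn_le_add_sub (x y : Site) : dn x ≤ dn y + dn (x - y) := by
  have := dn_add_le y (x - y)
  rwa [add_sub_cancel] at this

lemma dn_d (i : Fin 6) : dn (d i) = 2 := by revert i; decide

/-- The three sites of a triangle are close to the midpoints of its edges. -/
lemma dn_tri (x : Site) (i : Fin 6) :
    dn (x + x) ≤ dn (mid x i) + 2 ∧ dn ((x + d i) + (x + d i)) ≤ dn (mid x i) + 2 ∧
    dn ((x + d (i + 1)) + (x + d (i + 1))) ≤ dn (mid x i) + 6 := by
  have h0 := dn_d i
  have h1 := dn_d (i + 1)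
  have hh : mid x i = x + x + d i := rfl
  refine ⟨?_, ?_, ?_⟩
  · have e : x + x = mid x i - d i := by rw [hh]; abel
    rw [e]
    have := dn_sub_le (mid x i) (d i)
    omega
  · have e : (x + d i) + (x + d i) = mid x i + d i := by rw [hh]; abel
    rw [e]
    have := dn_add_le (mid x i) (d i)
    omega
  · have e : (x + d (i + 1)) + (x + d (i + 1)) = mid x i - d i + (d (i + 1) + d (i + 1)) := by
      rw [hh]; abel
    rw [e]
    have := dn_sub_le (mid x i) (d i)
    have := dn_add_le (mid x i - d i) (d (i + 1) + d (i + 1))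
    have := dn_add_le (d (i + 1)) (d (i + 1))
    omega

lemma dn_tri' (x : Site) (i : Fin 6) :
    dn (x + x) ≤ dn (mid x (i + 1)) + 2 ∧ dn ((x + d i) + (x + d i)) ≤ dn (mid x (i + 1)) + 6 ∧
    dn ((x + d (i + 1)) + (x + d (i + 1))) ≤ dn (mid x (i + 1)) + 2 := by
  have h0 := dn_d i
  have h1 := dn_d (i + 1)
  have hh : mid x (i + 1) = x + x + d (i + 1) := rfl
  refine ⟨?_, ?_, ?_⟩
  · have e : x + x = mid x (i + 1) - d (i + 1) := by rw [hh]; abel
    rw [e]
    have := dn_sub_le (mid x (i + 1)) (d (i + 1))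
    omega
  · have e : (x + d i) + (x + d i) = mid x (i + 1) - d (i + 1) + (d i + d i) := by
      rw [hh]; abel
    rw [e]
    have := dn_sub_le (mid x (i + 1)) (d (i + 1))
    have := dn_add_le (mid x (i + 1) - d (i + 1)) (d i + d i)
    have := dn_add_le (d i) (d i)
    omega
  · have e : (x + d (i + 1)) + (x + d (i + 1)) = mid x (i + 1) + d (i + 1) := by rw [hh]; abel
    rw [e]
    have := dn_add_le (mid x (i + 1)) (d (i + 1))
    omega

lemma dn_mid_succ (x : Site) (i : Fin 6) :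
    dn (mid x (i + 1)) ≤ dn (mid x i) + 2 ∧ dn (mid x i) ≤ dn (mid x (i + 1)) + 2 := by
  have h2 := dn_d (i + 2)
  have e1 : mid x (i + 1) = mid x i + d (i + 2) := by
    have := d_add_two i
    rw [mid, mid, ← this]; abel
  have e2 : mid x i = mid x (i + 1) - d (i + 2) := by
    rw [e1]; abel
  constructor
  · rw [e1]
    have := dn_add_le (mid x i) (d (i + 2))
    omega
  · have := dn_sub_le (mid x (i + 1)) (d (i + 2))
    rw [← e2] at this
    omega

lemma strip_adj_dn {ω : Site → Bool} {s : Bool} {M M' : Site} (h : (strip ω s).Adj M M') :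
    dn M' ≤ dn M + 2 := by
  obtain ⟨x, i, h, _⟩ := h
  have key := dn_mid_succ x i
  rcases h with ⟨rfl, rfl⟩ | ⟨rfl, rfl⟩
  · exact key.1
  · exact key.2

/-- The first vertex at distance at least `c`. -/
lemma exists_first {ω : Site → Bool} {s : Bool} {c : ℤ} {M M' : Site}
    (h : (strip ω s).Reachable M M') (h0 : dn M < c + 2) (h1 : c ≤ dn M') :
    ∃ N, (strip ω s).Reachable M N ∧ c ≤ dn N ∧ dn N < c + 2 := by
  obtain ⟨p⟩ := h
  induction p with
  | nil => exact ⟨_, SimpleGraph.Reachable.refl _, h1, h0⟩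
  | @cons u v w hadj p ih =>
    by_cases hc : c ≤ dn u
    · exact ⟨u, SimpleGraph.Reachable.refl _, hc, h0⟩
    · have := strip_adj_dn hadj
      obtain ⟨N, hN, hN'⟩ := ih (by omega) h1
      exact ⟨N, hadj.reachable.trans hN, hN'⟩

/-- The sites on which the event `SC a b` depends. -/
def dom (b : ℤ) : Set Site := {z | dn (z + z) ≤ b + 6}

lemma dom_finite (b : ℤ) : (dom b).Finite := by
  apply (Set.finite_Icc ((-|b + 6|, -|b + 6|) : Site) (|b + 6|, |b + 6|)).subset
  intro z hz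
  have h1 : dn (z + z) ≤ b + 6 := hz
  rw [dn_le] at h1
  simp only [Prod.fst_add, Prod.snd_add] at h1
  rw [Set.mem_Icc, Prod.le_def, Prod.le_def]
  simp only
  have h2 := le_abs_self (b + 6)
  generalize |b + 6| = c at *
  omega

lemma strip_local {ω ω' : Site → Bool} {b : ℤ} (h : ∀ x ∈ dom b, ω x = ω' x) {s : Bool}
    {M M' : Site} (hM : dn M < b) (hadj : (strip ω s).Adj M M') : (strip ω' s).Adj M M' := by
  obtain ⟨x, i, hx, h1, h2, h3⟩ := hadj
  have key : x ∈ dom b ∧ x + d i ∈ dom b ∧ x + d (i + 1) ∈ dom b := by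
    show dn (x + x) ≤ b + 6 ∧ dn ((x + d i) + (x + d i)) ≤ b + 6 ∧
      dn ((x + d (i + 1)) + (x + d (i + 1))) ≤ b + 6
    rcases hx with ⟨rfl, rfl⟩ | ⟨rfl, rfl⟩
    · have := dn_tri x i
      omega
    · have := dn_tri' x i
      omega
  exact ⟨x, i, hx, (h _ key.1).symm.trans h1, (h _ key.2.1).symm.trans h2,
    (h _ key.2.2).symm.trans h3⟩

lemma reach_local {ω ω' : Site → Bool} {b : ℤ} (h : ∀ x ∈ dom b, ω x = ω' x) {s : Bool}
    {M M' : Site} (hr : (strip ω s).Reachable M M') (hM' : b ≤ dn M') :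
    ∃ N, (strip ω' s).Reachable M N ∧ b ≤ dn N := by
  obtain ⟨p⟩ := hr
  induction p with
  | nil => exact ⟨_, SimpleGraph.Reachable.refl _, hM'⟩
  | @cons u v w hadj p ih =>
    by_cases hc : b ≤ dn u
    · exact ⟨u, SimpleGraph.Reachable.refl _, hc⟩
    · obtain ⟨N, hN, hN'⟩ := ih hM'
      exact ⟨N, (strip_local h (by omega) hadj).reachable.trans hN, hN'⟩

lemma SC_loc_dom (a b : ℤ) : Loc (dom b) (SC a b) := by
  have key : ∀ ω ω' : Site → Bool, (∀ x ∈ dom b, ω x = ω' x) → ω ∈ SC a b → ω' ∈ SC a b := by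
    rintro ω ω' h ⟨M, M', h1, h2, h3⟩
    obtain ⟨N, hN, hN'⟩ := reach_local h h3 h2
    exact ⟨M, N, h1, hN', hN⟩
  intro ω ω' h
  exact ⟨key ω ω' h, key ω' ω (fun x hx => (h x hx).symm)⟩

/-- `SC a b` is a local event (stop the path when it first leaves `dn < b`). -/
theorem SC_local (a b : ℤ) : ∃ D : Set Site, D.Finite ∧ Loc D (SC a b) :=
  ⟨dom b, dom_finite b, SC_loc_dom a b⟩

/-! ### Translations -/

/-- Translations are graph homomorphisms. -/
def stripHom (x : Site) (ω : Site → Bool) (s : Bool) : strip ω s →g strip (shift x ω) s where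
  toFun M := M - (x + x)
  map_rel' := by
    rintro M M' ⟨y, i, h, h1, h2, h3⟩
    have e : ∀ j : Fin 6, mid (y - x) j = mid y j - (x + x) := by
      intro j; rw [mid, mid]; abel
    refine ⟨y - x, i, ?_, ?_, ?_, ?_⟩
    · rcases h with ⟨rfl, rfl⟩ | ⟨rfl, rfl⟩
      · left; exact ⟨(e _).symm, (e _).symm⟩
      · right; exact ⟨(e _).symm, (e _).symm⟩
    · rw [shift_apply, sub_add_cancel]; exact h1
    · rw [shift_apply]
      have : y - x + d i + x = y + d i := by abel
      rw [this]; exact h2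
    · rw [shift_apply]
      have : y - x + d (i + 1) + x = y + d (i + 1) := by abel
      rw [this]; exact h3

lemma shift_SC {x : Site} {ω : Site → Bool} {a b : ℤ} {M M' : Site}
    (h1 : dn (M - (x + x)) ≤ a) (h2 : b ≤ dn (M' - (x + x)))
    (h : (strip ω false).Reachable M M') : shift x ω ∈ SC a b :=
  ⟨M - (x + x), M' - (x + x), h1, h2, h.map (stripHom x ω false)⟩

lemma shift_loc {D : Set Site} {E : Set (Site → Bool)} (hE : Loc D E) (x : Site) :
    Loc {z | z - x ∈ D} (shift x ⁻¹' E) := by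
  intro ω ω' h
  apply hE
  intro y hy
  rw [shift_apply, shift_apply]
  apply h
  show y + x - x ∈ D
  rwa [add_sub_cancel_right]

/-- Two distant translates of `SC` are independent. -/
lemma SC_indep (p : unitInterval) (a b : ℤ) {x y : Site}
    (h : 2 * b + 12 < dn ((x - y) + (x - y))) :
    labels p (shift x ⁻¹' (SC a b) ∩ shift y ⁻¹' (SC a b)) = labels p (SC a b) ^ 2 := by
  rw [indep_local p (D := {z | z - x ∈ dom b}) (D' := {z | z - y ∈ dom b}) _ _ _
    (shift_loc (SC_loc_dom a b) x) (shift_loc (SC_loc_dom a b) y), labels_shift, labels_shift, sq]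
  · apply (dom_finite b).preimage
    intro u _ v _ huv
    exact sub_left_injective huv
  · apply (dom_finite b).preimage
    intro u _ v _ huv
    exact sub_left_injective huv
  · rw [Set.disjoint_left]
    intro z hz hz'
    have h1 : dn ((z - x) + (z - x)) ≤ b + 6 := hz
    have h2 : dn ((z - y) + (z - y)) ≤ b + 6 := hz'
    have h3 := dn_sub_le ((z - y) + (z - y)) ((z - x) + (z - x))
    have e : (z - y) + (z - y) - ((z - x) + (z - x)) = (x - y) + (x - y) := by abel
    rw [e] at h3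
    omega

/-! ### The recursion -/

/-- The corner of the cell of a point. -/
lemma exists_cell (a : ℕ) (ha : 1 ≤ a) (M : Site) :
    ∃ u : Site, dn (M - (((a : ℤ) * u.1, (a : ℤ) * u.2) + ((a : ℤ) * u.1, (a : ℤ) * u.2))) ≤ 6 * a := by
  have ha' : (0 : ℤ) < 2 * a := by omega
  refine ⟨(M.1 / (2 * a), M.2 / (2 * a)), ?_⟩
  have h1 := Int.emod_add_mul_ediv M.1 (2 * a)
  have h2 := Int.emod_add_mul_ediv M.2 (2 * a)
  have h3 := Int.emod_nonneg M.1 ha'.ne'
  have h4 := Int.emod_nonneg M.2 ha'.ne'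
  have h5 := Int.emod_lt_of_pos M.1 ha'
  have h6 := Int.emod_lt_of_pos M.2 ha'
  rw [dn_le]
  simp only [Prod.fst_sub, Prod.snd_sub, Prod.fst_add, Prod.snd_add]
  have e1 : M.1 - ((a : ℤ) * (M.1 / (2 * a)) + (a : ℤ) * (M.1 / (2 * a))) = M.1 % (2 * a) := by
    linear_combination -h1
  have e2 : M.2 - ((a : ℤ) * (M.2 / (2 * a)) + (a : ℤ) * (M.2 / (2 * a))) = M.2 % (2 * a) := by
    linear_combination -h2
  rw [e1, e2]
  omega

/-- Scaled site. -/
def sc (a : ℕ) (u : Site) : Site := ((a : ℤ) * u.1, (a : ℤ) * u.2)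

/-- The indices of cells. -/
noncomputable def cells : Finset Site := Finset.Icc (-134 : ℤ) 134 ×ˢ Finset.Icc (-134 : ℤ) 134

lemma card_cells : cells.card = 269 ^ 2 := by
  rw [cells, Finset.card_product, Int.card_Icc]
  have : (134 + 1 - -134 : ℤ).toNat = 269 := rfl
  rw [this]
  norm_num

lemma mem_cells_of_dn {a : ℕ} (ha : 1 ≤ a) {u : Site} (h : dn (sc a u + sc a u) ≤ 268 * a) :
    u ∈ cells := by
  rw [dn_le] at h
  simp only [sc, Prod.fst_add, Prod.snd_add] at h
  have ha' : (0 : ℤ) < a := by omega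
  have h1 : (a : ℤ) * u.1 ≤ a * 134 := by linarith [h.2.1, h.2.2.2.1]
  have h2 : (a : ℤ) * (-134) ≤ a * u.1 := by linarith [h.1, h.2.2.1]
  have h3 : (a : ℤ) * u.2 ≤ a * 134 := by linarith [h.1, h.2.2.2.2.2]
  have h4 : (a : ℤ) * (-134) ≤ a * u.2 := by linarith [h.2.1, h.2.2.2.2.1]
  rw [cells, Finset.mem_product, Finset.mem_Icc, Finset.mem_Icc]
  exact ⟨⟨le_of_mul_le_mul_left h2 ha', le_of_mul_le_mul_left h1 ha'⟩,
    ⟨le_of_mul_le_mul_left h4 ha', le_of_mul_le_mul_left h3 ha'⟩⟩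

attribute [irreducible] cells

/-- Distant pairs of cells. -/
noncomputable def pairs (a : ℕ) : Finset (Site × Site) := (cells ×ˢ cells).filter
  (fun q : Site × Site => 2 * (18 * (a : ℤ)) + 12 <
    dn ((sc a q.1 - sc a q.2) + (sc a q.1 - sc a q.2)))

lemma mem_pairs {a : ℕ} {u v : Site} : (u, v) ∈ pairs a ↔ (u ∈ cells ∧ v ∈ cells) ∧
    2 * (18 * (a : ℤ)) + 12 < dn ((sc a u - sc a v) + (sc a u - sc a v)) := by
  rw [pairs, Finset.mem_filter, Finset.mem_product]

lemma card_pairs (a : ℕ) : (pairs a).card ≤ 269 ^ 4 := by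
  calc (pairs a).card ≤ (cells ×ˢ cells).card := Finset.card_filter_le _ _
    _ = 269 ^ 4 := by rw [Finset.card_product, card_cells]; norm_num

lemma SC_subset (a : ℕ) (ha : 1 ≤ a) : SC (96 * a) (288 * a) ⊆ ⋃ q ∈ pairs a,
      (shift (sc a q.1) ⁻¹' (SC (6 * a) (18 * a)) ∩ shift (sc a q.2) ⁻¹' (SC (6 * a) (18 * a))) := by
  rintro ω ⟨M, M', hM, hM', hr⟩
  have ha' : (1 : ℤ) ≤ a := by exact_mod_cast ha
  obtain ⟨N1, hN1, hN1a, hN1b⟩ := exists_first (c := 120 * a) hr (by omega) (by omega)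
  obtain ⟨N2, hN2, hN2a, hN2b⟩ := exists_first (c := 260 * a) hr (by omega) (by omega)
  obtain ⟨u1, hu1⟩ := exists_cell a ha N1
  obtain ⟨u2, hu2⟩ := exists_cell a ha N2
  change dn (N1 - (sc a u1 + sc a u1)) ≤ 6 * a at hu1
  change dn (N2 - (sc a u2 + sc a u2)) ≤ 6 * a at hu2
  -- the norms of the corners
  have g1 : dn (sc a u1 + sc a u1) ≤ 126 * a + 1 := by
    have := dn_sub_le N1 (N1 - (sc a u1 + sc a u1))
    rw [sub_sub_cancel] at this
    omega
  have g1' : 114 * a ≤ dn (sc a u1 + sc a u1) := by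
    have := dn_le_add_sub N1 (sc a u1 + sc a u1)
    omega
  have g2 : dn (sc a u2 + sc a u2) ≤ 266 * a + 1 := by
    have := dn_sub_le N2 (N2 - (sc a u2 + sc a u2))
    rw [sub_sub_cancel] at this
    omega
  have g2' : 254 * a ≤ dn (sc a u2 + sc a u2) := by
    have := dn_le_add_sub N2 (sc a u2 + sc a u2)
    omega
  rw [Set.mem_iUnion₂]
  refine ⟨(u1, u2), ?_, ?_, ?_⟩
  · have c1 : u1 ∈ cells := mem_cells_of_dn ha (g1.trans (by omega))
    have c2 : u2 ∈ cells := mem_cells_of_dn ha (g2.trans (by omega))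
    rw [mem_pairs]
    refine ⟨⟨c1, c2⟩, ?_⟩
    have h3 := dn_le_add_sub (sc a u2 + sc a u2) (sc a u1 + sc a u1)
    have e : sc a u2 + sc a u2 - (sc a u1 + sc a u1) =
        -((sc a u1 - sc a u2) + (sc a u1 - sc a u2)) := by abel
    rw [e, dn_neg] at h3
    omega
  · apply shift_SC hu1 _ (hN1.symm)
    have := dn_le_add_sub (sc a u1 + sc a u1) M
    have e : dn (sc a u1 + sc a u1 - M) = dn (M - (sc a u1 + sc a u1)) := by
      rw [← dn_neg]; congr 1; abel
    rw [e] at this
    omega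
  · apply shift_SC hu2 _ (hN2.symm.trans hr)
    have := dn_le_add_sub M' (sc a u2 + sc a u2)
    omega

/-- The constant of the recursion. -/
noncomputable def CC : ENNReal := 269 ^ 4

theorem recursion (p : unitInterval) (a : ℕ) (ha : 1 ≤ a) :
    labels p (SC (96 * a) (288 * a)) ≤ CC * labels p (SC (6 * a) (18 * a)) ^ 2 := by
  calc labels p (SC (96 * a) (288 * a)) ≤ _ := measure_mono (SC_subset a ha)
    _ ≤ ∑ q ∈ pairs a, labels p (shift (sc a q.1) ⁻¹' (SC (6 * a) (18 * a)) ∩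
        shift (sc a q.2) ⁻¹' (SC (6 * a) (18 * a))) := measure_biUnion_finset_le _ _
    _ = ∑ q ∈ pairs a, labels p (SC (6 * a) (18 * a)) ^ 2 := by
        apply Finset.sum_congr rfl
        rintro ⟨u, v⟩ hq
        rw [mem_pairs] at hq
        exact SC_indep p _ _ hq.2
    _ ≤ CC * labels p (SC (6 * a) (18 * a)) ^ 2 := by
        rw [Finset.sum_const, nsmul_eq_mul]
        gcongr
        rw [CC]
        exact_mod_cast card_pairs a

/-- The probability of a crossing at scale `a`. -/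
noncomputable def pp (p : unitInterval) (a : ℕ) : ENNReal := labels p (SC (6 * a) (18 * a))

lemma pp_succ (p : unitInterval) (a : ℕ) (ha : 1 ≤ a) : pp p (16 * a) ≤ CC * pp p a ^ 2 := by
  have h := recursion p a ha
  have e1 : (6 * ((16 * a : ℕ) : ℤ)) = 96 * a := by push_cast; ring
  have e2 : (18 * ((16 * a : ℕ) : ℤ)) = 288 * a := by push_cast; ring
  rw [pp, e1, e2]
  exact h

lemma pp_pow (p : unitInterval) (a : ℕ) (ha : 1 ≤ a) (h : CC * pp p a ≤ 2⁻¹) (m : ℕ) :
    CC * pp p (16 ^ m * a) ≤ 2⁻¹ ^ (2 ^ m) := by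
  induction m with
  | zero => simpa using h
  | succ m ih =>
    have e : 16 ^ (m + 1) * a = 16 * (16 ^ m * a) := by ring
    rw [e]
    calc CC * pp p (16 * (16 ^ m * a)) ≤ CC * (CC * pp p (16 ^ m * a) ^ 2) := by
          gcongr
          exact pp_succ p _ (Nat.one_le_iff_ne_zero.2 (by positivity))
      _ = (CC * pp p (16 ^ m * a)) ^ 2 := by ring
      _ ≤ (2⁻¹ ^ (2 ^ m)) ^ 2 := by gcongr
      _ = 2⁻¹ ^ (2 ^ (m + 1)) := by rw [← pow_mul, pow_succ]

lemma one_le_CC : (1 : ENNReal) ≤ CC := by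
  rw [CC]
  exact one_le_pow₀ (by norm_num)

lemma pp_pow' (p : unitInterval) (a : ℕ) (ha : 1 ≤ a) (h : CC * pp p a ≤ 2⁻¹) (m : ℕ) :
    pp p (16 ^ m * a) ≤ 2⁻¹ ^ (2 ^ m) := by
  calc pp p (16 ^ m * a) = 1 * pp p (16 ^ m * a) := (one_mul _).symm
    _ ≤ CC * pp p (16 ^ m * a) := by gcongr; exact one_le_CC
    _ ≤ _ := pp_pow p a ha h m

/-! ### Arcs -/

lemma Arc_le (p : unitInterval) (k : ℤ) (b : ℕ) (hb : 1 ≤ b) (h : 18 * (b : ℤ) ≤ 4 * k + 2) :
    labels p (Arc false k) ≤ pp p b := by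
  have hsub : Arc false k ⊆ shift ((k, 0) : Site) ⁻¹' (SC (6 * b) (18 * b)) := by
    rintro ω ⟨j, hj⟩
    apply shift_SC _ _ hj
    · have e : mid (k, 0) 0 - ((k, 0) + (k, 0)) = d 0 := by
        rw [mid]; abel
      rw [e, dn_d]
      omega
    · have e : mid ((-j - 1 : ℤ), 0) 0 - (((k, 0) : Site) + (k, 0)) =
          ((-(2 * j + 1 + 2 * k) : ℤ), (0 : ℤ)) := by
        rw [Prod.ext_iff]
        constructor
        · show ((-j - 1) + (-j - 1) + 1 : ℤ) - (k + k) = _
          simp only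
          ring
        · show (0 + 0 + 0 : ℤ) - (0 + 0) = _
          simp
      rw [e]
      rw [dn]
      refine le_trans ?_ (le_max_right _ _)
      refine le_trans ?_ (le_max_left _ _)
      simp only
      refine le_trans ?_ (neg_le_abs _)
      omega
  calc labels p (Arc false k) ≤ _ := measure_mono hsub
    _ = pp p b := by rw [labels_shift, pp]

lemma exists_scale {a : ℕ} (ha : 1 ≤ a) (m₀ : ℕ) {k : ℕ} (hk : 5 * (16 ^ m₀ * a) ≤ k) :
    ∃ n, 5 * (16 ^ (m₀ + n) * a) ≤ k ∧ k < 80 * (16 ^ (m₀ + n) * a) := by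
  have hex : ∃ n, k < 80 * (16 ^ (m₀ + n) * a) := by
    refine ⟨k, ?_⟩
    have h1 : k < 16 ^ k := Nat.lt_pow_self (by norm_num)
    have h2 : 16 ^ k ≤ 16 ^ (m₀ + k) := Nat.pow_le_pow_right (by norm_num) (by omega)
    have h3 : 16 ^ (m₀ + k) * 1 ≤ 16 ^ (m₀ + k) * a := Nat.mul_le_mul_left _ ha
    omega
  refine ⟨Nat.find hex, ?_, Nat.find_spec hex⟩
  rcases Nat.eq_zero_or_pos (Nat.find hex) with h | h
  · rw [h]; exact hk
  · obtain ⟨j, hj⟩ : ∃ j, Nat.find hex = j + 1 := ⟨Nat.find hex - 1, by omega⟩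
    have h1 := Nat.find_min hex (m := j) (by omega)
    rw [hj]
    have e : 16 ^ (m₀ + (j + 1)) * a = 16 * (16 ^ (m₀ + j) * a) := by ring
    rw [e]
    omega

lemma two_pow_ge {m : ℕ} (h : 10 ≤ m) : 6 * m + 10 ≤ 2 ^ m := by
  induction m, h using Nat.le_induction with
  | base => norm_num
  | succ m hm ih => rw [pow_succ]; omega

lemma two_pow_mul (j i : ℕ) : (2 : ENNReal) ^ j * 2⁻¹ ^ (j + i) = 2⁻¹ ^ i := by
  rw [pow_add, ← mul_assoc, ← mul_pow, ENNReal.mul_inv_cancel (by norm_num) (by norm_num),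
    one_pow, one_mul]

lemma term_le {a m : ℕ} (h : a + 10 ≤ m) :
    ((75 * (16 ^ m * a) : ℕ) : ENNReal) * 2⁻¹ ^ (2 ^ m) ≤ 2⁻¹ ^ (m + 3) := by
  have h1 : 75 * (16 ^ m * a) ≤ 2 ^ (7 + 4 * m + a) := by
    have h2 : a ≤ 2 ^ a := Nat.lt_two_pow_self.le
    have h3 : (16 : ℕ) ^ m = 2 ^ (4 * m) := by rw [pow_mul]; norm_num
    rw [pow_add, pow_add, h3]
    calc 75 * (2 ^ (4 * m) * a) ≤ 2 ^ 7 * (2 ^ (4 * m) * 2 ^ a) := by gcongr; norm_num
      _ = _ := by ring
  have h2 : 7 + 4 * m + a + (m + 3) ≤ 2 ^ m := by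
    have := two_pow_ge (m := m) (by omega)
    omega
  calc ((75 * (16 ^ m * a) : ℕ) : ENNReal) * 2⁻¹ ^ (2 ^ m)
      ≤ ((2 ^ (7 + 4 * m + a) : ℕ) : ENNReal) * 2⁻¹ ^ (7 + 4 * m + a + (m + 3)) := by
        gcongr ?_ * ?_
        · exact_mod_cast h1
        · exact pow_le_pow_right_of_le_one' (by norm_num) h2
    _ = 2⁻¹ ^ (m + 3) := by
        push_cast
        exact two_pow_mul _ _

/-- Beyond a large distance there is no arc, with probability at least one half. -/
lemma arcs_lt (p : unitInterval) (a : ℕ) (ha : 1 ≤ a) (h : CC * pp p a ≤ 2⁻¹) :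
    ∃ R : ℕ, labels p (⋃ k : ℕ, Arc false ((R : ℤ) + k)) < 1 := by
  refine ⟨5 * (16 ^ (a + 10) * a), ?_⟩
  have hsub : (⋃ k : ℕ, Arc false (((5 * (16 ^ (a + 10) * a) : ℕ) : ℤ) + k)) ⊆
      ⋃ n : ℕ, ⋃ r ∈ Finset.range (75 * (16 ^ (a + 10 + n) * a)),
        Arc false (((5 * (16 ^ (a + 10 + n) * a) : ℕ) : ℤ) + (r : ℤ)) := by
    intro ω hω
    rw [Set.mem_iUnion] at hω ⊢
    obtain ⟨k, hk⟩ := hω
    obtain ⟨n, hn1, hn2⟩ := exists_scale ha (a + 10) (k := 5 * (16 ^ (a + 10) * a) + k) (by omega)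
    refine ⟨n, ?_⟩
    rw [Set.mem_iUnion₂]
    refine ⟨5 * (16 ^ (a + 10) * a) + k - 5 * (16 ^ (a + 10 + n) * a), ?_, ?_⟩
    · rw [Finset.mem_range]; omega
    · have e : ((5 * (16 ^ (a + 10 + n) * a) : ℕ) : ℤ) +
          ((5 * (16 ^ (a + 10) * a) + k - 5 * (16 ^ (a + 10 + n) * a) : ℕ) : ℤ) =
          ((5 * (16 ^ (a + 10) * a) : ℕ) : ℤ) + k := by
        rw [Nat.cast_sub hn1, Nat.cast_add]
        ring
      rw [e]; exact hk
  calc labels p (⋃ k : ℕ, Arc false (((5 * (16 ^ (a + 10) * a) : ℕ) : ℤ) + k))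
      ≤ _ := measure_mono hsub
    _ ≤ ∑' n : ℕ, ∑ r ∈ Finset.range (75 * (16 ^ (a + 10 + n) * a)),
          labels p (Arc false (((5 * (16 ^ (a + 10 + n) * a) : ℕ) : ℤ) + (r : ℤ))) :=
        (measure_iUnion_le _).trans (ENNReal.tsum_le_tsum fun n => measure_biUnion_finset_le _ _)
    _ ≤ ∑' n : ℕ, ∑ r ∈ Finset.range (75 * (16 ^ (a + 10 + n) * a)),
          (2⁻¹ : ENNReal) ^ (2 ^ (a + 10 + n)) := by
        apply ENNReal.tsum_le_tsum
        intro n
        apply Finset.sum_le_sum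
        intro r _
        have hb : 1 ≤ 16 ^ (a + 10 + n) * a := Nat.one_le_iff_ne_zero.2 (by positivity)
        refine (Arc_le p _ _ hb ?_).trans (pp_pow' p a ha h _)
        clear hb
        generalize 16 ^ (a + 10 + n) * a = b
        push_cast
        omega
    _ = ∑' n : ℕ, ((75 * (16 ^ (a + 10 + n) * a) : ℕ) : ENNReal) * 2⁻¹ ^ (2 ^ (a + 10 + n)) := by
        congr 1
        funext n
        rw [Finset.sum_const, Finset.card_range, nsmul_eq_mul]
    _ ≤ ∑' n : ℕ, (2⁻¹ : ENNReal) ^ (a + 10 + n + 3) :=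
        ENNReal.tsum_le_tsum fun n => term_le (by omega)
    _ ≤ ∑' n : ℕ, (2⁻¹ : ENNReal) ^ 2 * 2⁻¹ ^ n := by
        apply ENNReal.tsum_le_tsum
        intro n
        rw [← pow_add]
        exact pow_le_pow_right_of_le_one' (by norm_num) (by omega)
    _ = 2⁻¹ := by
        rw [ENNReal.tsum_mul_left, ENNReal.tsum_geometric, ENNReal.one_sub_inv_two, inv_inv, sq,
          mul_assoc, ENNReal.inv_mul_cancel (by norm_num) (by norm_num), mul_one]
    _ < 1 := by norm_num

/-! ### The dichotomy for open edges -/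

/-- If all components of `orGraph ω` meeting the box are finite, there is a `BB` arc. -/
theorem or_dichotomy (ω : Site → Bool) (R : ℕ)
    (hfin : ∀ x ∈ box R, {y | (orGraph ω).Reachable x y}.Finite) :
    ∃ k : ℤ, (R : ℤ) ≤ k ∧ ω ∈ Arc false k := by
  set U : Set Site := {y | ∃ x ∈ box R, (orGraph ω).Reachable x y} with hUdef
  have hUfin : U.Finite := by
    have : U = ⋃ x ∈ box R, {y | (orGraph ω).Reachable x y} := by ext y; simp [hUdef]
    rw [this]
    exact (box_finite R).biUnion hfin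
  have hbU : box R ⊆ U := fun x hx => ⟨x, hx, SimpleGraph.Reachable.refl _⟩
  have hconn : ∀ h : Site → ZMod 2, (∀ x ∈ U, ∀ i, x + d i ∈ U → h x = h (x + d i)) →
      ∀ x ∈ U, ∀ y ∈ U, h x = h y := by
    intro h hh
    have h1 := box_conn hbU h hh
    have h2 : ∀ x ∈ U, h x = h 0 := by
      rintro y ⟨x, hx, hxy⟩
      rw [← h1 x hx]
      have key : ∀ y, (orGraph ω).Reachable x y → h y = h x := by
        intro y hy
        rw [SimpleGraph.reachable_iff_reflTransGen] at hy
        induction hy with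
        | refl => rfl
        | tail h3 h4 ih =>
          rename_i a b
          obtain ⟨⟨i, rfl⟩, _⟩ := id h4
          rw [← ih]
          have ha : (orGraph ω).Reachable x a := by
            rw [SimpleGraph.reachable_iff_reflTransGen]; exact h3
          exact (hh a ⟨x, hx, ha⟩ i ⟨x, hx, ha.trans (SimpleGraph.Adj.reachable h4)⟩).symm
      exact key y hxy
    intro x hx y hy
    rw [h2 x hx, h2 y hy]
  have hcut' : ∀ x ∈ U, ∀ i, x + d i ∉ U → ω x = false ∧ ω (x + d i) = false := by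
    rintro x ⟨z, hz, hzx⟩ i hi
    have key : ¬ (ω x = true ∨ ω (x + d i) = true) := by
      intro hor
      apply hi
      exact ⟨z, hz, hzx.trans (SimpleGraph.Adj.reachable ⟨⟨i, rfl⟩, hor⟩)⟩
    rw [not_or, Bool.not_eq_true, Bool.not_eq_true] at key
    exact key
  have hcut : ∀ x ∈ U, ∀ i, x + d i ∉ U → ω x = ω (x + d i) := by
    intro x hx i hi
    rw [(hcut' x hx i hi).1, (hcut' x hx i hi).2]
  obtain ⟨k, hk1, hk2, hk3⟩ := exists_max hUfin (R := (R : ℤ)) (hbU (by rw [mem_box]; simp))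
  obtain ⟨J, hJ1, hJ2, hJ3⟩ := outer_boundary hUfin hconn hk2 hk3
  have hk4 : ((k, 0) : Site) + d 0 ∉ U := by
    have : ((k, 0) : Site) + d 0 = (k + 1, 0) := by simp [d]
    rw [this]; exact hk3 _ (by omega)
  have hcls : ∀ M ∈ cls U (mid (k, 0) 0), _ := fun M hM => cls_strip hcut hk2 hk4 hM
  refine ⟨k, hk1, ?_⟩
  obtain ⟨j, hj1, hj2⟩ := exists_last hJ1 (hJ2 (hbU (zero_mem_box R)))
  refine ⟨j, ?_⟩
  have e1 : ((-(j : ℤ), 0) : Site) + d 3 = (-(j : ℤ) - 1, 0) := by
    simp [d, sub_eq_add_neg]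
  have e2 : mid (-(j : ℤ) - 1, 0) 0 = mid (-(j : ℤ), 0) 3 := by
    rw [← e1]; exact mid_rev (-(j : ℤ), 0) 3
  rw [e2]
  have e3 := (hcls _ (hJ3 _ hj1 3 (by rw [e1]; exact hj2))).1
  rw [(hcut' _ hk2 0 hk4).1] at e3
  exact e3

/-- The `A` sites of a component of `orGraph ω` are connected in the distance-two graph. -/
lemma or_two {ω : Site → Bool} {x y : Site} (hx : ω x = true) (h : (orGraph ω).Reachable x y) :
    (ω y = true → (twoGraph ω).Reachable x y) ∧
      (ω y = false → ∃ i, (twoGraph ω).Reachable x (y + d i)) := by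
  rw [SimpleGraph.reachable_iff_reflTransGen] at h
  induction h with
  | refl => exact ⟨fun _ => SimpleGraph.Reachable.refl _, fun h => by rw [hx] at h; cases h⟩
  | @tail a b _ hab ih =>
    obtain ⟨hab, hor⟩ := hab
    constructor
    · intro hb
      cases ha : ω a
      · obtain ⟨i, hi⟩ := ih.2 ha
        by_cases he : a + d i = b
        · rwa [he] at hi
        · refine hi.trans (SimpleGraph.Adj.reachable ⟨he, ?_, hb, Or.inr ⟨a, ?_, hab⟩⟩)
          · have key : ∀ z, (twoGraph ω).Reachable x z → ω z = true := by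
              intro z hz
              rw [SimpleGraph.reachable_iff_reflTransGen] at hz
              rcases Relation.ReflTransGen.cases_tail hz with h | ⟨c, _, h⟩
              · rw [h]; exact hx
              · exact h.2.2.1
            exact key _ hi
          · exact SimpleGraph.Adj.symm (G := tri) ⟨i, rfl⟩
      · exact (ih.1 ha).trans (SimpleGraph.Adj.reachable ⟨hab.ne, ha, hb, Or.inl hab⟩)
    · intro hb
      have ha : ω a = true := by
        rcases hor with h | h
        · exact h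
        · rw [hb] at h; cases h
      obtain ⟨i, hi⟩ := hab.symm
      refine ⟨i, ?_⟩
      rw [← hi]
      exact ih.1 ha

lemma two_infinite_of_or {ω : Site → Bool} {x : Site} (hx : ω x = true)
    (h : {y | (orGraph ω).Reachable x y}.Infinite) :
    {y | (twoGraph ω).Reachable x y}.Infinite := by
  intro hfin
  apply h
  have h2 : {y | (orGraph ω).Reachable x y} ⊆
      {y | (twoGraph ω).Reachable x y} ∪ ⋃ i : Fin 6, (fun y => y - d i) ''
        {y | (twoGraph ω).Reachable x y} := by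
    intro y hy
    obtain ⟨h1, h2⟩ := or_two hx hy
    cases hb : ω y
    · right
      obtain ⟨i, hi⟩ := h2 hb
      rw [Set.mem_iUnion]
      exact ⟨i, y + d i, hi, by simp⟩
    · exact Or.inl (h1 hb)
  exact (hfin.union (Set.finite_iUnion fun i => hfin.image _)).subset h2

/-- The probability of an infinite component of open edges at `x` is at most `7 ψ(p)`. -/
theorem or_le_psi (p : unitInterval) (x : Site) :
    labels p {ω | {y | (orGraph ω).Reachable x y}.Infinite} ≤ 7 * psi p := by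
  have hsub : {ω | {y | (orGraph ω).Reachable x y}.Infinite} ⊆
      {ω | {y | (twoGraph ω).Reachable x y}.Infinite} ∪
        ⋃ i ∈ (Finset.univ : Finset (Fin 6)),
          {ω | {y | (twoGraph ω).Reachable (x + d i) y}.Infinite} := by
    intro ω hω
    cases h0 : ω x
    · right
      have : ∃ i, (orGraph ω).Adj x (x + d i) := by
        by_contra hcon
        push Not at hcon
        apply hω
        apply (Set.finite_singleton x).subset
        intro y hy
        rw [Set.mem_ofPred_eq, SimpleGraph.reachable_iff_reflTransGen] at hy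
        rcases Relation.ReflTransGen.cases_head hy with h | ⟨c, h, _⟩
        · exact h.symm
        · obtain ⟨⟨i, hi⟩, h'⟩ := id h
          rw [hi] at h
          exact absurd h (hcon i)
      obtain ⟨i, hi⟩ := this
      have hdi : ω (x + d i) = true := by
        rcases hi.2 with h | h
        · rw [h0] at h; cases h
        · exact h
      simp only [Finset.mem_univ, Set.iUnion_true, Set.mem_iUnion]
      refine ⟨i, two_infinite_of_or hdi ?_⟩
      have e : {y | (orGraph ω).Reachable (x + d i) y} = {y | (orGraph ω).Reachable x y} := by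
        ext y
        exact ⟨fun h => hi.reachable.trans h, fun h => hi.reachable.symm.trans h⟩
      rw [e]; exact hω
    · left
      exact two_infinite_of_or h0 hω
  calc labels p {ω | {y | (orGraph ω).Reachable x y}.Infinite}
      ≤ labels p ({ω | {y | (twoGraph ω).Reachable x y}.Infinite} ∪
        ⋃ i ∈ (Finset.univ : Finset (Fin 6)),
          {ω | {y | (twoGraph ω).Reachable (x + d i) y}.Infinite}) := measure_mono hsub
    _ ≤ psi p + ∑ i : Fin 6, labels p {ω | {y | (twoGraph ω).Reachable (x + d i) y}.Infinite} :=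
        (measure_union_le _ _).trans (add_le_add (psi_site p x).le (measure_biUnion_finset_le _ _))
    _ = psi p + ∑ _i : Fin 6, psi p := by
        congr 1
        exact Finset.sum_congr rfl fun i _ => psi_site p (x + d i)
    _ = 7 * psi p := by
        rw [Finset.sum_const, Finset.card_univ, Fintype.card_fin, nsmul_eq_mul]
        push_cast; ring

/-- **Finite-size criterion.** If strips of `BB` edges rarely cross an annulus at one scale, then
distance-two percolation of `A` sites occurs. -/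
theorem criterion : ∃ δ : ENNReal, 0 < δ ∧ ∀ (p : unitInterval) (a : ℕ), 1 ≤ a →
    labels p (SC (6 * a) (18 * a)) ≤ δ → 0 < psi p := by
  refine ⟨2⁻¹ / CC, ?_, ?_⟩
  · apply ENNReal.div_pos (by norm_num)
    rw [CC]
    exact ENNReal.pow_ne_top (by norm_num)
  · intro p a ha h
    have hCC : CC * pp p a ≤ 2⁻¹ := by
      calc CC * pp p a ≤ CC * (2⁻¹ / CC) := by gcongr; exact h
        _ ≤ 2⁻¹ := ENNReal.mul_div_le
    obtain ⟨R, hR⟩ := arcs_lt p a ha hCC
    rw [pos_iff_ne_zero]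
    intro hpsi
    have hnull : labels p (⋃ x ∈ box R, {ω | {y | (orGraph ω).Reachable x y}.Infinite}) = 0 := by
      rw [measure_biUnion_null_iff (box_finite _).countable]
      intro x _
      have := or_le_psi p x
      rw [hpsi, mul_zero] at this
      exact le_antisymm this bot_le
    have hsub : (Set.univ : Set (Site → Bool)) ⊆
        (⋃ x ∈ box R, {ω | {y | (orGraph ω).Reachable x y}.Infinite}) ∪
          ⋃ k : ℕ, Arc false ((R : ℤ) + k) := by
      intro ω _
      by_cases hfin : ∀ x ∈ box R, {y | (orGraph ω).Reachable x y}.Finite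
      · right
        obtain ⟨k, hk, hk'⟩ := or_dichotomy ω R hfin
        rw [Set.mem_iUnion]
        refine ⟨(k - R).toNat, ?_⟩
        have : (R : ℤ) + ((k - R).toNat : ℤ) = k := by omega
        rw [this]; exact hk'
      · left
        push Not at hfin
        obtain ⟨x, hx, h⟩ := hfin
        rw [Set.mem_iUnion₂]
        exact ⟨x, hx, h⟩
    have h1 : (1 : ENNReal) ≤ 0 + labels p (⋃ k : ℕ, Arc false ((R : ℤ) + k)) := by
      calc (1 : ENNReal) = labels p Set.univ := measure_univ.symm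
        _ ≤ _ := measure_mono hsub
        _ ≤ _ := measure_union_le _ _
        _ = _ := by rw [hnull]
    rw [zero_add] at h1
    exact absurd hR (not_lt.2 h1)

end MP_c38eaf_pr
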