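import Pool.Agent.Lib.MP_c38eaf_pr.Parity

/-!
# Two situations in which walks must meet
-/

namespace MP_c38eaf_pr

/-- A closing path on the line `z.1 + z.2 = N + 1`. -/
lemma exists_closing {N : ℤ} {a b : Site} (ha : a.1 + a.2 = N) (hb : b.1 + b.2 = N)
    (hab : b.2 ≤ a.2) : ∃ K : tri.Walk a b, ∀ z ∈ K.support, z = a ∨ z = b ∨ z.1 + z.2 = N + 1 := by
  obtain ⟨w, hw⟩ := exists_diag (b.1 + 1) b.2 (a.2 - b.2).toNat
  have e1 : (b.1 + 1, b.2) = b + d 0 := by
    have h0 : (d 0) = ((1, 0) : Site) := rfl
    rw [h0]; ext <;> simp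
  have e2 : (b.1 + 1 - ((a.2 - b.2).toNat : ℤ), b.2 + ((a.2 - b.2).toNat : ℤ)) = a + d 0 := by
    have h0 : (d 0) = ((1, 0) : Site) := rfl
    rw [h0]; ext <;> simp <;> omega
  refine ⟨SimpleGraph.Walk.cons (show tri.Adj a (a + d 0) from ⟨0, rfl⟩)
    ((w.copy e1 e2).reverse.append (SimpleGraph.Walk.cons
      (show tri.Adj (b + d 0) b from SimpleGraph.Adj.symm (G := tri) ⟨0, rfl⟩)
      SimpleGraph.Walk.nil)), ?_⟩
  intro z hz
  rw [SimpleGraph.Walk.support_cons, List.mem_cons, SimpleGraph.Walk.mem_support_append_iff,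
    SimpleGraph.Walk.support_reverse, List.mem_reverse, SimpleGraph.Walk.support_copy] at hz
  rcases hz with hz | hz | hz
  · exact Or.inl hz
  · have := (hw z hz).1
    right; right; omega
  · simp at hz
    rcases hz with hz | hz
    · right; right
      rw [hz]
      have h0 : (d 0) = ((1, 0) : Site) := rfl
      rw [h0]; simp; omega
    · exact Or.inr (Or.inl hz)

/-- A walk `P` ending on the line `z.1 + z.2 = N` between the two ends of `Q`, and starting beyond
`Q`, meets `Q`. -/
theorem hub_cross {N : ℤ} {s p a b : Site} (P : tri.Walk s p) (Q : tri.Walk b a)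
    (hP : ∀ z ∈ P.support, z.1 + z.2 ≤ N)
    (hQ : ∀ z ∈ Q.support, s.1 + s.2 < z.1 + z.2 ∧ z.1 + z.2 ≤ N)
    (hp : p.1 + p.2 = N) (ha : a.1 + a.2 = N) (hb : b.1 + b.2 = N)
    (h1 : b.2 ≤ p.2) (h2 : p.2 ≤ a.2) : ∃ z ∈ P.support, z ∈ Q.support := by
  by_contra hcon
  push Not at hcon
  have hpa : p ≠ a := fun h => hcon p P.end_mem_support (h ▸ Q.end_mem_support)
  have hpb : p ≠ b := fun h => hcon p P.end_mem_support (h ▸ Q.start_mem_support)
  have h1' : b.2 < p.2 := by
    rcases lt_or_eq_of_le h1 with h | h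
    · exact h
    · exact absurd (Prod.ext (by omega) h.symm) hpb
  have h2' : p.2 < a.2 := by
    rcases lt_or_eq_of_le h2 with h | h
    · exact h
    · exact absurd (Prod.ext (by omega) h) hpa
  obtain ⟨K, hK⟩ := exists_closing ha hb (h1.trans h2)
  have hsN : s.1 + s.2 < N := by
    have := (hQ a Q.end_mem_support).1
    omega
  have hdisj : ∀ z ∈ P.support, z ∉ (Q.append K).support := by
    intro z hz hz'
    rw [SimpleGraph.Walk.mem_support_append_iff] at hz'
    rcases hz' with h | h
    · exact hcon z hz h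
    · rcases hK z h with rfl | rfl | h
      · exact hcon _ hz Q.end_mem_support
      · exact hcon _ hz Q.start_mem_support
      · have := hP z hz; omega
  have hconst := cnt_const (Q.append K) P hdisj
  have hs0 : cnt s (Q.append K) = 0 := by
    rw [cnt_left s (Q.append K), zmod2_add_self']
    intro z hz hzs
    rw [SimpleGraph.Walk.mem_support_append_iff] at hz
    rcases hz with h | h
    · have := (hQ z h).1; omega
    · rcases hK z h with rfl | rfl | h
      · omega
      · omega
      · omega
  have hp1 : cnt p (Q.append K) = 1 := by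
    rw [cnt_append, cnt_right p Q, cnt_left p K]
    · rw [ind, ind, if_pos h2', if_neg (by omega)]; decide
    · intro z hz hzp
      rcases hK z hz with rfl | rfl | h
      · omega
      · omega
      · omega
    · intro z hz hzp
      have := (hQ z hz).2
      omega
  rw [hs0, hp1] at hconst
  exact absurd hconst (by decide)

/-- A walk `C` going from far left to far right in the slab `r1 < z.2 - z.1 < r2` meets any walk
`S` that goes from below the slab to above it between the ends of `C`. -/
theorem block_cross {r1 r2 : ℤ} {zL zR P Q : Site} (C : tri.Walk zL zR) (S : tri.Walk P Q)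
    (hC : ∀ z ∈ C.support, r1 < z.2 - z.1 ∧ z.2 - z.1 < r2)
    (hP : P.2 - P.1 ≤ r1) (hQ : r2 ≤ Q.2 - Q.1)
    (hS : ∀ z ∈ S.support, zL.1 < z.1 ∧ z.1 < zR.1) (hzQ : zL.2 ≤ Q.2) :
    ∃ z ∈ S.support, z ∈ C.support := by
  by_contra hcon
  push Not at hcon
  -- a height above everything
  obtain ⟨Y, hY⟩ : ∃ Y : ℤ, ∀ z ∈ S.support, z.2 < Y := by
    have h1 : {z | z ∈ S.support}.Finite := List.finite_toSet _
    obtain ⟨Y, hY⟩ := (h1.image (fun z : Site => z.2)).bddAbove
    exact ⟨Y + 1, fun z hz => by
      have : z.2 ≤ Y := hY ⟨z, hz, rfl⟩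
      omega⟩
  set T : ℤ := max Y (max zL.2 zR.2) with hT
  have hT1 : Y ≤ T := le_max_left _ _
  have hT2 : zL.2 ≤ T := (le_max_left _ _).trans (le_max_right _ _)
  have hT3 : zR.2 ≤ T := (le_max_right _ _).trans (le_max_right _ _)
  have hxLR : zL.1 < zR.1 := by
    have := hS P S.start_mem_support
    omega
  obtain ⟨K1, hK1⟩ := exists_up zR.1 zR.2 T hT3
  obtain ⟨K2, hK2⟩ := exists_horiz zL.1 zR.1 T hxLR.le
  obtain ⟨K3, hK3⟩ := exists_up zL.1 zL.2 T hT2
  have hCL := hC zL C.start_mem_support
  have hCR := hC zR C.end_mem_support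
  let γ : tri.Walk zL zL := C.append (K1.append (K2.reverse.append K3.reverse))
  have hmem : ∀ z, z ∈ γ.support ↔ z ∈ C.support ∨ z ∈ K1.support ∨ z ∈ K2.support ∨
      z ∈ K3.support := by
    intro z
    simp only [γ]
    rw [SimpleGraph.Walk.mem_support_append_iff, SimpleGraph.Walk.mem_support_append_iff,
      SimpleGraph.Walk.mem_support_append_iff, SimpleGraph.Walk.support_reverse,
      SimpleGraph.Walk.support_reverse, List.mem_reverse, List.mem_reverse]
  have hdisj : ∀ z ∈ S.support, z ∉ γ.support := by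
    intro z hz hz'
    rw [hmem] at hz'
    have h1 := hS z hz
    have h2 := hY z hz
    rcases hz' with h | h | h | h
    · exact hcon z hz h
    · have := hK1 z h; omega
    · have := hK2 z h; omega
    · have := hK3 z h; omega
  have hconst := cnt_const γ S hdisj
  have hP0 : cnt P γ = 0 := by
    apply cnt_right
    intro z hz hzP
    rw [hmem] at hz
    have hPs := hS P S.start_mem_support
    rcases hz with h | h | h | h
    · have := hC z h; omega
    · have := hK1 z h; omega
    · have := hK2 z h; omega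
    · have := hK3 z h; omega
  have hQ1 : cnt Q γ = 1 := by
    have hQs := hS Q S.end_mem_support
    have hQY := hY Q S.end_mem_support
    simp only [γ]
    rw [cnt_append, cnt_append, cnt_append, cnt_left Q C, cnt_left Q K1, cnt_right Q K2.reverse,
      cnt_right Q K3.reverse]
    · rw [ind, ind, ind, if_neg (by omega), if_pos (show Q.2 < T by omega)]
      split_ifs <;> decide
    · intro z hz hzQ'
      rw [SimpleGraph.Walk.support_reverse, List.mem_reverse] at hz
      have := hK3 z hz; omega
    · intro z hz hzQ'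
      rw [SimpleGraph.Walk.support_reverse, List.mem_reverse] at hz
      have := hK2 z hz; omega
    · intro z hz hzQ'
      have := hK1 z hz; omega
    · intro z hz hzQ'
      have := hC z hz; omega
  rw [hP0, hQ1] at hconst
  exact absurd hconst (by decide)

end MP_c38eaf_pr
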