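import Mathlib

/-!
# AB percolation on the triangular lattice: definitions

Sites are points of `ℤ × ℤ`, in the basis `(1,0)`, `(0,1)` of the triangular lattice, whose six
nearest-neighbour directions are `±(1,0)`, `±(0,1)`, `±(-1,1)`.
-/

open MeasureTheory ProbabilityTheory unitInterval

namespace MP_c38eaf_pr

/-- Sites of the triangular lattice. -/
abbrev Site : Type := ℤ × ℤ

/-- The six nearest-neighbour directions of the triangular lattice. -/
def d : Fin 6 → Site := ![(1, 0), (0, 1), (-1, 1), (-1, 0), (0, -1), (1, -1)]

lemma d_add_three (i : Fin 6) : d (i + 3) = - d i := by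
  revert i; decide

lemma d_ne_zero (i : Fin 6) : d i ≠ 0 := by
  revert i; decide

lemma d_injective : Function.Injective d := by
  intro i j; revert i j; decide

lemma d_add_one_add_five (i : Fin 6) : d (i + 1) + d (i + 5) = d i := by
  revert i; decide

/-- The triangular lattice `T` as a graph: `x` and `y` are joined when `y - x` is one of the six
directions. -/
def tri : SimpleGraph Site where
  Adj x y := ∃ i, y = x + d i
  symm := ⟨by
    rintro x y ⟨i, rfl⟩
    exact ⟨i + 3, by rw [d_add_three]; abel⟩⟩
  loopless := ⟨by
    rintro x ⟨i, hi⟩
    exact d_ne_zero i (by simpa using hi)⟩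

/-- The open subgraph of AB percolation: an edge of `T` is kept when its endpoints carry
different labels. -/
def abGraph (ω : Site → Bool) : SimpleGraph Site where
  Adj x y := tri.Adj x y ∧ ω x ≠ ω y
  symm := ⟨fun _ _ h => ⟨h.1.symm, h.2.symm⟩⟩
  loopless := ⟨fun _ h => h.2 rfl⟩

/-- The distance-two graph on the sites labelled `A` (`true`): two distinct sites labelled `A` are
joined when they are adjacent in `T` or have a common neighbour in `T`. -/
def twoGraph (ω : Site → Bool) : SimpleGraph Site where
  Adj x y := x ≠ y ∧ ω x = true ∧ ω y = true ∧ (tri.Adj x y ∨ ∃ z, tri.Adj x z ∧ tri.Adj z y)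
  symm := ⟨fun _ _ h => ⟨h.1.symm, h.2.2.1, h.2.1, h.2.2.2.elim (fun h => Or.inl h.symm)
    (fun ⟨z, h1, h2⟩ => Or.inr ⟨z, h2.symm, h1.symm⟩)⟩⟩
  loopless := ⟨fun _ h => h.1 rfl⟩

/-- The law of the labels: independent, `A` (`true`) with probability `p` and `B` (`false`) with
probability `1 - p`. -/
noncomputable def labels (p : I) : Measure (Site → Bool) :=
  Measure.infinitePi fun _ : Site => bernoulliMeasure true false p

/-- `θ(p)`: the probability that the origin lies in an infinite AB cluster. -/
noncomputable def theta (p : I) : ENNReal :=
  labels p {ω | {y | (abGraph ω).Reachable 0 y}.Infinite}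

/-- `ψ(p)`: the probability that the origin lies in an infinite cluster of Bernoulli(`p`) site
percolation on the graph `T²`, in which two sites are joined when their distance in `T` is
at most two. -/
noncomputable def psi (p : I) : ENNReal :=
  labels p {ω | {y | (twoGraph ω).Reachable 0 y}.Infinite}

end MP_c38eaf_pr
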