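import Pool.Agent.Lib.MP_c38eaf_pr.Compare

/-!
# Definitions for the openness of `Π`
-/

open MeasureTheory ProbabilityTheory

namespace MP_c38eaf_pr

/-- Open edges: the edges of `T` that are not `BB`. The `A` sites of a component are exactly a
distance-two cluster. -/
def orGraph (ω : Site → Bool) : SimpleGraph Site where
  Adj x y := tri.Adj x y ∧ (ω x = true ∨ ω y = true)
  symm := ⟨fun _ _ h => ⟨h.1.symm, h.2.symm⟩⟩
  loopless := ⟨fun _ h => tri.loopless.irrefl _ h.1⟩

/-- The event `E` depends only on the labels in `D`. -/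
def Loc (D : Set Site) (E : Set (Site → Bool)) : Prop :=
  ∀ ω ω' : Site → Bool, (∀ x ∈ D, ω x = ω' x) → (ω ∈ E ↔ ω' ∈ E)

/-- The dual hexagonal norm. -/
def dn (M : Site) : ℤ := max |M.1 - M.2| (max |2 * M.1 + M.2| |M.1 + 2 * M.2|)

/-- Some strip of `BB` edges goes from (doubled) distance `≤ a` to (doubled) distance `≥ b`
from the origin. -/
def SC (a b : ℤ) : Set (Site → Bool) :=
  {ω | ∃ M M' : Site, dn M ≤ a ∧ b ≤ dn M' ∧ (strip ω false).Reachable M M'}

end MP_c38eaf_pr
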