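import Pool.Agent.Lib.MP_c38eaf_pr.Defs2

/-!
# Finite-dimensional facts about the product measure `labels p`

Events depending on finitely many labels are measurable, their probability is a polynomial in
`p`, increasing ones are positively correlated (Harris), and events depending on disjoint sets
of labels are independent. The law is invariant under permutations of the sites.
-/

open MeasureTheory ProbabilityTheory

namespace MP_c38eaf_pr

/-- The weight of a label. -/
def wt (p : ℝ) (b : Bool) : ℝ := if b = true then p else 1 - p

lemma wt_nonneg (p : unitInterval) (b : Bool) : 0 ≤ wt p b := by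
  cases b
  · simpa [wt] using p.2.2
  · simpa [wt] using p.2.1

lemma continuous_wt (b : Bool) : Continuous (fun p : unitInterval => wt p b) := by
  cases b
  · have : (fun p : unitInterval => wt p false) = fun p : unitInterval => (1 : ℝ) - p := by
      funext p; simp [wt]
    rw [this]
    fun_prop
  · have : (fun p : unitInterval => wt p true) = fun p : unitInterval => (p : ℝ) := by
      funext p; simp [wt]
    rw [this]
    fun_prop

lemma bernoulli_real_singleton (p : unitInterval) (b : Bool) :
    (bernoulliMeasure true false p).real {b} = wt p b := by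
  cases b
  · rw [bernoulliMeasure_real_apply_of_notMem_of_mem p (measurableSet_singleton _) (by simp)
      (by simp)]
    simp [wt]
  · rw [bernoulliMeasure_real_apply_of_mem_of_notMem p (measurableSet_singleton _) (by simp)
      (by simp)]
    simp [wt]

instance (p : unitInterval) : IsProbabilityMeasure (labels p) := by
  unfold labels; infer_instance

lemma loc_preimage (I : Finset Site) {E : Set (Site → Bool)} (hE : Loc (I : Set Site) E) :
    I.restrict ⁻¹' (I.restrict '' E) = E := by
  ext ω
  constructor
  · rintro ⟨ω', h', e⟩
    exact (hE ω' ω fun x hx => congrFun e ⟨x, hx⟩).1 h'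
  · intro h
    exact ⟨ω, h, rfl⟩

lemma loc_measurable (I : Finset Site) {E : Set (Site → Bool)} (hE : Loc (I : Set Site) E) :
    MeasurableSet E := by
  rw [← loc_preimage I hE]
  exact (Finset.measurable_restrict I) (Set.toFinite _).measurableSet

/-- The probability of a local event as a finite sum. -/
lemma labels_real (p : unitInterval) (I : Finset Site) {E : Set (Site → Bool)}
    (hE : Loc (I : Set Site) E) :
    (labels p).real E =
      ∑ a : I → Bool, (∏ i, wt p (a i)) * (I.restrict '' E).indicator 1 a := by
  classical
  have hmap : (labels p).map I.restrict =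
      Measure.pi fun _ : I => bernoulliMeasure true false p :=
    Measure.infinitePi_map_restrict _
  have h1 : (labels p).real E =
      (Measure.pi fun _ : I => bernoulliMeasure true false p).real (I.restrict '' E) := by
    rw [← hmap, map_measureReal_apply (Finset.measurable_restrict I)
      (Set.toFinite _).measurableSet, loc_preimage I hE]
  have h2 : (I.restrict '' E) =
      ((Finset.univ.filter (· ∈ I.restrict '' E) : Finset (I → Bool)) : Set (I → Bool)) := by
    ext a; simp
  rw [h1]
  conv_lhs => rw [h2]
  rw [← sum_measureReal_singleton, Finset.sum_filter]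
  refine Finset.sum_congr rfl fun a _ => ?_
  have h3 : (Measure.pi fun _ : I => bernoulliMeasure true false p).real {a} =
      ∏ i, wt p (a i) := by
    rw [measureReal_def, Measure.pi_singleton, ENNReal.toReal_prod]
    refine Finset.prod_congr rfl fun i _ => ?_
    rw [← bernoulli_real_singleton, measureReal_def]
  rw [h3]
  by_cases ha : a ∈ I.restrict '' E
  · rw [if_pos ha, Set.indicator_of_mem ha, Pi.one_apply, mul_one]
  · rw [if_neg ha, Set.indicator_of_notMem ha, mul_zero]

theorem Loc.measurableSet {D : Set Site} (hD : D.Finite) {E : Set (Site → Bool)} (hE : Loc D E) :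
    MeasurableSet E := by
  refine loc_measurable hD.toFinset ?_
  rwa [hD.coe_toFinset]

lemma Loc.inter {D : Set Site} {E F : Set (Site → Bool)} (hE : Loc D E) (hF : Loc D F) :
    Loc D (E ∩ F) := fun ω ω' h => and_congr (hE ω ω' h) (hF ω ω' h)

lemma loc_univ (D : Set Site) : Loc D Set.univ := fun _ _ _ => Iff.rfl

/-- The image of an increasing event is increasing. -/
lemma image_upper (I : Finset Site) {E : Set (Site → Bool)}
    (uE : IsUpperSet E) : IsUpperSet (I.restrict '' E) := by
  rintro a b hab ⟨ω, hω, rfl⟩
  refine ⟨fun x => if h : x ∈ I then b ⟨x, h⟩ else ω x, ?_, ?_⟩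
  · refine uE ?_ hω
    intro x
    by_cases h : x ∈ I
    · simp only [h, dif_pos]
      exact hab ⟨x, h⟩
    · simp only [h, dif_neg, not_false_iff]
      exact le_rfl
  · funext x
    simp [Finset.restrict, x.2]

lemma image_inter (I : Finset Site) {E F : Set (Site → Bool)}
    (hF : Loc (I : Set Site) F) :
    I.restrict '' (E ∩ F) = (I.restrict '' E) ∩ (I.restrict '' F) := by
  ext a
  constructor
  · rintro ⟨ω, ⟨h1, h2⟩, rfl⟩
    exact ⟨⟨ω, h1, rfl⟩, ⟨ω, h2, rfl⟩⟩
  · rintro ⟨⟨ω, h1, rfl⟩, ⟨ω', h2, e⟩⟩
    exact ⟨ω, ⟨h1, (hF ω' ω fun x hx => congrFun e ⟨x, hx⟩).1 h2⟩, rfl⟩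

lemma monotone_indicator {α : Type*} [Preorder α] {U : Set α} (hU : IsUpperSet U) :
    Monotone (U.indicator (1 : α → ℝ)) := by
  intro a b hab
  by_cases ha : a ∈ U
  · rw [Set.indicator_of_mem ha, Set.indicator_of_mem (hU hab ha)]
    exact le_rfl
  · rw [Set.indicator_of_notMem ha]
    exact Set.indicator_nonneg (fun _ _ => zero_le_one) b

lemma wt_inf_sup (p : ℝ) (a b : Bool) : wt p (a ⊓ b) * wt p (a ⊔ b) = wt p a * wt p b := by
  cases a <;> cases b <;> simp [mul_comm]

/-- Harris/FKG inequality, real form. -/
lemma fkg_real (p : unitInterval) (I : Finset Site) {E F : Set (Site → Bool)}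
    (hE : Loc (I : Set Site) E) (hF : Loc (I : Set Site) F) (uE : IsUpperSet E)
    (uF : IsUpperSet F) :
    (labels p).real E * (labels p).real F ≤ (labels p).real (E ∩ F) := by
  classical
  have key := fkg (α := I → Bool) (β := ℝ) (μ := fun a => ∏ i, wt p (a i))
    (f := (I.restrict '' E).indicator 1) (g := (I.restrict '' F).indicator 1)
    (fun a => Finset.prod_nonneg fun i _ => wt_nonneg p _)
    (fun a => Set.indicator_nonneg (fun _ _ => zero_le_one) a)
    (fun a => Set.indicator_nonneg (fun _ _ => zero_le_one) a)
    (monotone_indicator (image_upper I uE)) (monotone_indicator (image_upper I uF))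
    (fun a b => by
      rw [← Finset.prod_mul_distrib, ← Finset.prod_mul_distrib]
      refine le_of_eq (Finset.prod_congr rfl fun i _ => ?_)
      exact (wt_inf_sup _ _ _).symm)
  have h1 : ∑ a : I → Bool, ∏ i, wt p (a i) = 1 := by
    have := labels_real p I (loc_univ (I : Set Site))
    rw [probReal_univ] at this
    rw [this]
    refine Finset.sum_congr rfl fun a _ => ?_
    rw [Set.indicator_of_mem, Pi.one_apply, mul_one]
    exact ⟨fun x => if h : x ∈ I then a ⟨x, h⟩ else true, trivial, by
      funext x
      simp [Finset.restrict, x.2]⟩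
  rw [h1, one_mul, ← labels_real p I hE, ← labels_real p I hF] at key
  refine key.trans (le_of_eq ?_)
  rw [labels_real p I (hE.inter hF), image_inter I hF]
  refine Finset.sum_congr rfl fun a _ => ?_
  rw [Set.inter_indicator_one]
  rfl

/-- Harris/FKG inequality. `IsUpperSet` is for the pointwise order on `Site → Bool`. -/
theorem fkg_local (p : unitInterval) {D : Set Site} (hD : D.Finite) {E F : Set (Site → Bool)}
    (hE : Loc D E) (hF : Loc D F) (uE : IsUpperSet E) (uF : IsUpperSet F) :
    labels p E * labels p F ≤ labels p (E ∩ F) := by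
  have h := fkg_real p hD.toFinset (E := E) (F := F) (by rwa [hD.coe_toFinset])
    (by rwa [hD.coe_toFinset]) uE uF
  rw [← ENNReal.toReal_le_toReal (ENNReal.mul_ne_top (measure_ne_top _ _) (measure_ne_top _ _))
    (measure_ne_top _ _), ENNReal.toReal_mul]
  exact h

theorem indep_local (p : unitInterval) {D D' : Set Site} (hD : D.Finite) (hD' : D'.Finite)
    (hdisj : Disjoint D D') {E F : Set (Site → Bool)} (hE : Loc D E) (hF : Loc D' F) :
    labels p (E ∩ F) = labels p E * labels p F := by
  classical
  have hi : iIndepFun (fun (x : Site) (ω : Site → Bool) => ω x) (labels p) :=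
    iIndepFun_infinitePi (P := fun _ : Site => bernoulliMeasure true false p)
      (X := fun _ b => b) (fun _ => measurable_id)
  have hd : Disjoint hD.toFinset hD'.toFinset := by
    rw [Finset.disjoint_left]
    intro x hx hx'
    exact Set.disjoint_left.1 hdisj (hD.mem_toFinset.1 hx) (hD'.mem_toFinset.1 hx')
  have h2 := hi.indepFun_finset hD.toFinset hD'.toFinset hd (fun x => measurable_pi_apply x)
  have hE' : hD.toFinset.restrict ⁻¹' (hD.toFinset.restrict '' E) = E :=
    loc_preimage _ (by rwa [hD.coe_toFinset])
  have hF' : hD'.toFinset.restrict ⁻¹' (hD'.toFinset.restrict '' F) = F :=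
    loc_preimage _ (by rwa [hD'.coe_toFinset])
  have h3 := h2.measure_inter_preimage_eq_mul
    (hD.toFinset.restrict '' E) (hD'.toFinset.restrict '' F)
    (Set.toFinite _).measurableSet (Set.toFinite _).measurableSet
  have e1 : (fun (ω : Site → Bool) (i : hD.toFinset) => ω i) ⁻¹'
      (hD.toFinset.restrict '' E) = E := hE'
  have e2 : (fun (ω : Site → Bool) (i : hD'.toFinset) => ω i) ⁻¹'
      (hD'.toFinset.restrict '' F) = F := hF'
  rw [e1, e2] at h3
  exact h3

theorem continuous_local {D : Set Site} (hD : D.Finite) {E : Set (Site → Bool)} (hE : Loc D E) :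
    Continuous (fun p : unitInterval => labels p E) := by
  have h : (fun p : unitInterval => labels p E) = fun p : unitInterval =>
      ENNReal.ofReal (∑ a : hD.toFinset → Bool, (∏ i, wt p (a i)) *
        (hD.toFinset.restrict '' E).indicator 1 a) := by
    funext p
    rw [← labels_real p hD.toFinset (by rwa [hD.coe_toFinset]), ofReal_measureReal]
  rw [h]
  refine ENNReal.continuous_ofReal.comp (continuous_finsetSum _ fun a _ => ?_)
  exact (continuous_finsetProd _ fun i _ => continuous_wt (a i)).mul continuous_const

/-- Relabelling the sites by a permutation, as a measurable equivalence. -/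
noncomputable def relabel (e : Site ≃ Site) : (Site → Bool) ≃ᵐ (Site → Bool) :=
  MeasurableEquiv.piCongrLeft (fun _ : Site => Bool) e.symm

lemma relabel_apply (e : Site ≃ Site) (ω : Site → Bool) (y : Site) :
    relabel e ω y = ω (e y) := by
  have := MeasurableEquiv.piCongrLeft_apply_apply e.symm (β := fun _ : Site => Bool) ω (e y)
  rw [Equiv.symm_apply_apply] at this
  exact this

lemma relabel_preserving (p : unitInterval) (e : Site ≃ Site) :
    MeasurePreserving (relabel e) (labels p) (labels p) :=
  ⟨(relabel e).measurable, Measure.infinitePi_map_piCongrLeft (X := fun _ : Site => Bool)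
    (fun _ : Site => bernoulliMeasure true false p) e.symm⟩

/-- Relabelling the sites by a permutation preserves the law. -/
theorem labels_comp_equiv (p : unitInterval) (e : Site ≃ Site) (E : Set (Site → Bool)) :
    labels p {ω | (fun x => ω (e x)) ∈ E} = labels p E := by
  rw [← (relabel_preserving p e).measure_preimage_equiv E]
  have : {ω : Site → Bool | (fun x => ω (e x)) ∈ E} = relabel e ⁻¹' E := by
    ext ω
    rw [Set.mem_ofPred_eq, Set.mem_preimage]
    have : (fun x => ω (e x)) = relabel e ω := by
      funext x; rw [relabel_apply]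
    rw [this]
  rw [this]

end MP_c38eaf_pr
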