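import Pool.Agent.Lib.MP_c38eaf_pr.Sym
import Pool.Agent.Lib.MP_c38eaf_pr.Local

/-!
# Chains of links: definitions
-/

open MeasureTheory ProbabilityTheory

namespace MP_c38eaf_pr

/-- Real-valued probability. -/
noncomputable def pr (p : unitInterval) (E : Set (Site → Bool)) : ℝ := (labels p).real E

/-- The points of the zigzag chain with steps `c` and `tau c`. -/
def pt (z₀ c : Site) : ℕ → Site
  | 0 => z₀
  | j + 1 => pt z₀ c j + if j % 2 = 0 then c else tau c

/-- The region of the `j`-th link. -/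
def reg (z₀ c : Site) (N M : ℕ) (j : ℕ) : Set Site :=
  hex (pt z₀ c j) N ∪ hex (pt z₀ c (j + 1)) M

/-- The first `K` links of the chain are present, when the set `W` is filled with `A`. -/
def ChainOK (ω : Site → Bool) (n N M : ℕ) (z₀ c : Site) (K : ℕ) : Prop :=
  ∀ j < K, Linked ω n (reg z₀ c N M j) (pt z₀ c j) (pt z₀ c (j + 1))

/-- `BadSide ω a`: a strip of `BB` edges crosses the upper slab of the annulus. -/
def BadSide (ω : Site → Bool) (a : ℕ) : Prop :=
  ∃ P Q : Site, ∃ S : (strip ω false).Walk P Q, P.2 - P.1 ≤ 6 * a ∧ 18 * a ≤ Q.2 - Q.1 ∧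
    ∀ z ∈ S.support, dn z ≤ 18 * a + 2

/-- The strip graph of `BB` edges has an edge touching the hexagon `hex z n` and connected to
doubled distance at least `b` from `z`. -/
def Touch (ω : Site → Bool) (n : ℕ) (b : ℤ) (z : Site) : Prop :=
  ∃ (x : Site) (i : Fin 6) (Q : Site), (x ∈ hex z n ∨ x + d i ∈ hex z n) ∧ ω x = false ∧
    ω (x + d i) = false ∧ (strip ω false).Reachable (mid x i) Q ∧ b ≤ dn (Q - (z + z))

end MP_c38eaf_pr
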