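import Pool.Agent.Lib.MP_c38eaf_pr.Words

/-!
# If all AB clusters meeting a box are finite, the box is surrounded by a strip
-/

open MeasureTheory ProbabilityTheory

namespace MP_c38eaf_pr

/-- The box of sites with both coordinates at most `R` in absolute value. -/
def box (R : ℕ) : Set Site := Set.Icc (-(R : ℤ), -(R : ℤ)) ((R : ℤ), (R : ℤ))

lemma mem_box {R : ℕ} {x : Site} : x ∈ box R ↔ -(R : ℤ) ≤ x.1 ∧ x.1 ≤ R ∧ -(R : ℤ) ≤ x.2 ∧ x.2 ≤ R := by
  rw [box, Set.mem_Icc, Prod.le_def, Prod.le_def]; simp only; tauto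

lemma box_finite (R : ℕ) : (box R).Finite := Set.finite_Icc _ _

lemma zero_mem_box (R : ℕ) : (0 : Site) ∈ box R := by rw [mem_box]; simp

/-- Boxes are connected. -/
lemma box_conn {R : ℕ} {U : Set Site} (hU : box R ⊆ U) (h : Site → ZMod 2)
    (hh : ∀ x ∈ U, ∀ i, x + d i ∈ U → h x = h (x + d i)) : ∀ x ∈ box R, h x = h 0 := by
  have h1 : ∀ n : ℕ, n ≤ R → h ((n : ℤ), 0) = h 0 := by
    intro n hn
    induction n with
    | zero => rfl
    | succ n ih =>
      rw [← ih (by omega)]
      have := hh ((n : ℤ), 0) (hU (by rw [mem_box]; simp; omega)) 0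
        (hU (by rw [mem_box]; simp [d]; omega))
      rw [this]; congr 1
  have h2 : ∀ n : ℕ, n ≤ R → h (-(n : ℤ), 0) = h 0 := by
    intro n hn
    induction n with
    | zero => rfl
    | succ n ih =>
      rw [← ih (by omega)]
      have := hh (-(n : ℤ), 0) (hU (by rw [mem_box]; simp; omega)) 3
        (hU (by rw [mem_box]; simp [d]; omega))
      rw [this]
      have e : ((-(n : ℤ), 0) : Site) + d 3 = (-((n + 1 : ℕ) : ℤ), 0) := by
        simp [d]; ring
      rw [e]
  have h3 : ∀ a : ℤ, -(R : ℤ) ≤ a → a ≤ R → h (a, 0) = h 0 := by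
    intro a ha hb
    rcases le_total 0 a with h0 | h0
    · have := h1 a.toNat (by omega)
      rwa [Int.toNat_of_nonneg h0] at this
    · have := h2 (-a).toNat (by omega)
      rwa [Int.toNat_of_nonneg (by omega), neg_neg] at this
  have h4 : ∀ a : ℤ, -(R : ℤ) ≤ a → a ≤ R → ∀ n : ℕ, n ≤ R → h (a, (n : ℤ)) = h 0 := by
    intro a ha hb n hn
    induction n with
    | zero => exact h3 a ha hb
    | succ n ih =>
      rw [← ih (by omega)]
      have := hh (a, (n : ℤ)) (hU (by rw [mem_box]; simp; omega)) 1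
        (hU (by rw [mem_box]; simp [d]; omega))
      rw [this]; congr 1; simp [d]
  have h5 : ∀ a : ℤ, -(R : ℤ) ≤ a → a ≤ R → ∀ n : ℕ, n ≤ R → h (a, -(n : ℤ)) = h 0 := by
    intro a ha hb n hn
    induction n with
    | zero => exact h3 a ha hb
    | succ n ih =>
      rw [← ih (by omega)]
      have := hh (a, -(n : ℤ)) (hU (by rw [mem_box]; simp; omega)) 4
        (hU (by rw [mem_box]; simp [d]; omega))
      rw [this]; congr 1; simp [d]; ring
  rintro ⟨a, b⟩ hx
  rw [mem_box] at hx
  simp only at hx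
  rcases le_total 0 b with h0 | h0
  · have := h4 a hx.1 hx.2.1 b.toNat (by omega)
    rwa [Int.toNat_of_nonneg h0] at this
  · have := h5 a hx.1 hx.2.1 (-b).toNat (by omega)
    rwa [Int.toNat_of_nonneg (by omega), neg_neg] at this

/-- A finite set of sites containing the origin has a last point on the negative axis. -/
lemma exists_last {J : Set Site} (hJ : J.Finite) (h0 : (0 : Site) ∈ J) :
    ∃ j : ℕ, ((-(j : ℤ), 0) : Site) ∈ J ∧ ((-(j : ℤ) - 1, 0) : Site) ∉ J := by
  by_contra hcon
  push Not at hcon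
  have h1 : ∀ n : ℕ, ((-(n : ℤ), 0) : Site) ∈ J := by
    intro n
    induction n with
    | zero => exact h0
    | succ n ih =>
      have := hcon n ih
      have e : (-((n + 1 : ℕ) : ℤ)) = -(n : ℤ) - 1 := by push_cast; ring
      rw [e]; exact this
  have h2 : Set.Infinite (Set.range (fun n : ℕ => ((-(n : ℤ), 0) : Site))) := by
    apply Set.infinite_range_of_injective
    intro a b hab
    simpa using hab
  exact h2 (hJ.subset (by rintro _ ⟨n, rfl⟩; exact h1 n))

/-- A finite set of sites containing `(R, 0)` has a last point on the positive axis. -/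
lemma exists_max {U : Set Site} (hU : U.Finite) {R : ℤ} (h0 : ((R, 0) : Site) ∈ U) :
    ∃ k : ℤ, R ≤ k ∧ ((k, 0) : Site) ∈ U ∧ ∀ j, k < j → ((j, 0) : Site) ∉ U := by
  have h1 : {k : ℤ | ((k, 0) : Site) ∈ U}.Finite := by
    apply Set.Finite.preimage _ hU
    intro a _ b _ hab
    simpa using hab
  obtain ⟨k, hk, hk'⟩ := h1.exists_maximal ⟨R, h0⟩
  refine ⟨k, ?_, hk, ?_⟩
  · by_contra hcon
    have := hk' (y := R) h0 (by omega)
    omega
  · intro j hj hj'
    have := hk' (y := j) hj' (by omega)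
    omega

/-- **Dichotomy.** If every AB cluster meeting the box `box R` is finite, then for one of the
labels `s` the box lies in a finite set `J` whose boundary edges are all `s`-monochromatic, and
there is an arc of the strip graph of label `s` from the positive axis, beyond `R`, to the
negative axis. -/
theorem dichotomy (ω : Site → Bool) (R : ℕ)
    (hfin : ∀ x ∈ box R, {y | (abGraph ω).Reachable x y}.Finite) :
    ∃ k : ℤ, (R : ℤ) ≤ k ∧ ∃ s, ω ∈ Arc s k ∧ ∃ J : Set Site, J.Finite ∧ box R ⊆ J ∧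
      ∀ x ∈ J, ∀ i, x + d i ∉ J → ω x = s ∧ ω (x + d i) = s := by
  set U : Set Site := {y | ∃ x ∈ box R, (abGraph ω).Reachable x y} with hUdef
  have hUfin : U.Finite := by
    have : U = ⋃ x ∈ box R, {y | (abGraph ω).Reachable x y} := by ext y; simp [hUdef]
    rw [this]
    exact (box_finite R).biUnion hfin
  have hbU : box R ⊆ U := fun x hx => ⟨x, hx, SimpleGraph.Reachable.refl _⟩
  have hconn : ∀ h : Site → ZMod 2, (∀ x ∈ U, ∀ i, x + d i ∈ U → h x = h (x + d i)) →
      ∀ x ∈ U, ∀ y ∈ U, h x = h y := by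
    intro h hh
    have h1 := box_conn hbU h hh
    have h2 : ∀ x ∈ U, h x = h 0 := by
      rintro y ⟨x, hx, hxy⟩
      rw [← h1 x hx]
      have key : ∀ y, (abGraph ω).Reachable x y → h y = h x := by
        intro y hy
        rw [SimpleGraph.reachable_iff_reflTransGen] at hy
        induction hy with
        | refl => rfl
        | tail h3 h4 ih =>
          rename_i a b
          obtain ⟨⟨i, rfl⟩, _⟩ := id h4
          rw [← ih]
          have ha : (abGraph ω).Reachable x a := by
            rw [SimpleGraph.reachable_iff_reflTransGen]; exact h3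
          exact (hh a ⟨x, hx, ha⟩ i ⟨x, hx, ha.trans (SimpleGraph.Adj.reachable h4)⟩).symm
      exact key y hxy
    intro x hx y hy
    rw [h2 x hx, h2 y hy]
  have hcut : ∀ x ∈ U, ∀ i, x + d i ∉ U → ω x = ω (x + d i) := by
    rintro x ⟨z, hz, hzx⟩ i hi
    by_contra hne
    apply hi
    refine ⟨z, hz, hzx.trans (SimpleGraph.Adj.reachable ?_)⟩
    exact ⟨⟨i, rfl⟩, hne⟩
  obtain ⟨k, hk1, hk2, hk3⟩ := exists_max hUfin (R := (R : ℤ)) (hbU (by rw [mem_box]; simp))
  obtain ⟨J, hJ1, hJ2, hJ3⟩ := outer_boundary hUfin hconn hk2 hk3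
  have hk4 : ((k, 0) : Site) + d 0 ∉ U := by
    have : ((k, 0) : Site) + d 0 = (k + 1, 0) := by simp [d]
    rw [this]; exact hk3 _ (by omega)
  have hcls : ∀ M ∈ cls U (mid (k, 0) 0), _ := fun M hM => cls_strip hcut hk2 hk4 hM
  refine ⟨k, hk1, ω (k, 0), ?_, J, hJ1, fun x hx => hJ2 (hbU hx), ?_⟩
  · obtain ⟨j, hj1, hj2⟩ := exists_last hJ1 (hJ2 (hbU (zero_mem_box R)))
    refine ⟨j, ?_⟩
    have e1 : ((-(j : ℤ), 0) : Site) + d 3 = (-(j : ℤ) - 1, 0) := by
      simp [d, sub_eq_add_neg]
    have e2 : mid (-(j : ℤ) - 1, 0) 0 = mid (-(j : ℤ), 0) 3 := by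
      rw [← e1]; exact mid_rev (-(j : ℤ), 0) 3
    rw [e2]
    exact (hcls _ (hJ3 _ hj1 3 (by rw [e1]; exact hj2))).1
  · intro x hx i hi
    exact (hcls _ (hJ3 x hx i hi)).2 x i rfl

/-- The distance-two clusters of `A` sites cannot cross a boundary made of `BB` edges. -/
lemma two_blocked {ω : Site → Bool} {J : Set Site}
    (hJ : ∀ x ∈ J, ∀ i, x + d i ∉ J → ω x = false ∧ ω (x + d i) = false)
    {x y : Site} (hx : x ∈ J) (hxy : (twoGraph ω).Reachable x y) : y ∈ J := by
  rw [SimpleGraph.reachable_iff_reflTransGen] at hxy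
  induction hxy with
  | refl => exact hx
  | @tail a b _ h ih =>
    obtain ⟨_, ha, hb, h⟩ := h
    by_contra hcon
    rcases h with ⟨i, rfl⟩ | ⟨z, ⟨i, rfl⟩, ⟨j, rfl⟩⟩
    · have := (hJ a ih i hcon).1
      rw [ha] at this; exact absurd this (by decide)
    · by_cases hz : a + d i ∈ J
      · have := (hJ _ hz j hcon).2
        rw [hb] at this; exact absurd this (by decide)
      · have := (hJ a ih i hz).1
        rw [ha] at this; exact absurd this (by decide)

/-- If the origin lies in an infinite distance-two cluster of `A` sites and all AB clusters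
meeting `box R` are finite, there is an `AA` arc beyond `R`. -/
theorem two_inf_subset (R : ℕ) :
    {ω | {y | (twoGraph ω).Reachable 0 y}.Infinite} ⊆
      (⋃ x ∈ box R, {ω | {y | (abGraph ω).Reachable x y}.Infinite}) ∪
        ⋃ k : ℕ, Arc true ((R : ℤ) + k) := by
  intro ω hω
  by_cases hfin : ∀ x ∈ box R, {y | (abGraph ω).Reachable x y}.Finite
  · right
    obtain ⟨k, hk, s, hs, J, hJ1, hJ2, hJ3⟩ := dichotomy ω R hfin
    cases s
    · exfalso
      apply hω
      apply hJ1.subset
      intro y hy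
      exact two_blocked hJ3 (hJ2 (zero_mem_box R)) hy
    · rw [Set.mem_iUnion]
      refine ⟨(k - R).toNat, ?_⟩
      have : (R : ℤ) + ((k - R).toNat : ℤ) = k := by omega
      rw [this]; exact hs
  · left
    push Not at hfin
    obtain ⟨x, hx, h⟩ := hfin
    rw [Set.mem_iUnion₂]
    exact ⟨x, hx, h⟩

/-- If all AB clusters meeting `box R` are finite, there is an arc beyond `R`. -/
theorem ab_fin_subset (R : ℕ) :
    (⋃ x ∈ box R, {ω | {y | (abGraph ω).Reachable x y}.Infinite})ᶜ ⊆
      (⋃ k : ℕ, Arc true ((R : ℤ) + k)) ∪ ⋃ k : ℕ, Arc false ((R : ℤ) + k) := by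
  intro ω hω
  rw [Set.mem_compl_iff, Set.mem_iUnion₂] at hω
  push Not at hω
  obtain ⟨k, hk, s, hs, -⟩ := dichotomy ω R (fun x hx => by
    by_contra h; exact hω x hx h)
  have e : (R : ℤ) + ((k - R).toNat : ℤ) = k := by omega
  cases s
  · right
    rw [Set.mem_iUnion]
    exact ⟨(k - R).toNat, by rw [e]; exact hs⟩
  · left
    rw [Set.mem_iUnion]
    exact ⟨(k - R).toNat, by rw [e]; exact hs⟩

end MP_c38eaf_pr
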