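import Pool.Agent.Lib.MP_c38eaf_pr.Lower

/-!
# Sequential exploration of a distance-two cluster

Expected cluster sizes inside finite sets of available sites, and the inequalities obtained by
revealing the neighbours of a site one at a time.
-/

open MeasureTheory ProbabilityTheory

namespace MP_c38eaf_pr.Explore

/-- Expectation of `f S`, `S` the random subset of `D` containing each point with probability `q`. -/
noncomputable def Ex (q : ℝ) (D : Finset Site) (f : Finset Site → ℝ) : ℝ :=
  ∑ S ∈ D.powerset, q ^ S.card * (1 - q) ^ (D.card - S.card) * f S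

lemma Ex_empty (q : ℝ) (f : Finset Site → ℝ) : Ex q ∅ f = f ∅ := by simp [Ex]

lemma Ex_insert (q : ℝ) {w : Site} {D : Finset Site} (hw : w ∉ D) (f : Finset Site → ℝ) :
    Ex q (insert w D) f = (1 - q) * Ex q D f + q * Ex q D (fun S => f (insert w S)) := by
  unfold Ex
  rw [Finset.sum_powerset_insert hw, Finset.mul_sum, Finset.mul_sum,
    Finset.card_insert_of_notMem hw]
  congr 1
  · refine Finset.sum_congr rfl fun S hS => ?_
    have h := Finset.card_le_card (Finset.mem_powerset.1 hS)
    have e : D.card + 1 - S.card = (D.card - S.card) + 1 := by omega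
    rw [e, pow_succ]; ring
  · refine Finset.sum_congr rfl fun S hS => ?_
    have hwS : w ∉ S := fun h => hw (Finset.mem_powerset.1 hS h)
    rw [Finset.card_insert_of_notMem hwS]
    have e : D.card + 1 - (S.card + 1) = D.card - S.card := by omega
    rw [e, pow_succ]; ring

lemma Ex_mono {q : ℝ} (hq0 : 0 ≤ q) (hq1 : q ≤ 1) {D : Finset Site} {f g : Finset Site → ℝ}
    (h : ∀ S ⊆ D, f S ≤ g S) : Ex q D f ≤ Ex q D g := by
  unfold Ex
  refine Finset.sum_le_sum fun S hS => ?_
  have h1 : 0 ≤ 1 - q := by linarith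
  exact mul_le_mul_of_nonneg_left (h S (Finset.mem_powerset.1 hS)) (by positivity)

lemma Ex_congr {q : ℝ} {D : Finset Site} {f g : Finset Site → ℝ}
    (h : ∀ S ⊆ D, f S = g S) : Ex q D f = Ex q D g := by
  unfold Ex
  refine Finset.sum_congr rfl fun S hS => ?_
  rw [h S (Finset.mem_powerset.1 hS)]

lemma Ex_add (q : ℝ) (D : Finset Site) (f g : Finset Site → ℝ) :
    Ex q D (fun S => f S + g S) = Ex q D f + Ex q D g := by
  unfold Ex
  rw [← Finset.sum_add_distrib]
  exact Finset.sum_congr rfl fun S _ => by ring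

lemma Ex_const (q : ℝ) (D : Finset Site) (c : ℝ) : Ex q D (fun _ => c) = c := by
  induction D using Finset.induction_on with
  | empty => exact Ex_empty q _
  | insert w D hw ih => rw [Ex_insert q hw, ih]; ring

lemma Ex_union (q : ℝ) {L D : Finset Site} (h : Disjoint L D) (f : Finset Site → ℝ) :
    Ex q (L ∪ D) f = Ex q L (fun O => Ex q D (fun S => f (O ∪ S))) := by
  induction L using Finset.induction_on generalizing f with
  | empty => simp [Ex_empty]
  | insert w L hw ih =>
    rw [Finset.disjoint_insert_left] at h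
    have hw' : w ∉ L ∪ D := by
      rw [Finset.mem_union]; exact fun h' => h'.elim hw h.1
    rw [Finset.insert_union, Ex_insert q hw', Ex_insert q hw, ih h.2, ih h.2]
    simp only [Finset.insert_union]

lemma Ex_inter (q : ℝ) (D X : Finset Site) (f : Finset Site → ℝ) :
    Ex q D (fun S => f (S ∩ X)) = Ex q (D ∩ X) f := by
  induction D using Finset.induction_on generalizing f with
  | empty => simp [Ex_empty]
  | insert w D hw ih =>
    rw [Ex_insert q hw]
    by_cases hwX : w ∈ X
    · have hw' : w ∉ D ∩ X := fun h => hw (Finset.mem_inter.1 h).1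
      rw [Finset.insert_inter_of_mem hwX, Ex_insert q hw', ih f, ← ih (fun S => f (insert w S))]
      simp only [Finset.insert_inter_of_mem hwX]
    · rw [Finset.insert_inter_of_notMem hwX]
      simp only [Finset.insert_inter_of_notMem hwX]
      rw [ih f]; ring

/-- `y` can be reached from `x` by steps of `T²` into sites of `S`. -/
def Rch (S : Finset Site) (x y : Site) : Prop :=
  Relation.ReflTransGen (fun a b => b - a ∈ steps2 ∧ b ∈ S) x y

lemma Rch_mono {S S' : Finset Site} (h : S ⊆ S') {x y : Site} (hr : Rch S x y) : Rch S' x y := by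
  induction hr with
  | refl => exact Relation.ReflTransGen.refl
  | tail _ hbc ih => exact Relation.ReflTransGen.tail ih ⟨hbc.1, h hbc.2⟩

open Classical in
/-- The cluster of the set of roots `O` in the open set `S`. -/
noncomputable def C (S O : Finset Site) : Finset Site :=
  (O ∪ S).filter (fun z => ∃ a ∈ O, Rch S a z)

lemma mem_C {S O : Finset Site} {z : Site} : z ∈ C S O ↔ ∃ a ∈ O, Rch S a z := by
  classical
  rw [C, Finset.mem_filter]
  refine ⟨fun h => h.2, fun h => ⟨?_, h⟩⟩
  obtain ⟨a, ha, hr⟩ := h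
  rw [Finset.mem_union]
  rcases Relation.ReflTransGen.cases_tail hr with h | ⟨b, _, hb⟩
  · left; rw [h]; exact ha
  · right; exact hb.2

lemma C_mono {S S' O : Finset Site} (h : S ⊆ S') : C S O ⊆ C S' O := by
  intro z hz
  rw [mem_C] at hz ⊢
  obtain ⟨a, ha, hr⟩ := hz
  exact ⟨a, ha, Rch_mono h hr⟩

lemma C_tail {S O : Finset Site} {b c : Site} (hb : b ∈ C S O) (h : c - b ∈ steps2) (hc : c ∈ S) :
    c ∈ C S O := by
  rw [mem_C] at hb ⊢
  obtain ⟨a, ha, hr⟩ := hb
  exact ⟨a, ha, Relation.ReflTransGen.tail hr ⟨h, hc⟩⟩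

lemma C_self {S O : Finset Site} {a : Site} (ha : a ∈ O) : a ∈ C S O :=
  mem_C.2 ⟨a, ha, Relation.ReflTransGen.refl⟩

/-- The ball of radius two. -/
def ball (u : Site) : Finset Site := (insert 0 steps2).image (fun w => u + w)

lemma mem_ball {u z : Site} : z ∈ ball u ↔ z = u ∨ z - u ∈ steps2 := by
  rw [ball, Finset.mem_image]
  constructor
  · rintro ⟨w, hw, rfl⟩
    rw [Finset.mem_insert] at hw
    rcases hw with rfl | hw
    · left; simp
    · right; simpa using hw
  · rintro (rfl | h)
    · exact ⟨0, Finset.mem_insert_self _ _, by simp⟩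
    · exact ⟨z - u, Finset.mem_insert_of_mem h, by simp⟩

lemma C_step (S O : Finset Site) (u : Site) :
    C S (insert u O) ⊆ C S {u} ∪ C (S \ ball u) O := by
  intro z hz
  rw [mem_C] at hz
  obtain ⟨a, ha, hr⟩ := hz
  rw [Finset.mem_union]
  rw [Finset.mem_insert] at ha
  rcases ha with rfl | ha
  · left; exact mem_C.2 ⟨_, Finset.mem_singleton_self _, hr⟩
  · induction hr with
    | refl => right; exact C_self ha
    | @tail b c _ hbc ih =>
      rcases ih with h | h
      · left; exact C_tail h hbc.1 hbc.2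
      · by_cases hc : c ∈ ball u
        · left
          rw [mem_ball] at hc
          rcases hc with rfl | hc
          · exact C_self (Finset.mem_singleton_self _)
          · exact C_tail (C_self (Finset.mem_singleton_self _)) hc hbc.2
        · right
          exact C_tail h hbc.1 (Finset.mem_sdiff.2 ⟨hbc.2, hc⟩)

lemma C_root {S O : Finset Site} {v : Site} (hS : ∀ z ∈ S, z - v ∉ steps2) :
    C (O ∪ S) {v} ⊆ insert v (C S O) := by
  intro z hz
  rw [mem_C] at hz
  obtain ⟨a, ha, hr⟩ := hz
  rw [Finset.mem_singleton] at ha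
  subst ha
  induction hr with
  | refl => exact Finset.mem_insert_self _ _
  | @tail b c _ hbc ih =>
    rw [Finset.mem_insert] at ih ⊢
    right
    rcases Finset.mem_union.1 hbc.2 with hc | hc
    · exact C_self hc
    · rcases ih with rfl | ih
      · exact absurd hbc.1 (hS c hc)
      · exact C_tail ih hbc.1 hc

/-- Expected size of the cluster of `O` in a random subset of `D`. -/
noncomputable def R (q : ℝ) (O D : Finset Site) : ℝ := Ex q D (fun S => ((C S O).card : ℝ))

/-- Expected size of the cluster of the open sites of `L` in a random subset of `D`. -/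
noncomputable def H (q : ℝ) (L D : Finset Site) : ℝ := Ex q L (fun O => R q O D)

lemma Ex_def (q : ℝ) (D : Finset Site) (f : Finset Site → ℝ) :
    Ex q D f = ∑ S ∈ D.powerset, q ^ S.card * (1 - q) ^ (D.card - S.card) * f S := rfl

attribute [irreducible] ball C Ex

variable {q : ℝ} (hq0 : 0 ≤ q) (hq1 : q ≤ 1)
include hq0 hq1

lemma R_mono (O : Finset Site) {D D' : Finset Site} (h : D ⊆ D') : R q O D ≤ R q O D' := by
  have e : R q O D = Ex q D' (fun S => ((C (S ∩ D) O).card : ℝ)) := by
    rw [Ex_inter q D' D (fun S => ((C S O).card : ℝ)), Finset.inter_eq_right.2 h, R]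
  rw [e]
  refine Ex_mono hq0 hq1 fun S _ => ?_
  exact_mod_cast Finset.card_le_card (C_mono Finset.inter_subset_left)

lemma R_step (O D : Finset Site) (u : Site) :
    R q (insert u O) D ≤ R q {u} D + R q O (D \ ball u) := by
  have e : R q O (D \ ball u) = Ex q D (fun S => ((C (S \ ball u) O).card : ℝ)) := by
    have h1 : D \ ball u = D ∩ (D \ ball u) := (Finset.inter_eq_right.2 Finset.sdiff_subset).symm
    rw [R]
    conv_lhs => rw [h1]
    rw [← Ex_inter q D (D \ ball u) (fun S => ((C S O).card : ℝ))]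
    refine Ex_congr fun S hS => ?_
    congr 3
    ext z
    rw [Finset.mem_inter, Finset.mem_sdiff, Finset.mem_sdiff]
    exact ⟨fun h => ⟨h.1, h.2.2⟩, fun h => ⟨h.1, hS h.1, h.2⟩⟩
  rw [e, R, R, ← Ex_add]
  refine Ex_mono hq0 hq1 fun S _ => ?_
  have h : (C S (insert u O)).card ≤ (C S {u}).card + (C (S \ ball u) O).card :=
    (Finset.card_le_card (C_step S O u)).trans (Finset.card_union_le _ _)
  have h' : ((C S (insert u O)).card : ℝ) ≤ (C S {u}).card + (C (S \ ball u) O).card := by
    exact_mod_cast h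
  exact h'

lemma H_mono (L : Finset Site) {D D' : Finset Site} (h : D ⊆ D') : H q L D ≤ H q L D' :=
  Ex_mono hq0 hq1 fun O _ => R_mono hq0 hq1 O h

lemma H_insert {L : Finset Site} (D : Finset Site) {u : Site} (hu : u ∉ L) :
    H q (insert u L) D ≤ (1 - q) * H q L D + q * (R q {u} D + H q L (D \ ball u)) := by
  rw [H, Ex_insert q hu]
  have h : Ex q L (fun O => R q (insert u O) D) ≤ R q {u} D + H q L (D \ ball u) := by
    rw [H]
    conv_rhs => rw [← Ex_const q L (R q {u} D)]
    rw [← Ex_add]
    exact Ex_mono hq0 hq1 fun O _ => R_step hq0 hq1 O D u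
  have := mul_le_mul_of_nonneg_left h hq0
  rw [H]
  linarith

lemma H_insert0 {L : Finset Site} (D : Finset Site) {u : Site} (hu : u ∉ L) :
    H q (insert u L) D ≤ H q L D + q * R q {u} D := by
  have h1 := H_insert hq0 hq1 D hu
  have h2 := mul_le_mul_of_nonneg_left (H_mono hq0 hq1 L (D' := D) (D := D \ ball u)
    Finset.sdiff_subset) hq0
  linarith

omit hq0 hq1 in
lemma H_empty (D : Finset Site) : H q ∅ D = 0 := by
  rw [H, Ex_empty, R]
  have h : ∀ S ⊆ D, ((C S ∅).card : ℝ) = (fun _ => (0 : ℝ)) S := by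
    intro S _
    have : C S ∅ = ∅ := by
      ext z; rw [mem_C]; simp
    rw [this]; simp
  rw [Ex_congr h, Ex_const]

lemma R_root {L D : Finset Site} (hd : Disjoint L D) {v : Site} (hD : ∀ z ∈ D, z - v ∉ steps2) :
    R q {v} (L ∪ D) ≤ 1 + H q L D := by
  rw [R, Ex_union q hd, H]
  conv_rhs => rw [← Ex_const q L 1]
  rw [← Ex_add]
  refine Ex_mono hq0 hq1 fun O _ => ?_
  rw [R]
  conv_rhs => rw [← Ex_const q D 1]
  rw [← Ex_add]
  refine Ex_mono hq0 hq1 fun S hS => ?_
  have h := (Finset.card_le_card (C_root (S := S) (O := O) (v := v)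
    (fun z hz => hD z (hS hz)))).trans (Finset.card_insert_le _ _)
  have h' : ((C (O ∪ S) {v}).card : ℝ) ≤ (C S O).card + 1 := by exact_mod_cast h
  linarith

end MP_c38eaf_pr.Explore
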