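import Pool.Agent.Lib.MP_c38eaf_pr.Compare

/-!
# No distance-two percolation at small density
-/

open MeasureTheory ProbabilityTheory

namespace MP_c38eaf_pr

/-- The `18` nonzero vectors `d i` or `d i + d j`. -/
def steps2 : Finset Site :=
  ((Finset.univ : Finset (Fin 6)).image d ∪
    (Finset.univ : Finset (Fin 6 × Fin 6)).image (fun q => d q.1 + d q.2)).erase 0

lemma card_steps2 : steps2.card = 18 := by decide +kernel

/-- Lists of sites with steps in `steps2`, starting at `x`. -/
def paths2 : ℕ → Site → Finset (List Site)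
  | 0, x => {[x]}
  | n + 1, x => steps2.biUnion fun v => (paths2 n (x + v)).image (List.cons x)

lemma card_paths2 (n : ℕ) (x : Site) : (paths2 n x).card ≤ 18 ^ n := by
  induction n generalizing x with
  | zero => simp [paths2]
  | succ n ih =>
    calc (paths2 (n + 1) x).card
        ≤ ∑ v ∈ steps2, ((paths2 n (x + v)).image (List.cons x)).card := Finset.card_biUnion_le
      _ ≤ ∑ _v ∈ steps2, 18 ^ n :=
          Finset.sum_le_sum fun v _ => Finset.card_image_le.trans (ih _)
      _ = 18 ^ (n + 1) := by rw [Finset.sum_const, card_steps2, smul_eq_mul]; ring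

lemma length_paths2 (n : ℕ) (x : Site) (l : List Site) (h : l ∈ paths2 n x) :
    l.length = n + 1 := by
  induction n generalizing x l with
  | zero => simp [paths2] at h; simp [h]
  | succ n ih =>
    rw [paths2, Finset.mem_biUnion] at h
    obtain ⟨v, _, h⟩ := h
    rw [Finset.mem_image] at h
    obtain ⟨l', hl', rfl⟩ := h
    rw [List.length_cons, ih _ _ hl']

lemma twoGraph_step {ω : Site → Bool} {x y : Site} (h : (twoGraph ω).Adj x y) :
    y - x ∈ steps2 := by
  obtain ⟨hne, _, _, h⟩ := h
  rw [steps2, Finset.mem_erase]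
  refine ⟨sub_ne_zero.2 (Ne.symm hne), ?_⟩
  rw [Finset.mem_union, Finset.mem_image, Finset.mem_image]
  rcases h with ⟨i, rfl⟩ | ⟨z, ⟨i, rfl⟩, ⟨j, rfl⟩⟩
  · left; exact ⟨i, Finset.mem_univ _, by abel⟩
  · right; exact ⟨(i, j), Finset.mem_univ _, by simp only; abel⟩

lemma take_mem_paths2 {ω : Site → Bool} {x y : Site} (p : (twoGraph ω).Walk x y) (n : ℕ)
    (hn : n ≤ p.length) : p.support.take (n + 1) ∈ paths2 n x := by
  induction n generalizing x with
  | zero =>
    rw [paths2, Finset.mem_singleton]
    cases p with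
    | nil => rfl
    | cons h p => rfl
  | succ n ih =>
    cases p with
    | nil => simp at hn
    | @cons _ z _ h p =>
      rw [SimpleGraph.Walk.length_cons] at hn
      rw [SimpleGraph.Walk.support_cons, List.take_succ_cons, paths2, Finset.mem_biUnion]
      refine ⟨z - x, twoGraph_step h, ?_⟩
      rw [Finset.mem_image]
      refine ⟨_, ?_, rfl⟩
      rw [add_sub_cancel]
      exact ih p (by omega)

lemma support_true {ω : Site → Bool} {x y : Site} (p : (twoGraph ω).Walk x y)
    (hx : ω x = true) : ∀ z ∈ p.support, ω z = true := by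
  induction p with
  | nil => intro z hz; simp at hz; rw [hz]; exact hx
  | cons h p ih =>
    intro z hz
    rw [SimpleGraph.Walk.support_cons, List.mem_cons] at hz
    rcases hz with rfl | hz
    · exact hx
    · exact ih h.2.2.1 z hz

lemma steps2_bound : ∀ v ∈ steps2, -2 ≤ v.1 ∧ v.1 ≤ 2 ∧ -2 ≤ v.2 ∧ v.2 ≤ 2 := by
  decide +kernel

lemma walk_bound {ω : Site → Bool} {x y : Site} (p : (twoGraph ω).Walk x y) :
    -(2 * (p.length : ℤ)) ≤ y.1 - x.1 ∧ y.1 - x.1 ≤ 2 * p.length ∧
    -(2 * (p.length : ℤ)) ≤ y.2 - x.2 ∧ y.2 - x.2 ≤ 2 * p.length := by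
  induction p with
  | nil => simp
  | cons h p ih =>
    have hb := steps2_bound _ (twoGraph_step h)
    simp only [Prod.fst_sub, Prod.snd_sub] at hb
    rw [SimpleGraph.Walk.length_cons]
    push_cast
    omega

/-- An infinite cluster contains long paths. -/
lemma exists_long {ω : Site → Bool} (h : {y | (twoGraph ω).Reachable 0 y}.Infinite) (n : ℕ) :
    ∃ (y : Site) (p : (twoGraph ω).Walk 0 y), p.IsPath ∧ n ≤ p.length := by
  by_contra hcon
  push Not at hcon
  apply h
  apply (Set.finite_Icc ((-(2 * n : ℤ), -(2 * n : ℤ)) : Site) ((2 * n : ℤ), (2 * n : ℤ))).subset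
  intro y hy
  obtain ⟨p, hp⟩ := SimpleGraph.Reachable.exists_isPath hy
  have h1 := hcon y p hp
  have h2 := walk_bound p
  simp only [Prod.fst_zero, Prod.snd_zero, sub_zero] at h2
  rw [Set.mem_Icc, Prod.le_def, Prod.le_def]
  simp only
  omega

lemma psi_le (p : unitInterval) (n : ℕ) : psi p ≤ (18 * dens p true) ^ n := by
  have hsub : {ω : Site → Bool | {y | (twoGraph ω).Reachable 0 y}.Infinite} ⊆
      ⋃ l ∈ (paths2 n 0).filter (fun l => l.Nodup), {ω | ∀ x ∈ l, ω x = true} := by
    intro ω hω
    obtain ⟨y, q, hq, hl⟩ := exists_long hω (n + 1)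
    rw [Set.mem_iUnion₂]
    refine ⟨q.support.take (n + 1), ?_, ?_⟩
    · rw [Finset.mem_filter]
      exact ⟨take_mem_paths2 q n (by omega), hq.support_nodup.sublist (List.take_sublist _ _)⟩
    · have h0 : ω 0 = true := by
        cases q with
        | nil => simp at hl
        | cons h q => exact h.2.1
      intro x hx
      exact support_true q h0 x (List.mem_of_mem_take hx)
  have hd : dens p true ≤ 1 := by
    rw [dens]; exact prob_le_one
  calc psi p ≤ _ := measure_mono hsub
    _ ≤ ∑ l ∈ (paths2 n 0).filter (fun l => l.Nodup), labels p {ω | ∀ x ∈ l, ω x = true} :=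
        measure_biUnion_finset_le _ _
    _ = ∑ l ∈ (paths2 n 0).filter (fun l => l.Nodup), dens p true ^ (n + 1) := by
        apply Finset.sum_congr rfl
        intro l hl
        rw [Finset.mem_filter] at hl
        rw [labels_all_list p true hl.2, length_paths2 n 0 l hl.1]
    _ = (((paths2 n 0).filter (fun l => l.Nodup)).card : ENNReal) * dens p true ^ (n + 1) := by
        rw [Finset.sum_const, nsmul_eq_mul]
    _ ≤ (18 ^ n : ℕ) * dens p true ^ n := by
        gcongr ?_ * ?_
        · exact_mod_cast (Finset.card_filter_le _ _).trans (card_paths2 n 0)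
        · exact pow_le_pow_right_of_le_one' hd (Nat.le_succ n)
    _ = (18 * dens p true) ^ n := by push_cast; rw [mul_pow]

/-- No distance-two percolation at small density: `T²` has degree 18.  If the cluster of 0 in `twoGraph ω` is infinite
there is for every n a self-avoiding path of n steps from 0 (n + 1 distinct `A` sites, consecutive ones differing by
one of the 18 nonzero vectors `d i` or `d i + d j`); there are at most 18^n of them, each of probability p^(n+1)
(`labels_all_list` in Words.lean, `dens_true` in Compare.lean). -/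
theorem psi_eq_zero_of_small (p : unitInterval) (hp : (p : ℝ) < 1 / 18) : psi p = 0 := by
  have h1 : 18 * dens p true < 1 := by
    rw [dens_true]
    have e : (18 : ENNReal) = ENNReal.ofReal 18 := by simp
    rw [e, ← ENNReal.ofReal_mul (by norm_num), ENNReal.ofReal_lt_one]
    linarith
  have h2 := ENNReal.tendsto_pow_atTop_nhds_zero_of_lt_one h1
  have h3 : psi p ≤ 0 := ge_of_tendsto' h2 (psi_le p)
  exact le_antisymm h3 bot_le

end MP_c38eaf_pr
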