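import Pool.Agent.Lib.MP_c38eaf_pr.Small
import Pool.Agent.Lib.MP_c38eaf_pr.Arms
import Pool.Agent.Lib.MP_c38eaf_pr.Block
import Pool.Agent.Lib.MP_c38eaf_pr.Lower
import Pool.Agent.Lib.MP_c38eaf_pr.ZeroOne
import Pool.Agent.Lib.MP_c38eaf_pr.Compare

/-!
# The percolating set is an open interval
-/

open MeasureTheory ProbabilityTheory

namespace MP_c38eaf_pr

/-- In the supercritical phase, strips of `BB` edges cross some annulus with arbitrarily small
probability. -/
theorem small_SC (p : unitInterval) (hp : 0 < psi p) (δ : ENNReal) (hδ : 0 < δ) :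
    ∃ a : ℕ, 1 ≤ a ∧ labels p (SC (6 * a) (18 * a)) ≤ δ :=
  small_SC_of p hp (link_prob p hp) (fun ω n h M c => block (ω := ω) (n := n) (h := h) (M := M)
    (c := c)) SC_subset_BadSide δ hδ

/-- The set of supercritical densities is open. -/
theorem isOpen_psi_pos : IsOpen {q : unitInterval | 0 < psi q} := by
  rw [isOpen_iff_mem_nhds]
  intro q hq
  obtain ⟨δ, hδ, hcrit⟩ := criterion
  by_cases hδt : δ = ⊤
  · -- trivial case
    filter_upwards with q'
    exact hcrit q' 1 le_rfl (by rw [hδt]; exact le_top)
  · obtain ⟨a, ha, h1⟩ := small_SC q hq (δ / 2) (ENNReal.half_pos hδ.ne')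
    obtain ⟨D, hD, hloc⟩ := SC_local (6 * a) (18 * a)
    have hcont := continuous_local hD hloc
    have h2 : labels q (SC (6 * a) (18 * a)) < δ :=
      h1.trans_lt (ENNReal.half_lt_self hδ.ne' hδt)
    have h3 := hcont.continuousAt.eventually_lt (g := fun _ => δ) (x₀ := q) continuousAt_const h2
    filter_upwards [h3] with q' h4
    exact hcrit q' a ha h4.le

lemma measurableSet_ab_adj (x y : Site) : MeasurableSet {ω | (abGraph ω).Adj x y} :=
  measurableSet_two x y fun a b => tri.Adj x y ∧ a ≠ b

/-- AB percolation occurs at `1/2`. -/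
theorem theta_half_pos {p : unitInterval} (hp : (p : ℝ) = 1 / 2) : 0 < theta p := by
  rw [pos_iff_ne_zero]
  intro hθ
  have ht : dens p true ≤ 1 / 2 := dens_true_le_half hp.le
  have hf : dens p false ≤ 1 / 2 := by
    rw [dens_false]
    calc ENNReal.ofReal (1 - p) ≤ ENNReal.ofReal (1 / 2) :=
          ENNReal.ofReal_le_ofReal (by rw [hp]; norm_num)
      _ = 1 / 2 := by rw [ENNReal.ofReal_div_of_pos (by norm_num)]; simp
  have h1 : ∀ R : ℕ, (1 : ENNReal) ≤
      6 * (31 * dens p true ^ 5) ^ R * (1 - 31 * dens p true ^ 5)⁻¹ +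
      6 * (31 * dens p false ^ 5) ^ R * (1 - 31 * dens p false ^ 5)⁻¹ := by
    intro R
    have hnull : labels p (⋃ x ∈ box (3 * R), {ω | {y | (abGraph ω).Reachable x y}.Infinite})
        = 0 := by
      rw [measure_biUnion_null_iff (box_finite _).countable]
      intro x _
      rw [theta_site, hθ]
    have hmeas : MeasurableSet
        (⋃ x ∈ box (3 * R), {ω | {y | (abGraph ω).Reachable x y}.Infinite}) :=
      Set.Finite.measurableSet_biUnion (box_finite _) (fun x _ =>
        measurableSet_infinite measurableSet_ab_adj x)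
    have hone : labels p (⋃ x ∈ box (3 * R), {ω | {y | (abGraph ω).Reachable x y}.Infinite})ᶜ
        = 1 := by
      rw [prob_compl_eq_one_sub hmeas, hnull, tsub_zero]
    calc (1 : ENNReal) = _ := hone.symm
      _ ≤ labels p ((⋃ k : ℕ, Arc true (((3 * R : ℕ) : ℤ) + k)) ∪
            ⋃ k : ℕ, Arc false (((3 * R : ℕ) : ℤ) + k)) := measure_mono (ab_fin_subset _)
      _ ≤ _ := (measure_union_le _ _).trans
          (add_le_add (labels_Arc_sum_le p true R) (labels_Arc_sum_le p false R))
  have h2 := ge_of_tendsto' ((arc_tendsto (thirty_one_lt ht)).add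
    (arc_tendsto (thirty_one_lt hf))) h1
  rw [add_zero] at h2
  exact absurd h2 (by norm_num)

/-- **The percolating set of AB percolation on the triangular lattice is the open interval
`(c, 1 - c)`, where `c` is the critical density of site percolation on `T²`.** -/
theorem percolating_interval : ∃ c : ℝ, 1 / 18 ≤ c ∧ c < 1 / 2 ∧
    (∀ q : unitInterval, 0 < psi q ↔ c < q) ∧
    ∀ p : unitInterval, 0 < theta p ↔ c < p ∧ (p : ℝ) < 1 - c := by
  set S : Set ℝ := {x | ∃ q : unitInterval, (q : ℝ) = x ∧ 0 < psi q} with hS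
  have hlow : ∀ x ∈ S, 1 / 18 ≤ x := by
    rintro x ⟨q, rfl, hq⟩
    by_contra hcon
    push Not at hcon
    rw [psi_eq_zero_of_small q hcon] at hq
    exact lt_irrefl _ hq
  have hbdd : BddBelow S := ⟨1 / 18, hlow⟩
  let half : unitInterval := ⟨1 / 2, by norm_num, by norm_num⟩
  have hhalf : 0 < psi half := psi_pos_of_theta (theta_half_pos (p := half) rfl)
  have hne : S.Nonempty := ⟨1 / 2, half, rfl, hhalf⟩
  have key : ∀ q : unitInterval, 0 < psi q ↔ sInf S < q := by
    intro q
    constructor
    · intro hq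
      have hq0 : 0 < (q : ℝ) := by
        have := hlow q ⟨q, rfl, hq⟩
        linarith
      -- a slightly smaller supercritical density
      have h1 := isOpen_psi_pos.mem_nhds hq
      rw [Metric.mem_nhds_iff] at h1
      obtain ⟨ε, hε, hball⟩ := h1
      set t : ℝ := max (q / 2) (q - ε / 2) with ht
      have ht0 : 0 ≤ t := le_trans (by positivity) (le_max_left _ _)
      have htq : t < q := max_lt (by linarith) (by linarith)
      let q' : unitInterval := ⟨t, ht0, by linarith [q.2.2]⟩
      have hq' : q' ∈ Metric.ball q ε := by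
        rw [Metric.mem_ball, Subtype.dist_eq, Real.dist_eq, abs_lt]
        have : (q : ℝ) - ε / 2 ≤ t := le_max_right _ _
        constructor
        · show -ε < t - q
          linarith
        · show t - q < ε
          linarith
      exact lt_of_le_of_lt (csInf_le hbdd ⟨q', rfl, hball hq'⟩) htq
    · intro hq
      obtain ⟨x, ⟨q', rfl, hq'⟩, hx⟩ := (csInf_lt_iff hbdd hne).1 hq
      exact lt_of_lt_of_le hq' (psi_mono (show q' ≤ q from hx.le))
  refine ⟨sInf S, le_csInf hne hlow, ?_, key, ?_⟩
  · exact (key half).1 hhalf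
  · intro p
    rw [theta_pos_iff, key]
    have hsymm : ((unitInterval.symm p : unitInterval) : ℝ) = 1 - p := rfl
    rcases le_total p (unitInterval.symm p) with h | h
    · rw [min_eq_left h]
      have h' : (p : ℝ) ≤ 1 - p := h
      constructor
      · intro h1; exact ⟨h1, by linarith⟩
      · intro h1; exact h1.1
    · rw [min_eq_right h, hsymm]
      have h' : 1 - (p : ℝ) ≤ p := h
      constructor
      · intro h1; exact ⟨by linarith, by linarith⟩
      · intro h1; linarith [h1.2]

end MP_c38eaf_pr
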