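import Pool.Agent.Lib.MP_c38eaf_pr.Defs2
import Pool.Agent.Lib.MP_c38eaf_pr.Cross

/-!
# Hubs and links
-/

open Classical

namespace MP_c38eaf_pr

/-- The hexagon of radius `N` around `c`. -/
def hex (c : Site) (N : ℕ) : Set Site :=
  {z | |z.1 - c.1| ≤ N ∧ |z.2 - c.2| ≤ N ∧ |z.1 + z.2 - (c.1 + c.2)| ≤ N}

lemma mem_hex {c z : Site} {N : ℕ} : z ∈ hex c N ↔ (-(N : ℤ) ≤ z.1 - c.1 ∧ z.1 - c.1 ≤ N) ∧
    (-(N : ℤ) ≤ z.2 - c.2 ∧ z.2 - c.2 ≤ N) ∧
    (-(N : ℤ) ≤ z.1 + z.2 - (c.1 + c.2) ∧ z.1 + z.2 - (c.1 + c.2) ≤ N) := by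
  rw [hex, Set.mem_ofPred_eq, abs_le, abs_le, abs_le]

lemma hex_mono {c : Site} {n N : ℕ} (h : n ≤ N) : hex c n ⊆ hex c N := by
  intro z hz
  rw [mem_hex] at hz ⊢
  omega

lemma center_mem_hex (c : Site) (N : ℕ) : c ∈ hex c N := by
  rw [mem_hex]; simp

lemma hex_finite (c : Site) (N : ℕ) : (hex c N).Finite := by
  apply (Set.finite_Icc ((c.1 - N, c.2 - N) : Site) (c.1 + N, c.2 + N)).subset
  intro z hz
  rw [mem_hex] at hz
  rw [Set.mem_Icc, Prod.le_def, Prod.le_def]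
  simp only
  omega

/-- Hexagons are connected. -/
lemma hex_walk {c z : Site} {N : ℕ} (hz : z ∈ hex c N) :
    ∃ w : tri.Walk c z, ∀ y ∈ w.support, y ∈ hex c N := by
  obtain ⟨c1, c2⟩ := c
  obtain ⟨z1, z2⟩ := z
  rw [mem_hex] at hz
  simp only at hz
  have h1 : ∃ w : tri.Walk (c1, c2) (z1, c2), ∀ y ∈ w.support, y ∈ hex (c1, c2) N := by
    rcases le_total c1 z1 with h | h
    · obtain ⟨w, hw⟩ := exists_horiz c1 z1 c2 h
      refine ⟨w, fun y hy => ?_⟩
      have := hw y hy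
      rw [mem_hex]; simp only; omega
    · obtain ⟨w, hw⟩ := exists_horiz z1 c1 c2 h
      refine ⟨w.reverse, fun y hy => ?_⟩
      rw [SimpleGraph.Walk.support_reverse, List.mem_reverse] at hy
      have := hw y hy
      rw [mem_hex]; simp only; omega
  have h2 : ∃ w : tri.Walk (z1, c2) (z1, z2), ∀ y ∈ w.support, y ∈ hex (c1, c2) N := by
    rcases le_total c2 z2 with h | h
    · obtain ⟨w, hw⟩ := exists_up z1 c2 z2 h
      refine ⟨w, fun y hy => ?_⟩
      have := hw y hy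
      rw [mem_hex]; simp only; omega
    · obtain ⟨w, hw⟩ := exists_up z1 z2 c2 h
      refine ⟨w.reverse, fun y hy => ?_⟩
      rw [SimpleGraph.Walk.support_reverse, List.mem_reverse] at hy
      have := hw y hy
      rw [mem_hex]; simp only; omega
  obtain ⟨w1, hw1⟩ := h1
  obtain ⟨w2, hw2⟩ := h2
  refine ⟨w1.append w2, fun y hy => ?_⟩
  rw [SimpleGraph.Walk.mem_support_append_iff] at hy
  exact hy.elim (hw1 y) (hw2 y)

/-- The open graph restricted to `D`. -/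
def orIn (ω : Site → Bool) (D : Set Site) : SimpleGraph Site where
  Adj x y := (orGraph ω).Adj x y ∧ x ∈ D ∧ y ∈ D
  symm := ⟨fun _ _ h => ⟨h.1.symm, h.2.2, h.2.1⟩⟩
  loopless := ⟨fun _ h => (orGraph ω).loopless.irrefl _ h.1⟩

lemma orIn_le_tri (ω : Site → Bool) (D : Set Site) : orIn ω D ≤ tri := fun _ _ h => h.1.1

lemma orIn_mono {ω ω' : Site → Bool} (h : ∀ x, ω x = true → ω' x = true) {D D' : Set Site}
    (hD : D ⊆ D') : orIn ω D ≤ orIn ω' D' :=
  fun _ _ h1 => ⟨⟨h1.1.1, h1.1.2.imp (h _) (h _)⟩, hD h1.2.1, hD h1.2.2⟩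

/-- Walks in the restricted graph, seen in `T`. -/
lemma exists_tri_walk {ω : Site → Bool} {D : Set Site} {x y : Site} (hx : x ∈ D)
    (h : (orIn ω D).Reachable x y) : ∃ w : tri.Walk x y, ∀ z ∈ w.support, z ∈ D ∧
      (orIn ω D).Reachable x z := by
  obtain ⟨p⟩ := h
  refine ⟨p.mapLe (orIn_le_tri ω D), fun z hz => ?_⟩
  rw [SimpleGraph.Walk.support_mapLe_eq_support] at hz
  have h1 : (orIn ω D).Reachable x z := ⟨p.takeUntil z hz⟩
  refine ⟨?_, h1⟩
  rw [SimpleGraph.reachable_iff_reflTransGen] at h1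
  rcases Relation.ReflTransGen.cases_tail h1 with h2 | ⟨c, _, h2⟩
  · rw [h2]; exact hx
  · exact h2.2.2

/-- Put label `A` on all sites of `W`. -/
noncomputable def fill (W : Set Site) (ω : Site → Bool) : Site → Bool :=
  fun x => if x ∈ W then true else ω x

lemma fill_of_mem {W : Set Site} {ω : Site → Bool} {x : Site} (h : x ∈ W) : fill W ω x = true :=
  if_pos h

lemma fill_of_notMem {W : Set Site} {ω : Site → Bool} {x : Site} (h : x ∉ W) :
    fill W ω x = ω x := if_neg h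

lemma le_fill {W : Set Site} {ω : Site → Bool} {x : Site} (h : ω x = true) :
    fill W ω x = true := by
  by_cases hx : x ∈ W
  · exact fill_of_mem hx
  · rw [fill_of_notMem hx]; exact h

lemma fill_mono {W W' : Set Site} (hW : W ⊆ W') {ω : Site → Bool} {x : Site}
    (h : fill W ω x = true) : fill W' ω x = true := by
  by_cases hx : x ∈ W
  · exact fill_of_mem (hW hx)
  · rw [fill_of_notMem hx] at h; exact le_fill h

/-- A filled hexagon is connected. -/
lemma hex_reach {ω : Site → Bool} {W D : Set Site} {c z : Site} {n : ℕ} (hW : hex c n ⊆ W)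
    (hD : hex c n ⊆ D) (hz : z ∈ hex c n) : (orIn (fill W ω) D).Reachable c z := by
  obtain ⟨w, hw⟩ := hex_walk hz
  clear hz
  -- along the walk
  have key : ∀ {a b : Site} (w : tri.Walk a b), (∀ y ∈ w.support, y ∈ hex c n) →
      (orIn (fill W ω) D).Reachable a b := by
    intro a b w hw
    induction w with
    | nil => exact SimpleGraph.Reachable.refl _
    | @cons a b' b hab w ih =>
      have ha := hw a (by simp)
      have hb := hw b' (by simp)
      refine SimpleGraph.Reachable.trans (SimpleGraph.Adj.reachable ?_)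
        (ih (fun y hy => hw y (by simp [hy])))
      exact ⟨⟨hab, Or.inl (fill_of_mem (hW ha))⟩, hD ha, hD hb⟩
  exact key w hw

/-- `X` and `Y` are connected inside `D`. -/
def Conn (ω : Site → Bool) (D X Y : Set Site) : Prop :=
  ∃ x ∈ X ∩ D, ∃ y ∈ Y ∩ D, (orIn ω D).Reachable x y

/-- The link between two hubs. -/
def Linked (ω : Site → Bool) (n : ℕ) (D : Set Site) (z z' : Site) : Prop :=
  (orIn (fill (hex z n ∪ hex z' n) ω) D).Reachable z z'

/-- **Linking two hubs.** -/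
theorem hub_link {ω : Site → Bool} {n N M h : ℕ} {α β : ℤ} {c : Site} (hNM : N = M + h)
    (hh : 1 ≤ h) (hnM : n ≤ M) (hc : c.1 + c.2 = h)
    (h1 : Conn ω (hex 0 N) (hex 0 n) {z | z.1 + z.2 = N ∧ 0 ≤ z.2 - z.1 ∧ z.2 - z.1 ≤ α})
    (h2 : Conn ω (hex 0 N) (hex 0 n) {z | z.1 + z.2 = -N})
    (h3 : Conn ω (hex c M) (hex c n) {z | z.1 + z.2 - (c.1 + c.2) = M ∧
      β ≤ (z.2 - z.1) - (c.2 - c.1)})
    (h4 : Conn ω (hex c M) (hex c n) {z | z.1 + z.2 - (c.1 + c.2) = M ∧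
      (z.2 - z.1) - (c.2 - c.1) ≤ -β})
    (hα : α - (c.2 - c.1) ≤ β) (hβ : c.2 - c.1 ≤ β) :
    Linked ω n (hex 0 N ∪ hex c M) 0 c := by
  set W := hex 0 n ∪ hex c n with hW
  set ω' := fill W ω with hω'
  have hmono : ∀ x, ω x = true → ω' x = true := fun x hx => le_fill hx
  obtain ⟨x1, ⟨hx1, hx1'⟩, p, ⟨hp, hp'⟩, h1⟩ := h1
  obtain ⟨x2, ⟨hx2, hx2'⟩, s, ⟨hs, hs'⟩, h2⟩ := h2
  obtain ⟨x3, ⟨hx3, hx3'⟩, a, ⟨ha, ha'⟩, h3⟩ := h3
  obtain ⟨x4, ⟨hx4, hx4'⟩, b, ⟨hb, hb'⟩, h4⟩ := h4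
  have e1 : (orIn ω' (hex 0 N)).Reachable 0 x1 := hex_reach (by simp [hW]) (hex_mono (by omega)) hx1
  have e2 : (orIn ω' (hex 0 N)).Reachable 0 x2 := hex_reach (by simp [hW]) (hex_mono (by omega)) hx2
  have e3 : (orIn ω' (hex c M)).Reachable c x3 := hex_reach (by simp [hW]) (hex_mono hnM) hx3
  have e4 : (orIn ω' (hex c M)).Reachable c x4 := hex_reach (by simp [hW]) (hex_mono hnM) hx4
  have f1 : (orIn ω' (hex 0 N)).Reachable 0 p := e1.trans (h1.mono (orIn_mono hmono subset_rfl))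
  have f2 : (orIn ω' (hex 0 N)).Reachable 0 s := e2.trans (h2.mono (orIn_mono hmono subset_rfl))
  have f3 : (orIn ω' (hex c M)).Reachable c a := e3.trans (h3.mono (orIn_mono hmono subset_rfl))
  have f4 : (orIn ω' (hex c M)).Reachable c b := e4.trans (h4.mono (orIn_mono hmono subset_rfl))
  obtain ⟨P, hP⟩ := exists_tri_walk hs' (f2.symm.trans f1)
  obtain ⟨Q, hQ⟩ := exists_tri_walk hb' (f4.symm.trans f3)
  simp only [Set.mem_ofPred_eq] at hp hs ha hb
  obtain ⟨z, hz1, hz2⟩ := hub_cross (N := N) P Q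
    (fun z hz => by
      have := (hP z hz).1
      rw [mem_hex] at this
      simp only [Prod.fst_zero, Prod.snd_zero] at this
      omega)
    (fun z hz => by
      have := (hQ z hz).1
      rw [mem_hex] at this
      omega)
    hp.1 (by omega) (by omega) (by omega) (by omega)
  have g1 : (orIn ω' (hex 0 N)).Reachable 0 z := f2.trans (hP z hz1).2
  have g2 : (orIn ω' (hex c M)).Reachable c z := f4.trans (hQ z hz2).2
  exact (g1.mono (orIn_mono (fun _ h => h) Set.subset_union_left)).trans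
    (g2.mono (orIn_mono (fun _ h => h) Set.subset_union_right)).symm

end MP_c38eaf_pr
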