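import Pool.Agent.Lib.MP_c38eaf_pr.Dichotomy

/-!
# Translation invariance, label flip, and comparison of `θ` and `ψ`
-/

open MeasureTheory ProbabilityTheory

namespace MP_c38eaf_pr

/-- Translation of configurations. -/
noncomputable def shift (x : Site) : (Site → Bool) ≃ᵐ (Site → Bool) :=
  MeasurableEquiv.piCongrLeft (fun _ : Site => Bool) (Equiv.subRight x)

lemma shift_apply (x : Site) (ω : Site → Bool) (y : Site) : shift x ω y = ω (y + x) := by
  have := MeasurableEquiv.piCongrLeft_apply_apply (Equiv.subRight x) (β := fun _ : Site => Bool)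
    ω (y + x)
  rw [Equiv.subRight_apply, add_sub_cancel_right] at this
  exact this

lemma shift_preserving (p : unitInterval) (x : Site) :
    MeasurePreserving (shift x) (labels p) (labels p) :=
  ⟨(shift x).measurable, Measure.infinitePi_map_piCongrLeft (X := fun _ : Site => Bool)
    (fun _ : Site => bernoulliMeasure true false p) (Equiv.subRight x)⟩

lemma labels_shift (p : unitInterval) (x : Site) (E : Set (Site → Bool)) :
    labels p (shift x ⁻¹' E) = labels p E :=
  (shift_preserving p x).measure_preimage_equiv E

/-- Swapping the labels. -/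
def flip (ω : Site → Bool) : Site → Bool := fun x => !ω x

lemma flip_flip (ω : Site → Bool) : flip (flip ω) = ω := by funext x; simp [flip]

lemma measurable_flip : Measurable flip := by
  apply measurable_pi_lambda
  intro x
  exact (measurable_of_countable (fun b : Bool => !b)).comp (measurable_pi_apply x)

/-- Swapping the labels, as a measurable equivalence. -/
noncomputable def flipEquiv : (Site → Bool) ≃ᵐ (Site → Bool) where
  toFun := flip
  invFun := flip
  left_inv := flip_flip
  right_inv := flip_flip
  measurable_toFun := measurable_flip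
  measurable_invFun := measurable_flip

lemma bernoulli_map_not (p : unitInterval) :
    (bernoulliMeasure true false p).map (fun b => !b) =
      bernoulliMeasure true false (unitInterval.symm p) := by
  have hm : Measurable (fun b : Bool => !b) := measurable_of_countable _
  rw [bernoulliMeasure_def, bernoulliMeasure_def, Measure.map_add _ _ hm, Measure.map_smul,
    Measure.map_smul, Measure.map_dirac' hm, Measure.map_dirac' hm, unitInterval.symm_symm, add_comm]
  rfl

lemma flip_preserving (p : unitInterval) :
    MeasurePreserving flipEquiv (labels p) (labels (unitInterval.symm p)) := by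
  refine ⟨flipEquiv.measurable, ?_⟩
  have h := Measure.infinitePi_map_pi (fun _ : Site => bernoulliMeasure true false p)
    (Y := fun _ => Bool) (f := fun _ b => !b) (fun _ => measurable_of_countable _)
  rw [labels, labels]
  have e : (fun _ : Site => (bernoulliMeasure true false p).map (fun b => !b)) =
      fun _ : Site => bernoulliMeasure true false (unitInterval.symm p) := by
    funext _; exact bernoulli_map_not p
  rw [← e, ← h]
  rfl

lemma abGraph_flip (ω : Site → Bool) : abGraph (flip ω) = abGraph ω := by
  ext x y
  simp [abGraph, flip]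

/-- `θ(p) = θ(1-p)`. -/
theorem theta_symm (p : unitInterval) : theta (unitInterval.symm p) = theta p := by
  rw [theta, theta, ← (flip_preserving p).measure_preimage_equiv]
  congr 1
  ext ω
  show {y | (abGraph (flip ω)).Reachable 0 y}.Infinite ↔ {y | (abGraph ω).Reachable 0 y}.Infinite
  rw [abGraph_flip]

/-- Translations are graph homomorphisms. -/
def abHom (x : Site) (ω : Site → Bool) : abGraph (shift x ω) →g abGraph ω where
  toFun y := y + x
  map_rel' := by
    rintro a b ⟨⟨i, rfl⟩, h⟩
    refine ⟨⟨i, by abel⟩, ?_⟩
    rwa [shift_apply, shift_apply] at h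

/-- Translations are graph homomorphisms. -/
def abHom' (x : Site) (ω : Site → Bool) : abGraph ω →g abGraph (shift x ω) where
  toFun y := y - x
  map_rel' := by
    rintro a b ⟨⟨i, rfl⟩, h⟩
    refine ⟨⟨i, by abel⟩, ?_⟩
    rwa [shift_apply, shift_apply, sub_add_cancel, sub_add_cancel]

lemma ab_shift (x : Site) : {ω | {y | (abGraph ω).Reachable x y}.Infinite} =
    shift x ⁻¹' {ω | {y | (abGraph ω).Reachable 0 y}.Infinite} := by
  ext ω
  show {y | (abGraph ω).Reachable x y}.Infinite ↔ {y | (abGraph (shift x ω)).Reachable 0 y}.Infinite
  have h : {y | (abGraph ω).Reachable x y} =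
      (fun y => y + x) '' {y | (abGraph (shift x ω)).Reachable 0 y} := by
    ext y
    constructor
    · intro h
      refine ⟨y - x, ?_, by simp⟩
      have := h.map (abHom' x ω)
      have e : abHom' x ω x = 0 := sub_self x
      rw [e] at this
      exact this
    · rintro ⟨z, hz, rfl⟩
      have := SimpleGraph.Reachable.map (abHom x ω) hz
      have e : abHom x ω 0 = x := zero_add x
      rw [e] at this
      exact this
  rw [h, Set.infinite_image_iff (add_left_injective x).injOn]

/-- The probability that `x` lies in an infinite AB cluster does not depend on `x`. -/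
lemma theta_site (p : unitInterval) (x : Site) :
    labels p {ω | {y | (abGraph ω).Reachable x y}.Infinite} = theta p := by
  rw [ab_shift, labels_shift, theta]

/-- Translations are graph homomorphisms. -/
def twoHom (x : Site) (ω : Site → Bool) : twoGraph (shift x ω) →g twoGraph ω where
  toFun y := y + x
  map_rel' := by
    rintro a b ⟨h1, h2, h3, h4⟩
    rw [shift_apply] at h2 h3
    refine ⟨fun h => h1 (add_right_cancel h), h2, h3, ?_⟩
    rcases h4 with ⟨i, rfl⟩ | ⟨z, ⟨i, rfl⟩, ⟨j, rfl⟩⟩
    · exact Or.inl ⟨i, by abel⟩
    · exact Or.inr ⟨a + x + d i, ⟨i, rfl⟩, ⟨j, by abel⟩⟩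

/-- Translations are graph homomorphisms. -/
def twoHom' (x : Site) (ω : Site → Bool) : twoGraph ω →g twoGraph (shift x ω) where
  toFun y := y - x
  map_rel' := by
    rintro a b ⟨h1, h2, h3, h4⟩
    refine ⟨fun h => h1 (sub_left_injective h), ?_, ?_, ?_⟩
    · rw [shift_apply, sub_add_cancel]; exact h2
    · rw [shift_apply, sub_add_cancel]; exact h3
    · rcases h4 with ⟨i, rfl⟩ | ⟨z, ⟨i, rfl⟩, ⟨j, rfl⟩⟩
      · exact Or.inl ⟨i, by abel⟩
      · exact Or.inr ⟨a - x + d i, ⟨i, rfl⟩, ⟨j, by abel⟩⟩

lemma two_shift (x : Site) : {ω | {y | (twoGraph ω).Reachable x y}.Infinite} =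
    shift x ⁻¹' {ω | {y | (twoGraph ω).Reachable 0 y}.Infinite} := by
  ext ω
  show {y | (twoGraph ω).Reachable x y}.Infinite ↔
    {y | (twoGraph (shift x ω)).Reachable 0 y}.Infinite
  have h : {y | (twoGraph ω).Reachable x y} =
      (fun y => y + x) '' {y | (twoGraph (shift x ω)).Reachable 0 y} := by
    ext y
    constructor
    · intro h
      refine ⟨y - x, ?_, by simp⟩
      have := h.map (twoHom' x ω)
      have e : twoHom' x ω x = 0 := sub_self x
      rw [e] at this
      exact this
    · rintro ⟨z, hz, rfl⟩
      have := SimpleGraph.Reachable.map (twoHom x ω) hz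
      have e : twoHom x ω 0 = x := zero_add x
      rw [e] at this
      exact this
  rw [h, Set.infinite_image_iff (add_left_injective x).injOn]

lemma psi_site (p : unitInterval) (x : Site) :
    labels p {ω | {y | (twoGraph ω).Reachable x y}.Infinite} = psi p := by
  rw [two_shift, labels_shift, psi]

/-- The `A` sites of an AB cluster are connected in the distance-two graph. -/
lemma ab_two {ω : Site → Bool} {x y : Site} (hx : ω x = true) (h : (abGraph ω).Reachable x y) :
    (ω y = true → (twoGraph ω).Reachable x y) ∧
      (ω y = false → ∃ i, (twoGraph ω).Reachable x (y + d i)) := by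
  rw [SimpleGraph.reachable_iff_reflTransGen] at h
  induction h with
  | refl => exact ⟨fun _ => SimpleGraph.Reachable.refl _, fun h => by rw [hx] at h; cases h⟩
  | @tail a b _ hab ih =>
    obtain ⟨hab, hne⟩ := hab
    constructor
    · intro hb
      have ha : ω a = false := by
        cases h : ω a
        · rfl
        · rw [h, hb] at hne; exact absurd rfl hne
      obtain ⟨i, hi⟩ := ih.2 ha
      by_cases he : a + d i = b
      · rwa [he] at hi
      · refine hi.trans (SimpleGraph.Adj.reachable ⟨he, ?_, hb, Or.inr ⟨a, ?_, hab⟩⟩)
        · -- `a + d i` is an `A` site since it is reachable from the `A` site `x`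
          have key : ∀ z, (twoGraph ω).Reachable x z → ω z = true := by
            intro z hz
            rw [SimpleGraph.reachable_iff_reflTransGen] at hz
            rcases Relation.ReflTransGen.cases_tail hz with h | ⟨c, _, h⟩
            · rw [h]; exact hx
            · exact h.2.2.1
          exact key _ hi
        · exact SimpleGraph.Adj.symm (G := tri) ⟨i, rfl⟩
    · intro hb
      have ha : ω a = true := by
        cases h : ω a
        · rw [h, hb] at hne; exact absurd rfl hne
        · rfl
      obtain ⟨i, hi⟩ := hab.symm
      refine ⟨i, ?_⟩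
      rw [← hi]
      exact ih.1 ha

/-- If the AB cluster of an `A` site is infinite, so is its distance-two cluster. -/
lemma two_infinite_of_ab {ω : Site → Bool} {x : Site} (hx : ω x = true)
    (h : {y | (abGraph ω).Reachable x y}.Infinite) :
    {y | (twoGraph ω).Reachable x y}.Infinite := by
  intro hfin
  apply h
  have h2 : {y | (abGraph ω).Reachable x y} ⊆
      {y | (twoGraph ω).Reachable x y} ∪ ⋃ i : Fin 6, (fun y => y - d i) ''
        {y | (twoGraph ω).Reachable x y} := by
    intro y hy
    obtain ⟨h1, h2⟩ := ab_two hx hy
    cases hb : ω y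
    · right
      obtain ⟨i, hi⟩ := h2 hb
      rw [Set.mem_iUnion]
      exact ⟨i, y + d i, hi, by simp⟩
    · exact Or.inl (h1 hb)
  exact (hfin.union (Set.finite_iUnion fun i => hfin.image _)).subset h2

/-- `θ(p) > 0` implies `ψ(p) > 0`. -/
theorem theta_le_psi (p : unitInterval) : theta p ≤ 7 * psi p := by
  have hsub : {ω | {y | (abGraph ω).Reachable 0 y}.Infinite} ⊆
      {ω | {y | (twoGraph ω).Reachable 0 y}.Infinite} ∪
        ⋃ i ∈ (Finset.univ : Finset (Fin 6)), {ω | {y | (twoGraph ω).Reachable (d i) y}.Infinite} := by
    intro ω hω
    cases h0 : ω 0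
    · right
      -- the origin is a `B` site: pass to a neighbour in the cluster
      have : ∃ i, (abGraph ω).Adj 0 (d i) := by
        by_contra hcon
        push Not at hcon
        apply hω
        apply (Set.finite_singleton (0 : Site)).subset
        intro y hy
        rw [Set.mem_ofPred_eq, SimpleGraph.reachable_iff_reflTransGen] at hy
        rcases Relation.ReflTransGen.cases_head hy with h | ⟨c, h, _⟩
        · exact h.symm
        · obtain ⟨⟨i, hi⟩, h'⟩ := id h
          rw [zero_add] at hi
          rw [hi] at h
          exact absurd h (hcon i)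
      obtain ⟨i, hi⟩ := this
      have hdi : ω (d i) = true := by
        cases h : ω (d i)
        · have := hi.2
          rw [h0, h] at this; exact absurd rfl this
        · rfl
      simp only [Finset.mem_univ, Set.iUnion_true, Set.mem_iUnion]
      refine ⟨i, two_infinite_of_ab hdi ?_⟩
      have e : {y | (abGraph ω).Reachable (d i) y} = {y | (abGraph ω).Reachable 0 y} := by
        ext y
        exact ⟨fun h => hi.reachable.trans h, fun h => hi.reachable.symm.trans h⟩
      rw [e]; exact hω
    · left
      exact two_infinite_of_ab h0 hω
  calc theta p ≤ labels p ({ω | {y | (twoGraph ω).Reachable 0 y}.Infinite} ∪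
        ⋃ i ∈ (Finset.univ : Finset (Fin 6)),
          {ω | {y | (twoGraph ω).Reachable (d i) y}.Infinite}) := measure_mono hsub
    _ ≤ psi p + ∑ i : Fin 6, labels p {ω | {y | (twoGraph ω).Reachable (d i) y}.Infinite} :=
        (measure_union_le _ _).trans (add_le_add le_rfl (measure_biUnion_finset_le _ _))
    _ = psi p + ∑ _i : Fin 6, psi p := by
        congr 1
        exact Finset.sum_congr rfl fun i _ => psi_site p (d i)
    _ = 7 * psi p := by
        rw [Finset.sum_const, Finset.card_univ, Fintype.card_fin, nsmul_eq_mul]
        push_cast; ring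

end MP_c38eaf_pr
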