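import Pool.Agent.Lib.MP_c38eaf_pr.TableCheck

/-!
# The expected cluster size at density `0.146` is finite
-/

open MeasureTheory ProbabilityTheory

namespace MP_c38eaf_pr.Explore

lemma mem_ball0 (a : Site) : a ∈ ball0 ↔ (-2 ≤ a.1 ∧ a.1 ≤ 2) ∧ (-2 ≤ a.2 ∧ a.2 ≤ 2) ∧
    -2 ≤ a.1 + a.2 ∧ a.1 + a.2 ≤ 2 := by
  constructor
  · have h : ∀ a ∈ ball0, (-2 ≤ a.1 ∧ a.1 ≤ 2) ∧ (-2 ≤ a.2 ∧ a.2 ≤ 2) ∧
      -2 ≤ a.1 + a.2 ∧ a.1 + a.2 ≤ 2 := by decide +kernel
    exact h a
  · have h : ∀ x ∈ Finset.Icc (-2 : ℤ) 2, ∀ y ∈ Finset.Icc (-2 : ℤ) 2, -2 ≤ x + y → x + y ≤ 2 →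
      ((x, y) : Site) ∈ ball0 := by decide +kernel
    rintro ⟨h1, h2, h3, h4⟩
    exact h a.1 (Finset.mem_Icc.2 h1) a.2 (Finset.mem_Icc.2 h2) h3 h4

lemma mem_ball_iff {u z : Site} : z ∈ ball u ↔ z - u ∈ ball0 := by
  rw [← List.mem_toFinset, ← ball0_eq, mem_ball, Finset.mem_insert, sub_eq_zero]

/-- A symmetry of the lattice. -/
structure IsSym (g : Site → Site) : Prop where
  add : ∀ a b, g (a + b) = g a + g b
  inj : Function.Injective g
  surj : Function.Surjective g
  ball : ∀ a, g a ∈ ball0 ↔ a ∈ ball0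

lemma IsSym.id : IsSym (fun v => v) :=
  ⟨fun _ _ => rfl, fun _ _ h => h, fun v => ⟨v, rfl⟩, fun _ => Iff.rfl⟩

lemma IsSym.comp {g h : Site → Site} (hg : IsSym g) (hh : IsSym h) : IsSym (fun v => g (h v)) :=
  ⟨fun a b => by rw [hh.add, hg.add], fun a b e => hh.inj (hg.inj e),
    fun v => by
      obtain ⟨a, rfl⟩ := hg.surj v
      obtain ⟨b, rfl⟩ := hh.surj a
      exact ⟨b, rfl⟩,
    fun a => by rw [hg.ball, hh.ball]⟩

lemma isSym_rot : IsSym rot := by
  refine ⟨?_, ?_, ?_, ?_⟩
  · rintro ⟨a, b⟩ ⟨c, d⟩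
    simp only [rot, Prod.mk_add_mk, Prod.mk.injEq]; omega
  · rintro ⟨a, b⟩ ⟨c, d⟩ h
    simp only [rot, Prod.mk.injEq] at h ⊢; omega
  · rintro ⟨a, b⟩
    refine ⟨(a + b, -a), ?_⟩
    simp only [rot, Prod.mk.injEq]; omega
  · rintro ⟨a, b⟩
    rw [mem_ball0, mem_ball0]; simp only [rot]; omega

lemma isSym_refl : IsSym rfl' := by
  refine ⟨?_, ?_, ?_, ?_⟩
  · rintro ⟨a, b⟩ ⟨c, d⟩
    simp only [rfl', Prod.mk_add_mk]
  · rintro ⟨a, b⟩ ⟨c, d⟩ h
    simp only [rfl', Prod.mk.injEq] at h ⊢; omega
  · rintro ⟨a, b⟩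
    exact ⟨(b, a), rfl⟩
  · rintro ⟨a, b⟩
    rw [mem_ball0, mem_ball0]; simp only [rfl']; omega

lemma isSym_rotn (n : ℕ) : IsSym (rotn n) := by
  induction n with
  | zero => exact IsSym.id
  | succ n ih => exact isSym_rot.comp ih

lemma isSym_sy (h : ℕ) : IsSym (sy h) := by
  by_cases hh : 6 ≤ h
  · have e : sy h = fun v => rotn (h % 6) (rfl' v) := by
      funext v; rw [sy, if_pos hh]
    rw [e]
    exact (isSym_rotn _).comp isSym_refl
  · have e : sy h = fun v => rotn (h % 6) v := by
      funext v; rw [sy, if_neg hh]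
    rw [e]
    exact isSym_rotn _

/-- The available set `D` is compatible with the current site `v` and the explored sites. -/
def St (cs : List Site) (g : Site → Site) (v : Site) (D : Finset Site) : Prop :=
  v ∉ D ∧ ∀ c ∈ cs, ∀ d ∈ D, d - (v + g c) ∉ ball0

/-- The bound for all sets with fewer than `n` sites. -/
def Bd (n : ℕ) : Prop := ∀ D : Finset Site, D.card < n → ∀ e ∈ table, ∀ g, IsSym g → ∀ v,
  St e.cs g v D → R (73 / 500) {v} D ≤ e.t

section Sound

variable {n : ℕ} (hP : Bd n) {g : Site → Site} (hg : IsSym g) (v : Site)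
include hP hg

lemma tv_sound {D : Finset Site} (hD : D.card < n) {op : List Site}
    (hop : ∀ c ∈ op, ∀ d ∈ D, d - (v + g c) ∉ ball0) {u : Site} (hu : v + g u ∉ D) (k : ℕ) :
    R (73 / 500) {v + g u} D ≤ tv op u k := by
  obtain ⟨e0, he0, hc0, ht0⟩ := table_zero
  have h0 : R (73 / 500) {v + g u} D ≤ ((9432 : ℕ) : ℝ) := by
    rw [← ht0]
    exact hP D hD e0 he0 g hg (v + g u) ⟨hu, by rw [hc0]; simp⟩
  unfold tv
  split
  · rename_i e he
    split_ifs with hc
    · refine hP D hD e (List.mem_of_getElem? he) (fun w => g (sy (k % 12) w))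
        (hg.comp (isSym_sy _)) (v + g u) ⟨hu, ?_⟩
      intro c hcc d hd
      have := hop _ (hc c hcc) d hd
      rw [hg.add, ← add_assoc] at this
      exact this
    · exact h0
  · exact h0

omit hP hg in
/-- The sites `v + g u`, `u ∈ L`. -/
def img (g : Site → Site) (v : Site) (L : List Site) : Finset Site :=
  (L.map (fun u => v + g u)).toFinset

omit hP hg in
lemma img_nil : img g v [] = ∅ := rfl

omit hP hg in
lemma img_cons (u : Site) (L : List Site) : img g v (u :: L) = insert (v + g u) (img g v L) := by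
  simp [img]

omit hP hg in
lemma mem_img {L : List Site} {z : Site} : z ∈ img g v L ↔ ∃ u ∈ L, v + g u = z := by
  simp [img]

omit hP in
lemma notMem_img {u : Site} {L : List Site} (h : u ∉ L) : v + g u ∉ img g v L := by
  rw [mem_img]
  rintro ⟨w, hw, e⟩
  rw [hg.inj (add_left_cancel e)] at hw
  exact h hw

omit hP hg in
lemma op_cons {D : Finset Site} {op : List Site}
    (hop : ∀ c ∈ op, ∀ d ∈ D, d - (v + g c) ∉ ball0) (u : Site) :
    ∀ c ∈ u :: op, ∀ d ∈ D \ ball (v + g u), d - (v + g c) ∉ ball0 := by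
  intro c hc d hd
  rw [Finset.mem_sdiff] at hd
  rw [List.mem_cons] at hc
  rcases hc with rfl | hc
  · exact fun h => hd.2 (mem_ball_iff.2 h)
  · exact hop c hc d hd.1

omit hP hg in
lemma step_sound {L D : Finset Site} {w : Site} {m : ℕ} {X Y T : ℝ} (hw : w ∉ L)
    (hX : (500 : ℝ) ^ (m + 1) * H (73 / 500) L D ≤ X)
    (hY : (500 : ℝ) ^ (m + 1) * H (73 / 500) L (D \ ball w) ≤ Y)
    (hT : R (73 / 500) {w} D ≤ T) :
    (500 : ℝ) ^ (m + 1 + 1) * H (73 / 500) (insert w L) D ≤
      427 * X + 73 * (500 ^ (m + 1) * T + Y) := by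
  have h := H_insert (q := 73 / 500) (by norm_num) (by norm_num) D hw
  have hp : (0 : ℝ) < 500 ^ (m + 1) := by positivity
  have h2 := mul_le_mul_of_nonneg_left hT hp.le
  calc (500 : ℝ) ^ (m + 1 + 1) * H (73 / 500) (insert w L) D
      ≤ (500 : ℝ) ^ (m + 1 + 1) * ((1 - 73 / 500) * H (73 / 500) L D +
        73 / 500 * (R (73 / 500) {w} D + H (73 / 500) L (D \ ball w))) :=
        mul_le_mul_of_nonneg_left h (by positivity)
    _ = 427 * (500 ^ (m + 1) * H (73 / 500) L D) + 73 * (500 ^ (m + 1) * R (73 / 500) {w} D +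
        500 ^ (m + 1) * H (73 / 500) L (D \ ball w)) := by ring
    _ ≤ _ := by linarith

omit hP hg in
lemma step_sound0 {L D : Finset Site} {w : Site} {m : ℕ} {X T : ℝ} (hw : w ∉ L)
    (hX : (500 : ℝ) ^ (m + 1) * H (73 / 500) L D ≤ X)
    (hT : R (73 / 500) {w} D ≤ T) :
    (500 : ℝ) ^ (m + 1 + 1) * H (73 / 500) (insert w L) D ≤
      500 * X + 73 * (500 ^ (m + 1) * T) := by
  have h := H_insert0 (q := 73 / 500) (by norm_num) (by norm_num) D hw
  have hp : (0 : ℝ) < 500 ^ (m + 1) := by positivity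
  have h2 := mul_le_mul_of_nonneg_left hT hp.le
  calc (500 : ℝ) ^ (m + 1 + 1) * H (73 / 500) (insert w L) D
      ≤ (500 : ℝ) ^ (m + 1 + 1) * (H (73 / 500) L D + 73 / 500 * R (73 / 500) {w} D) :=
        mul_le_mul_of_nonneg_left h (by positivity)
    _ = 500 * (500 ^ (m + 1) * H (73 / 500) L D) + 73 * (500 ^ (m + 1) * R (73 / 500) {w} D) := by
        ring
    _ ≤ _ := by linarith

lemma hb0_sound {D : Finset Site} (hD : D.card < n) {op : List Site}
    (hop : ∀ c ∈ op, ∀ d ∈ D, d - (v + g c) ∉ ball0) (L : List Site) : ∀ ks : List ℕ,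
    L.Nodup → (∀ u ∈ L, v + g u ∉ D) →
    (500 : ℝ) ^ (L.length + 1) * H (73 / 500) (img g v L) D ≤ hb0 op L ks := by
  induction L with
  | nil =>
    intro ks _ _
    rw [img_nil, H_empty, mul_zero, hb0, Nat.cast_zero]
  | cons u L ih =>
    intro ks hnd hL
    rw [List.nodup_cons] at hnd
    have h1 := ih ks.tail hnd.2 (fun w hw => hL w (List.mem_cons_of_mem _ hw))
    have h2 := tv_sound hP hg v hD hop (hL u List.mem_cons_self) ks.headI
    have h3 := step_sound0 (notMem_img hg v hnd.1) h1 h2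
    rw [img_cons, List.length_cons, hb0]
    push_cast
    exact h3

lemma hb1_sound {D : Finset Site} (hD : D.card < n) {op : List Site}
    (hop : ∀ c ∈ op, ∀ d ∈ D, d - (v + g c) ∉ ball0) (L : List Site) :
    ∀ ks : List (ℕ × List ℕ), L.Nodup → (∀ u ∈ L, v + g u ∉ D) →
    (500 : ℝ) ^ (L.length + 1) * H (73 / 500) (img g v L) D ≤ hb1 op L ks := by
  induction L with
  | nil =>
    intro ks _ _
    rw [img_nil, H_empty, mul_zero, hb1, Nat.cast_zero]
  | cons u L ih =>
    intro ks hnd hL
    rw [List.nodup_cons] at hnd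
    have h1 := ih ks.tail hnd.2 (fun w hw => hL w (List.mem_cons_of_mem _ hw))
    have h2 := tv_sound hP hg v hD hop (hL u List.mem_cons_self) ks.headI.1
    have h4 := hb0_sound hP hg v (D := D \ ball (v + g u))
      (lt_of_le_of_lt (Finset.card_le_card Finset.sdiff_subset) hD)
      (op_cons v hop u) L ks.headI.2 hnd.2
      (fun w hw h => hL w (List.mem_cons_of_mem _ hw) (Finset.mem_sdiff.1 h).1)
    have h3 := step_sound (notMem_img hg v hnd.1) h1 h4 h2
    rw [img_cons, List.length_cons, hb1]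
    push_cast
    exact h3

lemma hb2_sound {D : Finset Site} (hD : D.card < n) {op : List Site}
    (hop : ∀ c ∈ op, ∀ d ∈ D, d - (v + g c) ∉ ball0) (L : List Site) :
    ∀ ks : List (ℕ × List (ℕ × List ℕ)), L.Nodup → (∀ u ∈ L, v + g u ∉ D) →
    (500 : ℝ) ^ (L.length + 1) * H (73 / 500) (img g v L) D ≤ hb2 op L ks := by
  induction L with
  | nil =>
    intro ks _ _
    rw [img_nil, H_empty, mul_zero, hb2, Nat.cast_zero]
  | cons u L ih =>
    intro ks hnd hL
    rw [List.nodup_cons] at hnd
    have h1 := ih ks.tail hnd.2 (fun w hw => hL w (List.mem_cons_of_mem _ hw))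
    have h2 := tv_sound hP hg v hD hop (hL u List.mem_cons_self) ks.headI.1
    have h4 := hb1_sound hP hg v (D := D \ ball (v + g u))
      (lt_of_le_of_lt (Finset.card_le_card Finset.sdiff_subset) hD)
      (op_cons v hop u) L ks.headI.2 hnd.2
      (fun w hw h => hL w (List.mem_cons_of_mem _ hw) (Finset.mem_sdiff.1 h).1)
    have h3 := step_sound (notMem_img hg v hnd.1) h1 h4 h2
    rw [img_cons, List.length_cons, hb2]
    push_cast
    exact h3

end Sound

lemma bd_all (n : ℕ) : Bd n := by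
  induction n with
  | zero => intro D hD; omega
  | succ n ih =>
    intro D hD e he g hg v hSt
    have hgood : 500 ^ (e.us.length + 1) + hb2 (0 :: e.cs) e.us e.tr ≤
        e.t * 500 ^ (e.us.length + 1) :=
      Nat.le_of_ble_eq_true (List.all_eq_true.1 table_good e he)
    have hpos : (0 : ℝ) < 500 ^ (e.us.length + 1) := by positivity
    have hgood' : (500 : ℝ) ^ (e.us.length + 1) + hb2 (0 :: e.cs) e.us e.tr ≤
        e.t * 500 ^ (e.us.length + 1) := by exact_mod_cast hgood
    by_cases hnb : ∃ d ∈ D, d - v ∈ steps2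
    · obtain ⟨d, hdD, hd⟩ := hnb
      have hcard : (D \ ball v).card < n := by
        have h1 : D \ ball v ⊆ D.erase d := by
          intro z hz
          rw [Finset.mem_sdiff] at hz
          rw [Finset.mem_erase]
          refine ⟨fun h => hz.2 ?_, hz.1⟩
          rw [h, mem_ball]; exact Or.inr hd
        have h2 := Finset.card_le_card h1
        have h3 := Finset.card_erase_lt_of_mem hdD
        omega
      have hop : ∀ c ∈ (0 :: e.cs), ∀ d ∈ D \ ball v, d - (v + g c) ∉ ball0 := by
        have h0 : g 0 = 0 := by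
          have := hg.add 0 0
          simpa using this
        intro c hc d hd
        rw [Finset.mem_sdiff] at hd
        rw [List.mem_cons] at hc
        rcases hc with rfl | hc
        · rw [h0, add_zero]
          exact fun h => hd.2 (mem_ball_iff.2 h)
        · exact hSt.2 c hc d hd.1
      obtain ⟨hnd, hus⟩ := table_nodup e he
      have hball : ∀ u ∈ e.us, v + g u ∈ ball v := by
        intro u hu
        rw [mem_ball_iff, add_sub_cancel_left, hg.ball]
        exact (hus u hu).1
      have h1 := hb2_sound ih hg v hcard hop e.us e.tr hnd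
        (fun u hu h => (Finset.mem_sdiff.1 h).2 (hball u hu))
      have hsub : D ⊆ img g v e.us ∪ (D \ ball v) := by
        intro z hz
        rw [Finset.mem_union]
        by_cases hzb : z ∈ ball v
        · left
          rw [mem_ball_iff] at hzb
          obtain ⟨w, hw⟩ := hg.surj (z - v)
          rw [← hw, hg.ball] at hzb
          rw [mem_img]
          rcases table_cover e he w hzb with h | h | ⟨c, hc, hwc⟩
          · exfalso
            have h0 : g 0 = 0 := by
              have := hg.add 0 0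
              simpa using this
            rw [h, h0] at hw
            have : z = v := (sub_eq_zero.1 hw.symm)
            rw [this] at hz
            exact hSt.1 hz
          · exact ⟨w, h, by rw [hw]; abel⟩
          · exfalso
            apply hSt.2 c hc z hz
            have e1 : z - (v + g c) = g (w - c) := by
              have := hg.add (w - c) c
              rw [sub_add_cancel] at this
              rw [← sub_sub, ← hw, this]; abel
            rw [e1, hg.ball]
            exact hwc
        · right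
          exact Finset.mem_sdiff.2 ⟨hz, hzb⟩
      have hdis : Disjoint (img g v e.us) (D \ ball v) := by
        rw [Finset.disjoint_left]
        intro z hz h
        rw [mem_img] at hz
        obtain ⟨u, hu, rfl⟩ := hz
        exact (Finset.mem_sdiff.1 h).2 (hball u hu)
      have h2 := R_mono (q := 73 / 500) (by norm_num) (by norm_num) {v} hsub
      have h3 := R_root (q := 73 / 500) (by norm_num) (by norm_num) hdis (v := v)
        (fun z hz h => (Finset.mem_sdiff.1 hz).2 (mem_ball.2 (Or.inr h)))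
      have h4 : (500 : ℝ) ^ (e.us.length + 1) * (1 + H (73 / 500) (img g v e.us) (D \ ball v)) ≤
          500 ^ (e.us.length + 1) * e.t := by linarith
      have h5 := le_of_mul_le_mul_left h4 hpos
      linarith
    · push Not at hnb
      have h3 := R_root (q := 73 / 500) (by norm_num) (by norm_num) (L := ∅) (D := D)
        (Finset.disjoint_empty_left _) (v := v) hnb
      rw [H_empty, Finset.empty_union] at h3
      have h4 : (500 : ℝ) ^ (e.us.length + 1) * 1 ≤ 500 ^ (e.us.length + 1) * e.t := by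
        have : (0 : ℝ) ≤ (hb2 (0 :: e.cs) e.us e.tr : ℝ) := Nat.cast_nonneg _
        linarith
      have h5 := le_of_mul_le_mul_left h4 hpos
      linarith

/-- The expected cluster size is at most `9432` at density `0.146`. -/
theorem R_le (D : Finset Site) : R (73 / 500) {0} (D.erase 0) ≤ 9432 := by
  obtain ⟨e0, he0, hc0, ht0⟩ := table_zero
  have h := bd_all ((D.erase 0).card + 1) (D.erase 0) (Nat.lt_succ_self _) e0 he0 _ IsSym.id 0
    ⟨Finset.notMem_erase _ _, by rw [hc0]; simp⟩
  rw [ht0] at h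
  exact_mod_cast h

end MP_c38eaf_pr.Explore
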