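import Pool.Agent.Lib.MP_c38eaf_pr.Defs

/-!
# Crossing parity of walks in the triangular lattice
-/

namespace MP_c38eaf_pr

/-- Contribution of the step `a → b` to the crossing number of the horizontal ray to the right
of `v` (slightly raised). -/
def cr (v a b : Site) : ZMod 2 :=
  if (a.2 = v.2 ∧ b.2 = v.2 + 1 ∧ v.1 < a.1) ∨ (b.2 = v.2 ∧ a.2 = v.2 + 1 ∧ v.1 < b.1)
    then 1 else 0

/-- Crossing number of a walk with the ray to the right of `v`. -/
def cnt (v : Site) : {a b : Site} → tri.Walk a b → ZMod 2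
  | _, _, .nil => 0
  | a, _, .cons (v := c) _ p => cr v a c + cnt v p

/-- Indicator. -/
def ind (P : Prop) [Decidable P] : ZMod 2 := if P then 1 else 0

lemma zmod2_cases (a : ZMod 2) : a = 0 ∨ a = 1 := by revert a; decide

lemma zmod2_add_self' (a : ZMod 2) : a + a = 0 := by revert a; decide

lemma zmod2_eq_of_add {a b : ZMod 2} (h : a + b = 0) : a = b := by
  revert h; revert a b; decide

lemma zmod2_tel (x y a b c : ZMod 2) (h1 : x = a + b) (h2 : y = b + c) : x + y = a + c := by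
  subst h1; subst h2; revert a b c; decide

lemma cnt_append (v : Site) {a b c : Site} (p : tri.Walk a b) (q : tri.Walk b c) :
    cnt v (p.append q) = cnt v p + cnt v q := by
  induction p with
  | nil => simp [cnt]
  | cons h p ih => rw [SimpleGraph.Walk.cons_append, cnt, ih, cnt, add_assoc]

/-- A walk whose vertices in the row of `v` are all weakly to the left of `v` does not cross. -/
lemma cnt_right (v : Site) {a b : Site} (p : tri.Walk a b)
    (h : ∀ z ∈ p.support, z.2 = v.2 → z.1 ≤ v.1) : cnt v p = 0 := by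
  induction p with
  | nil => rfl
  | @cons a c b hac p ih =>
    rw [cnt, ih (fun z hz => h z (by simp [hz])), add_zero, cr, if_neg]
    have ha := h a (by simp)
    have hc := h c (by simp)
    rintro (⟨h1, h2, h3⟩ | ⟨h1, h2, h3⟩)
    · have := ha h1; omega
    · have := hc h1; omega

lemma adj_snd {a c : Site} (h : tri.Adj a c) : c.2 ≤ a.2 + 1 ∧ a.2 ≤ c.2 + 1 := by
  obtain ⟨i, rfl⟩ := h
  have : -1 ≤ (d i).2 ∧ (d i).2 ≤ 1 := by revert i; decide
  simp only [Prod.snd_add]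
  omega

/-- A walk whose vertices in the row of `v` are all strictly to the right of `v`. -/
lemma cnt_left (v : Site) {a b : Site} (p : tri.Walk a b)
    (h : ∀ z ∈ p.support, z.2 = v.2 → v.1 < z.1) :
    cnt v p = ind (v.2 < a.2) + ind (v.2 < b.2) := by
  induction p with
  | nil => rw [cnt, zmod2_add_self']
  | @cons a c b hac p ih =>
    rw [cnt]
    refine zmod2_tel _ _ _ (ind (v.2 < c.2)) _ ?_ (ih (fun z hz => h z (by simp [hz])))
    have ha := h a (by simp)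
    have hc := h c (by simp)
    have hs := adj_snd hac
    rw [cr, ind, ind]
    split_ifs with h1 h2 h3 h3 h2 h3 h3
    · omega
    · rfl
    · rfl
    · omega
    · decide
    · exact absurd (Or.inr ⟨by omega, by omega, hc (by omega)⟩) h1
    · exact absurd (Or.inl ⟨by omega, by omega, ha (by omega)⟩) h1
    · rfl

lemma xor_ind {P Q A B : Prop} [Decidable P] [Decidable Q] [Decidable A] [Decidable B]
    (h : (P ↔ ¬ Q) ↔ (A ↔ ¬ B)) :
    ((if P then 1 else 0) + (if Q then 1 else 0) : ZMod 2) = ind A + ind B := by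
  by_cases hP : P <;> by_cases hQ : Q <;> by_cases hA : A <;> by_cases hB : B <;>
    simp only [hP, hQ, hA, hB, ind, if_true, if_false, not_true, not_false_iff, iff_true,
      iff_false] at h ⊢ <;> decide

lemma cr_step_aux (v1 v2 a1 a2 e1 e2 i1 i2 : ℤ)
    (he : (e1 = 1 ∧ e2 = 0) ∨ (e1 = 0 ∧ e2 = 1) ∨ (e1 = -1 ∧ e2 = 1) ∨ (e1 = -1 ∧ e2 = 0) ∨
      (e1 = 0 ∧ e2 = -1) ∨ (e1 = 1 ∧ e2 = -1))
    (hi : (i1 = 0 ∧ i2 = 1) ∨ (i1 = -1 ∧ i2 = 1) ∨ (i1 = 1 ∧ i2 = 0))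
    (h1 : ¬ (a1 = v1 ∧ a2 = v2)) (h2 : ¬ (a1 = v1 + i1 ∧ a2 = v2 + i2))
    (h3 : ¬ (a1 + e1 = v1 ∧ a2 + e2 = v2)) (h4 : ¬ (a1 + e1 = v1 + i1 ∧ a2 + e2 = v2 + i2)) :
    (((a2 = v2 ∧ a2 + e2 = v2 + 1 ∧ v1 < a1) ∨ (a2 + e2 = v2 ∧ a2 = v2 + 1 ∧ v1 < a1 + e1)) ↔
    ¬ ((a2 = v2 + i2 ∧ a2 + e2 = v2 + i2 + 1 ∧ v1 + i1 < a1) ∨
      (a2 + e2 = v2 + i2 ∧ a2 = v2 + i2 + 1 ∧ v1 + i1 < a1 + e1))) ↔
    ((i2 = 1 ∧ a2 = v2 + 1 ∧ v1 + i1 < a1) ↔
      ¬ (i2 = 1 ∧ a2 + e2 = v2 + 1 ∧ v1 + i1 < a1 + e1)) := by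
  rcases he with ⟨rfl, rfl⟩ | ⟨rfl, rfl⟩ | ⟨rfl, rfl⟩ | ⟨rfl, rfl⟩ | ⟨rfl, rfl⟩ | ⟨rfl, rfl⟩ <;>
  rcases hi with ⟨rfl, rfl⟩ | ⟨rfl, rfl⟩ | ⟨rfl, rfl⟩ <;> omega

lemma d_list (j : Fin 6) : ((d j).1 = 1 ∧ (d j).2 = 0) ∨ ((d j).1 = 0 ∧ (d j).2 = 1) ∨
    ((d j).1 = -1 ∧ (d j).2 = 1) ∨ ((d j).1 = -1 ∧ (d j).2 = 0) ∨
      ((d j).1 = 0 ∧ (d j).2 = -1) ∨ ((d j).1 = 1 ∧ (d j).2 = -1) := by
  revert j; decide

/-- The upper half-row attached to the direction `e`. -/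
def hz (v e z : Site) : Prop := e.2 = 1 ∧ z.2 = v.2 + 1 ∧ v.1 + e.1 < z.1

instance (v e z : Site) : Decidable (hz v e z) := by
  unfold hz; infer_instance

lemma cr_step {v e a b : Site} (hab : tri.Adj a b)
    (he : (e.1 = 0 ∧ e.2 = 1) ∨ (e.1 = -1 ∧ e.2 = 1) ∨ (e.1 = 1 ∧ e.2 = 0))
    (h1 : a ≠ v) (h2 : a ≠ v + e) (h3 : b ≠ v) (h4 : b ≠ v + e) :
    cr v a b + cr (v + e) a b = ind (hz v e a) + ind (hz v e b) := by
  obtain ⟨j, rfl⟩ := hab
  rw [cr, cr]
  apply xor_ind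
  have := cr_step_aux v.1 v.2 a.1 a.2 (d j).1 (d j).2 e.1 e.2 (d_list j) he
    (by rwa [ne_eq, Prod.ext_iff] at h1) (by rwa [ne_eq, Prod.ext_iff] at h2)
    (by rwa [ne_eq, Prod.ext_iff] at h3) (by rwa [ne_eq, Prod.ext_iff] at h4)
  exact this

lemma cnt_step {v e : Site} (he : (e.1 = 0 ∧ e.2 = 1) ∨ (e.1 = -1 ∧ e.2 = 1) ∨ (e.1 = 1 ∧ e.2 = 0))
    {a b : Site} (p : tri.Walk a b) (h1 : v ∉ p.support) (h2 : v + e ∉ p.support) :
    cnt v p + cnt (v + e) p = ind (hz v e a) + ind (hz v e b) := by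
  induction p with
  | nil => simp [cnt, zmod2_add_self']
  | @cons a c b hac p ih =>
    rw [SimpleGraph.Walk.support_cons, List.mem_cons, not_or] at h1 h2
    have ih1 := ih h1.2 h2.2
    have hc1 : v ≠ c := fun h => h1.2 (h ▸ p.start_mem_support)
    have hc2 : v + e ≠ c := fun h => h2.2 (h ▸ p.start_mem_support)
    have := cr_step hac he (Ne.symm h1.1) (Ne.symm h2.1) (Ne.symm hc1) (Ne.symm hc2)
    rw [cnt, cnt]
    have e1 : cr v a c + cnt v p + (cr (v + e) a c + cnt (v + e) p) =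
        (cr v a c + cr (v + e) a c) + (cnt v p + cnt (v + e) p) := by ring
    rw [e1]
    exact zmod2_tel _ _ _ _ _ this ih1

/-- For a closed walk, the crossing parity is locally constant off the walk. -/
lemma cnt_adj {v v' a : Site} (w : tri.Walk a a) (h : tri.Adj v v') (h1 : v ∉ w.support)
    (h2 : v' ∉ w.support) : cnt v w = cnt v' w := by
  have key : ∀ (v e : Site), ((e.1 = 0 ∧ e.2 = 1) ∨ (e.1 = -1 ∧ e.2 = 1) ∨ (e.1 = 1 ∧ e.2 = 0)) →
      v ∉ w.support → v + e ∉ w.support → cnt v w = cnt (v + e) w := by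
    intro v e he h1 h2
    have := cnt_step he w h1 h2
    rw [zmod2_add_self'] at this
    exact zmod2_eq_of_add this
  obtain ⟨j, rfl⟩ := h
  have hback : v + d j + -(d j) = v := by abel
  rcases d_list j with h | h | h | h | h | h
  · exact key v _ (Or.inr (Or.inr h)) h1 h2
  · exact key v _ (Or.inl h) h1 h2
  · exact key v _ (Or.inr (Or.inl h)) h1 h2
  · have := key (v + d j) (-(d j)) (Or.inr (Or.inr (by simp [h]))) h2 (by rwa [hback])
    rw [hback] at this; exact this.symm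
  · have := key (v + d j) (-(d j)) (Or.inl (by simp [h])) h2 (by rwa [hback])
    rw [hback] at this; exact this.symm
  · have := key (v + d j) (-(d j)) (Or.inr (Or.inl (by simp [h]))) h2 (by rwa [hback])
    rw [hback] at this; exact this.symm

/-- The crossing parity with a closed walk is constant along any walk avoiding it. -/
lemma cnt_const {a s t : Site} (w : tri.Walk a a) (q : tri.Walk s t)
    (h : ∀ z ∈ q.support, z ∉ w.support) : cnt s w = cnt t w := by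
  induction q with
  | nil => rfl
  | @cons s c t hsc q ih =>
    rw [cnt_adj w hsc (h s (by simp)) (h c (by simp)),
      ih (fun z hz => h z (by simp [hz]))]

/-! ### Straight walks -/

lemma exists_straight (i : Fin 6) (m : ℕ) (a : Site) :
    ∃ w : tri.Walk a (a + m • d i), ∀ z ∈ w.support, ∃ t : ℕ, t ≤ m ∧ z = a + t • d i := by
  induction m generalizing a with
  | zero =>
    refine ⟨SimpleGraph.Walk.nil.copy rfl (by simp), ?_⟩
    intro z hz
    rw [SimpleGraph.Walk.support_copy] at hz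
    simp at hz
    exact ⟨0, le_rfl, by simp [hz]⟩
  | succ m ih =>
    obtain ⟨w, hw⟩ := ih (a + d i)
    refine ⟨(SimpleGraph.Walk.cons (show tri.Adj a (a + d i) from ⟨i, rfl⟩) w).copy rfl
      (by rw [succ_nsmul']; abel), ?_⟩
    intro z hz
    rw [SimpleGraph.Walk.support_copy, SimpleGraph.Walk.support_cons, List.mem_cons] at hz
    rcases hz with rfl | hz
    · exact ⟨0, by omega, by simp⟩
    · obtain ⟨t, ht, rfl⟩ := hw z hz
      exact ⟨t + 1, by omega, by rw [succ_nsmul']; abel⟩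

/-- Vertical walks. -/
lemma exists_up (x y y' : ℤ) (h : y ≤ y') :
    ∃ w : tri.Walk (x, y) (x, y'), ∀ z ∈ w.support, z.1 = x ∧ y ≤ z.2 ∧ z.2 ≤ y' := by
  obtain ⟨w, hw⟩ := exists_straight 1 (y' - y).toNat (x, y)
  have e : ((x, y) : Site) + (y' - y).toNat • d 1 = (x, y') := by
    have h0 : (d 1) = ((0, 1) : Site) := rfl
    rw [h0]
    ext <;> simp
    omega
  refine ⟨w.copy rfl e, ?_⟩
  intro z hz
  rw [SimpleGraph.Walk.support_copy] at hz
  obtain ⟨t, ht, rfl⟩ := hw z hz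
  have h0 : (d 1) = ((0, 1) : Site) := rfl
  rw [h0]
  simp
  omega

/-- Horizontal walks. -/
lemma exists_horiz (x x' y : ℤ) (h : x ≤ x') :
    ∃ w : tri.Walk (x, y) (x', y), ∀ z ∈ w.support, z.2 = y ∧ x ≤ z.1 ∧ z.1 ≤ x' := by
  obtain ⟨w, hw⟩ := exists_straight 0 (x' - x).toNat (x, y)
  have e : ((x, y) : Site) + (x' - x).toNat • d 0 = (x', y) := by
    have h0 : (d 0) = ((1, 0) : Site) := rfl
    rw [h0]
    ext <;> simp
    omega
  refine ⟨w.copy rfl e, ?_⟩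
  intro z hz
  rw [SimpleGraph.Walk.support_copy] at hz
  obtain ⟨t, ht, rfl⟩ := hw z hz
  have h0 : (d 0) = ((1, 0) : Site) := rfl
  rw [h0]
  simp
  omega

/-- Diagonal walks, along a line `z.1 + z.2 = const`. -/
lemma exists_diag (x y : ℤ) (t : ℕ) :
    ∃ w : tri.Walk (x, y) (x - t, y + t), ∀ z ∈ w.support,
      z.1 + z.2 = x + y ∧ y ≤ z.2 ∧ z.2 ≤ y + t := by
  obtain ⟨w, hw⟩ := exists_straight 2 t (x, y)
  have e : ((x, y) : Site) + t • d 2 = (x - t, y + t) := by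
    have h0 : (d 2) = ((-1, 1) : Site) := rfl
    rw [h0]
    ext <;> simp
    omega
  refine ⟨w.copy rfl e, ?_⟩
  intro z hz
  rw [SimpleGraph.Walk.support_copy] at hz
  obtain ⟨t, ht, rfl⟩ := hw z hz
  have h0 : (d 2) = ((-1, 1) : Site) := rfl
  rw [h0]
  simp
  omega

end MP_c38eaf_pr
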