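import Pool.Agent.Lib.MP_c38eaf_pr.Ref0

/-!
# The number of distinct sites forced to be `A` by the counted kinks
-/

open MeasureTheory ProbabilityTheory

namespace MP_c38eaf_pr

/-- The local picture at a kink around the site `z`, with pivot `z + d a`: the edges from the pivot
in the directions `a + 5`, `a`, `a + 1` are visited at the times `l`, `m`, `r`, and the labels of the
surrounding sites. -/
structure Kink (ω : Site → Bool) (e : ℕ → Site) (z : Site) (a : Fin 6) (l m r : ℕ) : Prop where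
  el : e l = z + z + (d a + d a + d (a + 5))
  em : e m = z + z + (d a + d a + d a)
  er : e r = z + z + (d a + d a + d (a + 1))
  b0 : ω (z + d a) = false
  b1 : ω (z + (d a + d (a + 1))) = false
  b5 : ω (z + (d a + d (a + 5))) = false
  c1 : ω (z + d (a + 1)) = false
  c5 : ω (z + d (a + 5)) = false
  t1 : ω (z + (d (a + 1) + d (a + 1))) = false
  t5 : ω (z + (d (a + 5) + d (a + 5))) = false

lemma edge_tr2 (x : Site) (τ : St) : edge (tr x τ) = x + x + edge τ := by
  simp only [edge, mid, tr]; abel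

lemma mono_tr {ω : Site → Bool} {s : Bool} {x : Site} {τ : St} (h : Mono ω s (tr x τ)) :
    ω (x + τ.1) = s ∧ ω (x + (τ.1 + d τ.2)) = s ∧ ω (x + apex τ) = s := by
  obtain ⟨h1, h2, h3⟩ := h
  refine ⟨h1, ?_, ?_⟩
  · rw [← add_assoc]; exact h2
  · rw [apex_tr] at h3; exact h3

lemma shift_of {ω : Site → Bool} {s : Bool} {x y A B : Site} (h : ω (x + A) = s)
    (e : x + A = y + B) : ω (y + B) = s := e ▸ h

variable {ω : Site → Bool} {n : ℕ} {σ₀ : St} {w : ℕ → Bool}

/-- The third site of the previous triangle. -/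
lemma prev_site (h : LGeo ω n σ₀ w) {i : ℕ} (h1 : 1 ≤ i) (hi : i ≤ n) {x : Site} {a : Fin 6}
    (hs : sts σ₀ w i = (x, a)) : ω (x + d (a + 5)) = false := by
  obtain ⟨j, rfl⟩ : ∃ j, i = j + 1 := ⟨i - 1, by omega⟩
  have hm := h.mono j (by omega)
  obtain ⟨y, c, hy⟩ : ∃ y c, sts σ₀ w j = (y, c) := ⟨_, _, rfl⟩
  rw [hy] at hm
  have hs' : step (y, c) (w j) = (x, a) := by rw [← hy]; exact hs
  obtain ⟨m1, m2, m3⟩ := hm
  cases hw : w j
  · rw [hw] at hs'
    simp only [step, Bool.false_eq_true, if_false, Prod.mk.injEq] at hs'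
    obtain ⟨rfl, rfl⟩ := hs'
    have e : ∀ c : Fin 6, d (c + 1) + d (c + 5 + 5) = 0 := by decide
    rw [add_assoc, e, add_zero]; exact m1
  · rw [hw] at hs'
    simp only [step, if_true, Prod.mk.injEq] at hs'
    obtain ⟨rfl, rfl⟩ := hs'
    have e : ∀ c : Fin 6, c + 1 + 5 = c := by decide
    rw [e]; exact m2

lemma sts_add_one (j : ℕ) : sts σ₀ w (j + 1) = step (sts σ₀ w j) (w j) := rfl

/-- The local picture at a left kink. -/
lemma LGeo.kinkL (h : LGeo ω n σ₀ w) {i : ℕ} (h1 : 1 ≤ i) (hi : i + 5 ≤ n) (ho : occL w i) :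
    Kink ω (fun k => edge (sts σ₀ w k)) (sL (sts σ₀ w i)) (sts σ₀ w i).2 (i + 1) (i + 2) (i + 3) := by
  obtain ⟨x, a, hs⟩ : ∃ x a, sts σ₀ w i = (x, a) := ⟨_, _, rfl⟩
  obtain ⟨o0, o1, o2, o3⟩ := ho
  have s0 : sts σ₀ w i = tr x (0, a) := by rw [hs, ← eq_tr]
  have s1 : sts σ₀ w (i + 1) = tr x (step (0, a) false) := by rw [sts_add_one, s0, o0, step_tr]
  have s2 : sts σ₀ w (i + 2) = tr x (step (step (0, a) false) true) := by
    rw [show i + 2 = i + 1 + 1 from rfl, sts_add_one, s1, o1, step_tr]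
  have s3 : sts σ₀ w (i + 3) = tr x (step (step (step (0, a) false) true) true) := by
    rw [show i + 3 = i + 2 + 1 from rfl, sts_add_one, s2, o2, step_tr]
  have s4 : sts σ₀ w (i + 4) = tr x (step (step (step (step (0, a) false) true) true) false) := by
    rw [show i + 4 = i + 3 + 1 from rfl, sts_add_one, s3, o3, step_tr]
  have m0 := h.mono i (by omega)
  have m1 := h.mono (i + 1) (by omega)
  have m3 := h.mono (i + 3) (by omega)
  have m4 := h.mono (i + 4) (by omega)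
  have p0 := prev_site h h1 (by omega) hs
  rw [s0] at m0
  rw [s1] at m1
  rw [s3] at m3
  rw [s4] at m4
  replace m0 := mono_tr m0
  replace m1 := mono_tr m1
  replace m3 := mono_tr m3
  replace m4 := mono_tr m4
  have hz : sL (sts σ₀ w i) = x + d (a + 2) := by rw [hs]; rfl
  have ha : (sts σ₀ w i).2 = a := by rw [hs]
  rw [hz, ha]
  refine ⟨?_, ?_, ?_, ?_, ?_, ?_, ?_, ?_, ?_, ?_⟩
  · show edge (sts σ₀ w (i + 1)) = _
    rw [s1, edge_tr2]
    have e : ∀ a : Fin 6, edge (step (0, a) false) =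
      d (a + 2) + d (a + 2) + (d a + d a + d (a + 5)) := by decide
    rw [e]; abel
  · show edge (sts σ₀ w (i + 2)) = _
    rw [s2, edge_tr2]
    have e : ∀ a : Fin 6, edge (step (step (0, a) false) true) =
      d (a + 2) + d (a + 2) + (d a + d a + d a) := by decide
    rw [e]; abel
  · show edge (sts σ₀ w (i + 3)) = _
    rw [s3, edge_tr2]
    have e : ∀ a : Fin 6, edge (step (step (step (0, a) false) true) true) =
      d (a + 2) + d (a + 2) + (d a + d a + d (a + 1)) := by decide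
    rw [e]; abel
  · refine shift_of m0.2.2 ?_
    have e : ∀ a : Fin 6, apex ((0, a) : St) = d (a + 2) + d a := by decide
    rw [e, add_assoc]
  · refine shift_of m3.2.1 ?_
    have e : ∀ a : Fin 6, (step (step (step ((0, a) : St) false) true) true).1 +
      d (step (step (step ((0, a) : St) false) true) true).2 = d (a + 2) + (d a + d (a + 1)) := by
      decide
    rw [e, add_assoc]
  · refine shift_of m1.2.1 ?_
    have e : ∀ a : Fin 6, (step ((0, a) : St) false).1 +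
      d (step ((0, a) : St) false).2 = d (a + 2) + (d a + d (a + 5)) := by
      decide
    rw [e, add_assoc]
  · refine shift_of m3.2.2 ?_
    have e : ∀ a : Fin 6, apex (step (step (step ((0, a) : St) false) true) true)
      = d (a + 2) + d (a + 1) := by
      decide
    rw [e, add_assoc]
  · refine shift_of m0.1 ?_
    have e : ∀ a : Fin 6, ((0, a) : St).1 = d (a + 2) + d (a + 5) := by
      decide
    rw [e a, add_assoc]
  · refine shift_of m4.2.2 ?_
    have e : ∀ a : Fin 6, apex (step (step (step (step ((0, a) : St) false) true) true) false)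
      = d (a + 2) + (d (a + 1) + d (a + 1)) := by
      decide
    rw [e, add_assoc]
  · refine shift_of p0 ?_
    have e : ∀ a : Fin 6, d (a + 5) = d (a + 2) + (d (a + 5) + d (a + 5)) := by
      decide
    rw [add_assoc, ← e a]

/-- The local picture at a right kink. -/
lemma LGeo.kinkR (h : LGeo ω n σ₀ w) {i : ℕ} (h1 : 1 ≤ i) (hi : i + 5 ≤ n) (ho : occR w i) :
    Kink ω (fun k => edge (sts σ₀ w k)) (sR (sts σ₀ w i)) ((sts σ₀ w i).2 + 3)
      (i + 3) (i + 2) (i + 1) := by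
  obtain ⟨x, a, hs⟩ : ∃ x a, sts σ₀ w i = (x, a) := ⟨_, _, rfl⟩
  obtain ⟨o0, o1, o2, o3⟩ := ho
  have s0 : sts σ₀ w i = tr x (0, a) := by rw [hs, ← eq_tr]
  have s1 : sts σ₀ w (i + 1) = tr x (step (0, a) true) := by rw [sts_add_one, s0, o0, step_tr]
  have s2 : sts σ₀ w (i + 2) = tr x (step (step (0, a) true) false) := by
    rw [show i + 2 = i + 1 + 1 from rfl, sts_add_one, s1, o1, step_tr]
  have s3 : sts σ₀ w (i + 3) = tr x (step (step (step (0, a) true) false) false) := by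
    rw [show i + 3 = i + 2 + 1 from rfl, sts_add_one, s2, o2, step_tr]
  have s4 : sts σ₀ w (i + 4) = tr x (step (step (step (step (0, a) true) false) false) true) := by
    rw [show i + 4 = i + 3 + 1 from rfl, sts_add_one, s3, o3, step_tr]
  have m0 := h.mono i (by omega)
  have m3 := h.mono (i + 3) (by omega)
  have m4 := h.mono (i + 4) (by omega)
  have p0 := prev_site h h1 (by omega) hs
  rw [s0] at m0
  rw [s3] at m3
  rw [s4] at m4
  replace m0 := mono_tr m0
  replace m3 := mono_tr m3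
  replace m4 := mono_tr m4
  have hz : sR (sts σ₀ w i) = x + (d a + d (a + 1)) := by rw [hs, ← add_assoc]; rfl
  have ha : (sts σ₀ w i).2 = a := by rw [hs]
  rw [hz, ha]
  refine ⟨?_, ?_, ?_, ?_, ?_, ?_, ?_, ?_, ?_, ?_⟩
  · show edge (sts σ₀ w (i + 3)) = _
    rw [s3, edge_tr2]
    have e : ∀ a : Fin 6, edge (step (step (step (0, a) true) false) false) =
      (d a + d (a + 1)) + (d a + d (a + 1)) + (d (a + 3) + d (a + 3) + d (a + 3 + 5)) := by decide
    rw [e]; abel
  · show edge (sts σ₀ w (i + 2)) = _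
    rw [s2, edge_tr2]
    have e : ∀ a : Fin 6, edge (step (step (0, a) true) false) =
      (d a + d (a + 1)) + (d a + d (a + 1)) + (d (a + 3) + d (a + 3) + d (a + 3)) := by decide
    rw [e]; abel
  · show edge (sts σ₀ w (i + 1)) = _
    rw [s1, edge_tr2]
    have e : ∀ a : Fin 6, edge (step (0, a) true) =
      (d a + d (a + 1)) + (d a + d (a + 1)) + (d (a + 3) + d (a + 3) + d (a + 3 + 1)) := by decide
    rw [e]; abel
  · refine shift_of m0.2.2 ?_
    have e : ∀ a : Fin 6, apex ((0, a) : St) = (d a + d (a + 1)) + d (a + 3) := by decide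
    rw [e, ← add_assoc]
  · refine shift_of m0.1 ?_
    have e : ∀ a : Fin 6, ((0, a) : St).1 = (d a + d (a + 1)) + (d (a + 3) + d (a + 3 + 1)) := by
      decide
    rw [e a, ← add_assoc]
  · refine shift_of m3.1 ?_
    have e : ∀ a : Fin 6, (step (step (step ((0, a) : St) true) false) false).1 =
      (d a + d (a + 1)) + (d (a + 3) + d (a + 3 + 5)) := by
      decide
    rw [e a, ← add_assoc]
  · refine shift_of m0.2.1 ?_
    have e : ∀ a : Fin 6, ((0, a) : St).1 + d ((0, a) : St).2 =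
      (d a + d (a + 1)) + d (a + 3 + 1) := by
      decide
    rw [e a, ← add_assoc]
  · refine shift_of m3.2.2 ?_
    have e : ∀ a : Fin 6, apex (step (step (step ((0, a) : St) true) false) false) =
      (d a + d (a + 1)) + d (a + 3 + 5) := by
      decide
    rw [e a, ← add_assoc]
  · refine shift_of p0 ?_
    have e : ∀ a : Fin 6, d (a + 5) = (d a + d (a + 1)) + (d (a + 3 + 1) + d (a + 3 + 1)) := by
      decide
    rw [e a, ← add_assoc]
  · refine shift_of m4.2.2 ?_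
    have e : ∀ a : Fin 6, apex (step (step (step (step ((0, a) : St) true) false) false) true) =
      (d a + d (a + 1)) + (d (a + 3 + 5) + d (a + 3 + 5)) := by
      decide
    rw [e a, ← add_assoc]

lemma adj_z {z V : Site} {j : Fin 6} (h0 : ω (z + V) = false) (h1 : ω (z + (V + d j)) = false)
    (h2 : ω (z + (V + d (j + 1))) = false) :
    (strip ω false).Adj (z + z + (V + V + d j)) (z + z + (V + V + d (j + 1))) := by
  have := adj_pivot (ω := ω) (s := false) (z := z + V) (m := j) h0 (by rw [add_assoc]; exact h1)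
    (by rw [add_assoc]; exact h2)
  convert this using 1 <;> (simp only [mid]; abel)

/-- Two kinks around `z` with neighbouring pivots. -/
lemma Kink.near {e : ℕ → Site} {z : Site} {a : Fin 6} {l m r l' m' r' : ℕ}
    (h : Kink ω e z a l m r) (h' : Kink ω e z (a + 1) l' m' r') :
    ∃ p : (strip ω false).Walk (e r) (e l'), p.length ≤ 1 := by
  have e1 : ∀ a : Fin 6, d a + d a + d (a + 1) =
      (d a + d (a + 1)) + (d a + d (a + 1)) + d (a + 3 + 1) := by decide
  have e2 : ∀ a : Fin 6, d (a + 1) + d (a + 1) + d (a + 1 + 5) =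
      (d a + d (a + 1)) + (d a + d (a + 1)) + d (a + 3) := by decide
  have e3 : ∀ a : Fin 6, d (a + 1) = (d a + d (a + 1)) + d (a + 3) := by decide
  have e4 : ∀ a : Fin 6, d a = (d a + d (a + 1)) + d (a + 3 + 1) := by decide
  have hadj : (strip ω false).Adj (z + z + ((d a + d (a + 1)) + (d a + d (a + 1)) + d (a + 3)))
      (z + z + ((d a + d (a + 1)) + (d a + d (a + 1)) + d (a + 3 + 1))) :=
    adj_z h.b1 (by rw [← e3]; exact h.c1) (by rw [← e4]; exact h.b0)
  rw [h.er, h'.el, e1, e2]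
  exact ⟨SimpleGraph.Walk.cons hadj.symm SimpleGraph.Walk.nil, by simp⟩

/-- Two kinks around `z` whose pivots have a common neighbour. -/
lemma Kink.far {e : ℕ → Site} {z : Site} {a : Fin 6} {l m r l' m' r' : ℕ}
    (h : Kink ω e z a l m r) (h' : Kink ω e z (a + 2) l' m' r') :
    ∃ p : (strip ω false).Walk (e r) (e l'), p.length ≤ 4 := by
  -- the edges `E0 = {y_a, v1}`, `E1 = {u, v1}`, `E2 = {u, v2}`, `E3 = {u, v3}`, `E4 = {y_b, v3}`
  have q0 : ∀ a : Fin 6, d a + d a + d (a + 1) =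
      (d a + d (a + 1)) + (d a + d (a + 1)) + d (a + 3 + 1) := by decide
  have q1 : ∀ a : Fin 6, (d a + d (a + 1)) + (d a + d (a + 1)) + d (a + 3) =
      d (a + 1) + d (a + 1) + d a := by decide
  have q3 : ∀ a : Fin 6, d (a + 1) + d (a + 1) + d (a + 1 + 1) =
      (d (a + 1) + d (a + 2)) + (d (a + 1) + d (a + 2)) + d (a + 4 + 1) := by decide
  have q4 : ∀ a : Fin 6, d (a + 2) + d (a + 2) + d (a + 2 + 5) =
      (d (a + 1) + d (a + 2)) + (d (a + 1) + d (a + 2)) + d (a + 4) := by decide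
  have r1 : ∀ a : Fin 6, d (a + 1) = (d a + d (a + 1)) + d (a + 3) := by decide
  have r2 : ∀ a : Fin 6, d a = (d a + d (a + 1)) + d (a + 3 + 1) := by decide
  have r3 : ∀ a : Fin 6, d (a + 1) + d (a + 1 + 1) = d (a + 2) + d (a + 2 + 5) := by decide
  have r4 : ∀ a : Fin 6, d (a + 1) + d (a + 2) = d (a + 2) + d (a + 2 + 5) := by decide
  have r5 : ∀ a : Fin 6, (d (a + 1) + d (a + 2)) + d (a + 4) = d (a + 2) := by decide
  have r6 : ∀ a : Fin 6, (d (a + 1) + d (a + 2)) + d (a + 4 + 1) = d (a + 1) := by decide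
  have r7 : ∀ a : Fin 6, d (a + 1) + d a = d a + d (a + 1) := by decide
  have A1 : (strip ω false).Adj (z + z + ((d a + d (a + 1)) + (d a + d (a + 1)) + d (a + 3)))
      (z + z + ((d a + d (a + 1)) + (d a + d (a + 1)) + d (a + 3 + 1))) :=
    adj_z h.b1 (by rw [← r1]; exact h.c1) (by rw [← r2]; exact h.b0)
  have A2 : (strip ω false).Adj (z + z + (d (a + 1) + d (a + 1) + d a))
      (z + z + (d (a + 1) + d (a + 1) + d (a + 1))) :=
    adj_z h.c1 (by rw [r7]; exact h.b1) h.t1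
  have A3 : (strip ω false).Adj (z + z + (d (a + 1) + d (a + 1) + d (a + 1)))
      (z + z + (d (a + 1) + d (a + 1) + d (a + 1 + 1))) :=
    adj_z h.c1 h.t1 (by rw [r3]; exact h'.b5)
  have A4 : (strip ω false).Adj
      (z + z + ((d (a + 1) + d (a + 2)) + (d (a + 1) + d (a + 2)) + d (a + 4)))
      (z + z + ((d (a + 1) + d (a + 2)) + (d (a + 1) + d (a + 2)) + d (a + 4 + 1))) :=
    adj_z (by rw [r4]; exact h'.b5) (by rw [r5]; exact h'.b0) (by rw [r6]; exact h.c1)
  rw [q1] at A1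
  rw [← q3] at A4
  rw [h.er, h'.el, q0, q4]
  exact ⟨SimpleGraph.Walk.cons A1.symm (SimpleGraph.Walk.cons A2 (SimpleGraph.Walk.cons A3
    (SimpleGraph.Walk.cons A4.symm SimpleGraph.Walk.nil))), by simp⟩

/-- The times along a geodesic are controlled by the lengths of walks. -/
lemma LGeo.time (h : LGeo ω n σ₀ w) {i j k : ℕ} (hi : i ≤ n) (hj : j ≤ n)
    (hp : ∃ p : (strip ω false).Walk (edge (sts σ₀ w i)) (edge (sts σ₀ w j)), p.length ≤ k) :
    i ≤ j + k ∧ j ≤ i + k := by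
  obtain ⟨p, hp⟩ := hp
  rcases le_total i j with hij | hij
  · have := h.min i j hij hj p
    omega
  · have := h.min j i hij hi p.reverse
    rw [SimpleGraph.Walk.length_reverse] at this
    omega

/-- The three rules for two kinks around the same site. -/
lemma LGeo.rules (h : LGeo ω n σ₀ w) {z : Site} {a b : Fin 6} {l m r l' m' r' : ℕ}
    (hk : Kink ω (fun k => edge (sts σ₀ w k)) z a l m r)
    (hk' : Kink ω (fun k => edge (sts σ₀ w k)) z b l' m' r')
    (hl : l ≤ n) (hm : m ≤ n) (hr : r ≤ n) (hl' : l' ≤ n) (hm' : m' ≤ n) (hr' : r' ≤ n) :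
    (b = a ∧ m = m') ∨ (b = a + 1 ∧ r ≤ l' + 1 ∧ l' ≤ r + 1) ∨ (b = a + 2 ∧ r ≤ l' + 4 ∧ l' ≤ r + 4)
      ∨ b = a + 3 ∨ (b = a + 4 ∧ r' ≤ l + 4 ∧ l ≤ r' + 4) ∨ (b = a + 5 ∧ r' ≤ l + 1 ∧ l ≤ r' + 1) := by
  rcases f_cases a b with rfl | rfl | rfl | rfl | rfl | rfl
  · left
    refine ⟨rfl, ?_⟩
    have h1 : edge (sts σ₀ w m) = edge (sts σ₀ w m') := hk.em.trans hk'.em.symm
    have := h.time hm hm' (k := 0) ⟨SimpleGraph.Walk.nil.copy rfl h1, by simp⟩
    omega
  · right; left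
    exact ⟨rfl, h.time hr hl' (hk.near hk')⟩
  · right; right; left
    exact ⟨rfl, h.time hr hl' (hk.far hk')⟩
  · right; right; right; left; rfl
  · right; right; right; right; left
    have e : a + 4 + 2 = a := (by decide : ∀ a : Fin 6, a + 4 + 2 = a) a
    exact ⟨rfl, h.time hr' hl (hk'.far (by rw [e]; exact hk))⟩
  · right; right; right; right; right
    have e : a + 5 + 1 = a := (by decide : ∀ a : Fin 6, a + 5 + 1 = a) a
    exact ⟨rfl, h.time hr' hl (hk'.near (by rw [e]; exact hk))⟩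

lemma snd_step (σ : St) (b : Bool) : (step σ b).2 = σ.2 + (if b then 1 else 5) := by
  cases b <;> rfl

lemma snd_succ (k : ℕ) : (sts σ₀ w (k + 1)).2 = (sts σ₀ w k).2 + (if w k then 1 else 5) := by
  rw [sts_add_one, snd_step]

lemma snd_occL {i : ℕ} (ho : occL w i) : (sts σ₀ w (i + 3)).2 = (sts σ₀ w i).2 + 1 ∧
    (sts σ₀ w (i + 2)).2 = (sts σ₀ w i).2 ∧ (sts σ₀ w (i + 4)).2 = (sts σ₀ w i).2 := by
  obtain ⟨o0, o1, o2, o3⟩ := ho
  have s1 := snd_succ (σ₀ := σ₀) (w := w) i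
  have s2 := snd_succ (σ₀ := σ₀) (w := w) (i + 1)
  have s3 := snd_succ (σ₀ := σ₀) (w := w) (i + 2)
  have s4 := snd_succ (σ₀ := σ₀) (w := w) (i + 3)
  rw [o0] at s1
  rw [o1, s1] at s2
  rw [o2, s2] at s3
  rw [o3, s3] at s4
  refine ⟨?_, ?_, ?_⟩
  · rw [s3]; generalize (sts σ₀ w i).2 = a; clear s1 s2 s3 s4; revert a; decide
  · rw [s2]; generalize (sts σ₀ w i).2 = a; clear s1 s2 s3 s4; revert a; decide
  · rw [s4]; generalize (sts σ₀ w i).2 = a; clear s1 s2 s3 s4; revert a; decide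

lemma snd_occR {i : ℕ} (ho : occR w i) : (sts σ₀ w (i + 3)).2 = (sts σ₀ w i).2 + 5 ∧
    (sts σ₀ w (i + 2)).2 = (sts σ₀ w i).2 ∧ (sts σ₀ w (i + 4)).2 = (sts σ₀ w i).2 := by
  obtain ⟨o0, o1, o2, o3⟩ := ho
  have s1 := snd_succ (σ₀ := σ₀) (w := w) i
  have s2 := snd_succ (σ₀ := σ₀) (w := w) (i + 1)
  have s3 := snd_succ (σ₀ := σ₀) (w := w) (i + 2)
  have s4 := snd_succ (σ₀ := σ₀) (w := w) (i + 3)
  rw [o0] at s1
  rw [o1, s1] at s2
  rw [o2, s2] at s3
  rw [o3, s3] at s4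
  refine ⟨?_, ?_, ?_⟩
  · rw [s3]; generalize (sts σ₀ w i).2 = a; clear s1 s2 s3 s4; revert a; decide
  · rw [s2]; generalize (sts σ₀ w i).2 = a; clear s1 s2 s3 s4; revert a; decide
  · rw [s4]; generalize (sts σ₀ w i).2 = a; clear s1 s2 s3 s4; revert a; decide

/-- Two left kinks at the same site. -/
lemma LGeo.LL (h : LGeo ω n σ₀ w) {i i' : ℕ} (h1 : 1 ≤ i) (hlt : i < i') (hi' : i' + 5 ≤ n)
    (ho : occL w i) (ho' : occL w i') (hz : sL (sts σ₀ w i) = sL (sts σ₀ w i')) :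
    (i' = i + 3 ∧ (sts σ₀ w i').2 = (sts σ₀ w i).2 + 1) ∨
      (sts σ₀ w i').2 = (sts σ₀ w i).2 + 3 ∨ (i' = i + 6 ∧ occL w (i + 3)) := by
  have hk := h.kinkL h1 (by omega) ho
  have hk' := h.kinkL (by omega) hi' ho'
  rw [← hz] at hk'
  have hr := h.rules hk hk' (by omega) (by omega) (by omega) (by omega) (by omega) (by omega)
  obtain ⟨q3, q2, q4⟩ := snd_occL (σ₀ := σ₀) ho
  have f5 := snd_succ (σ₀ := σ₀) (w := w) (i + 4)
  have f6 := snd_succ (σ₀ := σ₀) (w := w) (i + 5)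
  obtain ⟨o0, o1, o2, o3⟩ := ho
  obtain ⟨o0', o1', o2', o3'⟩ := ho'
  rcases hr with ⟨_, h2⟩ | ⟨hb, h2, h3⟩ | ⟨hb, h2, h3⟩ | hb | ⟨hb, h2, h3⟩ | ⟨hb, h2, h3⟩
  · omega
  · have : i' = i + 1 ∨ i' = i + 2 ∨ i' = i + 3 := by omega
    rcases this with rfl | rfl | rfl
    · rw [o1] at o0'; cases o0'
    · rw [o2] at o0'; cases o0'
    · exact Or.inl ⟨rfl, hb⟩
  · have : i' = i + 1 ∨ i' = i + 2 ∨ i' = i + 3 ∨ i' = i + 4 ∨ i' = i + 5 ∨ i' = i + 6 := by omega
    rcases this with rfl | rfl | rfl | rfl | rfl | rfl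
    · rw [o1] at o0'; cases o0'
    · rw [o2] at o0'; cases o0'
    · rw [q3] at hb
      exact absurd hb ((by decide : ∀ a : Fin 6, ¬ (a + 1 = a + 2)) _)
    · rw [q4] at hb
      exact absurd hb ((by decide : ∀ a : Fin 6, ¬ (a = a + 2)) _)
    · rw [f5, q4] at hb
      exact absurd hb ((by decide : ∀ (a : Fin 6) (b : Bool),
        ¬ (a + (if b then 1 else 5) = a + 2)) _ _)
    · rw [f6, f5, q4] at hb
      have := (by decide : ∀ (a : Fin 6) (b c : Bool),
        a + (if b then 1 else 5) + (if c then 1 else 5) = a + 2 → b = true ∧ c = true) _ _ _ hb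
      right; right
      exact ⟨rfl, o3, this.1, this.2, o0'⟩
  · exact Or.inr (Or.inl hb)
  · have : i' = i + 1 ∨ i' = i + 2 := by omega
    rcases this with rfl | rfl
    · rw [o1] at o0'; cases o0'
    · rw [o2] at o0'; cases o0'
  · omega

/-- Two right kinks at the same site. -/
lemma LGeo.RR (h : LGeo ω n σ₀ w) {i i' : ℕ} (h1 : 1 ≤ i) (hlt : i < i') (hi' : i' + 5 ≤ n)
    (ho : occR w i) (ho' : occR w i') (hz : sR (sts σ₀ w i) = sR (sts σ₀ w i')) :
    (i' = i + 3 ∧ (sts σ₀ w i').2 = (sts σ₀ w i).2 + 5) ∨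
      (sts σ₀ w i').2 = (sts σ₀ w i).2 + 3 ∨ (i' = i + 6 ∧ occR w (i + 3)) := by
  have hk := h.kinkR h1 (by omega) ho
  have hk' := h.kinkR (by omega) hi' ho'
  rw [← hz] at hk'
  have hr := h.rules hk hk' (by omega) (by omega) (by omega) (by omega) (by omega) (by omega)
  obtain ⟨q3, q2, q4⟩ := snd_occR (σ₀ := σ₀) ho
  have f5 := snd_succ (σ₀ := σ₀) (w := w) (i + 4)
  have f6 := snd_succ (σ₀ := σ₀) (w := w) (i + 5)
  obtain ⟨o0, o1, o2, o3⟩ := ho
  obtain ⟨o0', o1', o2', o3'⟩ := ho'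
  rcases hr with ⟨_, h2⟩ | ⟨hb, h2, h3⟩ | ⟨hb, h2, h3⟩ | hb | ⟨hb, h2, h3⟩ | ⟨hb, h2, h3⟩
  · omega
  · omega
  · have : i' = i + 1 ∨ i' = i + 2 := by omega
    rcases this with rfl | rfl
    · rw [o1] at o0'; cases o0'
    · rw [o2] at o0'; cases o0'
  · right; left
    exact (by decide : ∀ a b : Fin 6, b + 3 = a + 3 + 3 → b = a + 3) _ _ hb
  · have : i' = i + 1 ∨ i' = i + 2 ∨ i' = i + 3 ∨ i' = i + 4 ∨ i' = i + 5 ∨ i' = i + 6 := by omega
    rcases this with rfl | rfl | rfl | rfl | rfl | rfl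
    · rw [o1] at o0'; cases o0'
    · rw [o2] at o0'; cases o0'
    · rw [q3] at hb
      exact absurd hb ((by decide : ∀ a : Fin 6, ¬ (a + 5 + 3 = a + 3 + 4)) _)
    · rw [q4] at hb
      exact absurd hb ((by decide : ∀ a : Fin 6, ¬ (a + 3 = a + 3 + 4)) _)
    · rw [f5, q4] at hb
      exact absurd hb ((by decide : ∀ (a : Fin 6) (b : Bool),
        ¬ (a + (if b then 1 else 5) + 3 = a + 3 + 4)) _ _)
    · rw [f6, f5, q4] at hb
      have := (by decide : ∀ (a : Fin 6) (b c : Bool),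
        a + (if b then 1 else 5) + (if c then 1 else 5) + 3 = a + 3 + 4 →
          b = false ∧ c = false) _ _ _ hb
      right; right
      exact ⟨rfl, o3, this.1, this.2, o0'⟩
  · have : i' = i + 1 ∨ i' = i + 2 ∨ i' = i + 3 := by omega
    rcases this with rfl | rfl | rfl
    · rw [o1] at o0'; cases o0'
    · rw [o2] at o0'; cases o0'
    · exact Or.inl ⟨rfl, (by decide : ∀ a b : Fin 6, b + 3 = a + 3 + 5 → b = a + 5) _ _ hb⟩

/-- A left kink and a right kink at the same site have opposite pivots. -/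
lemma LGeo.LR (h : LGeo ω n σ₀ w) {i j : ℕ} (h1 : 1 ≤ i) (h1' : 1 ≤ j) (hi : i + 5 ≤ n)
    (hj : j + 5 ≤ n) (ho : occL w i) (ho' : occR w j)
    (hz : sL (sts σ₀ w i) = sR (sts σ₀ w j)) : (sts σ₀ w j).2 = (sts σ₀ w i).2 := by
  have hk := h.kinkL h1 (by omega) ho
  have hk' := h.kinkR (by omega) hj ho'
  rw [← hz] at hk'
  have hr := h.rules hk hk' (by omega) (by omega) (by omega) (by omega) (by omega) (by omega)
  obtain ⟨q3, q2, q4⟩ := snd_occL (σ₀ := σ₀) ho
  obtain ⟨q3', q2', q4'⟩ := snd_occR (σ₀ := σ₀) ho'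
  obtain ⟨o0, o1, o2, o3⟩ := ho
  obtain ⟨o0', o1', o2', o3'⟩ := ho'
  by_cases hopp : (sts σ₀ w j).2 = (sts σ₀ w i).2
  · exact hopp
  exfalso
  have hcl : j ≤ i + 4 ∧ i ≤ j + 4 := by
    rcases hr with ⟨_, h2⟩ | ⟨hb, h2, h3⟩ | ⟨hb, h2, h3⟩ | hb | ⟨hb, h2, h3⟩ | ⟨hb, h2, h3⟩
    · omega
    · omega
    · omega
    · exact absurd ((by decide : ∀ a b : Fin 6, b + 3 = a + 3 → b = a) _ _ hb) hopp
    · omega
    · omega
  rcases le_total i j with hij | hij
  · have : j = i ∨ j = i + 1 ∨ j = i + 2 ∨ j = i + 3 ∨ j = i + 4 := by omega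
    rcases this with rfl | rfl | rfl | rfl | rfl
    · exact hopp rfl
    · have e : i + 1 + 1 = i + 2 := rfl
      rw [e, o2] at o1'; cases o1'
    · exact hopp q2
    · rw [o3] at o0'; cases o0'
    · exact hopp q4
  · have : i = j ∨ i = j + 1 ∨ i = j + 2 ∨ i = j + 3 ∨ i = j + 4 := by omega
    rcases this with rfl | rfl | rfl | rfl | rfl
    · exact hopp rfl
    · have e : j + 1 + 1 = j + 2 := rfl
      rw [e, o2'] at o1; cases o1
    · exact hopp q2'.symm
    · rw [o3'] at o0; cases o0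
    · exact hopp q4'.symm

/-- The second kink of a chain of right kinks is at the same site. -/
lemma sR_chain {j : ℕ} (ho : occR w j) : sR (sts σ₀ w (j + 3)) = sR (sts σ₀ w j) := by
  obtain ⟨x, a, hs⟩ : ∃ x a, sts σ₀ w j = (x, a) := ⟨_, _, rfl⟩
  obtain ⟨o0, o1, o2, o3⟩ := ho
  have s0 : sts σ₀ w j = tr x (0, a) := by rw [hs, ← eq_tr]
  have s1 : sts σ₀ w (j + 1) = tr x (step (0, a) true) := by rw [sts_add_one, s0, o0, step_tr]
  have s2 : sts σ₀ w (j + 2) = tr x (step (step (0, a) true) false) := by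
    rw [show j + 2 = j + 1 + 1 from rfl, sts_add_one, s1, o1, step_tr]
  have s3 : sts σ₀ w (j + 3) = tr x (step (step (step (0, a) true) false) false) := by
    rw [show j + 3 = j + 2 + 1 from rfl, sts_add_one, s2, o2, step_tr]
  have e : ∀ a : Fin 6, sR (step (step (step (0, a) true) false) false) = sR (0, a) := by decide
  have e2 : ∀ τ : St, sR (tr x τ) = x + sR τ := by
    intro τ; simp only [sR, tr, add_assoc]
  rw [s3, s0, e2, e2, e]

/-- Three counted left kinks never share a site. -/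
lemma LGeo.three (h : LGeo ω n σ₀ w) {i i' i'' : ℕ} (h1 : 1 ≤ i) (hlt : i < i') (hlt' : i' < i'')
    (hi : i'' + 5 ≤ n) (ho : fK w i) (ho' : fK w i') (ho'' : fK w i'')
    (hz : sL (sts σ₀ w i) = sL (sts σ₀ w i')) (hz' : sL (sts σ₀ w i) = sL (sts σ₀ w i'')) :
    False := by
  have key : ∀ {j j' : ℕ}, 1 ≤ j → j < j' → j' + 5 ≤ n → fK w j → fK w j' →
      sL (sts σ₀ w j) = sL (sts σ₀ w j') → (sts σ₀ w j').2 = (sts σ₀ w j).2 + 1 ∨
        (sts σ₀ w j').2 = (sts σ₀ w j).2 + 3 := by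
    intro j j' a1 a2 a3 a4 a5 a6
    rcases h.LL a1 a2 a3 a4.1 a5.1 a6 with ⟨_, h2⟩ | h2 | ⟨h2, h3⟩
    · exact Or.inl h2
    · exact Or.inr h2
    · exfalso
      apply a5.2
      have e1 : j' - 3 = j + 3 := by omega
      have e2 : j' - 6 = j := by omega
      rw [e1, e2]
      exact ⟨h3, a4.1⟩
  have k1 := key h1 hlt (by omega) ho ho' hz
  have k2 := key (by omega) hlt' hi ho' ho'' (hz.symm.trans hz')
  have k3 := key h1 (hlt.trans hlt') hi ho ho'' hz'
  generalize (sts σ₀ w i).2 = a at *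
  generalize (sts σ₀ w i').2 = b at *
  generalize (sts σ₀ w i'').2 = c at *
  clear hz hz' ho ho' ho'' key h
  revert k1 k2 k3
  revert a b c
  decide

/-- Counted right kinks have distinct sites. -/
lemma LGeo.gInj (h : LGeo ω n σ₀ w) {i i' : ℕ} (h1 : 1 ≤ i) (hlt : i < i') (hi' : i' + 8 ≤ n)
    (ho : gK w i) (ho' : gK w i') : sR (sts σ₀ w i) ≠ sR (sts σ₀ w i') := by
  intro hz
  obtain ⟨g1, g2, g3⟩ := ho
  obtain ⟨g1', g2', g3'⟩ := ho'
  rcases h.RR h1 hlt (by omega) g1 g1' hz with ⟨h2, _⟩ | h2 | ⟨h2, h3⟩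
  · subst h2
    exact g3' (by simpa using g1)
  · -- opposite pivots: compare with the second kink of the chain at `i`
    have hq := (snd_occR (σ₀ := σ₀) g1).1
    have hz2 : sR (sts σ₀ w (i + 3)) = sR (sts σ₀ w i') := (sR_chain g1).trans hz
    have hcases : i' = i + 1 ∨ i' = i + 2 ∨ i' = i + 3 ∨ i + 3 < i' := by omega
    rcases hcases with rfl | rfl | rfl | hgt
    · obtain ⟨_, o1, _, _⟩ := g1
      obtain ⟨o0', _, _, _⟩ := g1'
      rw [o1] at o0'; cases o0'
    · obtain ⟨_, _, o2, _⟩ := g1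
      obtain ⟨o0', _, _, _⟩ := g1'
      rw [o2] at o0'; cases o0'
    · exact g3' (by simpa using g1)
    · rcases h.RR (by omega) hgt (by omega) g2 g1' hz2 with ⟨h4, _⟩ | h4 | ⟨h4, h5⟩
      · subst h4
        exact g3' (by simpa using g2)
      · rw [h2, hq] at h4
        exact absurd h4 ((by decide : ∀ a : Fin 6, ¬ (a + 3 = a + 5 + 3)) _)
      · subst h4
        exact g3' (by simpa using h5)
  · subst h2
    exact g3' (by simpa using h3)

/-- A counted right kink and a left kink have different sites. -/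
lemma LGeo.disj (h : LGeo ω n σ₀ w) {i j : ℕ} (h1 : 1 ≤ i) (h1' : 1 ≤ j) (hi : i + 5 ≤ n)
    (hj : j + 8 ≤ n) (ho : occL w i) (ho' : gK w j) :
    sL (sts σ₀ w i) ≠ sR (sts σ₀ w j) := by
  intro hz
  obtain ⟨g1, g2, _⟩ := ho'
  have a1 := h.LR h1 h1' hi (by omega) ho g1 hz
  have a2 := h.LR h1 (by omega) hi (by omega) ho g2 (hz.trans (sR_chain g1).symm)
  have hq := (snd_occR (σ₀ := σ₀) g1).1
  rw [hq, a1] at a2
  exact absurd a2 ((by decide : ∀ a : Fin 6, ¬ (a + 5 = a)) _)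

/-- The number of distinct forced sites. -/
theorem forced_card {ω : Site → Bool} {n : ℕ} {σ₀ : St} {w : ℕ → Bool} (h : LGeo ω n σ₀ w)
    {a b : ℕ} (ha : 8 ≤ a) (hb : b + 12 ≤ n) :
    (fSet w a b).card + 2 * (gSet w a b).card ≤ 2 * (forced σ₀ w a b).card := by
  have hf : ∀ i ∈ fSet w a b, 1 ≤ i ∧ i + 12 ≤ n ∧ fK w i := by
    intro i hi
    rw [fSet, Finset.mem_filter, Finset.mem_Ico] at hi
    exact ⟨by omega, by omega, hi.2⟩
  have hg : ∀ i ∈ gSet w a b, 1 ≤ i ∧ i + 12 ≤ n ∧ gK w i := by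
    intro i hi
    rw [gSet, Finset.mem_filter, Finset.mem_Ico] at hi
    exact ⟨by omega, by omega, hi.2⟩
  have hgc : ((gSet w a b).image (fun i => sR (sts σ₀ w i))).card = (gSet w a b).card := by
    apply Finset.card_image_of_injOn
    intro i hi j hj hij
    by_contra hne
    have hi' := hg i hi
    have hj' := hg j hj
    rcases Nat.lt_or_gt_of_ne hne with hlt | hlt
    · exact h.gInj hi'.1 hlt (by omega) hi'.2.2 hj'.2.2 hij
    · exact h.gInj hj'.1 hlt (by omega) hj'.2.2 hi'.2.2 hij.symm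
  have hfc : (fSet w a b).card ≤ 2 * ((fSet w a b).image (fun i => sL (sts σ₀ w i))).card := by
    apply Finset.card_le_mul_card_image
    intro z _
    by_contra hcon
    rw [not_le, Finset.two_lt_card] at hcon
    obtain ⟨x, hx, y, hy, t, ht, hxy, hxt, hyt⟩ := hcon
    rw [Finset.mem_filter] at hx hy ht
    have hx' := hf x hx.1
    have hy' := hf y hy.1
    have ht' := hf t ht.1
    have key : ∀ {i i' i'' : ℕ}, (i ∈ fSet w a b ∧ sL (sts σ₀ w i) = z) →
        (i' ∈ fSet w a b ∧ sL (sts σ₀ w i') = z) → (i'' ∈ fSet w a b ∧ sL (sts σ₀ w i'') = z) →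
        i < i' → i' < i'' → False := by
      intro i i' i'' hi hi' hi'' h1 h2
      have q := hf i hi.1
      have q' := hf i' hi'.1
      have q'' := hf i'' hi''.1
      exact h.three q.1 h1 h2 (by omega) q.2.2 q'.2.2 q''.2.2 (hi.2.trans hi'.2.symm)
        (hi.2.trans hi''.2.symm)
    rcases Nat.lt_or_gt_of_ne hxy with a1 | a1 <;> rcases Nat.lt_or_gt_of_ne hxt with a2 | a2 <;>
      rcases Nat.lt_or_gt_of_ne hyt with a3 | a3
    · exact key hx hy ht a1 a3
    · exact key hx ht hy a2 a3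
    · omega
    · exact key ht hx hy a2 a1
    · exact key hy hx ht a1 a2
    · omega
    · exact key hy ht hx a3 a2
    · exact key ht hy hx a3 a1
  have hd : Disjoint ((fSet w a b).image (fun i => sL (sts σ₀ w i)))
      ((gSet w a b).image (fun i => sR (sts σ₀ w i))) := by
    rw [Finset.disjoint_left]
    intro z hz hz'
    rw [Finset.mem_image] at hz hz'
    obtain ⟨i, hi, rfl⟩ := hz
    obtain ⟨j, hj, hij⟩ := hz'
    have hi' := hf i hi
    have hj' := hg j hj
    exact h.disj hi'.1 hj'.1 (by omega) (by omega) hi'.2.2.1 hj'.2.2 hij.symm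
  rw [forced, Finset.card_union_of_disjoint hd, hgc]
  omega

end MP_c38eaf_pr
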