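import Pool.Agent.Lib.MP_c38eaf_pr.Ref0

/-!
# The transfer-matrix bound for leftmost geodesic strips
-/

namespace MP_c38eaf_pr

/-- Table of the certificate vector, indexed by windows of nine letters. -/
def cbTab : List (List ℕ) := [
    [5236, 7754, 8229, 3255, 4432, 7754, 8455, 5557, 5236, 6563, 8229, 3255, 4432, 8090, 8229, 5557,
     5236, 7754, 6464, 3255, 4432, 7754, 8455, 5557, 5236, 6563, 8229, 3752, 4432, 7754, 8229, 5557],
    [5236, 7754, 8229, 3255, 1818, 7754, 8455, 5557, 5236, 6563, 8229, 3255, 4432, 8090, 8229, 5557,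
     5236, 7754, 6464, 3255, 4432, 7754, 9745, 5557, 5236, 6563, 8229, 3255, 4432, 7754, 8229, 5557],
    [5236, 7754, 8229, 3255, 4432, 7754, 8455, 5557, 5236, 8285, 8229, 3255, 4432, 8090, 8229, 5557,
     5236, 7754, 6464, 3255, 4432, 7754, 8455, 5557, 5236, 6563, 8229, 3752, 4432, 7754, 8229, 5557],
    [5236, 7754, 8229, 3255, 1818, 7754, 8455, 5557, 5236, 6563, 8229, 3255, 4432, 10000, 8229, 5557,
     5236, 7754, 6464, 3255, 4432, 7754, 8455, 5557, 5236, 6563, 8229, 3255, 4432, 7754, 8229, 5557],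
    [5236, 7754, 8229, 3255, 4432, 7754, 8455, 5557, 5236, 6563, 8229, 3255, 4432, 8090, 8229, 5557,
     5236, 7754, 9014, 3255, 4432, 7754, 8455, 5557, 5236, 6563, 8229, 3752, 4432, 7754, 8229, 5557],
    [5236, 7754, 8229, 3255, 1818, 7754, 8455, 5557, 5236, 6563, 8229, 3255, 4432, 8090, 8229, 5557,
     5236, 7754, 6464, 3255, 4432, 7754, 9745, 5557, 5236, 6563, 8229, 3255, 4432, 7754, 8229, 5557],
    [5236, 7754, 8229, 3255, 4432, 7754, 8455, 5557, 5236, 8285, 8229, 3255, 4432, 8090, 8229, 5557,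
     5236, 7754, 6464, 3255, 4432, 7754, 8455, 5557, 5236, 6563, 8229, 6580, 4432, 7754, 8229, 5557],
    [5236, 7754, 8229, 3255, 1818, 7754, 8455, 5557, 5236, 6563, 8229, 3255, 4432, 8090, 8229, 5557,
     5236, 7754, 6464, 3255, 4432, 7754, 8455, 5557, 5236, 6563, 8229, 3255, 4432, 7754, 8229, 5557],
    [5236, 7754, 8229, 3255, 4432, 7754, 8455, 5557, 5236, 6563, 8229, 3255, 4432, 8090, 8229, 5557,
     5236, 7754, 6464, 3255, 4432, 7754, 8455, 5557, 5236, 6563, 8229, 3752, 4432, 7754, 8229, 5557],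
    [5236, 7754, 8229, 3255, 5594, 7754, 8455, 5557, 5236, 6563, 8229, 3255, 4432, 8090, 8229, 5557,
     5236, 7754, 6464, 3255, 4432, 7754, 9745, 5557, 5236, 6563, 8229, 3255, 4432, 7754, 8229, 5557],
    [5236, 7754, 8229, 3255, 4432, 7754, 8455, 5557, 5236, 8285, 8229, 3255, 4432, 8090, 8229, 5557,
     5236, 7754, 6464, 3255, 4432, 7754, 8455, 5557, 5236, 6563, 8229, 3752, 4432, 7754, 8229, 5557],
    [5236, 7754, 8229, 3255, 1818, 7754, 8455, 5557, 5236, 6563, 8229, 3255, 4432, 10000, 8229, 5557,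
     5236, 7754, 6464, 3255, 4432, 7754, 8455, 5557, 5236, 6563, 8229, 3255, 4432, 7754, 8229, 5557],
    [5236, 7754, 8229, 3255, 4432, 7754, 8455, 5557, 5236, 6563, 8229, 3255, 4432, 8090, 8229, 5557,
     5236, 7754, 9014, 3255, 4432, 7754, 8455, 5557, 5236, 6563, 8229, 3752, 4432, 7754, 8229, 5557],
    [5236, 7754, 8229, 3255, 1818, 7754, 8455, 5557, 5236, 6563, 8229, 3255, 4432, 8090, 8229, 5557,
     5236, 7754, 6464, 3255, 4432, 7754, 9745, 5557, 5236, 6563, 8229, 3255, 4432, 7754, 8229, 5557],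
    [5236, 7754, 8229, 3255, 4432, 7754, 8455, 5557, 5236, 8285, 8229, 3255, 4432, 8090, 8229, 5557,
     5236, 7754, 6464, 3255, 4432, 7754, 8455, 5557, 5236, 6563, 8229, 3752, 4432, 7754, 8229, 5557],
    [5236, 7754, 8229, 3255, 1818, 7754, 8455, 5557, 5236, 6563, 8229, 3255, 4432, 8090, 8229, 5557,
     5236, 7754, 6464, 3255, 4432, 7754, 8455, 5557, 5236, 6563, 8229, 3255, 4432, 7754, 8229, 5557]]

/-- Number of a window of five letters. -/
def cbCode (x0 x1 x2 x3 x4 : Bool) : ℕ :=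
  16 * x0.toNat + 8 * x1.toNat + 4 * x2.toNat + 2 * x3.toNat + x4.toNat

/-- The certificate vector. -/
def cbV (x0 x1 x2 x3 x4 x5 x6 x7 x8 : Bool) : ℕ :=
  (cbTab.getD (cbCode false x0 x1 x2 x3) []).getD (cbCode x4 x5 x6 x7 x8) 0

/-- Counted left kinks in a window. -/
def cbF (x0 x1 x2 x3 x4 x5 x6 x7 x8 x9 : Bool) : Bool :=
  (!x6 && x7 && x8 && !x9) && !((!x3 && x4 && x5 && !x6) && (!x0 && x1 && x2 && !x3))

/-- Counted right kinks in a window. -/
def cbG (x0 x1 x2 x3 x4 x5 x6 x7 x8 x9 : Bool) : Bool :=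
  (x3 && !x4 && !x5 && x6) && (x6 && !x7 && !x8 && x9) && !(x0 && !x1 && !x2 && x3)

/-- The weight of a window of ten letters, times `4 * 10 ^ 9`. -/
def cbN (x0 x1 x2 x3 x4 x5 x6 x7 x8 x9 : Bool) : ℕ :=
  if x7 = x8 ∧ x8 = x9 then 0 else
    if cbG x0 x1 x2 x3 x4 x5 x6 x7 x8 x9 = true then 877537827 else
      if cbF x0 x1 x2 x3 x4 x5 x6 x7 x8 x9 = true then 1539270000 else 2700000000

theorem cbF_iff : ∀ x0 x1 x2 x3 x4 x5 x6 x7 x8 x9 : Bool,
    ((x6 = false ∧ x7 = true ∧ x8 = true ∧ x9 = false) ∧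
      ¬((x3 = false ∧ x4 = true ∧ x5 = true ∧ x6 = false) ∧
        (x0 = false ∧ x1 = true ∧ x2 = true ∧ x3 = false))) ↔
    cbF x0 x1 x2 x3 x4 x5 x6 x7 x8 x9 = true := by
  intro x0 x1 x2 x3 x4 x5 x6 x7 x8 x9
  unfold cbF
  cases x0 <;> cases x1 <;> cases x2 <;> cases x3 <;> cases x4 <;> cases x5 <;> cases x6 <;> simp [and_assoc]

theorem cbG_iff : ∀ x0 x1 x2 x3 x4 x5 x6 x7 x8 x9 : Bool,
    ((x3 = true ∧ x4 = false ∧ x5 = false ∧ x6 = true) ∧
      (x6 = true ∧ x7 = false ∧ x8 = false ∧ x9 = true) ∧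
      ¬(x0 = true ∧ x1 = false ∧ x2 = false ∧ x3 = true)) ↔
    cbG x0 x1 x2 x3 x4 x5 x6 x7 x8 x9 = true := by
  intro x0 x1 x2 x3 x4 x5 x6 x7 x8 x9
  unfold cbG
  cases x0 <;> cases x1 <;> cases x2 <;> cases x3 <;> cases x4 <;> cases x5 <;> cases x6 <;> simp [and_assoc]

theorem cb_check : ∀ x0 x1 x2 x3 x4 x5 x6 x7 x8 : Bool,
    cbN x0 x1 x2 x3 x4 x5 x6 x7 x8 false * cbV x1 x2 x3 x4 x5 x6 x7 x8 false +
      cbN x0 x1 x2 x3 x4 x5 x6 x7 x8 true * cbV x1 x2 x3 x4 x5 x6 x7 x8 true ≤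
      3999200000 * cbV x0 x1 x2 x3 x4 x5 x6 x7 x8 := by
  decide +kernel

theorem cb_pos : ∀ x0 x1 x2 x3 x4 x5 x6 x7 x8 : Bool, 1 ≤ cbV x0 x1 x2 x3 x4 x5 x6 x7 x8 := by
  decide +kernel

/-- The weight of the window of ten letters at `t`. -/
noncomputable def cbPH (w : ℕ → Bool) (t : ℕ) : ℝ :=
  (cbN (w t) (w (t + 1)) (w (t + 2)) (w (t + 3)) (w (t + 4)) (w (t + 5)) (w (t + 6)) (w (t + 7)) (w (t + 8)) (w (t + 9)) : ℝ) / 4000000000

/-- The certificate vector at the window of nine letters at `t`. -/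
noncomputable def cbVV (w : ℕ → Bool) (t : ℕ) : ℝ :=
  (cbV (w t) (w (t + 1)) (w (t + 2)) (w (t + 3)) (w (t + 4)) (w (t + 5)) (w (t + 6)) (w (t + 7)) (w (t + 8)) : ℝ)

/-- Extension of a word by `false`. -/
def cbExt (n : ℕ) (u : Fin n → Bool) : ℕ → Bool := fun i => if h : i < n then u ⟨i, h⟩ else false

theorem cbPH_nonneg (w : ℕ → Bool) (t : ℕ) : 0 ≤ cbPH w t := by
  unfold cbPH
  positivity

theorem cbVV_one_le (w : ℕ → Bool) (t : ℕ) : 1 ≤ cbVV w t := by
  unfold cbVV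
  exact_mod_cast cb_pos _ _ _ _ _ _ _ _ _

theorem cb_sum_succ (n : ℕ) (F : (ℕ → Bool) → ℝ) :
    ∑ u : Fin (n + 1) → Bool, F (cbExt (n + 1) u) =
      ∑ u : Fin n → Bool, (F (Function.update (cbExt n u) n false) +
        F (Function.update (cbExt n u) n true)) := by
  rw [← (Fin.snocEquiv (fun _ => Bool)).sum_comp, Fintype.sum_prod_type_right]
  refine Finset.sum_congr rfl fun u _ => ?_
  rw [Fintype.sum_bool, add_comm]
  have h : ∀ c : Bool, cbExt (n + 1) (Fin.snocEquiv (fun _ => Bool) (c, u)) =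
      Function.update (cbExt n u) n c := by
    intro c
    funext i
    unfold cbExt
    simp only [Fin.snocEquiv, Equiv.coe_fn_mk, Function.update_apply, Fin.snoc]
    by_cases h1 : i < n
    · rw [dif_pos (by omega), dif_pos h1, if_neg (by omega), dif_pos h1]
      rfl
    · by_cases h2 : i = n
      · subst h2
        simp
      · rw [dif_neg (by omega), if_neg h2, dif_neg h1]
  rw [h, h]

theorem cb_sum_free (m : ℕ) (G : (ℕ → Bool) → ℝ)
    (hG : ∀ w w' : ℕ → Bool, (∀ i, i < m → w i = w' i) → G w = G w') (j : ℕ) :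
    ∑ u : Fin (m + j) → Bool, G (cbExt (m + j) u) = 2 ^ j * ∑ u : Fin m → Bool, G (cbExt m u) := by
  induction j with
  | zero => simp
  | succ j ih =>
    rw [← Nat.add_assoc, cb_sum_succ (m + j) G, pow_succ, mul_comm (2 ^ j) 2, mul_assoc, ← ih,
      Finset.mul_sum]
    refine Finset.sum_congr rfl fun u _ => ?_
    have h : ∀ c : Bool, G (Function.update (cbExt (m + j) u) (m + j) c) = G (cbExt (m + j) u) := by
      intro c
      apply hG
      intro i hi
      rw [Function.update_of_ne (by omega)]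
    rw [h, h, two_mul]

/-- Product of the weights. -/
noncomputable def cbP (w : ℕ → Bool) (b : ℕ) : ℝ := ∏ t ∈ Finset.Ico 17 b, cbPH w t

theorem cbP_nonneg (w : ℕ → Bool) (b : ℕ) : 0 ≤ cbP w b :=
  Finset.prod_nonneg fun t _ => cbPH_nonneg w t

theorem cbP_congr {w w' : ℕ → Bool} {b : ℕ} (h : ∀ i, i < b + 9 → w i = w' i) :
    cbP w b = cbP w' b := by
  unfold cbP
  refine Finset.prod_congr rfl fun t ht => ?_
  have ht' := (Finset.mem_Ico.1 ht).2
  unfold cbPH
  rw [h t (by omega), h (t + 1) (by omega), h (t + 2) (by omega), h (t + 3) (by omega),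
    h (t + 4) (by omega), h (t + 5) (by omega), h (t + 6) (by omega), h (t + 7) (by omega),
    h (t + 8) (by omega), h (t + 9) (by omega)]

theorem cb_local (w : ℕ → Bool) (t : ℕ) :
    cbPH (Function.update w (t + 9) false) t * cbVV (Function.update w (t + 9) false) (t + 1) +
      cbPH (Function.update w (t + 9) true) t * cbVV (Function.update w (t + 9) true) (t + 1) ≤
      (9998 / 10000 : ℝ) * cbVV w t := by
  have h : ∀ (c : Bool) (i : ℕ), i < 9 → Function.update w (t + 9) c (t + i) = w (t + i) := by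
    intro c i hi
    rw [Function.update_of_ne (by omega)]
  have h0 : ∀ c : Bool, Function.update w (t + 9) c t = w t := fun c => h c 0 (by omega)
  unfold cbPH cbVV
  simp only [Nat.add_assoc, Nat.reduceAdd, h0, h _ 1 (by omega), h _ 2 (by omega),
    h _ 3 (by omega), h _ 4 (by omega), h _ 5 (by omega), h _ 6 (by omega), h _ 7 (by omega),
    h _ 8 (by omega), Function.update_self]
  have h1 := cb_check (w t) (w (t + 1)) (w (t + 2)) (w (t + 3)) (w (t + 4)) (w (t + 5)) (w (t + 6)) (w (t + 7)) (w (t + 8))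
  have h2 : ((_ : ℕ) : ℝ) ≤ ((_ : ℕ) : ℝ) := Nat.cast_le.2 h1
  push_cast at h2
  rw [div_mul_eq_mul_div, div_mul_eq_mul_div, ← add_div, div_le_iff₀ (by norm_num)]
  linarith

/-- The sums. -/
noncomputable def cbA (b : ℕ) : ℝ :=
  ∑ u : Fin (b + 9) → Bool, cbP (cbExt (b + 9) u) b * cbVV (cbExt (b + 9) u) b

theorem cbA_succ (b : ℕ) (hb : 17 ≤ b) : cbA (b + 1) ≤ (9998 / 10000 : ℝ) * cbA b := by
  unfold cbA
  rw [show b + 1 + 9 = b + 9 + 1 by omega,
    cb_sum_succ (b + 9) (fun w => cbP w (b + 1) * cbVV w (b + 1)), Finset.mul_sum]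
  refine Finset.sum_le_sum fun u _ => ?_
  have h : ∀ c : Bool, cbP (Function.update (cbExt (b + 9) u) (b + 9) c) (b + 1) =
      cbP (cbExt (b + 9) u) b * cbPH (Function.update (cbExt (b + 9) u) (b + 9) c) b := by
    intro c
    have h1 : cbP (Function.update (cbExt (b + 9) u) (b + 9) c) (b + 1) =
        cbP (Function.update (cbExt (b + 9) u) (b + 9) c) b *
          cbPH (Function.update (cbExt (b + 9) u) (b + 9) c) b := by
      unfold cbP
      rw [Finset.prod_Ico_succ_top hb]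
    rw [h1]
    congr 1
    apply cbP_congr
    intro i hi
    rw [Function.update_of_ne (by omega)]
  rw [h, h]
  have h2 := mul_le_mul_of_nonneg_left (cb_local (cbExt (b + 9) u) b)
    (cbP_nonneg (cbExt (b + 9) u) b)
  linarith

theorem cbA_le (j : ℕ) : cbA (17 + j) ≤ (9998 / 10000 : ℝ) ^ j * cbA 17 := by
  induction j with
  | zero => simp
  | succ j ih =>
    have h := cbA_succ (17 + j) (by omega)
    rw [← Nat.add_assoc]
    refine h.trans ?_
    rw [pow_succ, mul_comm _ (9998 / 10000 : ℝ), mul_assoc]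
    exact mul_le_mul_of_nonneg_left ih (by norm_num)

/-- Comparison of the weights. -/
theorem cb_weight (w : ℕ → Bool) (t : ℕ)
    (ht : ¬ (w (t + 7) = w (t + 8) ∧ w (t + 8) = w (t + 9))) :
    (27 / 40 : ℝ) * (0.5701 : ℝ) ^ ((if fK w (t + 6) then 1 else 0) +
      2 * (if gK w (t + 3) then 1 else 0)) ≤ cbPH w t := by
  have hf : fK w (t + 6) ↔ cbF (w t) (w (t + 1)) (w (t + 2)) (w (t + 3)) (w (t + 4)) (w (t + 5)) (w (t + 6)) (w (t + 7)) (w (t + 8)) (w (t + 9)) = true := by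
    unfold fK occL
    rw [show t + 6 - 3 = t + 3 by omega, show t + 6 - 6 = t by omega]
    exact cbF_iff _ _ _ _ _ _ _ _ _ _
  have hg : gK w (t + 3) ↔ cbG (w t) (w (t + 1)) (w (t + 2)) (w (t + 3)) (w (t + 4)) (w (t + 5)) (w (t + 6)) (w (t + 7)) (w (t + 8)) (w (t + 9)) = true := by
    unfold gK occR
    rw [show t + 3 - 3 = t by omega]
    exact cbG_iff _ _ _ _ _ _ _ _ _ _
  unfold cbPH cbN
  rw [if_neg ht]
  by_cases h1 : cbG (w t) (w (t + 1)) (w (t + 2)) (w (t + 3)) (w (t + 4)) (w (t + 5)) (w (t + 6)) (w (t + 7)) (w (t + 8)) (w (t + 9)) = true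
  · rw [if_pos (hg.2 h1), if_pos h1]
    by_cases h2 : fK w (t + 6)
    · rw [if_pos h2]
      norm_num
    · rw [if_neg h2]
      norm_num
  · rw [if_neg (fun h => h1 (hg.1 h)), if_neg h1]
    by_cases h2 : cbF (w t) (w (t + 1)) (w (t + 2)) (w (t + 3)) (w (t + 4)) (w (t + 5)) (w (t + 6)) (w (t + 7)) (w (t + 8)) (w (t + 9)) = true
    · rw [if_pos (hf.2 h2), if_pos h2]
      norm_num
    · rw [if_neg (fun h => h2 (hf.1 h)), if_neg h2]
      norm_num

/-- The summand. -/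
noncomputable def cbT (n : ℕ) (w : ℕ → Bool) : ℝ :=
  if NoTriple w 8 (n - 8) then ((27 : ℝ) / 40) ^ n *
    (0.5701 : ℝ) ^ ((fSet w 20 (n - 20)).card + 2 * (gSet w 20 (n - 20)).card) else 0

theorem cb_summand (w : ℕ → Bool) (j : ℕ) :
    cbT (43 + j) w ≤ ((27 : ℝ) / 40) ^ 43 * cbP w (17 + j) := by
  unfold cbT
  by_cases h : NoTriple w 8 (43 + j - 8)
  · rw [if_pos h]
    have h1 : ∏ t ∈ Finset.Ico 17 (17 + j), ((27 / 40 : ℝ) *
        (0.5701 : ℝ) ^ ((if fK w (t + 6) then 1 else 0) + 2 * (if gK w (t + 3) then 1 else 0))) ≤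
        cbP w (17 + j) := by
      unfold cbP
      apply Finset.prod_le_prod
      · intro t _
        positivity
      · intro t ht
        have ht' := Finset.mem_Ico.1 ht
        apply cb_weight
        exact h (t + 7) (by omega) (by omega)
    rw [Finset.prod_mul_distrib, Finset.prod_const, Nat.card_Ico, Nat.add_sub_cancel_left,
      Finset.prod_pow_eq_pow_sum, Finset.sum_add_distrib, ← Finset.mul_sum] at h1
    have h2 : ∑ t ∈ Finset.Ico 17 (17 + j), (if fK w (t + 6) then 1 else 0) ≤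
        (fSet w 20 (43 + j - 20)).card := by
      rw [← Finset.card_filter]
      apply Finset.card_le_card_of_injOn (fun t => t + 6)
      · intro t ht
        have ht' := Finset.mem_filter.1 ht
        have ht'' := Finset.mem_Ico.1 ht'.1
        exact Finset.mem_filter.2 ⟨Finset.mem_Ico.2 ⟨by show 20 ≤ t + 6; omega,
          by show t + 6 < 43 + j - 20; omega⟩, ht'.2⟩
      · intro a _ b _ hab
        exact Nat.add_right_cancel hab
    have h3 : ∑ t ∈ Finset.Ico 17 (17 + j), (if gK w (t + 3) then 1 else 0) ≤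
        (gSet w 20 (43 + j - 20)).card := by
      rw [← Finset.card_filter]
      apply Finset.card_le_card_of_injOn (fun t => t + 3)
      · intro t ht
        have ht' := Finset.mem_filter.1 ht
        have ht'' := Finset.mem_Ico.1 ht'.1
        exact Finset.mem_filter.2 ⟨Finset.mem_Ico.2 ⟨by show 20 ≤ t + 3; omega,
          by show t + 3 < 43 + j - 20; omega⟩, ht'.2⟩
      · intro a _ b _ hab
        exact Nat.add_right_cancel hab
    have h4 : (0.5701 : ℝ) ^ ((fSet w 20 (43 + j - 20)).card +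
        2 * (gSet w 20 (43 + j - 20)).card) ≤
        (0.5701 : ℝ) ^ (∑ t ∈ Finset.Ico 17 (17 + j), (if fK w (t + 6) then 1 else 0) +
          2 * ∑ t ∈ Finset.Ico 17 (17 + j), (if gK w (t + 3) then 1 else 0)) :=
      pow_le_pow_of_le_one (by norm_num) (by norm_num) (by omega)
    rw [pow_add, mul_assoc]
    apply mul_le_mul_of_nonneg_left _ (by positivity)
    exact (mul_le_mul_of_nonneg_left h4 (by positivity)).trans h1
  · rw [if_neg h]
    exact mul_nonneg (by positivity) (cbP_nonneg _ _)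

theorem count_bound : ∃ C lam : ℝ, 0 < C ∧ 0 < lam ∧ lam < 1 ∧ ∀ n : ℕ,
    ∑ u : Fin n → Bool, (let w : ℕ → Bool := fun i => if h : i < n then u ⟨i, h⟩ else false
      if NoTriple w 8 (n - 8) then ((27 : ℝ) / 40) ^ n * (0.5701 : ℝ) ^ ((fSet w 20 (n - 20)).card +
        2 * (gSet w 20 (n - 20)).card) else 0) ≤ C * lam ^ n := by
  have hA : 0 ≤ cbA 17 := Finset.sum_nonneg fun u _ =>
    mul_nonneg (cbP_nonneg _ _) (zero_le_one.trans (cbVV_one_le _ _))
  have hl : (0 : ℝ) < 9998 / 10000 := by norm_num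
  refine ⟨2 ^ 43 * ((9998 / 10000 : ℝ) ^ 43)⁻¹ + ((27 : ℝ) / 40) ^ 43 * 2 ^ 17 * cbA 17 *
    ((9998 / 10000 : ℝ) ^ 43)⁻¹, 9998 / 10000, by positivity, hl, by norm_num, ?_⟩
  intro n
  show ∑ u : Fin n → Bool, cbT n (cbExt n u) ≤ _
  rcases Nat.lt_or_ge n 43 with hn | hn
  · have h1 : ∑ u : Fin n → Bool, cbT n (cbExt n u) ≤ ∑ u : Fin n → Bool, (1 : ℝ) := by
      apply Finset.sum_le_sum
      intro u _
      unfold cbT
      split_ifs
      · exact mul_le_one₀ (pow_le_one₀ (by norm_num) (by norm_num)) (by positivity)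
          (pow_le_one₀ (by norm_num) (by norm_num))
      · norm_num
    refine h1.trans ?_
    rw [Finset.sum_const, Finset.card_univ, Fintype.card_fun, Fintype.card_bool, Fintype.card_fin,
      nsmul_eq_mul, mul_one]
    push_cast
    have h2 : (2 : ℝ) ^ n ≤ 2 ^ 43 := pow_le_pow_right₀ (by norm_num) (by omega)
    have h3 : (9998 / 10000 : ℝ) ^ 43 ≤ (9998 / 10000 : ℝ) ^ n :=
      pow_le_pow_of_le_one hl.le (by norm_num) (by omega)
    have h4 : (0 : ℝ) < (9998 / 10000 : ℝ) ^ 43 := by positivity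
    have h5 : 1 ≤ ((9998 / 10000 : ℝ) ^ 43)⁻¹ * (9998 / 10000 : ℝ) ^ n := by
      rw [inv_mul_eq_div, le_div_iff₀ h4, one_mul]
      exact h3
    have h6 : 0 ≤ ((27 : ℝ) / 40) ^ 43 * 2 ^ 17 * cbA 17 * ((9998 / 10000 : ℝ) ^ 43)⁻¹ *
        (9998 / 10000 : ℝ) ^ n := by positivity
    calc (2 : ℝ) ^ n ≤ 2 ^ 43 := h2
      _ = 2 ^ 43 * 1 := (mul_one _).symm
      _ ≤ 2 ^ 43 * (((9998 / 10000 : ℝ) ^ 43)⁻¹ * (9998 / 10000 : ℝ) ^ n) :=
        mul_le_mul_of_nonneg_left h5 (by positivity)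
      _ ≤ _ := by
        rw [add_mul]
        linarith
  · obtain ⟨j, rfl⟩ := Nat.exists_eq_add_of_le hn
    have h1 : ∑ u : Fin (43 + j) → Bool, cbT (43 + j) (cbExt (43 + j) u) ≤
        ∑ u : Fin (43 + j) → Bool, ((27 : ℝ) / 40) ^ 43 * cbP (cbExt (43 + j) u) (17 + j) :=
      Finset.sum_le_sum fun u _ => cb_summand (cbExt (43 + j) u) j
    refine h1.trans ?_
    rw [← Finset.mul_sum]
    have h2 := cb_sum_free (17 + j + 9) (fun w => cbP w (17 + j)) (fun w w' h => cbP_congr h) 17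
    have e1 : 17 + j + 9 + 17 = 43 + j := by omega
    rw [e1] at h2
    rw [h2]
    have h3 : ∑ u : Fin (17 + j + 9) → Bool, cbP (cbExt (17 + j + 9) u) (17 + j) ≤
        cbA (17 + j) := by
      unfold cbA
      refine Finset.sum_le_sum fun u _ => ?_
      have h4 := mul_le_mul_of_nonneg_left (cbVV_one_le (cbExt (17 + j + 9) u) (17 + j))
        (cbP_nonneg (cbExt (17 + j + 9) u) (17 + j))
      rwa [mul_one] at h4
    have h4 := h3.trans (cbA_le j)
    have h5 : (0 : ℝ) < (9998 / 10000 : ℝ) ^ 43 := by positivity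
    calc ((27 : ℝ) / 40) ^ 43 * (2 ^ 17 *
          ∑ u : Fin (17 + j + 9) → Bool, cbP (cbExt (17 + j + 9) u) (17 + j))
        ≤ ((27 : ℝ) / 40) ^ 43 * (2 ^ 17 * ((9998 / 10000 : ℝ) ^ j * cbA 17)) := by
          apply mul_le_mul_of_nonneg_left _ (by positivity)
          exact mul_le_mul_of_nonneg_left h4 (by positivity)
      _ = ((27 : ℝ) / 40) ^ 43 * 2 ^ 17 * cbA 17 * ((9998 / 10000 : ℝ) ^ 43)⁻¹ *
          (9998 / 10000 : ℝ) ^ (43 + j) := by
          rw [pow_add]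
          field_simp
      _ ≤ _ := by
          rw [add_mul]
          have : (0 : ℝ) ≤ 2 ^ 43 * ((9998 / 10000 : ℝ) ^ 43)⁻¹ *
            (9998 / 10000 : ℝ) ^ (43 + j) := by positivity
          linarith

end MP_c38eaf_pr
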