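import Pool.Agent.Lib.MP_c38eaf_pr.Ref1
import Pool.Agent.Lib.MP_c38eaf_pr.Ref2
import Pool.Agent.Lib.MP_c38eaf_pr.Ref3
import Pool.Agent.Lib.MP_c38eaf_pr.Final

/-!
# The inner bound `[0.325, 0.675] ⊆ Π`
-/

open MeasureTheory ProbabilityTheory

namespace MP_c38eaf_pr

/-- Probability of a cylinder with `false` on `S` and `true` on `T`. -/
lemma labels_cyl (p : unitInterval) (S T : Finset Site) (hST : Disjoint S T) :
    labels p {ω | (∀ x ∈ S, ω x = false) ∧ ∀ x ∈ T, ω x = true} =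
      dens p false ^ S.card * dens p true ^ T.card := by
  classical
  have h : {ω : Site → Bool | (∀ x ∈ S, ω x = false) ∧ ∀ x ∈ T, ω x = true} =
      ((S ∪ T : Finset Site) : Set Site).pi
        (fun x => if x ∈ S then ({false} : Set Bool) else {true}) := by
    ext ω
    simp only [Set.mem_ofPred_eq, Set.mem_pi, Finset.mem_coe, Finset.mem_union]
    constructor
    · rintro ⟨h1, h2⟩ x hx
      by_cases hxS : x ∈ S
      · rw [if_pos hxS]
        exact h1 x hxS
      · rw [if_neg hxS]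
        exact h2 x (hx.resolve_left hxS)
    · intro h
      refine ⟨fun x hx => ?_, fun x hx => ?_⟩
      · have := h x (Or.inl hx)
        rwa [if_pos hx] at this
      · have := h x (Or.inr hx)
        rwa [if_neg (Finset.disjoint_right.1 hST hx)] at this
  rw [h, labels, Measure.infinitePi_pi _ (fun x _ => by
    split_ifs <;> exact measurableSet_singleton _), Finset.prod_union hST]
  congr 1
  · rw [Finset.prod_congr rfl (g := fun _ => dens p false), Finset.prod_const]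
    intro x hx
    rw [if_pos hx]
    rfl
  · rw [Finset.prod_congr rfl (g := fun _ => dens p true), Finset.prod_const]
    intro x hx
    rw [if_neg (Finset.disjoint_right.1 hST hx)]
    rfl

lemma sts_congr4 {σ₀ : St} {w w' : ℕ → Bool} {n : ℕ} (h : ∀ i, i < n → w i = w' i) :
    ∀ j, j ≤ n → sts σ₀ w j = sts σ₀ w' j := by
  intro j
  induction j with
  | zero => intro _; rfl
  | succ j ih =>
    intro hj
    rw [sts, sts, ih (by omega), h j (by omega)]

lemma LGeo.congr {ω : Site → Bool} {n : ℕ} {σ₀ : St} {w w' : ℕ → Bool} (h : LGeo ω n σ₀ w)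
    (hw : ∀ i, i < n → w i = w' i) : LGeo ω n σ₀ w' := by
  have hs := sts_congr4 (σ₀ := σ₀) hw
  refine ⟨fun j hj => ?_, fun i j hij hj p => ?_, fun i hi ho => ?_⟩
  · rw [← hs j hj.le]
    exact h.mono j hj
  · refine h.min i j hij hj (p.copy ?_ ?_)|>.trans ?_
    · rw [hs i (by omega)]
    · rw [hs j hj]
    · rw [SimpleGraph.Walk.length_copy]
  · rw [← hs i (by omega)]
    apply h.left i hi
    unfold occL at ho ⊢
    rw [hw i (by omega), hw (i + 1) (by omega), hw (i + 2) (by omega), hw (i + 3) (by omega)]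
    exact ho

/-- The `B` sites. -/
def bSites (σ₀ : St) (w : ℕ → Bool) (n : ℕ) : Finset Site :=
  (Finset.range (n - 1)).image (fun j => apex (sts σ₀ w j))

lemma LGeo.card_bSites {ω : Site → Bool} {n : ℕ} {σ₀ : St} {w : ℕ → Bool} (h : LGeo ω n σ₀ w) :
    (bSites σ₀ w n).card = n - 1 := by
  have hgeo : Geo (strip ω false) n (fun j => edge (sts σ₀ w j)) :=
    ⟨fun i hi => adj_step (h.mono i hi) (w i), h.min⟩
  unfold bSites
  rw [Finset.card_image_of_injOn, Finset.card_range]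
  intro a ha b hb hab
  rw [Finset.coe_range, Set.mem_Iio] at ha hb
  by_contra hne
  rcases Nat.lt_or_gt_of_ne hne with h1 | h1
  · exact apex_inj hgeo (fun _ _ => rfl) h.mono h1 (by omega) hab
  · exact apex_inj hgeo (fun _ _ => rfl) h.mono h1 (by omega) hab.symm

lemma LGeo.bSites_false {ω : Site → Bool} {n : ℕ} {σ₀ : St} {w : ℕ → Bool} (h : LGeo ω n σ₀ w) :
    ∀ x ∈ bSites σ₀ w n, ω x = false := by
  intro x hx
  obtain ⟨j, hj, rfl⟩ := Finset.mem_image.1 hx
  rw [Finset.mem_range] at hj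
  exact (h.mono j (by omega)).2.2

lemma LGeo.forced_true {ω : Site → Bool} {n : ℕ} {σ₀ : St} {w : ℕ → Bool} (h : LGeo ω n σ₀ w)
    {a b : ℕ} (hb : b + 12 ≤ n) : ∀ x ∈ forced σ₀ w a b, ω x = true := by
  intro x hx
  rcases Finset.mem_union.1 hx with hx | hx
  · obtain ⟨i, hi, rfl⟩ := Finset.mem_image.1 hx
    have h1 := Finset.mem_filter.1 hi
    have h2 := Finset.mem_Ico.1 h1.1
    exact h.left i (by omega) h1.2.1
  · obtain ⟨i, hi, rfl⟩ := Finset.mem_image.1 hx
    have h1 := Finset.mem_filter.1 hi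
    have h2 := Finset.mem_Ico.1 h1.1
    exact h.right (by omega) h1.2.1 h1.2.2.1

/-- Probability of a leftmost geodesic with a given word. -/
lemma labels_LGeo_le (p : unitInterval) (hp : (p : ℝ) = 13 / 40) {n : ℕ} (hn : 32 ≤ n) (σ₀ : St)
    (w : ℕ → Bool) : labels p {ω | LGeo ω n σ₀ w} ≤ ENNReal.ofReal (40 / 27 * cbT n w) := by
  rcases Set.eq_empty_or_nonempty {ω | LGeo ω n σ₀ w} with h0 | ⟨ω₀, hω₀⟩
  · rw [h0, measure_empty]
    exact bot_le
  · have hω : LGeo ω₀ n σ₀ w := hω₀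
    have hb : n - 20 + 12 ≤ n := by omega
    have hdis : Disjoint (bSites σ₀ w n) (forced σ₀ w 20 (n - 20)) := by
      rw [Finset.disjoint_left]
      intro x hx hx'
      have h1 := hω.bSites_false x hx
      rw [hω.forced_true hb x hx'] at h1
      cases h1
    have hsub : {ω | LGeo ω n σ₀ w} ⊆ {ω | (∀ x ∈ bSites σ₀ w n, ω x = false) ∧
        ∀ x ∈ forced σ₀ w 20 (n - 20), ω x = true} := fun ω h =>
      ⟨LGeo.bSites_false h, LGeo.forced_true h hb⟩
    refine (measure_mono hsub).trans ?_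
    rw [labels_cyl p _ _ hdis, hω.card_bSites, dens_true, dens_false, hp,
      ← ENNReal.ofReal_pow (by norm_num), ← ENNReal.ofReal_pow (by norm_num),
      ← ENNReal.ofReal_mul (by positivity)]
    apply ENNReal.ofReal_le_ofReal
    have hc := forced_card hω (a := 20) (b := n - 20) (by norm_num) hb
    have h1 : ((13 : ℝ) / 40) ^ (forced σ₀ w 20 (n - 20)).card ≤
        (0.5701 : ℝ) ^ ((fSet w 20 (n - 20)).card + 2 * (gSet w 20 (n - 20)).card) := by
      calc ((13 : ℝ) / 40) ^ (forced σ₀ w 20 (n - 20)).card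
          ≤ ((0.5701 : ℝ) ^ 2) ^ (forced σ₀ w 20 (n - 20)).card :=
            pow_le_pow_left₀ (by norm_num) (by norm_num) _
        _ = (0.5701 : ℝ) ^ (2 * (forced σ₀ w 20 (n - 20)).card) := by rw [← pow_mul]
        _ ≤ _ := pow_le_pow_of_le_one (by norm_num) (by norm_num) hc
    unfold cbT
    rw [if_pos hω.noTriple]
    obtain ⟨m, rfl⟩ : ∃ m, n = m + 1 := ⟨n - 1, by omega⟩
    rw [Nat.add_sub_cancel, pow_succ]
    have e1 : (1 - 13 / 40 : ℝ) = 27 / 40 := by norm_num
    rw [e1]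
    have h2 := mul_le_mul_of_nonneg_left h1 (show (0 : ℝ) ≤ ((27 : ℝ) / 40) ^ m by positivity)
    refine h2.trans (le_of_eq ?_)
    ring

lemma Arc_le_325 (p : unitInterval) (hp : (p : ℝ) = 13 / 40) {C lam : ℝ}
    (hC : ∀ n : ℕ, ∑ u : Fin n → Bool, cbT n (cbExt n u) ≤ C * lam ^ n) (k : ℕ) (hk : 15 ≤ k) :
    labels p (Arc false k) ≤ ENNReal.ofReal (80 / 27 * (C * lam ^ (2 * k + 2))) := by
  have hsub : Arc false k ⊆ ⋃ σ ∈ ({(((k : ℤ), 0), 0), rev (((k : ℤ), 0), 0)} : Finset St),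
      ⋃ u ∈ (Finset.univ : Finset (Fin (2 * k + 2) → Bool)),
        {ω | LGeo ω (2 * k + 2) σ (cbExt (2 * k + 2) u)} := by
    rintro ω ⟨j, hj⟩
    have hlen : ∀ q : (strip ω false).Walk (edge (((k : ℤ), 0), 0)) (mid (-j - 1, 0) 0),
        2 * k + 2 ≤ q.length := by
      intro q
      have h1 := strip_walk_fst q
      have e1 : (edge (((k : ℤ), 0), 0)).1 = k + k + 1 := rfl
      have e2 : (mid ((-j - 1 : ℤ), 0) 0).1 = (-j - 1) + (-j - 1) + 1 := rfl
      rw [e1, e2] at h1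
      omega
    obtain ⟨σ₀, hσ, w, hw⟩ := exists_lgeo (τ := (((k : ℤ), 0), 0)) (n := 2 * k + 2) (by omega)
      hj hlen
    rw [Set.mem_iUnion₂]
    refine ⟨σ₀, by rcases hσ with rfl | rfl <;> simp, ?_⟩
    rw [Set.mem_iUnion₂]
    refine ⟨fun i => w i, Finset.mem_univ _, ?_⟩
    apply LGeo.congr hw
    intro i hi
    unfold cbExt
    rw [dif_pos hi]
  have hT : ∀ w : ℕ → Bool, 0 ≤ 40 / 27 * cbT (2 * k + 2) w := by
    intro w
    unfold cbT
    split_ifs
    · positivity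
    · norm_num
  calc labels p (Arc false k) ≤ _ := measure_mono hsub
    _ ≤ ∑ σ ∈ ({(((k : ℤ), 0), 0), rev (((k : ℤ), 0), 0)} : Finset St),
          ∑ u ∈ (Finset.univ : Finset (Fin (2 * k + 2) → Bool)),
            labels p {ω | LGeo ω (2 * k + 2) σ (cbExt (2 * k + 2) u)} :=
        (measure_biUnion_finset_le _ _).trans
          (Finset.sum_le_sum fun σ _ => measure_biUnion_finset_le _ _)
    _ ≤ ∑ σ ∈ ({(((k : ℤ), 0), 0), rev (((k : ℤ), 0), 0)} : Finset St),
          ∑ u ∈ (Finset.univ : Finset (Fin (2 * k + 2) → Bool)),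
            ENNReal.ofReal (40 / 27 * cbT (2 * k + 2) (cbExt (2 * k + 2) u)) :=
        Finset.sum_le_sum fun σ _ => Finset.sum_le_sum fun u _ =>
          labels_LGeo_le p hp (by omega) σ _
    _ ≤ ∑ σ ∈ ({(((k : ℤ), 0), 0), rev (((k : ℤ), 0), 0)} : Finset St),
          ENNReal.ofReal (40 / 27 * (C * lam ^ (2 * k + 2))) := by
        apply Finset.sum_le_sum
        intro σ _
        rw [← ENNReal.ofReal_sum_of_nonneg (fun u _ => hT _), ← Finset.mul_sum]
        apply ENNReal.ofReal_le_ofReal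
        exact mul_le_mul_of_nonneg_left (hC _) (by norm_num)
    _ ≤ 2 * ENNReal.ofReal (40 / 27 * (C * lam ^ (2 * k + 2))) := by
        rw [Finset.sum_const, nsmul_eq_mul]
        gcongr
        exact_mod_cast Finset.card_le_two
    _ = ENNReal.ofReal (80 / 27 * (C * lam ^ (2 * k + 2))) := by
        have e : (2 : ENNReal) = ENNReal.ofReal 2 := by simp
        rw [e, ← ENNReal.ofReal_mul (by norm_num)]
        congr 1
        ring

lemma arcs_lt_325 (p : unitInterval) (hp : (p : ℝ) = 13 / 40) :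
    ∃ R : ℕ, labels p (⋃ k : ℕ, Arc false ((R : ℤ) + k)) < 1 := by
  obtain ⟨C, lam, hC0, hl0, hl1, hC⟩ := count_bound
  change ∀ n : ℕ, ∑ u : Fin n → Bool, cbT n (cbExt n u) ≤ C * lam ^ n at hC
  have hl2 : lam ^ 2 < 1 := pow_lt_one₀ hl0.le hl1 (by norm_num)
  have hl3 : (0 : ℝ) < lam ^ 2 := by positivity
  have htend : Filter.Tendsto (fun R : ℕ => 80 / 27 * C * lam ^ 2 * (lam ^ 2) ^ R *
      (1 - lam ^ 2)⁻¹) Filter.atTop (nhds 0) := by
    have h1 := tendsto_pow_atTop_nhds_zero_of_lt_one hl3.le hl2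
    have h2 := (h1.const_mul (80 / 27 * C * lam ^ 2)).mul_const (1 - lam ^ 2)⁻¹
    simpa using h2
  obtain ⟨R, hR1, hR2⟩ := ((htend.eventually (gt_mem_nhds one_pos)).and
    (Filter.eventually_ge_atTop 15)).exists
  refine ⟨R, ?_⟩
  have hterm : ∀ k : ℕ, labels p (Arc false ((R : ℤ) + k)) ≤
      ENNReal.ofReal (80 / 27 * C * lam ^ 2 * (lam ^ 2) ^ R * (lam ^ 2) ^ k) := by
    intro k
    have h1 := Arc_le_325 p hp hC (R + k) (by omega)
    have e : ((R : ℤ) + k) = ((R + k : ℕ) : ℤ) := by push_cast; rfl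
    rw [e]
    refine h1.trans (le_of_eq ?_)
    congr 1
    ring
  have hsum : HasSum (fun k : ℕ => 80 / 27 * C * lam ^ 2 * (lam ^ 2) ^ R * (lam ^ 2) ^ k)
      (80 / 27 * C * lam ^ 2 * (lam ^ 2) ^ R * (1 - lam ^ 2)⁻¹) :=
    (hasSum_geometric_of_lt_one hl3.le hl2).mul_left _
  calc labels p (⋃ k : ℕ, Arc false ((R : ℤ) + k))
      ≤ ∑' k : ℕ, labels p (Arc false ((R : ℤ) + k)) := measure_iUnion_le _
    _ ≤ ∑' k : ℕ, ENNReal.ofReal (80 / 27 * C * lam ^ 2 * (lam ^ 2) ^ R * (lam ^ 2) ^ k) :=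
        ENNReal.tsum_le_tsum hterm
    _ = ENNReal.ofReal (80 / 27 * C * lam ^ 2 * (lam ^ 2) ^ R * (1 - lam ^ 2)⁻¹) := by
        rw [← ENNReal.ofReal_tsum_of_nonneg (fun k => by positivity) hsum.summable,
          hsum.tsum_eq]
    _ < 1 := by
        rw [ENNReal.ofReal_lt_one]
        exact hR1

theorem psi_pos_of_325 (p : unitInterval) (hp : (p : ℝ) = 13 / 40) : 0 < psi p := by
  obtain ⟨R, hR⟩ := arcs_lt_325 p hp
  rw [pos_iff_ne_zero]
  intro hpsi
  have hnull : labels p (⋃ x ∈ box R, {ω | {y | (orGraph ω).Reachable x y}.Infinite}) = 0 := by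
    rw [measure_biUnion_null_iff (box_finite _).countable]
    intro x _
    have := or_le_psi p x
    rw [hpsi, mul_zero] at this
    exact le_antisymm this bot_le
  have hsub : (Set.univ : Set (Site → Bool)) ⊆
      (⋃ x ∈ box R, {ω | {y | (orGraph ω).Reachable x y}.Infinite}) ∪
        ⋃ k : ℕ, Arc false ((R : ℤ) + k) := by
    intro ω _
    by_cases hfin : ∀ x ∈ box R, {y | (orGraph ω).Reachable x y}.Finite
    · right
      obtain ⟨k, hk, hk'⟩ := or_dichotomy ω R hfin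
      rw [Set.mem_iUnion]
      refine ⟨(k - R).toNat, ?_⟩
      have : (R : ℤ) + ((k - R).toNat : ℤ) = k := by omega
      rw [this]; exact hk'
    · left
      push Not at hfin
      obtain ⟨x, hx, h⟩ := hfin
      rw [Set.mem_iUnion₂]
      exact ⟨x, hx, h⟩
  have h1 : (1 : ENNReal) ≤ 0 + labels p (⋃ k : ℕ, Arc false ((R : ℤ) + k)) := by
    calc (1 : ENNReal) = labels p Set.univ := measure_univ.symm
      _ ≤ _ := measure_mono hsub
      _ ≤ _ := measure_union_le _ _
      _ = _ := by rw [hnull]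
  rw [zero_add] at h1
  exact absurd hR (not_lt.2 h1)

theorem inner_bound (p : unitInterval) (h1 : (13 : ℝ) / 40 ≤ p) (h2 : (p : ℝ) ≤ 27 / 40) :
    0 < theta p := by
  rw [theta_pos_iff]
  let p₀ : unitInterval := ⟨13 / 40, by norm_num, by norm_num⟩
  refine lt_of_lt_of_le (psi_pos_of_325 p₀ rfl) (psi_mono (le_min ?_ ?_))
  · exact h1
  · show (13 / 40 : ℝ) ≤ 1 - p
    linarith

end MP_c38eaf_pr
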