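import Pool.Agent.Lib.MP_c38eaf_pr.Machine
import Pool.Agent.Lib.MP_c38eaf_pr.Ref4

/-!
# No percolation of the distance-two graph at density `0.146`
-/

open MeasureTheory ProbabilityTheory

namespace MP_c38eaf_pr.Explore

/-- The open sites of `D`. -/
def op (ω : Site → Bool) (D : Finset Site) : Finset Site := D.filter (fun x => ω x = true)

lemma op_mono (ω : Site → Bool) {D D' : Finset Site} (h : D ⊆ D') : op ω D ⊆ op ω D' :=
  Finset.filter_subset_filter _ h

lemma exists_mem_C {ω : Site → Bool} {y : Site} (h : (twoGraph ω).Reachable 0 y) :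
    ∃ D : Finset Site, y ∈ C (op ω (D.erase 0)) {0} := by
  rw [SimpleGraph.reachable_iff_reflTransGen] at h
  induction h with
  | refl => exact ⟨∅, C_self (Finset.mem_singleton_self _)⟩
  | @tail b c _ hbc ih =>
    obtain ⟨D, hD⟩ := ih
    by_cases hc : c = 0
    · exact ⟨∅, by rw [hc]; exact C_self (Finset.mem_singleton_self _)⟩
    · refine ⟨insert c D, ?_⟩
      have h1 : b ∈ C (op ω ((insert c D).erase 0)) {0} :=
        C_mono (op_mono ω (Finset.erase_subset_erase _ (Finset.subset_insert _ _))) hD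
      refine C_tail h1 (twoGraph_step hbc) ?_
      rw [op, Finset.mem_filter, Finset.mem_erase]
      exact ⟨⟨hc, Finset.mem_insert_self _ _⟩, hbc.2.2.1⟩

/-- The event that the cluster of the origin inside `D` has at least `m` sites. -/
def Ev (m : ℕ) (D : Finset Site) : Set (Site → Bool) :=
  {ω | m ≤ (C (op ω (D.erase 0)) {0}).card}

lemma Ev_mono (m : ℕ) {D D' : Finset Site} (h : D ⊆ D') : Ev m D ⊆ Ev m D' := by
  intro ω hω
  exact le_trans hω (Finset.card_le_card (C_mono (op_mono ω (Finset.erase_subset_erase _ h))))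

lemma infinite_sub (m : ℕ) : {ω : Site → Bool | {y | (twoGraph ω).Reachable 0 y}.Infinite} ⊆
    ⋃ D : Finset Site, Ev m D := by
  intro ω hω
  obtain ⟨T, hT, hTc⟩ := Set.Infinite.exists_subset_card_eq hω m
  choose! f hf using fun y (hy : y ∈ T) => exists_mem_C (hT hy)
  rw [Set.mem_iUnion]
  refine ⟨T.biUnion f, ?_⟩
  show m ≤ (C (op ω ((T.biUnion f).erase 0)) {0}).card
  rw [← hTc]
  apply Finset.card_le_card
  intro y hy
  exact C_mono (op_mono ω (Finset.erase_subset_erase _ (Finset.subset_biUnion_of_mem f hy)))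
    (hf y hy)

lemma labels_op (p : unitInterval) {D S : Finset Site} (hS : S ⊆ D) :
    labels p {ω | op ω D = S} =
      ENNReal.ofReal ((p : ℝ) ^ S.card * (1 - p) ^ (D.card - S.card)) := by
  have e : {ω : Site → Bool | op ω D = S} =
      {ω | (∀ x ∈ D \ S, ω x = false) ∧ ∀ x ∈ S, ω x = true} := by
    ext ω
    simp only [Set.mem_ofPred_eq]
    constructor
    · intro h
      refine ⟨fun x hx => ?_, fun x hx => ?_⟩
      · rw [Finset.mem_sdiff] at hx
        by_contra hne
        apply hx.2
        rw [← h, op, Finset.mem_filter]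
        exact ⟨hx.1, by simpa using hne⟩
      · rw [← h, op, Finset.mem_filter] at hx
        exact hx.2
    · rintro ⟨h1, h2⟩
      ext x
      rw [op, Finset.mem_filter]
      refine ⟨fun hx => ?_, fun hx => ⟨hS hx, h2 x hx⟩⟩
      by_contra hxS
      have := h1 x (Finset.mem_sdiff.2 ⟨hx.1, hxS⟩)
      rw [hx.2] at this
      exact absurd this (by decide)
  rw [e, labels_cyl p _ _ Finset.sdiff_disjoint, dens_true, dens_false,
    Finset.card_sdiff_of_subset hS, ← ENNReal.ofReal_pow (by linarith [p.2.2]),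
    ← ENNReal.ofReal_pow p.2.1, ← ENNReal.ofReal_mul (pow_nonneg (by linarith [p.2.2]) _), mul_comm]

lemma labels_Ev (p : unitInterval) (hp : (p : ℝ) = 73 / 500) {m : ℕ} (hm : 0 < m)
    (D : Finset Site) : labels p (Ev m D) ≤ ENNReal.ofReal (9432 / m) := by
  classical
  have hm' : (0 : ℝ) < m := by exact_mod_cast hm
  set D' := D.erase 0 with hD'
  set P := D'.powerset.filter (fun S => m ≤ (C S {0}).card) with hP
  have hsub : Ev m D ⊆ ⋃ S ∈ P, {ω | op ω D' = S} := by
    intro ω hω
    rw [Set.mem_iUnion₂]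
    refine ⟨op ω D', ?_, rfl⟩
    rw [hP, Finset.mem_filter, Finset.mem_powerset]
    exact ⟨Finset.filter_subset _ _, hω⟩
  have h1 : ∀ S ∈ P, labels p {ω | op ω D' = S} =
      ENNReal.ofReal ((p : ℝ) ^ S.card * (1 - p) ^ (D'.card - S.card)) := by
    intro S hS
    rw [hP, Finset.mem_filter, Finset.mem_powerset] at hS
    exact labels_op p hS.1
  have hnn : ∀ S : Finset Site, 0 ≤ (p : ℝ) ^ S.card * (1 - p) ^ (D'.card - S.card) := fun S =>
    mul_nonneg (pow_nonneg p.2.1 _) (pow_nonneg (by linarith [p.2.2]) _)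
  calc labels p (Ev m D) ≤ labels p (⋃ S ∈ P, {ω | op ω D' = S}) := measure_mono hsub
    _ ≤ ∑ S ∈ P, labels p {ω | op ω D' = S} := measure_biUnion_finset_le _ _
    _ = ENNReal.ofReal (∑ S ∈ P, (p : ℝ) ^ S.card * (1 - p) ^ (D'.card - S.card)) := by
        rw [Finset.sum_congr rfl h1, ENNReal.ofReal_sum_of_nonneg (fun S _ => hnn S)]
    _ ≤ ENNReal.ofReal (9432 / m) := by
        apply ENNReal.ofReal_le_ofReal
        rw [le_div_iff₀ hm', Finset.sum_mul]
        have h2 := R_le D
        rw [R, Ex_def, ← hD', ← hp] at h2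
        refine le_trans ?_ h2
        calc ∑ S ∈ P, (p : ℝ) ^ S.card * (1 - p) ^ (D'.card - S.card) * m
            ≤ ∑ S ∈ P, (p : ℝ) ^ S.card * (1 - p) ^ (D'.card - S.card) * ((C S {0}).card : ℝ) := by
              refine Finset.sum_le_sum fun S hS => ?_
              rw [hP, Finset.mem_filter] at hS
              exact mul_le_mul_of_nonneg_left (by exact_mod_cast hS.2) (hnn S)
          _ ≤ _ := Finset.sum_le_sum_of_subset_of_nonneg (Finset.filter_subset _ _)
              (fun S _ _ => mul_nonneg (hnn S) (Nat.cast_nonneg _))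

/-- **No distance-two percolation at density `0.146`.** -/
theorem psi_eq_zero (p : unitInterval) (hp : (p : ℝ) = 73 / 500) : psi p = 0 := by
  have h1 : ∀ m : ℕ, 0 < m → psi p ≤ ENNReal.ofReal (9432 / m) := by
    intro m hm
    have hdir : Directed (· ⊆ ·) (Ev m) := by
      intro D D'
      exact ⟨D ∪ D', Ev_mono m Finset.subset_union_left, Ev_mono m Finset.subset_union_right⟩
    calc psi p ≤ labels p (⋃ D : Finset Site, Ev m D) := measure_mono (infinite_sub m)
      _ = ⨆ D : Finset Site, labels p (Ev m D) := hdir.measure_iUnion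
      _ ≤ _ := iSup_le fun D => labels_Ev p hp hm D
  have h2 : Filter.Tendsto (fun m : ℕ => ENNReal.ofReal (9432 / (m : ℝ))) Filter.atTop (nhds 0) := by
    have := ENNReal.tendsto_ofReal (tendsto_const_div_atTop_nhds_zero_nat (9432 : ℝ))
    rwa [ENNReal.ofReal_zero] at this
  have h3 : psi p ≤ 0 := by
    refine ge_of_tendsto h2 ?_
    filter_upwards [Filter.eventually_gt_atTop 0] with m hm
    exact h1 m hm
  exact le_antisymm h3 bot_le

end MP_c38eaf_pr.Explore
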