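import Pool.Agent.Lib.MP_c38eaf_pr.Compare

/-!
# Leftmost geodesic strips: definitions

Letters: `true` = turn left (`L`), `false` = turn right (`R`).
-/

open MeasureTheory ProbabilityTheory

namespace MP_c38eaf_pr

/-- The pattern `RLLR` at position `i`. -/
def occL (w : ℕ → Bool) (i : ℕ) : Prop :=
  w i = false ∧ w (i + 1) = true ∧ w (i + 2) = true ∧ w (i + 3) = false

/-- The pattern `LRRL` at position `i`. -/
def occR (w : ℕ → Bool) (i : ℕ) : Prop :=
  w i = true ∧ w (i + 1) = false ∧ w (i + 2) = false ∧ w (i + 3) = true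

instance (w : ℕ → Bool) (i : ℕ) : Decidable (occL w i) := by unfold occL; infer_instance

instance (w : ℕ → Bool) (i : ℕ) : Decidable (occR w i) := by unfold occR; infer_instance

/-- The site to the left of the kink `RLLR` that starts in the state `σ`. -/
def sL (σ : St) : Site := σ.1 + d (σ.2 + 2)

/-- The site to the right of the kink `LRRL` that starts in the state `σ`. -/
def sR (σ : St) : Site := σ.1 + d σ.2 + d (σ.2 + 1)

/-- A leftmost geodesic strip of `BB` edges: all triangles on the way are `BBB`, all pieces are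
shortest paths, and the site to the left of every kink `RLLR` is labelled `A`. -/
structure LGeo (ω : Site → Bool) (n : ℕ) (σ₀ : St) (w : ℕ → Bool) : Prop where
  mono : ∀ j, j < n → Mono ω false (sts σ₀ w j)
  min : ∀ i j, i ≤ j → j ≤ n → ∀ p : (strip ω false).Walk (edge (sts σ₀ w i)) (edge (sts σ₀ w j)),
    j ≤ i + p.length
  left : ∀ i, i + 4 ≤ n → occL w i → ω (sL (sts σ₀ w i)) = true

/-- Counted left kinks: at most the first two of a chain `RLLRLLR…`. -/
def fK (w : ℕ → Bool) (i : ℕ) : Prop := occL w i ∧ ¬ (occL w (i - 3) ∧ occL w (i - 6))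

/-- Counted right kinks: the beginning of a chain `LRRLRRL…` of length at least two. -/
def gK (w : ℕ → Bool) (i : ℕ) : Prop := occR w i ∧ occR w (i + 3) ∧ ¬ occR w (i - 3)

instance (w : ℕ → Bool) (i : ℕ) : Decidable (fK w i) := by unfold fK; infer_instance

instance (w : ℕ → Bool) (i : ℕ) : Decidable (gK w i) := by unfold gK; infer_instance

/-- The counted left kinks in the window `[a, b)`. -/
def fSet (w : ℕ → Bool) (a b : ℕ) : Finset ℕ := (Finset.Ico a b).filter (fun i => fK w i)

/-- The counted right kinks in the window `[a, b)`. -/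
def gSet (w : ℕ → Bool) (a b : ℕ) : Finset ℕ := (Finset.Ico a b).filter (fun i => gK w i)

/-- The sites forced to be `A` by the counted kinks. -/
def forced (σ₀ : St) (w : ℕ → Bool) (a b : ℕ) : Finset Site :=
  (fSet w a b).image (fun i => sL (sts σ₀ w i)) ∪ (gSet w a b).image (fun i => sR (sts σ₀ w i))

/-- No three equal consecutive letters in the window. -/
def NoTriple (w : ℕ → Bool) (a b : ℕ) : Prop :=
  ∀ i, a ≤ i → i < b → ¬ (w i = w (i + 1) ∧ w (i + 1) = w (i + 2))

instance (w : ℕ → Bool) (a b : ℕ) : Decidable (NoTriple w a b) :=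
  decidable_of_iff (∀ i ∈ Finset.Ico a b, ¬ (w i = w (i + 1) ∧ w (i + 1) = w (i + 2)))
    ⟨fun h i h1 h2 => h i (Finset.mem_Ico.2 ⟨h1, h2⟩), fun h i hi =>
      h i (Finset.mem_Ico.1 hi).1 (Finset.mem_Ico.1 hi).2⟩

end MP_c38eaf_pr
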