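import Pool.Agent.Lib.MP_c38eaf_pr.Ref0

/-!
# Leftmost geodesic strips: existence and forced letters
-/

open MeasureTheory ProbabilityTheory

namespace MP_c38eaf_pr

/-- Run a word. -/
def run : St → List Bool → St
  | σ, [] => σ
  | σ, b :: l => run (step σ b) l

/-- The sites of the triangles met by a word. -/
def vis : St → List Bool → List Site
  | _, [] => []
  | σ, b :: l => σ.1 :: (σ.1 + d σ.2) :: apex σ :: vis (step σ b) l

/-- The letters of `w` from `a` on are those of the list. -/
def Agree (w : ℕ → Bool) : ℕ → List Bool → Prop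
  | _, [] => True
  | a, b :: l => w a = b ∧ Agree w (a + 1) l

lemma sts_run (σ₀ : St) (w : ℕ → Bool) (u : List Bool) (a : ℕ) (h : Agree w a u) :
    sts σ₀ w (a + u.length) = run (sts σ₀ w a) u := by
  induction u generalizing a with
  | nil => rfl
  | cons b l ih =>
    obtain ⟨h1, h2⟩ := h
    rw [run, List.length_cons, show a + (l.length + 1) = a + 1 + l.length by omega, ih _ h2, sts,
      h1]

lemma run_tr (x : Site) (τ : St) (l : List Bool) : run (tr x τ) l = tr x (run τ l) := by
  induction l generalizing τ with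
  | nil => rfl
  | cons b l ih => rw [run, run, step_tr, ih]

lemma vis_tr (x : Site) (τ : St) (l : List Bool) : vis (tr x τ) l = (vis τ l).map (x + ·) := by
  induction l generalizing τ with
  | nil => rfl
  | cons b l ih =>
    rw [vis, vis, step_tr, ih, apex_tr, List.map_cons, List.map_cons, List.map_cons]
    simp only [tr, add_assoc]

lemma rev_tr (x : Site) (τ : St) : rev (tr x τ) = tr x (rev τ) := by
  simp only [rev, tr, add_assoc]

lemma edge_tr (x : Site) (τ : St) : edge (tr x τ) = x + x + edge τ := edge_shift x τ.1 τ.2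

lemma mono_of_vis {ω : Site → Bool} {σ : St} {b : Bool} {l : List Bool}
    (h : ∀ z ∈ vis σ (b :: l), ω z = false) : Mono ω false σ := by
  refine ⟨h _ ?_, h _ ?_, h _ ?_⟩ <;> simp [vis]

lemma exists_walk {ω : Site → Bool} (v : List Bool) (σ : St) (h : ∀ z ∈ vis σ v, ω z = false) :
    ∃ p : (strip ω false).Walk (edge σ) (edge (run σ v)), p.length = v.length := by
  induction v generalizing σ with
  | nil => exact ⟨SimpleGraph.Walk.nil, rfl⟩
  | cons b l ih =>
    obtain ⟨p, hp⟩ := ih (step σ b) (fun z hz => h z (by simp [vis, hz]))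
    rw [run]
    exact ⟨SimpleGraph.Walk.cons (adj_step (mono_of_vis h) b) p, by
      rw [SimpleGraph.Walk.length_cons, hp, List.length_cons]⟩

lemma vis_false {ω : Site → Bool} {n : ℕ} {σ₀ : St} {w : ℕ → Bool}
    (hm : ∀ j, j < n → Mono ω false (sts σ₀ w j)) (u : List Bool) (a : ℕ) (hu : Agree w a u)
    (hn : a + u.length ≤ n) : ∀ z ∈ vis (sts σ₀ w a) u, ω z = false := by
  induction u generalizing a with
  | nil => intro z hz; simp [vis] at hz
  | cons b l ih =>
    obtain ⟨h1, h2⟩ := hu
    rw [List.length_cons] at hn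
    have h3 := ih (a + 1) h2 (by omega)
    rw [sts, h1] at h3
    obtain ⟨m1, m2, m3⟩ := hm a (by omega)
    intro z hz
    rw [vis, List.mem_cons, List.mem_cons, List.mem_cons] at hz
    rcases hz with rfl | rfl | rfl | hz
    · exact m1
    · exact m2
    · exact m3
    · exact h3 z hz

/-- The start of the shortcut: the state itself, or the state looking backwards. -/
def start (r : Bool) (σ : St) : St := if r then rev σ else σ

lemma start_tr (r : Bool) (x : Site) (τ : St) : start r (tr x τ) = tr x (start r τ) := by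
  cases r
  · rfl
  · exact rev_tr x τ

lemma edge_start (r : Bool) (σ : St) : edge (start r σ) = edge σ := by
  cases r
  · rfl
  · exact edge_rev σ

/-- A shortcut is impossible. -/
lemma LGeo.no_cut {ω : Site → Bool} {n : ℕ} {σ₀ : St} {w : ℕ → Bool} (h : LGeo ω n σ₀ w)
    {a : ℕ} {u v : List Bool} (r : Bool) (extra : Fin 6 → List Site)
    (hend : ∀ i : Fin 6, edge (run (start r (0, i)) v) = edge (run (0, i) u))
    (hsub : ∀ i : Fin 6, ∀ z ∈ vis (start r (0, i)) v, z ∈ vis (0, i) u ∨ z ∈ extra i)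
    (hu : Agree w a u) (hn : a + u.length ≤ n) (hlen : v.length < u.length)
    (hex : ∀ z ∈ extra (sts σ₀ w a).2, ω ((sts σ₀ w a).1 + z) = false) : False := by
  obtain ⟨x, i, hσ⟩ : ∃ x i, sts σ₀ w a = (x, i) := ⟨_, _, rfl⟩
  have hvis := vis_false h.mono u a hu hn
  have hrun := sts_run σ₀ w u a hu
  rw [hσ] at hex
  simp only at hex
  have hσ' : sts σ₀ w a = tr x (0, i) := by rw [hσ, eq_tr]
  rw [hσ', vis_tr] at hvis
  rw [hσ', run_tr] at hrun
  obtain ⟨p, hp⟩ := exists_walk (ω := ω) v (start r (tr x (0, i))) (by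
    rw [start_tr, vis_tr]
    intro z hz
    rw [List.mem_map] at hz
    obtain ⟨z, hz, rfl⟩ := hz
    rcases hsub i z hz with h1 | h1
    · exact hvis _ (List.mem_map.2 ⟨z, h1, rfl⟩)
    · exact hex z h1)
  have e1 : edge (start r (tr x (0, i))) = edge (sts σ₀ w a) := by rw [edge_start, hσ']
  have e2 : edge (run (start r (tr x (0, i))) v) = edge (sts σ₀ w (a + u.length)) := by
    rw [hrun, start_tr, run_tr, edge_tr, edge_tr, hend]
  have h2 := h.min a (a + u.length) (by omega) hn (p.copy e1 e2)
  rw [SimpleGraph.Walk.length_copy, hp] at h2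
  omega

/-- Two consecutive right kinks force the site to their right. -/
theorem LGeo.right {ω : Site → Bool} {n : ℕ} {σ₀ : St} {w : ℕ → Bool} (h : LGeo ω n σ₀ w) {j : ℕ}
    (hj : j + 7 ≤ n) (h1 : occR w j) (h2 : occR w (j + 3)) : ω (sR (sts σ₀ w j)) = true := by
  by_contra hne
  rw [Bool.not_eq_true] at hne
  refine h.no_cut (a := j) (u := [true, false, false, true, false, false, true])
    (v := [false, true, false, true, false]) false (fun i => [d i + d (i + 1)])
    (by decide +kernel) (by decide +kernel) ?_ hj (by decide) ?_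
  · exact ⟨h1.1, h1.2.1, h1.2.2.1, h1.2.2.2, h2.2.1, h2.2.2.1, h2.2.2.2, trivial⟩
  · intro z hz
    rw [List.mem_singleton] at hz
    rw [hz, ← add_assoc]
    exact hne

lemma bool_eq_or (c b : Bool) : b = c ∨ b = !c := by revert c b; decide

/-- There are no three equal consecutive letters away from the ends. -/
theorem LGeo.noTriple {ω : Site → Bool} {n : ℕ} {σ₀ : St} {w : ℕ → Bool} (h : LGeo ω n σ₀ w) :
    NoTriple w 8 (n - 8) := by
  rintro i hi hin ⟨h1, h2⟩
  obtain ⟨i, rfl⟩ : ∃ k, i = k + 2 := ⟨i - 2, by omega⟩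
  have k0 := bool_eq_or (w (i + 2)) (w i)
  have k1 := bool_eq_or (w (i + 2)) (w (i + 1))
  have k5 := bool_eq_or (w (i + 2)) (w (i + 5))
  have k6 := bool_eq_or (w (i + 2)) (w (i + 6))
  have h3 : w (i + 3) = w (i + 2) := h1.symm
  have h4 : w (i + 4) = w (i + 2) := (h1.trans h2).symm
  -- five equal letters
  have five : ∀ a : ℕ, a + 5 ≤ n → ∀ c : Bool, Agree w a [c, c, c, c, c] → False := by
    intro a ha c hc
    refine h.no_cut (a := a) (u := [c, c, c, c, c]) (v := [!c]) true (fun _ => []) ?_ ?_ hc ha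
      (by simp) (by simp)
    · clear hc; revert c; decide +kernel
    · clear hc; revert c; decide +kernel
  have four : ∀ a : ℕ, a + 6 ≤ n → ∀ c : Bool, Agree w a [!c, c, c, c, c, !c] → False := by
    intro a ha c hc
    refine h.no_cut (a := a) (u := [!c, c, c, c, c, !c]) (v := [c, c]) false (fun _ => []) ?_ ?_ hc
      ha (by simp) (by simp)
    · clear hc; revert c; decide +kernel
    · clear hc; revert c; decide +kernel
  have three : ∀ a : ℕ, a + 5 ≤ n → ∀ c : Bool, Agree w a [!c, c, c, c, !c] → False := by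
    intro a ha c hc
    refine h.no_cut (a := a) (u := [!c, c, c, c, !c]) (v := [c, !c, c]) false (fun _ => []) ?_ ?_
      hc ha (by simp) (by simp)
    · clear hc; revert c; decide +kernel
    · clear hc; revert c; decide +kernel
  rcases k5 with k5 | k5
  · rcases k6 with k6 | k6
    · exact five (i + 2) (by omega) (w (i + 2)) ⟨rfl, h3, h4, k5, k6, trivial⟩
    · rcases k1 with k1 | k1
      · exact five (i + 1) (by omega) (w (i + 2)) ⟨k1, rfl, h3, h4, k5, trivial⟩
      · exact four (i + 1) (by omega) (w (i + 2)) ⟨k1, rfl, h3, h4, k5, k6, trivial⟩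
  · rcases k1 with k1 | k1
    · rcases k0 with k0 | k0
      · exact five i (by omega) (w (i + 2)) ⟨k0, k1, rfl, h3, h4, trivial⟩
      · exact four i (by omega) (w (i + 2)) ⟨k0, k1, rfl, h3, h4, k5, trivial⟩
    · exact three (i + 1) (by omega) (w (i + 2)) ⟨k1, rfl, h3, h4, k5, trivial⟩

/-! ### Existence -/

/-- The word traces a path of `n` steps from `σ₀` to `M`. -/
def Traces (ω : Site → Bool) (n : ℕ) (σ₀ : St) (M : Site) (w : ℕ → Bool) : Prop :=
  (∀ j, j < n → Mono ω false (sts σ₀ w j)) ∧ edge (sts σ₀ w n) = M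

/-- The quantity minimised. -/
def wtSq (n : ℕ) (w : ℕ → Bool) : ℕ := ∑ j ∈ Finset.range n, if w j = false then j ^ 2 else 0

/-- The word in which the letters `i, …, i+3` are replaced by `LRRL`. -/
def lrrl (w : ℕ → Bool) (i : ℕ) (k : ℕ) : Bool :=
  if k = i then true else if k = i + 1 then false else if k = i + 2 then false
    else if k = i + 3 then true else w k

lemma sts_congr {σ₀ : St} {w w' : ℕ → Bool} {j : ℕ} (h : ∀ k, k < j → w' k = w k) :
    sts σ₀ w' j = sts σ₀ w j := by
  induction j with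
  | zero => rfl
  | succ j ih => rw [sts, sts, ih (fun k hk => h k (by omega)), h j (by omega)]

lemma sts_congr' {σ₀ : St} {w w' : ℕ → Bool} {a : ℕ} (ha : sts σ₀ w' a = sts σ₀ w a) (m : ℕ)
    (h : ∀ k, a ≤ k → w' k = w k) : sts σ₀ w' (a + m) = sts σ₀ w (a + m) := by
  induction m with
  | zero => exact ha
  | succ m ih => rw [← add_assoc, sts, sts, ih, h (a + m) (by omega)]

lemma flip_run (σ : St) :
    run σ [true, false, false, true] = run σ [false, true, true, false] := by
  obtain ⟨x, i⟩ := σ
  have key : ∀ i : Fin 6, run (0, i) [true, false, false, true] =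
      run (0, i) [false, true, true, false] := by decide +kernel
  rw [eq_tr, run_tr, run_tr, key]

lemma flip_vis (σ : St) : ∀ z ∈ vis σ [true, false, false, true],
    z ∈ vis σ [false, true, true, false] ∨ z = sL σ := by
  obtain ⟨x, i⟩ := σ
  have key : ∀ i : Fin 6, ∀ z ∈ vis (0, i) [true, false, false, true],
      z ∈ vis (0, i) [false, true, true, false] ∨ z = d (i + 2) := by decide +kernel
  rw [eq_tr, vis_tr, vis_tr]
  intro z hz
  rw [List.mem_map] at hz
  obtain ⟨z, hz, rfl⟩ := hz
  rcases key i z hz with h | h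
  · exact Or.inl (List.mem_map.2 ⟨z, h, rfl⟩)
  · right
    rw [h]
    simp [sL, tr]

lemma flip_wt {n i t : ℕ} (hn : n = i + 4 + t) {w : ℕ → Bool} (ho : occL w i) :
    wtSq n (lrrl w i) < wtSq n w := by
  obtain ⟨h0, h1, h2, h3⟩ := ho
  subst hn
  have e : ∀ w' : ℕ → Bool, wtSq (i + 4 + t) w' = (∑ j ∈ Finset.range i, if w' j = false then j ^ 2
      else 0) + (if w' i = false then i ^ 2 else 0) + (if w' (i + 1) = false then (i + 1) ^ 2 else 0)
      + (if w' (i + 2) = false then (i + 2) ^ 2 else 0) +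
      (if w' (i + 3) = false then (i + 3) ^ 2 else 0) +
      ∑ k ∈ Finset.range t, if w' (i + 4 + k) = false then (i + 4 + k) ^ 2 else 0 := by
    intro w'
    rw [wtSq, Finset.sum_range_add, Finset.sum_range_succ, Finset.sum_range_succ,
      Finset.sum_range_succ, Finset.sum_range_succ]
  rw [e, e]
  have a1 : ∑ j ∈ Finset.range i, (if lrrl w i j = false then j ^ 2 else 0) =
      ∑ j ∈ Finset.range i, if w j = false then j ^ 2 else 0 := by
    apply Finset.sum_congr rfl
    intro j hj
    rw [Finset.mem_range] at hj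
    have e1 : lrrl w i j = w j := by
      rw [lrrl, if_neg (by omega), if_neg (by omega), if_neg (by omega), if_neg (by omega)]
    rw [e1]
  have a2 : ∑ k ∈ Finset.range t, (if lrrl w i (i + 4 + k) = false then (i + 4 + k) ^ 2 else 0) =
      ∑ k ∈ Finset.range t, if w (i + 4 + k) = false then (i + 4 + k) ^ 2 else 0 := by
    apply Finset.sum_congr rfl
    intro j _
    have e1 : lrrl w i (i + 4 + j) = w (i + 4 + j) := by
      rw [lrrl, if_neg (by omega), if_neg (by omega), if_neg (by omega), if_neg (by omega)]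
    rw [e1]
  have b0 : lrrl w i i = true := by rw [lrrl, if_pos rfl]
  have b1 : lrrl w i (i + 1) = false := by rw [lrrl, if_neg (by omega), if_pos rfl]
  have b2 : lrrl w i (i + 2) = false := by
    rw [lrrl, if_neg (by omega), if_neg (by omega), if_pos rfl]
  have b3 : lrrl w i (i + 3) = true := by
    rw [lrrl, if_neg (by omega), if_neg (by omega), if_neg (by omega), if_pos rfl]
  rw [a1, a2, b0, b1, b2, b3, h0, h1, h2, h3]
  simp only [if_true, Bool.true_eq_false, if_false]
  nlinarith

lemma Traces.flip {ω : Site → Bool} {n : ℕ} {σ₀ : St} {M : Site} {w : ℕ → Bool}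
    (h : Traces ω n σ₀ M w) {i : ℕ} (hi : i + 4 ≤ n) (ho : occL w i)
    (hs : ω (sL (sts σ₀ w i)) = false) : Traces ω n σ₀ M (lrrl w i) := by
  have ag : Agree w i [false, true, true, false] := ⟨ho.1, ho.2.1, ho.2.2.1, ho.2.2.2, trivial⟩
  have ag' : Agree (lrrl w i) i [true, false, false, true] := by
    refine ⟨?_, ?_, ?_, ?_, trivial⟩
    · rw [lrrl, if_pos rfl]
    · rw [lrrl, if_neg (by omega), if_pos rfl]
    · rw [lrrl, if_neg (by omega), if_neg (by omega), if_pos rfl]
    · rw [lrrl, if_neg (by omega), if_neg (by omega), if_neg (by omega), if_pos rfl]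
  have hlt : ∀ k, k < i → lrrl w i k = w k := fun k hk => by
    rw [lrrl, if_neg (by omega), if_neg (by omega), if_neg (by omega),
      if_neg (by omega)]
  have hge : ∀ k, i + 4 ≤ k → lrrl w i k = w k := fun k hk => by
    rw [lrrl, if_neg (by omega), if_neg (by omega), if_neg (by omega),
      if_neg (by omega)]
  have s0 : sts σ₀ (lrrl w i) i = sts σ₀ w i := sts_congr hlt
  have s4 : sts σ₀ (lrrl w i) (i + 4) = sts σ₀ w (i + 4) := by
    have e1 := sts_run σ₀ _ _ _ ag
    have e2 := sts_run σ₀ _ _ _ ag'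
    rw [s0, flip_run, ← e1] at e2
    exact e2
  have hv : ∀ z ∈ vis (sts σ₀ w i) [true, false, false, true], ω z = false := by
    intro z hz
    rcases flip_vis _ z hz with h1 | h1
    · exact vis_false h.1 _ i ag hi z h1
    · rw [h1]; exact hs
  refine ⟨fun j hj => ?_, ?_⟩
  · rcases Nat.lt_or_ge j i with h1 | h1
    · rw [sts_congr (fun k hk => hlt k (by omega))]
      exact h.1 j hj
    rcases Nat.lt_or_ge j (i + 4) with h2 | h2
    · obtain ⟨m, rfl⟩ : ∃ m, j = i + m := ⟨j - i, by omega⟩
      have hm : m = 0 ∨ m = 1 ∨ m = 2 ∨ m = 3 := by omega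
      obtain ⟨g0, g1, g2, g3, _⟩ := ag'
      rcases hm with rfl | rfl | rfl | rfl
      · rw [Nat.add_zero, s0]
        exact mono_of_vis hv
      · rw [sts, s0, g0]
        exact mono_of_vis (b := false) (l := [false, true]) (fun z hz => hv z (by
          rw [vis]; simp only [List.mem_cons]; right; right; right; exact hz))
      · rw [sts, sts, s0, g0, g1]
        exact mono_of_vis (b := false) (l := [true]) (fun z hz => hv z (by
          rw [vis, vis]; simp only [List.mem_cons]; right; right; right; right; right; right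
          exact hz))
      · rw [sts, sts, sts, s0, g0, g1, g2]
        exact mono_of_vis (b := true) (l := []) (fun z hz => hv z (by
          rw [vis, vis, vis]; simp only [List.mem_cons]; right; right; right; right; right; right
          right; right; right
          exact hz))
    · obtain ⟨m, rfl⟩ : ∃ m, j = i + 4 + m := ⟨j - (i + 4), by omega⟩
      rw [sts_congr' s4 m hge]
      exact h.1 _ hj
  · obtain ⟨m, rfl⟩ : ∃ m, n = i + 4 + m := ⟨n - (i + 4), by omega⟩
    rw [sts_congr' s4 m hge]
    exact h.2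

/-- Walks along a traced word. -/
lemma walk_sts {ω : Site → Bool} {n : ℕ} {σ₀ : St} {w : ℕ → Bool}
    (h : ∀ j, j < n → Mono ω false (sts σ₀ w j)) (a m : ℕ) (ham : a + m ≤ n) :
    ∃ p : (strip ω false).Walk (edge (sts σ₀ w a)) (edge (sts σ₀ w (a + m))), p.length = m := by
  induction m with
  | zero => exact ⟨SimpleGraph.Walk.nil, rfl⟩
  | succ m ih =>
    obtain ⟨p, hp⟩ := ih (by omega)
    have h1 := adj_step (h (a + m) (by omega)) (w (a + m))
    rw [← add_assoc, sts]
    exact ⟨p.concat h1, by rw [SimpleGraph.Walk.length_concat, hp]⟩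

/-- Leftmost geodesics exist. -/
theorem exists_lgeo {ω : Site → Bool} {τ : St} {M₁ : Site} {n : ℕ} (hn : 1 ≤ n)
    (h : (strip ω false).Reachable (edge τ) M₁)
    (hlen : ∀ p : (strip ω false).Walk (edge τ) M₁, n ≤ p.length) :
    ∃ σ₀, (σ₀ = τ ∨ σ₀ = rev τ) ∧ ∃ w : ℕ → Bool, LGeo ω n σ₀ w := by
  obtain ⟨e, he0, hgeo⟩ := exists_geo h hlen
  obtain ⟨σ₀, hσ, w₀, hw1, hw2⟩ := hgeo.exists_word hn he0
  refine ⟨σ₀, hσ, ?_⟩
  have hex : ∃ m w, Traces ω n σ₀ (e n) w ∧ wtSq n w = m := ⟨_, w₀, ⟨hw2, hw1 n le_rfl⟩, rfl⟩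
  classical
  obtain ⟨w, hw, hwm⟩ := Nat.find_spec hex
  have hmin : ∀ w', Traces ω n σ₀ (e n) w' → wtSq n w ≤ wtSq n w' := by
    intro w' hw'
    rw [hwm]
    exact Nat.find_min' hex ⟨w', hw', rfl⟩
  have he0' : edge (sts σ₀ w 0) = e 0 := by
    rw [sts, he0]
    rcases hσ with rfl | rfl
    · rfl
    · exact edge_rev τ
  refine ⟨w, hw.1, fun i j hij hj p => ?_, fun i hi ho => ?_⟩
  · obtain ⟨q, hq⟩ := walk_sts hw.1 0 i (by omega)
    obtain ⟨r, hr⟩ := walk_sts hw.1 j (n - j) (by omega)
    have e1 : edge (sts σ₀ w (0 + i)) = edge (sts σ₀ w i) := by rw [Nat.zero_add]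
    have e2 : edge (sts σ₀ w (j + (n - j))) = e n := by
      rw [show j + (n - j) = n by omega]; exact hw.2
    have h1 := hgeo.min 0 n (by omega) le_rfl
      (((q.copy he0' e1).append p).append (r.copy rfl e2))
    rw [SimpleGraph.Walk.length_append, SimpleGraph.Walk.length_append,
      SimpleGraph.Walk.length_copy, SimpleGraph.Walk.length_copy, hq, hr] at h1
    omega
  · by_contra hne
    rw [Bool.not_eq_true] at hne
    have h1 := hmin _ (hw.flip hi ho hne)
    have h2 := flip_wt (n := n) (i := i) (t := n - (i + 4)) (by omega) ho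
    omega

end MP_c38eaf_pr
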