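import Pool.Agent.Lib.MP_c38eaf_pr.Defs3
import Pool.Agent.Lib.MP_c38eaf_pr.ZeroOne
import Pool.Agent.Lib.MP_c38eaf_pr.Criterion

/-!
# Probabilistic assembly: crossings by strips are unlikely at some scale
-/

open MeasureTheory ProbabilityTheory

namespace MP_c38eaf_pr

/-! ### Locality of `SC a b` in an annulus -/

lemma dn_tri_ge (x : Site) (i : Fin 6) :
    dn (mid x i) ≤ dn (x + x) + 2 ∧ dn (mid x i) ≤ dn ((x + d i) + (x + d i)) + 2 ∧
    dn (mid x i) ≤ dn ((x + d (i + 1)) + (x + d (i + 1))) + 4 := by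
  have h0 := dn_d i
  have h1 := dn_d (i + 1)
  have hh : mid x i = x + x + d i := rfl
  refine ⟨?_, ?_, ?_⟩
  · rw [hh]
    have := dn_add_le (x + x) (d i)
    omega
  · have e : mid x i = (x + d i) + (x + d i) - d i := by rw [hh]; abel
    rw [e]
    have := dn_sub_le ((x + d i) + (x + d i)) (d i)
    omega
  · have h2 := (dn_mid_succ x i).2
    have e : mid x (i + 1) = (x + d (i + 1)) + (x + d (i + 1)) - d (i + 1) := by
      rw [mid]; abel
    have := dn_sub_le ((x + d (i + 1)) + (x + d (i + 1))) (d (i + 1))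
    rw [← e] at this
    omega

lemma dn_tri_ge' (x : Site) (i : Fin 6) :
    dn (mid x (i + 1)) ≤ dn (x + x) + 4 ∧ dn (mid x (i + 1)) ≤ dn ((x + d i) + (x + d i)) + 4 ∧
    dn (mid x (i + 1)) ≤ dn ((x + d (i + 1)) + (x + d (i + 1))) + 6 := by
  have h1 := dn_tri_ge x i
  have h2 := (dn_mid_succ x i).1
  omega

/-- The sites of the annulus on which `SC a b` depends. -/
def ann (a b : ℤ) : Set Site := {z | a - 6 ≤ dn (z + z) ∧ dn (z + z) ≤ b + 6}

lemma ann_finite (a b : ℤ) : (ann a b).Finite := (dom_finite b).subset fun _ h => h.2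

lemma strip_local_ann {ω ω' : Site → Bool} {a b : ℤ} (h : ∀ x ∈ ann a b, ω x = ω' x) {s : Bool}
    {M M' : Site} (hM : dn M < b) (hM' : a < dn M') (hadj : (strip ω s).Adj M M') :
    (strip ω' s).Adj M M' := by
  obtain ⟨x, i, hx, h1, h2, h3⟩ := hadj
  have key : x ∈ ann a b ∧ x + d i ∈ ann a b ∧ x + d (i + 1) ∈ ann a b := by
    show (a - 6 ≤ dn (x + x) ∧ dn (x + x) ≤ b + 6) ∧
      (a - 6 ≤ dn ((x + d i) + (x + d i)) ∧ dn ((x + d i) + (x + d i)) ≤ b + 6) ∧
      (a - 6 ≤ dn ((x + d (i + 1)) + (x + d (i + 1))) ∧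
        dn ((x + d (i + 1)) + (x + d (i + 1))) ≤ b + 6)
    have k1 := dn_tri_ge x i
    have k2 := dn_tri_ge' x i
    rcases hx with ⟨rfl, rfl⟩ | ⟨rfl, rfl⟩
    · have := dn_tri x i
      omega
    · have := dn_tri' x i
      omega
  exact ⟨x, i, hx, (h _ key.1).symm.trans h1, (h _ key.2.1).symm.trans h2,
    (h _ key.2.2).symm.trans h3⟩

lemma SC_ann_aux {ω ω' : Site → Bool} {a b : ℤ} (h : ∀ x ∈ ann a b, ω x = ω' x) {u w : Site}
    (q : (strip ω false).Walk u w) (hw : b ≤ dn w) :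
    ∀ N : Site, dn N ≤ a → (strip ω' false).Reachable N u → ω' ∈ SC a b := by
  induction q with
  | nil => exact fun N hN hr => ⟨N, _, hN, hw, hr⟩
  | @cons u v w hadj q ih =>
    intro N hN hr
    by_cases hb : b ≤ dn u
    · exact ⟨N, u, hN, hb, hr⟩
    · by_cases ha : dn v ≤ a
      · exact ih hw v ha (SimpleGraph.Reachable.refl _)
      · exact ih hw N hN (hr.trans (strip_local_ann h (by omega) (by omega) hadj).reachable)

lemma SC_loc_ann (a b : ℤ) : Loc (ann a b) (SC a b) := by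
  have key : ∀ ω ω' : Site → Bool, (∀ x ∈ ann a b, ω x = ω' x) → ω ∈ SC a b → ω' ∈ SC a b := by
    rintro ω ω' h ⟨M, M', h1, h2, ⟨q⟩⟩
    exact SC_ann_aux h q h2 M h1 (SimpleGraph.Reachable.refl _)
  intro ω ω' h
  exact ⟨key ω ω' h, key ω' ω (fun x hx => (h x hx).symm)⟩

lemma SC_mono {a a' b b' : ℤ} (ha : a ≤ a') (hb : b' ≤ b) : SC a b ⊆ SC a' b' := by
  rintro ω ⟨M, M', h1, h2, h⟩
  exact ⟨M, M', h1.trans ha, hb.trans h2, h⟩

/-! ### From a weak bound at infinitely many scales to smallness -/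

lemma SC_pow (p : unitInterval) (κ : ENNReal)
    (hw : ∀ H : ℕ, ∃ h : ℕ, H ≤ h ∧ labels p (SC (24 * h) (72 * h)) ≤ κ) (b m : ℕ) :
    ∃ D : ℕ, b ≤ D ∧ labels p (SC b D) ≤ κ ^ m := by
  induction m with
  | zero => exact ⟨b, le_rfl, by rw [pow_zero]; exact prob_le_one⟩
  | succ m ih =>
    obtain ⟨D, hD, hD'⟩ := ih
    obtain ⟨h, hh, hh'⟩ := hw (D + 13)
    refine ⟨72 * h, by omega, ?_⟩
    have hsub : SC b ((72 * h : ℕ) : ℤ) ⊆ SC b D ∩ SC (24 * h) (72 * h) := by
      apply Set.subset_inter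
      · exact SC_mono le_rfl (by push_cast; omega)
      · exact SC_mono (by omega) (by push_cast; omega)
    refine (measure_mono hsub).trans ?_
    rw [indep_local p (dom_finite (D : ℤ)) (ann_finite (24 * (h : ℤ)) (72 * (h : ℤ))) ?_
      (SC_loc_dom _ _) (SC_loc_ann _ _), pow_succ]
    · exact mul_le_mul' hD' hh'
    · rw [Set.disjoint_left]
      intro z hz hz'
      have h1 : dn (z + z) ≤ D + 6 := hz
      have h2 : 24 * (h : ℤ) - 6 ≤ dn (z + z) := hz'.1
      omega

lemma SC_small (p : unitInterval) (κ : ENNReal) (hκ : κ < 1)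
    (hw : ∀ H : ℕ, ∃ h : ℕ, H ≤ h ∧ labels p (SC (24 * h) (72 * h)) ≤ κ) (b : ℕ) (ε : ENNReal)
    (hε : 0 < ε) : ∃ D : ℕ, labels p (SC b D) ≤ ε := by
  have h1 := ENNReal.tendsto_pow_atTop_nhds_zero_of_lt_one hκ
  obtain ⟨m, hm⟩ := ((tendsto_order.1 h1).2 ε hε).exists
  obtain ⟨D, _, hD⟩ := SC_pow p κ hw b m
  exact ⟨D, hD.trans hm.le⟩

/-! ### Locality and monotonicity of links -/

lemma linked_congr {ω ω' : Site → Bool} {n : ℕ} {D : Set Site} {z z' : Site}
    (h : ∀ x ∈ D, ω x = ω' x) : Linked ω n D z z' ↔ Linked ω' n D z z' := by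
  have e : orIn (fill (hex z n ∪ hex z' n) ω) D = orIn (fill (hex z n ∪ hex z' n) ω') D := by
    have hf : ∀ x ∈ D, fill (hex z n ∪ hex z' n) ω x = fill (hex z n ∪ hex z' n) ω' x := by
      intro x hx
      unfold fill
      rw [h x hx]
    ext x y
    constructor
    · rintro ⟨⟨h1, h2⟩, hx, hy⟩
      exact ⟨⟨h1, by rwa [← hf x hx, ← hf y hy]⟩, hx, hy⟩
    · rintro ⟨⟨h1, h2⟩, hx, hy⟩
      exact ⟨⟨h1, by rwa [hf x hx, hf y hy]⟩, hx, hy⟩
  rw [Linked, Linked, e]

lemma linked_mono {ω ω' : Site → Bool} {n : ℕ} {D : Set Site} {z z' : Site}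
    (h : ∀ x, ω x = true → ω' x = true) (hl : Linked ω n D z z') : Linked ω' n D z z' := by
  refine SimpleGraph.Reachable.mono (orIn_mono ?_ subset_rfl) hl
  intro x hx
  by_cases hxW : x ∈ hex z n ∪ hex z' n
  · exact fill_of_mem hxW
  · rw [fill_of_notMem hxW] at hx ⊢
    exact h x hx

/-- The union of the regions of the chain. -/
def regs (z₀ c : Site) (N M K : ℕ) : Set Site := ⋃ j ∈ Finset.range K, reg z₀ c N M j

lemma regs_finite (z₀ c : Site) (N M K : ℕ) : (regs z₀ c N M K).Finite :=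
  Set.Finite.biUnion (Finset.finite_toSet _) fun _ _ => (hex_finite _ _).union (hex_finite _ _)

lemma chain_congr {ω ω' : Site → Bool} {n N M K : ℕ} {z₀ c : Site}
    (h : ∀ x ∈ regs z₀ c N M K, ω x = ω' x) : ChainOK ω n N M z₀ c K ↔ ChainOK ω' n N M z₀ c K := by
  have e : ∀ j < K, (Linked ω n (reg z₀ c N M j) (pt z₀ c j) (pt z₀ c (j + 1)) ↔
      Linked ω' n (reg z₀ c N M j) (pt z₀ c j) (pt z₀ c (j + 1))) := by
    intro j hj
    apply linked_congr
    intro x hx
    apply h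
    rw [regs, Set.mem_iUnion₂]
    exact ⟨j, Finset.mem_range.2 hj, hx⟩
  exact ⟨fun h1 j hj => (e j hj).1 (h1 j hj), fun h1 j hj => (e j hj).2 (h1 j hj)⟩

lemma chain_mono {ω ω' : Site → Bool} {n N M K : ℕ} {z₀ c : Site}
    (h : ∀ x, ω x = true → ω' x = true) (h1 : ChainOK ω n N M z₀ c K) :
    ChainOK ω' n N M z₀ c K := fun j hj => linked_mono h (h1 j hj)

/-! ### The probability of a chain -/

/-- The symmetry carrying the basic link to the `j`-th one. -/
def carry (z₀ c : Site) (j : ℕ) : Equiv.Perm Site :=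
  if j % 2 = 0 then trans (pt z₀ c j) else trans (pt z₀ c j) * tau

lemma sy_carry (z₀ c : Site) (j : ℕ) : Sy (carry z₀ c j) := by
  unfold carry
  split_ifs
  · exact sy_trans _
  · exact (sy_trans _).mul sy_tau

lemma carry_zero (z₀ c : Site) (j : ℕ) : carry z₀ c j 0 = pt z₀ c j := by
  unfold carry
  split_ifs
  · rw [trans_apply, zero_add]
  · rw [Equiv.Perm.mul_apply, trans_apply, tau_apply]
    ext <;> simp

lemma carry_c (z₀ c : Site) (j : ℕ) : carry z₀ c j c = pt z₀ c (j + 1) := by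
  unfold carry
  have e : pt z₀ c (j + 1) = pt z₀ c j + if j % 2 = 0 then c else tau c := rfl
  rw [e]
  split_ifs
  · rw [trans_apply, add_comm]
  · rw [Equiv.Perm.mul_apply, trans_apply, add_comm]

lemma link_carry (ω : Site → Bool) (n N M : ℕ) (z₀ c : Site) (j : ℕ) :
    Linked (fun x => ω (carry z₀ c j x)) n (hex 0 N ∪ hex c M) 0 c ↔
      Linked ω n (reg z₀ c N M j) (pt z₀ c j) (pt z₀ c (j + 1)) := by
  rw [linked_comp (sy_carry z₀ c j), Set.image_union, (sy_carry z₀ c j).image_hex,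
    (sy_carry z₀ c j).image_hex, carry_zero, carry_c, reg]

lemma chain_compl_le (p : unitInterval) (n N M K : ℕ) (z₀ c : Site) (δ : ENNReal)
    (h : labels p {ω | ¬ Linked ω n (hex 0 N ∪ hex c M) 0 c} ≤ δ) :
    labels p {ω | ¬ ChainOK ω n N M z₀ c K} ≤ K * δ := by
  have hsub : {ω | ¬ ChainOK ω n N M z₀ c K} ⊆ ⋃ j ∈ Finset.range K,
      {ω | (fun x => ω (carry z₀ c j x)) ∈ {ω | ¬ Linked ω n (hex 0 N ∪ hex c M) 0 c}} := by
    intro ω hω
    have hω : ¬ ChainOK ω n N M z₀ c K := hω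
    unfold ChainOK at hω
    push Not at hω
    obtain ⟨j, hj, hj'⟩ := hω
    rw [Set.mem_iUnion₂]
    refine ⟨j, Finset.mem_range.2 hj, ?_⟩
    rw [← link_carry] at hj'
    exact hj'
  refine (measure_mono hsub).trans ((measure_biUnion_finset_le _ _).trans ?_)
  refine (Finset.sum_le_sum fun j _ => ?_).trans_eq
    (by rw [Finset.sum_const, Finset.card_range, nsmul_eq_mul] : ∑ _j ∈ Finset.range K, δ = K * δ)
  rw [labels_comp_equiv]
  exact h

lemma link_compl (p : unitInterval) (n N M : ℕ) (c : Site) (δ : ℝ)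
    (h : 1 - pr p {ω | Linked ω n (hex 0 N ∪ hex c M) 0 c} ≤ δ) :
    labels p {ω | ¬ Linked ω n (hex 0 N ∪ hex c M) 0 c} ≤ ENNReal.ofReal δ := by
  have hloc : Loc (hex 0 N ∪ hex c M) {ω | Linked ω n (hex 0 N ∪ hex c M) 0 c} :=
    fun ω ω' h => linked_congr h
  have hm : MeasurableSet {ω | Linked ω n (hex 0 N ∪ hex c M) 0 c} :=
    hloc.measurableSet ((hex_finite _ _).union (hex_finite _ _))
  have h1 : (labels p).real {ω | Linked ω n (hex 0 N ∪ hex c M) 0 c}ᶜ ≤ δ := by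
    rw [probReal_compl_eq_one_sub hm]
    exact h
  have h2 : labels p {ω | Linked ω n (hex 0 N ∪ hex c M) 0 c}ᶜ ≤ ENNReal.ofReal δ := by
    rw [← ofReal_measureReal]
    exact ENNReal.ofReal_le_ofReal h1
  exact h2

/-! ### Touching a hub -/

lemma touch_subset (n : ℕ) (b : ℤ) (z : Site) :
    {ω | Touch ω n b z} ⊆ shift z ⁻¹' SC ((4 * n + 8 : ℕ) : ℤ) b := by
  rintro ω ⟨x, i, Q, hx, _, _, hr, hQ⟩
  refine shift_SC (M := mid x i) (M' := Q) ?_ hQ hr
  have hd := dn_d i
  have hex_dn : ∀ y : Site, y ∈ hex z n → dn (y - z + (y - z)) ≤ 4 * n := by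
    intro y hy
    rw [mem_hex] at hy
    rw [dn_le]
    simp only [Prod.fst_add, Prod.snd_add, Prod.fst_sub, Prod.snd_sub]
    omega
  rcases hx with hx | hx
  · have e : mid x i - (z + z) = (x - z + (x - z)) + d i := by rw [mid]; abel
    rw [e]
    have h1 := dn_add_le (x - z + (x - z)) (d i)
    have h2 := hex_dn x hx
    push_cast
    omega
  · have e : mid x i - (z + z) = (x + d i - z + (x + d i - z)) - d i := by rw [mid]; abel
    rw [e]
    have h1 := dn_sub_le (x + d i - z + (x + d i - z)) (d i)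
    have h2 := hex_dn (x + d i) hx
    push_cast
    omega

lemma touch_le (p : unitInterval) (n : ℕ) (b : ℤ) (z : Site) :
    labels p {ω | Touch ω n b z} ≤ labels p (SC ((4 * n + 8 : ℕ) : ℤ) b) := by
  rw [← labels_shift p z (SC ((4 * n + 8 : ℕ) : ℤ) b)]
  exact measure_mono (touch_subset n b z)

/-! ### Positivity -/

lemma dens_pos {p : unitInterval} (hp : 0 < psi p) : 0 < dens p true := by
  rw [pos_iff_ne_zero] at hp ⊢
  intro h0
  apply hp
  have h1 : labels p {ω | ω (0 : Site) = true} = 0 := by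
    have := labels_all p true {(0 : Site)}
    rw [Finset.card_singleton, pow_one, h0] at this
    rw [← this]
    congr 1
    ext ω
    simp
  refine le_antisymm ((measure_mono ?_).trans h1.le) bot_le
  intro ω hω
  have hω : {y | (twoGraph ω).Reachable 0 y}.Infinite := hω
  obtain ⟨y, hy, hy0⟩ := hω.exists_notMem_finset {(0 : Site)}
  rw [Finset.mem_singleton] at hy0
  obtain ⟨q⟩ : (twoGraph ω).Reachable 0 y := hy
  cases q with
  | nil => exact absurd rfl hy0
  | cons h _ => exact h.2.1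

/-! ### Main part -/

/-- The statement of `link_prob`. -/
def LinkProb (p : unitInterval) : Prop := ∀ δ : ℝ, 0 < δ →
    ∃ n : ℕ, ∀ H : ℕ, ∃ (h M : ℕ) (c : Site), H ≤ h ∧ n ≤ M ∧ M ≤ 3 * h ∧ c.1 + c.2 = h ∧
      0 ≤ c.2 - c.1 ∧ c.2 - c.1 ≤ M ∧
      1 - pr p {ω | Linked ω n (hex 0 (M + h) ∪ hex c M) 0 c} ≤ δ

/-- The statement of `block`. -/
def BlockSt : Prop := ∀ (ω : Site → Bool) (n h M : ℕ) (c : Site), 4 ≤ h → M ≤ 3 * h → n ≤ M →
    c.1 + c.2 = h → 0 ≤ c.2 - c.1 → c.2 - c.1 ≤ M →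
    ChainOK ω n (M + h) M (-(28 * h : ℤ), -(4 * h : ℤ)) c 112 → BadSide ω (4 * h) →
    ∃ j ≤ 112, Touch ω n (24 * h) (pt (-(28 * h : ℤ), -(4 * h : ℤ)) c j)

/-- The statement of `SC_subset_BadSide`. -/
def SideSt : Prop := ∀ a : ℕ, 1 ≤ a →
    SC (6 * a) (18 * a) ⊆ ⋃ k ∈ Finset.range 6, {ω | BadSide (fun x => ω ((rho ^ k).symm x)) a}

/-- The deterministic input, combined. -/
lemma SC_cases (hB : BlockSt) (hS : SideSt) {n h M : ℕ} {c : Site} (hh : 4 ≤ h) (hM : M ≤ 3 * h)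
    (hn : n ≤ M) (hc : c.1 + c.2 = h) (hc0 : 0 ≤ c.2 - c.1) (hcM : c.2 - c.1 ≤ M)
    {ω : Site → Bool} (hω : ω ∈ SC (24 * (h : ℤ)) (72 * (h : ℤ))) :
    ∃ k < 6, ¬ ChainOK (fun x => ω ((rho ^ k).symm x)) n (M + h) M
      (-(28 * h : ℤ), -(4 * h : ℤ)) c 112 ∨
      ∃ j ≤ 112, Touch (fun x => ω ((rho ^ k).symm x)) n (24 * h)
        (pt (-(28 * h : ℤ), -(4 * h : ℤ)) c j) := by
  have h1 : ω ∈ SC (6 * ((4 * h : ℕ) : ℤ)) (18 * ((4 * h : ℕ) : ℤ)) := by
    have e1 : (6 * ((4 * h : ℕ) : ℤ)) = 24 * h := by push_cast; ring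
    have e2 : (18 * ((4 * h : ℕ) : ℤ)) = 72 * h := by push_cast; ring
    rw [e1, e2]; exact hω
  have h2 := hS (4 * h) (by omega) h1
  rw [Set.mem_iUnion₂] at h2
  obtain ⟨k, hk, hk'⟩ := h2
  refine ⟨k, Finset.mem_range.1 hk, ?_⟩
  by_cases hch : ChainOK (fun x => ω ((rho ^ k).symm x)) n (M + h) M
      (-(28 * h : ℤ), -(4 * h : ℤ)) c 112
  · right
    exact hB _ n h M c hh hM hn hc hc0 hcM hch hk'
  · exact Or.inl hch

/-- The weak bound at infinitely many scales. -/
lemma weak_bound (p : unitInterval) (hp : 0 < psi p) (hL : LinkProb p) (hB : BlockSt)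
    (hS : SideSt) : ∃ κ : ENNReal, κ < 1 ∧
      ∀ H : ℕ, ∃ h : ℕ, H ≤ h ∧ labels p (SC (24 * h) (72 * h)) ≤ κ := by
  classical
  obtain ⟨n, hn⟩ := hL (1 / 2000) (by norm_num)
  set NN : ℕ := 6 * (113 * (2 * n + 1) ^ 2) with hNN
  have hq : 0 < dens p true := dens_pos hp
  have hq1 : dens p true ≤ 1 := by unfold dens; exact prob_le_one
  refine ⟨1 - dens p true ^ NN * 2⁻¹, ?_, ?_⟩
  · apply ENNReal.sub_lt_self (by norm_num) (by norm_num)
    exact mul_ne_zero (pow_ne_zero _ hq.ne') (by norm_num)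
  intro H
  obtain ⟨h, M, c, hHh, hnM, hM, hc, hc0, hcM, hlink⟩ := hn (H + 4)
  refine ⟨h, by omega, ?_⟩
  set z₀ : Site := (-(28 * h : ℤ), -(4 * h : ℤ)) with hz₀
  have hlc := link_compl p n (M + h) M c _ hlink
  have hchain := chain_compl_le p n (M + h) M 112 z₀ c _ hlc
  -- the hubs
  set W : Finset Site := (Finset.range 6).biUnion fun k => (Finset.range 113).biUnion fun j =>
    (hex_finite (pt z₀ c j) n).toFinset.image (rho ^ k).symm with hW
  have hhub : ∀ y : Site, (hex_finite y n).toFinset.card ≤ (2 * n + 1) ^ 2 := by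
    intro y
    have hs : (hex_finite y n).toFinset ⊆
        Finset.Icc (y.1 - n) (y.1 + n) ×ˢ Finset.Icc (y.2 - n) (y.2 + n) := by
      intro z hz
      rw [Set.Finite.mem_toFinset, mem_hex] at hz
      rw [Finset.mem_product, Finset.mem_Icc, Finset.mem_Icc]
      omega
    refine (Finset.card_le_card hs).trans ?_
    rw [Finset.card_product, Int.card_Icc, Int.card_Icc, sq]
    apply Nat.mul_le_mul <;> omega
  have hWcard : W.card ≤ NN := by
    refine (Finset.card_biUnion_le_card_mul _ _ (113 * (2 * n + 1) ^ 2) ?_).trans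
      (by rw [Finset.card_range])
    intro k _
    refine (Finset.card_biUnion_le_card_mul _ _ ((2 * n + 1) ^ 2) ?_).trans
      (by rw [Finset.card_range])
    intro j _
    exact Finset.card_image_le.trans (hhub _)
  -- the events
  set F : Set (Site → Bool) := {ω | ∀ x ∈ W, ω x = true} with hF
  set G : Set (Site → Bool) := {ω | ∀ k < 6, ChainOK (fun x => fill (W : Set Site) ω
    ((rho ^ k).symm x)) n (M + h) M z₀ c 112} with hG
  set DD : Set Site := ⋃ k ∈ Finset.range 6, (rho ^ k).symm '' regs z₀ c (M + h) M 112 with hDD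
  have hDDfin : DD.Finite :=
    Set.Finite.biUnion (Finset.finite_toSet _) fun _ _ => (regs_finite _ _ _ _ _).image _
  have hFloc : Loc (W : Set Site) F := by
    intro ω ω' hωω
    exact ⟨fun h1 x hx => (hωω x hx).symm.trans (h1 x hx), fun h1 x hx => (hωω x hx).trans (h1 x hx)⟩
  have hGloc : Loc (DD \ W) G := by
    intro ω ω' hωω
    have key : ∀ k < 6, (ChainOK (fun x => fill (W : Set Site) ω
        ((rho ^ k).symm x)) n (M + h) M z₀ c 112 ↔ ChainOK (fun x => fill (W : Set Site) ω'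
        ((rho ^ k).symm x)) n (M + h) M z₀ c 112) := by
      intro k hk
      apply chain_congr
      intro x hx
      by_cases hxW : (rho ^ k).symm x ∈ (W : Set Site)
      · rw [fill_of_mem hxW, fill_of_mem hxW]
      · rw [fill_of_notMem hxW, fill_of_notMem hxW]
        apply hωω
        refine ⟨?_, hxW⟩
        rw [hDD, Set.mem_iUnion₂]
        exact ⟨k, Finset.mem_range.2 hk, x, hx, rfl⟩
    exact ⟨fun h1 k hk => (key k hk).1 (h1 k hk), fun h1 k hk => (key k hk).2 (h1 k hk)⟩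
  have hDWfin : (DD \ W).Finite := hDDfin.subset Set.sdiff_subset
  have hindep : labels p (F ∩ G) = labels p F * labels p G :=
    indep_local p W.finite_toSet hDWfin (Set.disjoint_left.2 fun x hx hx' => hx'.2 hx) hFloc hGloc
  have hPF : dens p true ^ NN ≤ labels p F := by
    rw [hF, labels_all]
    exact pow_le_pow_right_of_le_one' hq1 hWcard
  have hPG : (2 : ENNReal)⁻¹ ≤ labels p G := by
    have hGm : MeasurableSet G := hGloc.measurableSet hDWfin
    have hGc : labels p Gᶜ ≤ 2⁻¹ := by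
      have hsub : Gᶜ ⊆ ⋃ k ∈ Finset.range 6, {ω | (fun x => ω ((rho ^ k).symm x)) ∈
          {ω | ¬ ChainOK ω n (M + h) M z₀ c 112}} := by
        intro ω hω
        have hω : ¬ ∀ k < 6, ChainOK (fun x => fill (W : Set Site) ω
          ((rho ^ k).symm x)) n (M + h) M z₀ c 112 := hω
        push Not at hω
        obtain ⟨k, hk, hk'⟩ := hω
        rw [Set.mem_iUnion₂]
        refine ⟨k, Finset.mem_range.2 hk, ?_⟩
        intro h1
        exact hk' (chain_mono (fun x hx => le_fill hx) h1)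
      refine (measure_mono hsub).trans ((measure_biUnion_finset_le _ _).trans ?_)
      refine (Finset.sum_le_sum fun k _ => ?_).trans (b := ∑ _k ∈ Finset.range 6,
        (112 : ℕ) * ENNReal.ofReal (1 / 2000)) ?_
      · rw [labels_comp_equiv]
        exact hchain
      · rw [Finset.sum_const, Finset.card_range, nsmul_eq_mul]
        have e : ((6 : ℕ) : ENNReal) * (((112 : ℕ) : ENNReal) * ENNReal.ofReal (1 / 2000)) =
            ENNReal.ofReal (6 * (112 * (1 / 2000))) := by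
          rw [ENNReal.ofReal_mul (by norm_num), ENNReal.ofReal_mul (by norm_num)]
          norm_num
        have e2 : (2 : ENNReal)⁻¹ = ENNReal.ofReal (2⁻¹) := by
          rw [ENNReal.ofReal_inv_of_pos (by norm_num)]
          norm_num
        rw [e, e2]
        apply ENNReal.ofReal_le_ofReal
        norm_num
    have h1 : labels p G = 1 - labels p Gᶜ := by
      have := prob_compl_eq_one_sub (μ := labels p) hGm.compl
      rwa [compl_compl] at this
    rw [h1]
    calc (2 : ENNReal)⁻¹ = 1 - 2⁻¹ := by rw [ENNReal.one_sub_inv_two]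
      _ ≤ 1 - labels p Gᶜ := tsub_le_tsub_left hGc 1
  have hsubSC : SC (24 * (h : ℤ)) (72 * (h : ℤ)) ⊆ (F ∩ G)ᶜ := by
    rintro ω hω ⟨hωF, hωG⟩
    have hfill : fill (W : Set Site) ω = ω := by
      funext x
      by_cases hx : x ∈ (W : Set Site)
      · rw [fill_of_mem hx, hωF x hx]
      · rw [fill_of_notMem hx]
    obtain ⟨k, hk, h1 | ⟨j, hj, x, i, Q, hx, hx1, hx2, _⟩⟩ :=
      SC_cases hB hS (by omega) hM hnM hc hc0 hcM hω
    · apply h1
      have := hωG k hk
      rw [hfill] at this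
      exact this
    · have hmem : ∀ y : Site, y ∈ hex (pt z₀ c j) n → ω ((rho ^ k).symm y) = true := by
        intro y hy
        apply hωF
        rw [hW, Finset.mem_biUnion]
        refine ⟨k, Finset.mem_range.2 hk, ?_⟩
        rw [Finset.mem_biUnion]
        refine ⟨j, Finset.mem_range.2 (by omega), ?_⟩
        rw [Finset.mem_image]
        exact ⟨y, (Set.Finite.mem_toFinset _).2 hy, rfl⟩
      rcases hx with hx | hx
      · have h2 := hmem x hx
        have h3 : ω ((rho ^ k).symm x) = false := hx1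
        rw [h3] at h2
        exact Bool.noConfusion h2
      · have h2 := hmem _ hx
        have h3 : ω ((rho ^ k).symm (x + d i)) = false := hx2
        rw [h3] at h2
        exact Bool.noConfusion h2
  have hFGm : MeasurableSet (F ∩ G) :=
    (hFloc.measurableSet W.finite_toSet).inter (hGloc.measurableSet hDWfin)
  refine (measure_mono hsubSC).trans ?_
  rw [prob_compl_eq_one_sub hFGm, hindep]
  exact tsub_le_tsub_left (mul_le_mul' hPF hPG) 1

/-- **Probabilistic assembly.** -/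
theorem small_SC_of (p : unitInterval) (hp : 0 < psi p) (hL : LinkProb p) (hB : BlockSt)
    (hS : SideSt) (δ : ENNReal) (hδ : 0 < δ) :
    ∃ a : ℕ, 1 ≤ a ∧ labels p (SC (6 * a) (18 * a)) ≤ δ := by
  wlog hδ1 : δ ≤ 1 generalizing δ with hwlog
  · obtain ⟨a, ha, ha'⟩ := hwlog 1 one_pos le_rfl
    exact ⟨a, ha, ha'.trans (not_le.1 hδ1).le⟩
  have hδt : δ ≠ ⊤ := ne_top_of_le_ne_top ENNReal.one_ne_top hδ1
  obtain ⟨κ, hκ, hw⟩ := weak_bound p hp hL hB hS
  set δr : ℝ := δ.toReal with hδr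
  have hδr0 : 0 < δr := ENNReal.toReal_pos hδ.ne' hδt
  obtain ⟨n, hn⟩ := hL (δr / 2000) (by positivity)
  obtain ⟨D, hD⟩ := SC_small p κ hκ hw (4 * n + 8) (ENNReal.ofReal (δr / 2000))
    (ENNReal.ofReal_pos.2 (by positivity))
  obtain ⟨h, M, c, hHh, hnM, hM, hc, hc0, hcM, hlink⟩ := hn (D + 4)
  refine ⟨4 * h, by omega, ?_⟩
  set z₀ : Site := (-(28 * h : ℤ), -(4 * h : ℤ)) with hz₀
  have hlc := link_compl p n (M + h) M c _ hlink
  have hchain := chain_compl_le p n (M + h) M 112 z₀ c _ hlc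
  have htouch : ∀ j : ℕ, labels p {ω | Touch ω n (24 * h) (pt z₀ c j)} ≤
      ENNReal.ofReal (δr / 2000) := by
    intro j
    refine (touch_le p n (24 * h) (pt z₀ c j)).trans ((measure_mono ?_).trans hD)
    exact SC_mono le_rfl (by omega)
  have e1 : (6 * ((4 * h : ℕ) : ℤ)) = 24 * h := by push_cast; ring
  have e2 : (18 * ((4 * h : ℕ) : ℤ)) = 72 * h := by push_cast; ring
  rw [e1, e2]
  have hsub : SC (24 * (h : ℤ)) (72 * (h : ℤ)) ⊆ ⋃ k ∈ Finset.range 6,
      ({ω | (fun x => ω ((rho ^ k).symm x)) ∈ {ω | ¬ ChainOK ω n (M + h) M z₀ c 112}} ∪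
        ⋃ j ∈ Finset.range 113, {ω | (fun x => ω ((rho ^ k).symm x)) ∈
          {ω | Touch ω n (24 * h) (pt z₀ c j)}}) := by
    intro ω hω
    obtain ⟨k, hk, h1⟩ := SC_cases hB hS (by omega) hM hnM hc hc0 hcM hω
    rw [Set.mem_iUnion₂]
    refine ⟨k, Finset.mem_range.2 hk, ?_⟩
    rcases h1 with h1 | ⟨j, hj, h1⟩
    · exact Or.inl h1
    · right
      rw [Set.mem_iUnion₂]
      exact ⟨j, Finset.mem_range.2 (by omega), h1⟩
  refine (measure_mono hsub).trans ((measure_biUnion_finset_le _ _).trans ?_)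
  have hk : ∀ k ∈ Finset.range 6, labels p
      ({ω | (fun x => ω ((rho ^ k).symm x)) ∈ {ω | ¬ ChainOK ω n (M + h) M z₀ c 112}} ∪
        ⋃ j ∈ Finset.range 113, {ω | (fun x => ω ((rho ^ k).symm x)) ∈
          {ω | Touch ω n (24 * h) (pt z₀ c j)}}) ≤
      ENNReal.ofReal (225 * (δr / 2000)) := by
    intro k _
    refine (measure_union_le _ _).trans ?_
    have h1 : labels p {ω | (fun x => ω ((rho ^ k).symm x)) ∈
        {ω | ¬ ChainOK ω n (M + h) M z₀ c 112}} ≤ (112 : ℕ) * ENNReal.ofReal (δr / 2000) := by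
      rw [labels_comp_equiv]
      exact hchain
    have h2 : labels p (⋃ j ∈ Finset.range 113, {ω | (fun x => ω ((rho ^ k).symm x)) ∈
          {ω | Touch ω n (24 * h) (pt z₀ c j)}}) ≤ (113 : ℕ) * ENNReal.ofReal (δr / 2000) := by
      refine (measure_biUnion_finset_le _ _).trans ?_
      refine (Finset.sum_le_sum fun j _ => ?_).trans (b := ∑ _j ∈ Finset.range 113,
        ENNReal.ofReal (δr / 2000)) ?_
      · rw [labels_comp_equiv]
        exact htouch j
      · rw [Finset.sum_const, Finset.card_range, nsmul_eq_mul]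
    refine (add_le_add h1 h2).trans_eq ?_
    rw [← add_mul, ENNReal.ofReal_mul (by norm_num)]
    norm_num
  refine (Finset.sum_le_sum hk).trans ?_
  rw [Finset.sum_const, Finset.card_range, nsmul_eq_mul]
  have e3 : ((6 : ℕ) : ENNReal) * ENNReal.ofReal (225 * (δr / 2000)) =
      ENNReal.ofReal (6 * (225 * (δr / 2000))) := by
    rw [ENNReal.ofReal_mul (by norm_num : (0:ℝ) ≤ 6)]
    norm_num
  rw [e3, ← ENNReal.ofReal_toReal hδt]
  apply ENNReal.ofReal_le_ofReal
  rw [← hδr]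
  linarith

end MP_c38eaf_pr
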