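import Pool.Agent.Lib.MP_c38eaf_pr.Cochain

/-!
# Strips: paths of monochromatic edges, consecutive ones in a common triangle
-/

namespace MP_c38eaf_pr

lemma mid_ne_mid_succ (x : Site) (i : Fin 6) : mid x i ≠ mid x (i + 1) := by
  intro h
  have h1 : d i = d (i + 1) := by simpa [mid] using h
  clear h
  revert h1; revert i; decide

/-- The graph whose vertices are the (midpoints of) `T`-edges, two of them being joined when they
lie in a common triangle all of whose sites are labelled `s`. -/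
def strip (ω : Site → Bool) (s : Bool) : SimpleGraph Site where
  Adj M M' := ∃ x i, ((M = mid x i ∧ M' = mid x (i + 1)) ∨ (M' = mid x i ∧ M = mid x (i + 1))) ∧
    ω x = s ∧ ω (x + d i) = s ∧ ω (x + d (i + 1)) = s
  symm := ⟨fun _ _ ⟨x, i, h, h'⟩ => ⟨x, i, h.symm, h'⟩⟩
  loopless := ⟨fun _ ⟨x, i, h, _⟩ => by
    rcases h with ⟨h1, h2⟩ | ⟨h1, h2⟩ <;> exact mid_ne_mid_succ x i (h1.symm.trans h2)⟩

variable {ω : Site → Bool} {s : Bool}

lemma d_fst_succ (i : Fin 6) : (d i).1 ≤ (d (i + 1)).1 + 1 ∧ (d (i + 1)).1 ≤ (d i).1 + 1 := by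
  revert i; decide

lemma strip_adj_fst {M M' : Site} (h : (strip ω s).Adj M M') : M'.1 ≤ M.1 + 1 ∧ M.1 ≤ M'.1 + 1 := by
  obtain ⟨x, i, h, _⟩ := h
  have key := d_fst_succ i
  have e1 : (mid x i).1 = x.1 + x.1 + (d i).1 := rfl
  have e2 : (mid x (i + 1)).1 = x.1 + x.1 + (d (i + 1)).1 := rfl
  rcases h with ⟨rfl, rfl⟩ | ⟨rfl, rfl⟩ <;> rw [e1, e2] <;> omega

lemma strip_walk_fst {M M' : Site} (p : (strip ω s).Walk M M') : M.1 ≤ M'.1 + p.length := by
  induction p with
  | nil => simp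
  | cons h p ih =>
    have := strip_adj_fst h
    rw [SimpleGraph.Walk.length_cons]
    push_cast
    omega

/-- The class of a monochromatic cut edge consists of monochromatic edges, and is connected in
the strip graph. -/
lemma cls_strip {U : Set Site} (hU : ∀ x ∈ U, ∀ i, x + d i ∉ U → ω x = ω (x + d i))
    {x₀ : Site} {i₀ : Fin 6} (hx : x₀ ∈ U) (hx' : x₀ + d i₀ ∉ U) {M : Site}
    (hM : M ∈ cls U (mid x₀ i₀)) :
    (strip ω (ω x₀)).Reachable (mid x₀ i₀) M ∧
      ∀ x i, M = mid x i → ω x = ω x₀ ∧ ω (x + d i) = ω x₀ := by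
  induction hM with
  | refl =>
    refine ⟨SimpleGraph.Reachable.refl _, fun x i h => ?_⟩
    rcases mid_eq_mid h with ⟨rfl, rfl⟩ | ⟨rfl, rfl⟩
    · exact ⟨rfl, (hU _ hx _ hx').symm⟩
    · rw [d_add_three, add_neg_cancel_right]
      exact ⟨(hU _ hx _ hx').symm, rfl⟩
  | tail h1 h2 ih =>
    rename_i M M'
    obtain ⟨ih1, ih2⟩ := ih
    have hcut : IsCut U M' := h2.isCut
    have hmono : ∀ x i, M' = mid x i → ω x = ω (x + d i) := by
      intro x i h
      rw [h, isCut_mid] at hcut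
      rcases hcut with ⟨h3, h4⟩ | ⟨h3, h4⟩
      · exact hU _ h3 _ h4
      · have := hU (x + d i) h4 (i + 3) (by rwa [d_add_three, add_neg_cancel_right])
        rw [d_add_three, add_neg_cancel_right] at this
        exact this.symm
    obtain ⟨x, i, h, _⟩ := h2
    have main : ω x = ω x₀ ∧ ω (x + d i) = ω x₀ ∧ ω (x + d (i + 1)) = ω x₀ := by
      rcases h with ⟨h3, h4⟩ | ⟨h3, h4⟩
      · have a := ih2 x i h3
        have b := hmono x (i + 1) h4
        exact ⟨a.1, a.2, b ▸ a.1⟩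
      · have a := ih2 x (i + 1) h4
        have b := hmono x i h3
        exact ⟨a.1, b ▸ a.1, a.2⟩
    refine ⟨ih1.trans (SimpleGraph.Adj.reachable ⟨x, i, h, main⟩), ?_⟩
    intro y j hy
    have : (y = x ∨ y = x + d i ∨ y = x + d (i + 1)) ∧
        (y + d j = x ∨ y + d j = x + d i ∨ y + d j = x + d (i + 1)) := by
      rcases h with ⟨h3, h4⟩ | ⟨h3, h4⟩
      · rw [h4] at hy
        rcases mid_eq_mid hy with ⟨rfl, rfl⟩ | ⟨rfl, rfl⟩
        · exact ⟨Or.inl rfl, Or.inr (Or.inr rfl)⟩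
        · rw [d_add_three, add_neg_cancel_right]
          exact ⟨Or.inr (Or.inr rfl), Or.inl rfl⟩
      · rw [h3] at hy
        rcases mid_eq_mid hy with ⟨rfl, rfl⟩ | ⟨rfl, rfl⟩
        · exact ⟨Or.inl rfl, Or.inr (Or.inl rfl)⟩
        · rw [d_add_three, add_neg_cancel_right]
          exact ⟨Or.inr (Or.inl rfl), Or.inl rfl⟩
    obtain ⟨m1, m2, m3⟩ := main
    rcases this with ⟨(h5 | h5 | h5), (h6 | h6 | h6)⟩ <;> rw [h6] <;> rw [h5] <;>
      exact ⟨by assumption, by assumption⟩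

/-! ### States and words -/

/-- A state: an oriented edge `(x, i)`, from `x` to `x + d i`; the direction of travel is to
the left of the vector `d i`. -/
abbrev St : Type := Site × Fin 6

/-- The (midpoint of the) edge of a state. -/
def edge (σ : St) : Site := mid σ.1 σ.2

/-- The apex of the triangle ahead. -/
def apex (σ : St) : Site := σ.1 + d (σ.2 + 1)

/-- Turn left (`true`): pivot around the tail; turn right (`false`): pivot around the head. -/
def step (σ : St) (b : Bool) : St := if b then (σ.1, σ.2 + 1) else (σ.1 + d (σ.2 + 1), σ.2 + 5)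

/-- The state looking backwards. -/
def rev (σ : St) : St := (σ.1 + d σ.2, σ.2 + 3)

/-- The triangle ahead is monochromatic. -/
def Mono (ω : Site → Bool) (s : Bool) (σ : St) : Prop :=
  ω σ.1 = s ∧ ω (σ.1 + d σ.2) = s ∧ ω (apex σ) = s

lemma edge_rev (σ : St) : edge (rev σ) = edge σ := mid_rev _ _

lemma adj_step {σ : St} (h : Mono ω s σ) (b : Bool) :
    (strip ω s).Adj (edge σ) (edge (step σ b)) := by
  obtain ⟨x, i⟩ := σ
  obtain ⟨h1, h2, h3⟩ := h
  cases b
  · refine ⟨x + d i, i + 2, Or.inr ⟨?_, ?_⟩, h2, ?_, ?_⟩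
    · simp only [edge, step]
      exact (mid_third x i).symm
    · simp only [edge]
      rw [← mid_rev x i, f_aux3]
    · rw [add_assoc, d_add_two]; exact h3
    · rw [add_assoc, d_aux3, add_zero]; exact h1
  · exact ⟨x, i, Or.inl ⟨rfl, rfl⟩, h1, h2, h3⟩

lemma adj_step_step {σ : St} (h : Mono ω s σ) :
    (strip ω s).Adj (edge (step σ true)) (edge (step σ false)) := by
  obtain ⟨x, i⟩ := σ
  obtain ⟨h1, h2, h3⟩ := h
  refine ⟨x + d (i + 1), i + 4, Or.inl ⟨?_, ?_⟩, h3, ?_, ?_⟩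
  · show mid x (i + 1) = _
    rw [← mid_rev x (i + 1), f_aux1]
  · show mid (x + d (i + 1)) (i + 5) = _
    rw [f_aux2]
  · rw [add_assoc, d_aux1, add_zero]; exact h1
  · rw [add_assoc, d_aux2]; exact h2

lemma adj_cases {σ : St} {M : Site} (h : (strip ω s).Adj (edge σ) M) :
    (Mono ω s σ ∧ ∃ b, M = edge (step σ b)) ∨
      (Mono ω s (rev σ) ∧ ∃ b, M = edge (step (rev σ) b)) := by
  obtain ⟨x, i⟩ := σ
  obtain ⟨y, j, h, h1, h2, h3⟩ := h
  have g3 : y + d j + d (j + 2) = y + d (j + 1) := by rw [add_assoc, d_add_two]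
  have key : ∀ τ : St, edge τ = edge (x, i) → Mono ω s τ → ∀ b, edge (step τ b) = M →
      (Mono ω s (x, i) ∧ ∃ b, M = edge (step (x, i) b)) ∨
      (Mono ω s (rev (x, i)) ∧ ∃ b, M = edge (step (rev (x, i)) b)) := by
    rintro ⟨z, k⟩ h4 h5 b h6
    rcases mid_eq_mid h4.symm with ⟨h7, h8⟩ | ⟨h7, h8⟩
    · simp only at h7 h8
      subst h7; subst h8
      exact Or.inl ⟨h5, b, h6.symm⟩
    · simp only at h7 h8
      subst h7; subst h8
      exact Or.inr ⟨h5, b, h6.symm⟩
  rcases h with ⟨h4, h5⟩ | ⟨h4, h5⟩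
  · exact key (y, j) h4.symm ⟨h1, h2, h3⟩ true h5.symm
  · refine key (y + d (j + 1), j + 4) ?_ ⟨h3, ?_, ?_⟩ false ?_
    · rw [h5]
      show mid (y + d (j + 1)) (j + 4) = mid y (j + 1)
      rw [← mid_rev y (j + 1), f_aux1]
    · show ω (y + d (j + 1) + d (j + 4)) = s
      rw [add_assoc, d_aux1, add_zero]; exact h1
    · show ω (y + d (j + 1) + d (j + 4 + 1)) = s
      rw [add_assoc, d_aux2]; exact h2
    · rw [h4]
      show mid (y + d (j + 1) + d (j + 4 + 1)) (j + 4 + 5) = mid y j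
      have : j + 4 + 5 = j + 3 := by clear h4 h5 h2 h3 g3; revert j; decide
      rw [add_assoc, d_aux2, this, mid_rev]

lemma rev_step_aux : ∀ (i : Fin 6) (b c : Bool),
    edge (step (rev (step (0, i) b)) c) = edge (0, i) ∨
    edge (step (rev (step (0, i) b)) c) = edge (step (0, i) (!b)) := by
  decide

lemma step_shift (x v : Site) (i : Fin 6) (b : Bool) :
    step (x + v, i) b = (x + (step (v, i) b).1, (step (v, i) b).2) := by
  cases b <;> simp [step, add_assoc]

lemma edge_shift (x v : Site) (i : Fin 6) : edge (x + v, i) = x + x + edge (v, i) := by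
  simp only [edge, mid]; abel

lemma rev_step (σ : St) (b c : Bool) :
    edge (step (rev (step σ b)) c) = edge σ ∨ edge (step (rev (step σ b)) c) = edge (step σ (!b)) := by
  obtain ⟨x, i⟩ := σ
  have e1 : step (x, i) b = (x + (step (0, i) b).1, (step (0, i) b).2) := by
    have := step_shift x 0 i b
    rwa [add_zero] at this
  have e2 : step (x, i) (!b) = (x + (step (0, i) (!b)).1, (step (0, i) (!b)).2) := by
    have := step_shift x 0 i (!b)
    rwa [add_zero] at this
  have e3 : rev (step (x, i) b) = (x + (rev (step (0, i) b)).1, (rev (step (0, i) b)).2) := by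
    rw [e1]; simp only [rev, add_assoc]
  have e4 := step_shift x (rev (step (0, i) b)).1 (rev (step (0, i) b)).2 c
  rw [← e3] at e4
  rw [e4, edge_shift, e2, edge_shift]
  have e5 : edge (x, i) = x + x + edge (0, i) := by
    have := edge_shift x 0 i
    rwa [add_zero] at this
  rw [e5]
  rcases rev_step_aux i b c with h | h
  · left
    simp only [Prod.mk.eta]
    rw [h]
  · right
    simp only [Prod.mk.eta]
    rw [h]

/-! ### Geodesics -/

/-- `e 0, …, e n` is a path all of whose pieces are shortest. -/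
structure Geo (G : SimpleGraph Site) (n : ℕ) (e : ℕ → Site) : Prop where
  adj : ∀ i, i < n → G.Adj (e i) (e (i + 1))
  min : ∀ i j, i ≤ j → j ≤ n → ∀ p : G.Walk (e i) (e j), j ≤ i + p.length

lemma exists_geo {G : SimpleGraph Site} {M₀ M₁ : Site} (h : G.Reachable M₀ M₁) {n : ℕ}
    (hn : ∀ p : G.Walk M₀ M₁, n ≤ p.length) : ∃ e : ℕ → Site, e 0 = M₀ ∧ Geo G n e := by
  obtain ⟨p, hp⟩ := h.exists_walk_length_eq_dist
  refine ⟨p.getVert, p.getVert_zero, fun i hi => ?_, fun i j hij hj q => ?_⟩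
  · exact p.adj_getVert_succ (lt_of_lt_of_le hi (hn p))
  · have hjl : j ≤ p.length := hj.trans (hn p)
    have h1 := SimpleGraph.dist_le (((p.take i).append q).append (p.drop j))
    rw [← hp, SimpleGraph.Walk.length_append, SimpleGraph.Walk.length_append,
      SimpleGraph.Walk.drop_length, SimpleGraph.Walk.take_length] at h1
    omega

/-- States along a word. -/
def sts (σ₀ : St) (w : ℕ → Bool) : ℕ → St
  | 0 => σ₀
  | j + 1 => step (sts σ₀ w j) (w j)

/-- The word read off a sequence of edges. -/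
noncomputable def wstate (σ₀ : St) (e : ℕ → Site) : ℕ → St
  | 0 => σ₀
  | j + 1 => step (wstate σ₀ e j) (decide (e (j + 1) = edge (step (wstate σ₀ e j) true)))

lemma wstate_eq_sts (σ₀ : St) (e : ℕ → Site) (j : ℕ) : wstate σ₀ e j =
    sts σ₀ (fun j => decide (e (j + 1) = edge (step (wstate σ₀ e j) true))) j := by
  induction j with
  | zero => rfl
  | succ j ih => rw [wstate, sts, ← ih]

lemma edge_step_decide {σ : St} {M : Site} (h : ∃ b, M = edge (step σ b)) :
    edge (step σ (decide (M = edge (step σ true)))) = M := by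
  by_cases h1 : M = edge (step σ true)
  · rw [decide_eq_true h1, ← h1]
  · obtain ⟨b, hb⟩ := h
    rw [decide_eq_false h1]
    cases b
    · exact hb.symm
    · exact absurd hb h1

/-- A geodesic in the strip graph is the trace of a word. -/
theorem Geo.exists_word {n : ℕ} {e : ℕ → Site} (h : Geo (strip ω s) n e) (hn : 1 ≤ n)
    {τ : St} (h0 : e 0 = edge τ) :
    ∃ σ₀, (σ₀ = τ ∨ σ₀ = rev τ) ∧ ∃ w : ℕ → Bool,
      (∀ j, j ≤ n → edge (sts σ₀ w j) = e j) ∧ ∀ j, j < n → Mono ω s (sts σ₀ w j) := by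
  have h1 := h.adj 0 hn
  rw [h0] at h1
  obtain ⟨σ₀, hσ, hmono, b, hb⟩ : ∃ σ₀, (σ₀ = τ ∨ σ₀ = rev τ) ∧ Mono ω s σ₀ ∧
      ∃ b, e (0 + 1) = edge (step σ₀ b) := by
    rcases adj_cases h1 with ⟨h2, h3⟩ | ⟨h2, h3⟩
    · exact ⟨τ, Or.inl rfl, h2, h3⟩
    · exact ⟨rev τ, Or.inr rfl, h2, h3⟩
  have he0 : edge σ₀ = e 0 := by
    rcases hσ with rfl | rfl
    · exact h0.symm
    · rw [edge_rev]; exact h0.symm
  have main : ∀ j, j < n → edge (wstate σ₀ e j) = e j ∧ Mono ω s (wstate σ₀ e j) ∧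
      edge (wstate σ₀ e (j + 1)) = e (j + 1) := by
    intro j
    induction j with
    | zero => intro _; exact ⟨he0, hmono, edge_step_decide ⟨b, hb⟩⟩
    | succ j ih =>
      intro hj
      obtain ⟨i1, i2, i3⟩ := ih (by omega)
      have h2 := h.adj (j + 1) hj
      rw [← i3] at h2
      rcases adj_cases h2 with ⟨h3, h4⟩ | ⟨h3, c, h4⟩
      · exact ⟨i3, h3, edge_step_decide h4⟩
      · exfalso
        rw [wstate] at h4
        rcases rev_step (wstate σ₀ e j) _ c with h5 | h5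
        · rw [h5, i1] at h4
          have := h.min j (j + 1 + 1) (by omega) (by omega) (SimpleGraph.Walk.nil.copy rfl h4.symm)
          simp at this
        · rw [h5] at h4
          have h6 := adj_step i2 (!decide (e (j + 1) = edge (step (wstate σ₀ e j) true)))
          rw [i1, ← h4] at h6
          have := h.min j (j + 1 + 1) (by omega) (by omega) (SimpleGraph.Walk.cons h6 SimpleGraph.Walk.nil)
          simp at this
  refine ⟨σ₀, hσ, fun j => decide (e (j + 1) = edge (step (wstate σ₀ e j) true)), ?_, ?_⟩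
  · intro j hj
    rw [← wstate_eq_sts]
    rcases Nat.lt_or_ge j n with h2 | h2
    · exact (main j h2).1
    · have : j = (n - 1) + 1 := by omega
      rw [this]
      exact (main (n - 1) (by omega)).2.2
  · intro j hj
    rw [← wstate_eq_sts]
    exact (main j hj).2.1

/-- The neighbours `z + d m`, `z + d (m ± 1)` of `z` and `z` itself are labelled `s`. -/
def Full (ω : Site → Bool) (s : Bool) (z : Site) (m : Fin 6) : Prop :=
  ω z = s ∧ ω (z + d m) = s ∧ ω (z + d (m + 1)) = s ∧ ω (z + d (m + 5)) = s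

lemma adj_pivot {z : Site} {m : Fin 6} (h1 : ω z = s) (h2 : ω (z + d m) = s)
    (h3 : ω (z + d (m + 1)) = s) : (strip ω s).Adj (mid z m) (mid z (m + 1)) :=
  ⟨z, m, Or.inl ⟨rfl, rfl⟩, h1, h2, h3⟩

lemma f_aux5 (m : Fin 6) : m + 5 + 1 = m := by revert m; decide
lemma f_aux6 (m : Fin 6) : m + 1 + 1 = m + 2 := by revert m; decide
lemma f_aux7 (m : Fin 6) : m + 2 + 1 = m + 3 := by revert m; decide
lemma f_aux8 (m : Fin 6) : m + 3 + 5 = m + 2 := by revert m; decide
lemma f_aux9 (m : Fin 6) : m + 4 + 1 = m + 5 := by revert m; decide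
lemma f_cases (m m' : Fin 6) : m' = m ∨ m' = m + 1 ∨ m' = m + 2 ∨ m' = m + 3 ∨ m' = m + 4 ∨
    m' = m + 5 := by revert m m'; decide

lemma Full.walk {z : Site} {m m' : Fin 6} (h : Full ω s z m) (h' : Full ω s z m') :
    ∃ p : (strip ω s).Walk (mid z m) (mid z m'), p.length ≤ 3 := by
  obtain ⟨a, b, c, e⟩ := h
  obtain ⟨_, b', c', e'⟩ := h'
  rcases f_cases m m' with rfl | rfl | rfl | rfl | rfl | rfl
  · exact ⟨SimpleGraph.Walk.nil, by simp⟩
  · exact ⟨SimpleGraph.Walk.cons (adj_pivot a b c) SimpleGraph.Walk.nil, by simp⟩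
  · have h2 := adj_pivot (ω := ω) (s := s) (z := z) (m := m + 1) a c (by rw [f_aux6]; exact b')
    rw [f_aux6] at h2
    exact ⟨SimpleGraph.Walk.cons (adj_pivot a b c) (SimpleGraph.Walk.cons h2
      SimpleGraph.Walk.nil), by simp⟩
  · rw [f_aux8] at e'
    have h2 := adj_pivot (ω := ω) (s := s) (z := z) (m := m + 1) a c (by rw [f_aux6]; exact e')
    rw [f_aux6] at h2
    have h3 := adj_pivot (ω := ω) (s := s) (z := z) (m := m + 2) a e' (by rw [f_aux7]; exact b')
    rw [f_aux7] at h3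
    exact ⟨SimpleGraph.Walk.cons (adj_pivot a b c) (SimpleGraph.Walk.cons h2
      (SimpleGraph.Walk.cons h3 SimpleGraph.Walk.nil)), by simp⟩
  · have h1 := adj_pivot (ω := ω) (s := s) (z := z) (m := m + 5) a e (by rw [f_aux5]; exact b)
    rw [f_aux5] at h1
    have h2 := adj_pivot (ω := ω) (s := s) (z := z) (m := m + 4) a b' (by rw [f_aux9]; exact e)
    rw [f_aux9] at h2
    exact ⟨SimpleGraph.Walk.cons h1.symm (SimpleGraph.Walk.cons h2.symm SimpleGraph.Walk.nil),
      by simp⟩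
  · have h1 := adj_pivot (ω := ω) (s := s) (z := z) (m := m + 5) a e (by rw [f_aux5]; exact b)
    rw [f_aux5] at h1
    exact ⟨SimpleGraph.Walk.cons h1.symm SimpleGraph.Walk.nil, by simp⟩

lemma g_aux1 (i : Fin 6) : d (i + 1) + d (i + 4 + 5) = d (i + 2) := by revert i; decide
lemma g_aux2 (i : Fin 6) : i + 5 + 1 = i := by revert i; decide
lemma g_aux3 (i : Fin 6) : d (i + 1) + d (i + 5 + 5) = 0 := by revert i; decide

lemma apex_full {σ : St} {b : Bool} (h : Mono ω s σ) (h' : Mono ω s (step σ b)) :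
    ∃ m, edge (step σ b) = mid (apex σ) m ∧ Full ω s (apex σ) m := by
  obtain ⟨x, i⟩ := σ
  obtain ⟨h1, h2, h3⟩ := h
  obtain ⟨h1', h2', h3'⟩ := h'
  cases b
  · refine ⟨i + 5, rfl, h3, h2', h3', ?_⟩
    show ω (x + d (i + 1) + d (i + 5 + 5)) = s
    rw [add_assoc, g_aux3, add_zero]; exact h1
  · refine ⟨i + 4, ?_, h3, ?_, ?_, ?_⟩
    · show mid x (i + 1) = mid (x + d (i + 1)) (i + 4)
      rw [← mid_rev x (i + 1), f_aux1]
    · show ω (x + d (i + 1) + d (i + 4)) = s
      rw [add_assoc, d_aux1, add_zero]; exact h1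
    · show ω (x + d (i + 1) + d (i + 4 + 1)) = s
      rw [add_assoc, d_aux2]; exact h2
    · show ω (x + d (i + 1) + d (i + 4 + 5)) = s
      rw [add_assoc, g_aux1, ← f_aux6]; exact h3'

lemma apex_ne_aux : ∀ (i : Fin 6) (a b c : Bool),
    apex (step (0, i) a) ≠ apex (0, i) ∧ apex (step (step (0, i) a) b) ≠ apex (0, i) ∧
    apex (step (step (step (0, i) a) b) c) ≠ apex (0, i) := by
  decide

/-- Translate a state. -/
def tr (x : Site) (τ : St) : St := (x + τ.1, τ.2)

lemma step_tr (x : Site) (τ : St) (b : Bool) : step (tr x τ) b = tr x (step τ b) :=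
  step_shift x τ.1 τ.2 b

lemma apex_tr (x : Site) (τ : St) : apex (tr x τ) = x + apex τ := by
  simp only [apex, tr, add_assoc]

lemma eq_tr (x : Site) (i : Fin 6) : ((x, i) : St) = tr x (0, i) := by simp [tr]

lemma apex_ne (σ : St) (a b c : Bool) :
    apex (step σ a) ≠ apex σ ∧ apex (step (step σ a) b) ≠ apex σ ∧
    apex (step (step (step σ a) b) c) ≠ apex σ := by
  obtain ⟨x, i⟩ := σ
  obtain ⟨h1, h2, h3⟩ := apex_ne_aux i a b c
  rw [eq_tr]
  simp only [step_tr, apex_tr, ne_eq, add_right_inj]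
  exact ⟨h1, h2, h3⟩

/-- The new sites along a geodesic are distinct. -/
theorem apex_inj {n : ℕ} {e : ℕ → Site} (h : Geo (strip ω s) n e) {σ₀ : St} {w : ℕ → Bool}
    (he : ∀ j, j ≤ n → edge (sts σ₀ w j) = e j) (hm : ∀ j, j < n → Mono ω s (sts σ₀ w j))
    {a b : ℕ} (hab : a < b) (hb : b + 1 < n) : apex (sts σ₀ w a) ≠ apex (sts σ₀ w b) := by
  intro heq
  obtain ⟨m, hm1, hm2⟩ := apex_full (hm a (by omega)) (b := w a) (hm (a + 1) (by omega))
  obtain ⟨m', hm1', hm2'⟩ := apex_full (hm b (by omega)) (b := w b) (hm (b + 1) (by omega))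
  rw [← heq] at hm1' hm2'
  obtain ⟨p, hp⟩ := hm2.walk hm2'
  have h1 : mid (apex (sts σ₀ w a)) m = e (a + 1) := by rw [← hm1, ← he (a + 1) (by omega)]; rfl
  have h2 : mid (apex (sts σ₀ w a)) m' = e (b + 1) := by rw [← hm1', ← he (b + 1) (by omega)]; rfl
  have h3 := h.min (a + 1) (b + 1) (by omega) (by omega) (p.copy h1 h2)
  rw [SimpleGraph.Walk.length_copy] at h3
  have h4 := apex_ne (sts σ₀ w a) (w a) (w (a + 1)) (w (a + 2))
  have h5 : b = a + 1 ∨ b = a + 2 ∨ b = a + 3 := by omega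
  rcases h5 with rfl | rfl | rfl
  · exact h4.1 heq.symm
  · exact h4.2.1 heq.symm
  · exact h4.2.2 heq.symm

lemma f_aux10 (i : Fin 6) : i + 1 + 1 + 1 + 1 = i + 4 := by revert i; decide
lemma f_aux11 (i : Fin 6) : i + 1 + 1 + 1 + 1 + 1 = i + 5 := by revert i; decide

/-- Five consecutive left turns do not occur in a geodesic. -/
theorem no_five {n : ℕ} {e : ℕ → Site} (h : Geo (strip ω s) n e) {σ₀ : St} {w : ℕ → Bool}
    (he : ∀ j, j ≤ n → edge (sts σ₀ w j) = e j) (hm : ∀ j, j < n → Mono ω s (sts σ₀ w j))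
    {a : ℕ} (ha : a + 5 ≤ n) :
    ¬ (w a = true ∧ w (a + 1) = true ∧ w (a + 2) = true ∧ w (a + 3) = true ∧ w (a + 4) = true) := by
  rintro ⟨h0, h1, h2, h3, h4⟩
  obtain ⟨x, i, hσ⟩ : ∃ x i, sts σ₀ w a = (x, i) := ⟨_, _, rfl⟩
  have m0 := hm a (by omega)
  have m4 := hm (a + 4) (by omega)
  have e0 := he a (by omega)
  have e5 := he (a + 5) (by omega)
  simp only [sts] at m4 e5
  rw [hσ] at m0 e0
  simp only [h0, h1, h2, h3, h4, hσ, step, if_true] at m4 e5
  have ad := adj_pivot (ω := ω) (s := s) (z := x) (m := i + 5) m0.1 (by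
    have := m4.2.2
    simp only [apex] at this
    rwa [f_aux11] at this) (by rw [f_aux5]; exact m0.2.1)
  rw [f_aux5] at ad
  have h6 := h.min a (a + 5) (by omega) (by omega)
    ((SimpleGraph.Walk.cons ad.symm SimpleGraph.Walk.nil).copy e0 (by
      rw [← e5]; simp only [edge]; rw [f_aux11]))
  simp at h6

end MP_c38eaf_pr
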