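import Pool.Agent.Lib.MP_c38eaf_pr.Hub

/-!
# Symmetries
-/

open Classical

namespace MP_c38eaf_pr

/-- A symmetry of the triangular lattice. -/
structure Sy (e : Equiv.Perm Site) : Prop where
  adj : ∀ x y, tri.Adj (e x) (e y) ↔ tri.Adj x y
  hexa : ∀ c z n, e z ∈ MP_c38eaf_pr.hex (e c) n ↔ z ∈ MP_c38eaf_pr.hex c n

lemma Sy.mul {e f : Equiv.Perm Site} (he : Sy e) (hf : Sy f) : Sy (e * f) :=
  ⟨fun x y => by rw [Equiv.Perm.mul_apply, Equiv.Perm.mul_apply, he.adj, hf.adj],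
    fun c z n => by rw [Equiv.Perm.mul_apply, Equiv.Perm.mul_apply, he.hexa, hf.hexa]⟩

lemma Sy.one : Sy 1 := ⟨fun _ _ => Iff.rfl, fun _ _ _ => Iff.rfl⟩

lemma Sy.pow {e : Equiv.Perm Site} (he : Sy e) (k : ℕ) : Sy (e ^ k) := by
  induction k with
  | zero => exact Sy.one
  | succ k ih => rw [pow_succ]; exact ih.mul he

/-- Rotation by 60 degrees. -/
def rho : Equiv.Perm Site where
  toFun z := (-z.2, z.1 + z.2)
  invFun z := (z.1 + z.2, -z.1)
  left_inv z := by ext <;> simp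
  right_inv z := by ext <;> simp

/-- Reflection exchanging the coordinates. -/
def tau : Equiv.Perm Site where
  toFun z := (z.2, z.1)
  invFun z := (z.2, z.1)
  left_inv _ := rfl
  right_inv _ := rfl

lemma rho_apply (z : Site) : rho z = (-z.2, z.1 + z.2) := rfl
lemma tau_apply (z : Site) : tau z = (z.2, z.1) := rfl

lemma rho_add (x y : Site) : rho (x + y) = rho x + rho y := by
  simp only [rho_apply]; ext <;> simp <;> ring

lemma tau_add (x y : Site) : tau (x + y) = tau x + tau y := by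
  simp only [tau_apply]; ext <;> simp

lemma rho_d (i : Fin 6) : rho (d i) = d (i + 1) := by
  revert i; decide

lemma tau_d (i : Fin 6) : ∃ j, tau (d i) = d j := by
  revert i; decide

lemma tau_tau (z : Site) : tau (tau z) = z := rfl

lemma sy_rho : Sy rho where
  adj x y := by
    constructor
    · rintro ⟨i, hi⟩
      refine ⟨i + 5, ?_⟩
      have : rho (x + d (i + 5)) = rho x + d i := by rw [rho_add, rho_d, f_aux5]
      rw [← this] at hi
      exact rho.injective hi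
    · rintro ⟨i, rfl⟩
      exact ⟨i + 1, by rw [rho_add, rho_d]⟩
  hexa c z n := by
    rw [mem_hex, mem_hex, rho_apply, rho_apply]
    simp only
    constructor <;> intro h <;> refine ⟨⟨?_, ?_⟩, ⟨?_, ?_⟩, ?_, ?_⟩ <;> omega

lemma sy_tau : Sy tau where
  adj x y := by
    have h : ∀ x y, tri.Adj x y → tri.Adj (tau x) (tau y) := by
      rintro x _ ⟨i, rfl⟩
      obtain ⟨j, hj⟩ := tau_d i
      exact ⟨j, by rw [tau_add, hj]⟩
    exact ⟨fun h1 => by have := h _ _ h1; rwa [tau_tau, tau_tau] at this, h x y⟩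
  hexa c z n := by
    rw [mem_hex, mem_hex, tau_apply, tau_apply]
    simp only
    constructor <;> intro h <;> refine ⟨⟨?_, ?_⟩, ⟨?_, ?_⟩, ?_, ?_⟩ <;> omega

/-- Translations. -/
def trans (v : Site) : Equiv.Perm Site := Equiv.addRight v

lemma trans_apply (v z : Site) : trans v z = z + v := rfl

lemma sy_trans (v : Site) : Sy (trans v) where
  adj x y := by
    rw [trans_apply, trans_apply]
    constructor
    · rintro ⟨i, hi⟩
      refine ⟨i, ?_⟩
      have : y + v = (x + d i) + v := by rw [hi]; abel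
      exact add_right_cancel this
    · rintro ⟨i, rfl⟩
      exact ⟨i, by abel⟩
  hexa c z n := by
    rw [mem_hex, mem_hex, trans_apply, trans_apply]
    simp only [Prod.fst_add, Prod.snd_add]
    constructor <;> intro h <;> refine ⟨⟨?_, ?_⟩, ⟨?_, ?_⟩, ?_, ?_⟩ <;> omega

lemma Sy.image_hex {e : Equiv.Perm Site} (he : Sy e) (c : Site) (n : ℕ) :
    e '' hex c n = hex (e c) n := by
  ext z
  constructor
  · rintro ⟨y, hy, rfl⟩; exact (he.hexa c y n).2 hy
  · intro hz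
    refine ⟨e.symm z, ?_, by simp⟩
    rw [← he.hexa]; simpa using hz

/-- Transport of the restricted open graph. -/
lemma orIn_comp {e : Equiv.Perm Site} (he : Sy e) (ω : Site → Bool) (D : Set Site) (x y : Site) :
    (orIn (fun x => ω (e x)) D).Adj x y ↔ (orIn ω (e '' D)).Adj (e x) (e y) := by
  constructor
  · rintro ⟨⟨h1, h2⟩, h3, h4⟩
    exact ⟨⟨(he.adj x y).2 h1, h2⟩, ⟨x, h3, rfl⟩, ⟨y, h4, rfl⟩⟩
  · rintro ⟨⟨h1, h2⟩, ⟨x', h3, h5⟩, ⟨y', h4, h6⟩⟩
    rw [e.injective h5] at h3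
    rw [e.injective h6] at h4
    exact ⟨⟨(he.adj x y).1 h1, h2⟩, h3, h4⟩

/-- Transport isomorphism. -/
def orIso {e : Equiv.Perm Site} (he : Sy e) (ω : Site → Bool) (D : Set Site) :
    orIn (fun x => ω (e x)) D ≃g orIn ω (e '' D) where
  toEquiv := e
  map_rel_iff' := (orIn_comp he ω D _ _).symm

lemma reach_comp {e : Equiv.Perm Site} (he : Sy e) (ω : Site → Bool) (D : Set Site) (x y : Site) :
    (orIn (fun x => ω (e x)) D).Reachable x y ↔ (orIn ω (e '' D)).Reachable (e x) (e y) :=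
  (SimpleGraph.Iso.reachable_iff (φ := orIso he ω D) (u := x) (v := y)).symm

lemma conn_comp {e : Equiv.Perm Site} (he : Sy e) (ω : Site → Bool) (D X Y : Set Site) :
    Conn (fun x => ω (e x)) D X Y ↔ Conn ω (e '' D) (e '' X) (e '' Y) := by
  constructor
  · rintro ⟨x, ⟨hx, hx'⟩, y, ⟨hy, hy'⟩, h⟩
    refine ⟨e x, ⟨⟨x, hx, rfl⟩, ⟨x, hx', rfl⟩⟩, e y, ⟨⟨y, hy, rfl⟩, ⟨y, hy', rfl⟩⟩, ?_⟩
    exact (reach_comp he ω D x y).1 h
  · rintro ⟨_, ⟨⟨x, hx, rfl⟩, ⟨x', hx', h1⟩⟩, _, ⟨⟨y, hy, rfl⟩, ⟨y', hy', h2⟩⟩, h⟩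
    rw [e.injective h1] at hx'
    rw [e.injective h2] at hy'
    exact ⟨x, ⟨hx, hx'⟩, y, ⟨hy, hy'⟩, (reach_comp he ω D x y).2 h⟩

lemma fill_comp (e : Equiv.Perm Site) (W : Set Site) (ω : Site → Bool) :
    fill W (fun x => ω (e x)) = fun x => fill (e '' W) ω (e x) := by
  funext x
  by_cases hx : x ∈ W
  · rw [fill_of_mem hx, fill_of_mem (Set.mem_image_of_mem e hx)]
  · rw [fill_of_notMem hx, fill_of_notMem]
    rintro ⟨y, hy, h⟩
    exact hx (e.injective h ▸ hy)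

lemma linked_comp {e : Equiv.Perm Site} (he : Sy e) (ω : Site → Bool) (n : ℕ) (D : Set Site)
    (z z' : Site) :
    Linked (fun x => ω (e x)) n D z z' ↔ Linked ω n (e '' D) (e z) (e z') := by
  rw [Linked, Linked, fill_comp, Set.image_union, he.image_hex, he.image_hex, reach_comp he]

/-! ### Strips -/

lemma rho_mid (x : Site) (i : Fin 6) : rho (mid x i) = mid (rho x) (i + 1) := by
  simp only [mid, rho_add, rho_d]

lemma strip_rho {ω : Site → Bool} {s : Bool} {M M' : Site}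
    (h : (strip (fun x => ω (rho x)) s).Adj M M') : (strip ω s).Adj (rho M) (rho M') := by
  obtain ⟨x, i, h, h1, h2, h3⟩ := h
  simp only [rho_add, rho_d] at h1 h2 h3
  refine ⟨rho x, i + 1, ?_, h1, h2, h3⟩
  rcases h with ⟨rfl, rfl⟩ | ⟨rfl, rfl⟩
  · exact Or.inl ⟨rho_mid _ _, rho_mid _ _⟩
  · exact Or.inr ⟨rho_mid _ _, rho_mid _ _⟩

lemma strip_trans {ω : Site → Bool} {s : Bool} {M M' v : Site}
    (h : (strip (fun x => ω (x + v)) s).Adj M M') : (strip ω s).Adj (M + (v + v)) (M' + (v + v)) := by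
  obtain ⟨x, i, h, h1, h2, h3⟩ := h
  refine ⟨x + v, i, ?_, h1, ?_, ?_⟩
  · have e : ∀ j, mid x j + (v + v) = mid (x + v) j := by intro j; simp only [mid]; abel
    rcases h with ⟨rfl, rfl⟩ | ⟨rfl, rfl⟩
    · exact Or.inl ⟨e _, e _⟩
    · exact Or.inr ⟨e _, e _⟩
  · rw [← h2]; congr 1; abel
  · rw [← h3]; congr 1; abel

end MP_c38eaf_pr
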