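import Pool.Agent.Lib.MP_c38eaf_pr.Explore

/-!
# The table of local states (data file)

An entry `⟨cs, us, tr, t⟩`: `cs` = explored sites relative to the current site, `us` = the
available neighbours in the order of exploration, `tr` = for each step of the exploration the entry
`k / 12` (up to the lattice symmetry `k % 12`) used for the newly found site, `t` = bound for the
expected cluster size at density `0.146`.
-/

namespace MP_c38eaf_pr.Explore

/-- An entry of the table. -/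
structure Ent where
  cs : List Site
  us : List Site
  tr : List (ℕ × List (ℕ × List ℕ))
  t : ℕ

/-- Rotation by sixty degrees. -/
def rot (v : Site) : Site := (-v.2, v.1 + v.2)

/-- Reflection. -/
def rfl' (v : Site) : Site := (v.2, v.1)

/-- Iterated rotation. -/
def rotn : ℕ → Site → Site
  | 0, v => v
  | n + 1, v => rot (rotn n v)

/-- The twelve symmetries. -/
def sy (h : ℕ) (v : Site) : Site := rotn (h % 6) (if 6 ≤ h then rfl' v else v)

/-- The table. -/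
def table : List Ent := [
  ⟨[], [(-2,0),(-2,1),(-2,2),(-1,-1),(-1,2),(0,-2),(0,2),(1,-2),(1,1),(2,-2),(2,-1),(2,0),(-1,0),(-1,1),(0,-1),(0,1),(1,-1),(1,0)], [(15,[(31,[38,28,49,65,83,94,107,118,120,132,144,158,34,47,168,180]),(62,[28,30,65,61,94,84,118,120,108,144,146,34,24,168,178]),(28,[85,45,109,53,131,72,96,143,144,25,156,179,36,191]),(85,[65,37,94,48,118,106,82,144,203,34,157,168,46]),(65,[109,29,131,60,95,119,144,25,145,179,35,169]),(109,[94,35,118,89,60,144,205,34,145,168,29]),(94,[97,46,48,73,144,25,192,179,157,37]),(131,[81,53,36,144,219,34,239,45,156]),(118,[24,61,144,25,204,179,146,30]),(120,[47,144,25,224,38,228,158]),(240,[144,25,34,31,28,144]),(144,[25,34,179,168,252]),(25,[34,265,168,252]),(34,[179,264,252]),(179,[168,264]),(168,[265]),(252,[])]),(279,[(38,[52,30,77,61,101,84,142,288,108,161,146,41,24,190,178]),(52,[49,45,83,53,107,72,96,132,157,158,156,47,36,180]),(49,[77,37,101,48,142,106,82,161,156,41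,157,190,46]),(77,[83,29,107,60,95,119,198,158,145,47,35,169]),(83,[101,35,113,89,60,161,196,41,145,177,29]),(101,[107,46,48,73,302,158,305,47,157,37]),(107,[81,53,36,161,303,41,300,45,156]),(142,[24,61,235,158,221,47,146,30]),(288,[47,161,158,317,314,161,158]),(132,[161,231,41,227,28,144]),(161,[158,269,47,190,180]),(158,[41,265,190,180]),(41,[47,264,180]),(47,[190,264]),(190,[265]),(180,[])]),(14,[(93,[30,45,61,53,84,72,96,108,197,146,156,24,36,178]),(30,[117,37,125,48,137,106,82,33,146,173,157,185,46]),(117,[61,29,84,60,95,108,206,146,145,24,35,178]),(61,[125,35,113,89,60,33,146,173,145,177,29]),(125,[84,46,48,73,223,146,233,24,157,37]),(84,[81,53,36,33,146,173,202,45,156]),(245,[24,61,33,146,27,24,146,30]),(130,[324,33,146,44,218,161,238]),(108,[33,146,173,204,28,144]),(33,[146,269,24,257,178]),(146,[173,24,257,178]),(173,[24,264,178]),(24,[257,264]),(257,[346]),(178,[])]),(280,[(102,[45,37,53,48,72,96,82,304,301,156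,157,36,46]),(45,[133,29,289,60,95,119,159,42,145,181,35,169]),(133,[53,35,72,89,60,232,222,156,145,36,29]),(53,[97,46,48,73,159,42,156,181,157,37]),(289,[348,53,36,159,315,156,159,312,156]),(72,[24,61,159,42,199,170,146,30]),(96,[47,159,42,303,38,300,158]),(143,[159,42,236,31,216,144]),(159,[266,156,181,36,191]),(42,[156,265,36,191]),(156,[181,264,191]),(181,[36,264]),(36,[265]),(191,[])]),(278,[(141,[37,29,48,60,95,82,220,234,145,157,35,46]),(37,[293,35,113,89,60,40,160,189,145,177,29]),(293,[48,46,48,349,316,160,160,157,157,313]),(48,[81,53,36,40,160,189,157,45,156]),(137,[370,382,40,160,27,230,146,226]),(106,[346,40,160,44,302,161,305]),(82,[40,160,176,195,28,144]),(40,[145,269,157,185,46]),(160,[189,157,185,46]),(189,[157,264,46]),(157,[185,264]),(185,[394]),(46,[])]),(16,[(241,[29,35,60,401,60,26,32,145,145,35,29]),(29,[97,46,48,73,26,174,145,186,157,37]),(121,[381,419,335,26,39,145,159,225,229]),(60,[24,61,26,174,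145,170,146,30]),(95,[47,26,174,145,38,193,158]),(119,[26,174,145,31,205,144]),(26,[266,145,421,35,169]),(174,[145,265,35,169]),(145,[253,35,169]),(253,[437,337]),(35,[265]),(169,[])]),(13,[(129,[361,329,413,373,43,32,160,145,237,217]),(35,[81,53,36,172,32,184,145,45,156]),(113,[449,313,172,32,27,145,146,206]),(89,[394,172,32,44,145,161,201]),(60,[172,32,176,145,28,144]),(172,[200,269,145,177,29]),(32,[429,145,177,29]),(256,[301,345,437]),(145,[177,29]),(177,[197]),(29,[])]),(281,[(97,[345,437,337,43,39,160,159,304,301]),(46,[24,61,43,182,160,170,146,30]),(48,[47,43,182,160,38,157,158]),(73,[43,171,160,31,200,144]),(43,[266,146,186,157,37]),(182,[201,265,157,37]),(160,[186,157,37]),(186,[197,385]),(157,[265]),(37,[])]),(277,[(81,[197,385,175,39,27,159,146,194]),(53,[157,188,39,44,159,161,156]),(36,[188,39,176,159,28,144]),(188,[387,269,193,45,156]),(39,[184,144,45,156]),(184,[159,393,203]),(159,[45,156]),(45,[145]),(156,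[])]),(17,[(24,[47,175,187,27,38,146,158]),(61,[175,171,27,31,146,144]),(175,[266,195,170,146,30]),(254,[435,338,305,432]),(27,[170,146,30]),(170,[146,198]),(146,[30]),(30,[])]),(276,[(47,[183,171,44,31,161,144]),(183,[266,392,38,202,158]),(187,[44,386,161,192]),(44,[38,144,158]),(38,[161,146]),(161,[158]),(158,[])]),(12,[(255,[339,344,433,436,300]),(171,[176,199,28,144]),(176,[31,196,144]),(31,[28,144]),(28,[144]),(144,[])]),(459,[(266,[269,265,430,468]),(269,[421,264,468]),(421,[430,264]),(430,[265]),(468,[])]),(458,[(429,[265,264,420]),(265,[473,264]),(473,[24]),(420,[])]),(460,[(469,[29,35]),(264,[265]),(431,[])]),(457,[(425,[157]),(264,[])]),(461,[(265,[])]),(456,[])], 9432⟩,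
  ⟨[(-2,0)], [(-1,2),(0,2),(1,-2),(1,1),(2,-2),(2,-1),(2,0),(0,1),(1,-1),(1,0)], [(85,[(37,[94,35,118,89,60,145,168,29]),(94,[48,46,48,349,157,157,313]),(48,[81,53,36,239,45,156]),(118,[370,382,230,146,226]),(106,[346,302,228,305]),(82,[195,28,144]),(157,[168,264]),(168,[394]),(46,[])]),(109,[(94,[361,329,413,373,145,237,217]),(35,[81,53,36,145,45,156]),(118,[449,313,145,146,206]),(89,[394,145,228,201]),(60,[145,28,144]),(145,[168,29]),(168,[197]),(29,[])]),(94,[(97,[345,437,337,239,304,301]),(46,[24,61,179,146,30]),(48,[47,38,228,158]),(73,[31,200,144]),(179,[197,385]),(157,[265]),(37,[])]),(131,[(81,[197,385,239,146,194]),(53,[157,239,228,156]),(36,[239,28,144]),(239,[45,156]),(45,[145]),(156,[])]),(118,[(24,[47,38,146,158]),(61,[31,146,144]),(179,[146,198]),(146,[30]),(30,[])]),(120,[(47,[31,228,144]),(38,[228,146]),(228,[158]),(158,[])]),(240,[(31,[28,144]),(28,[144]),(144,[])]),(179,[(168,[157]),(264,[])]),(168,[(265,[])]),(252,[])],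 5149⟩,
  ⟨[(-2,1),(0,-1)], [(0,2),(1,1),(2,0)], [(83,[(337,[491]),(503,[])]),(107,[(491,[])]),(515,[])], 1930⟩,
  ⟨[(-2,0),(-1,1)], [(1,-2),(2,-2),(2,-1),(2,0)], [(94,[(46,[346,492]),(48,[480]),(517,[])]),(118,[(346,[480]),(492,[])]),(120,[(480,[])]),(504,[])], 2541⟩,
  ⟨[(-2,1),(-1,-1)], [(0,2),(1,1),(2,-2),(2,-1),(2,0),(1,0)], [(83,[(35,[348,53,36,156]),(72,[449,313,206]),(89,[394,201]),(60,[144]),(29,[])]),(107,[(348,[197,385,194]),(53,[157,156]),(36,[144]),(156,[])]),(72,[(24,[47,158]),(61,[144]),(30,[])]),(96,[(47,[144]),(158,[])]),(132,[(144,[])]),(180,[])], 3379⟩,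
  ⟨[(-2,0),(-2,2)], [(1,-2),(1,1),(2,-2),(2,-1),(2,0),(1,-1),(1,0)], [(94,[(84,[345,437,337,304,301]),(46,[24,61,146,30]),(48,[324,228,238]),(73,[200,144]),(157,[346]),(37,[])]),(84,[(81,[197,385,146,194]),(53,[157,228,238]),(36,[28,144]),(45,[145]),(156,[])]),(118,[(24,[324,146,238]),(61,[146,144]),(146,[346]),(30,[])]),(120,[(324,[228,144]),(228,[238]),(238,[])]),(108,[(28,[144]),(144,[])]),(168,[(346,[])]),(178,[])], 3608⟩,
  ⟨[(-3,1),(-2,2)], [(0,-2),(1,-2),(1,1),(2,-2),(2,-1),(2,0),(0,-1),(1,-1),(1,0)], [(533,[(29,[84,46,48,73,145,157,37]),(84,[381,419,335,145,225,229]),(60,[24,61,145,146,30]),(95,[324,145,193,238]),(108,[145,205,144]),(145,[35,178]),(35,[346]),(178,[])]),(550,[(84,[345,437,337,238,304,301]),(46,[24,61,238,146,30]),(48,[324,238,157,238]),(73,[238,200,144]),(238,[157,37]),(157,[346]),(37,[])]),(84,[(81,[197,385,562,146,194]),(53,[157,574,161,238]),(36,[490,28,144]),(490,[393,203]),(45,[145]),(156,[])]),(245,[(24,[324,562,146,238]),(61,[562,146,144]),(562,[146,30]),(146,[346]),(30,[])]),(130,[(324,[574,161,144]),(574,[144,238]),(161,[238]),(238,[])]),(108,[(490,[196,144]),(28,[144]),(144,[])]),(490,[(264,[346]),(178,[])]),(586,[(346,[])]),(178,[])],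 4455⟩,
  ⟨[(-3,1),(-1,-1)], [(-1,2),(0,2),(1,1),(2,-2),(2,-1),(2,0),(0,1),(1,0)], [(599,[(37,[35,72,89,60,145,29]),(48,[348,53,36,157,156]),(72,[370,382,230,226]),(96,[346,302,305]),(82,[195,144]),(157,[264]),(46,[])]),(611,[(35,[348,53,36,145,156]),(72,[449,313,145,206]),(89,[394,145,201]),(60,[145,144]),(145,[29]),(29,[])]),(623,[(348,[197,385,159,194]),(53,[157,159,156]),(36,[159,144]),(159,[156]),(156,[])]),(72,[(24,[47,38,158]),(61,[31,144]),(635,[198]),(30,[])]),(96,[(47,[31,144]),(38,[146]),(158,[])]),(143,[(31,[144]),(144,[])]),(635,[(264,[])]),(191,[])], 4135⟩,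
  ⟨[(-3,0),(-2,1)], [(0,-2),(0,2),(1,-2),(1,1),(2,-2),(2,-1),(2,0),(1,-1),(1,0)], [(502,[(83,[29,35,60,401,60,35,29]),(29,[107,46,48,73,157,37]),(107,[381,419,335,225,229]),(60,[24,61,146,30]),(95,[47,193,158]),(119,[205,144]),(35,[265]),(169,[])]),(83,[(646,[361,329,413,373,237,217]),(35,[81,53,36,45,156]),(113,[449,313,146,206]),(89,[394,161,201]),(60,[28,144]),(648,[197]),(29,[])]),(646,[(107,[345,437,337,304,301]),(46,[24,61,146,30]),(48,[47,157,158]),(73,[200,144]),(157,[265]),(37,[])]),(107,[(81,[197,385,146,194]),(53,[157,161,156]),(36,[28,144]),(45,[145]),(156,[])]),(142,[(24,[47,146,158]),(61,[146,144]),(146,[30]),(30,[])]),(288,[(47,[161,144]),(161,[158]),(158,[])]),(132,[(28,[144]),(144,[])]),(648,[(265,[])]),(180,[])], 4690⟩,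
  ⟨[(-4,2),(-2,0)], [(-1,2),(0,2),(1,-2),(1,1),(2,-2),(2,-1),(2,0),(0,1),(1,-1),(1,0)], [(671,[(37,[94,35,118,89,60,145,168,29]),(94,[48,46,48,349,157,157,313]),(48,[81,53,36,239,45,156]),(118,[370,382,230,146,226]),(106,[346,302,228,305]),(82,[195,28,144]),(157,[168,264]),(168,[394]),(46,[])]),(683,[(94,[361,329,413,373,145,237,217]),(35,[81,53,36,145,45,156]),(118,[449,313,145,146,206]),(89,[394,145,228,201]),(60,[145,28,144]),(145,[168,29]),(168,[197]),(29,[])]),(94,[(97,[345,437,337,239,304,301]),(46,[24,61,684,146,30]),(48,[47,38,228,158]),(73,[31,200,144]),(684,[197,385]),(157,[265]),(37,[])]),(131,[(81,[197,385,239,146,194]),(53,[157,239,228,156]),(36,[239,28,144]),(239,[45,156]),(45,[145]),(156,[])]),(118,[(24,[47,38,146,158]),(61,[31,146,144]),(684,[146,198]),(146,[30]),(30,[])]),(120,[(47,[31,228,144]),(38,[228,146]),(228,[158]),(158,[])]),(240,[(31,[28,144]),(28,[144]),(144,[])]),(684,[(168,[157]),(264,[])]),(168,[(265,[])]),(252,[])],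 4972⟩,
  ⟨[(-4,1),(-2,1)], [(0,-2),(0,2),(1,-2),(1,1),(2,-2),(2,-1),(2,0),(1,-1),(1,0)], [(706,[(83,[29,35,60,401,60,35,29]),(29,[107,46,48,73,157,37]),(107,[381,419,335,225,229]),(60,[24,61,146,30]),(95,[47,193,158]),(119,[205,144]),(35,[265]),(169,[])]),(83,[(101,[361,329,413,373,237,217]),(35,[81,53,36,45,156]),(113,[449,313,146,206]),(89,[394,161,201]),(60,[28,144]),(177,[197]),(29,[])]),(101,[(107,[345,437,337,304,301]),(46,[24,61,146,30]),(48,[47,157,158]),(73,[200,144]),(157,[265]),(37,[])]),(107,[(81,[197,385,146,194]),(53,[157,161,156]),(36,[28,144]),(45,[145]),(156,[])]),(142,[(24,[47,146,158]),(61,[146,144]),(146,[30]),(30,[])]),(288,[(47,[161,144]),(161,[158]),(158,[])]),(132,[(28,[144]),(144,[])]),(190,[(265,[])]),(180,[])], 4860⟩,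
  ⟨[(-4,1),(-2,0)], [(-1,2),(0,2),(1,-2),(1,1),(2,-2),(2,-1),(2,0),(0,1),(1,-1),(1,0)], [(719,[(37,[94,35,118,89,60,145,168,29]),(94,[48,46,48,349,157,157,313]),(48,[81,53,36,239,45,156]),(118,[370,382,230,146,226]),(106,[346,302,228,305]),(82,[195,28,144]),(157,[168,264]),(168,[394]),(46,[])]),(109,[(94,[361,329,413,373,145,237,217]),(35,[81,53,36,145,45,156]),(118,[449,313,145,146,206]),(89,[394,145,228,201]),(60,[145,28,144]),(145,[168,29]),(168,[197]),(29,[])]),(94,[(97,[345,437,337,239,304,301]),(46,[24,61,731,146,30]),(48,[47,38,228,158]),(73,[31,200,144]),(731,[197,385]),(157,[265]),(37,[])]),(131,[(81,[197,385,239,146,194]),(53,[157,239,228,156]),(36,[239,28,144]),(239,[45,156]),(45,[145]),(156,[])]),(118,[(24,[47,38,146,158]),(61,[31,146,144]),(731,[146,198]),(146,[30]),(30,[])]),(120,[(47,[31,228,144]),(38,[228,146]),(228,[158]),(158,[])]),(240,[(31,[28,144]),(28,[144]),(144,[])]),(731,[(168,[157]),(264,[])]),(168,[(265,[])]),(252,[])],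 5108⟩,
  ⟨[(-1,0),(1,0)], [], [], 4⟩,
  ⟨[(-1,0),(0,1)], [(2,-2)], [(737,[])], 721⟩,
  ⟨[(-3,1),(-1,1)], [(0,-2),(1,-2),(2,-2),(2,-1),(2,0)], [(533,[(29,[46,48,517]),(60,[346,492]),(95,[480]),(119,[])]),(550,[(46,[346,492]),(48,[480]),(517,[])]),(749,[(346,[480]),(492,[])]),(766,[(480,[])]),(504,[])], 3152⟩,
  ⟨[(-3,1),(-1,0)], [(0,2),(1,1),(2,-2),(2,-1),(2,0)], [(611,[(35,[525,53,36]),(113,[449,313]),(89,[394]),(60,[])]),(623,[(525,[197,385]),(53,[157]),(36,[])]),(514,[(24,[47]),(61,[])]),(756,[(47,[])]),(744,[])], 3251⟩,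
  ⟨[(-2,1),(1,-1)], [(0,2)], [(527,[])], 638⟩,
  ⟨[(-2,1),(2,-1)], [(0,-2),(0,2)], [(353,[(350,[])]),(350,[])], 1105⟩,
  ⟨[(-2,0),(1,1)], [(1,-2),(2,-2)], [(94,[(345,[])]),(81,[])], 1204⟩,
  ⟨[(-3,1),(1,0)], [(0,-2)], [(773,[])], 606⟩,
  ⟨[(-4,0),(-2,0)], [(-1,2),(0,2),(1,-2),(1,1),(2,-2),(2,-1),(2,0),(0,1),(1,-1),(1,0)], [(85,[(37,[94,35,118,89,60,145,168,29]),(94,[48,46,48,349,157,157,313]),(48,[81,53,36,239,45,156]),(118,[370,382,230,146,226]),(106,[346,302,228,305]),(82,[195,28,144]),(157,[168,264]),(168,[394]),(46,[])]),(109,[(94,[361,329,413,373,145,237,217]),(35,[81,53,36,145,45,156]),(118,[449,313,145,146,206]),(89,[394,145,228,201]),(60,[145,28,144]),(145,[168,29]),(168,[197]),(29,[])]),(94,[(97,[345,437,337,239,304,301]),(46,[24,61,179,146,30]),(48,[47,38,228,158]),(73,[31,200,144]),(179,[197,385]),(157,[265]),(37,[])]),(131,[(81,[197,385,239,146,194]),(53,[157,239,228,156]),(36,[239,28,144]),(239,[45,156]),(45,[145]),(156,[])]),(118,[(24,[47,38,146,158]),(61,[31,146,144]),(179,[146,198]),(146,[30]),(30,[])]),(120,[(47,[31,228,144]),(38,[228,146]),(228,[158]),(158,[])]),(240,[(31,[28,144]),(28,[144]),(144,[])]),(179,[(168,[157]),(264,[])]),(168,[(265,[])]),(252,[])],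 5149⟩,
  ⟨[(-3,0),(-1,0)], [(0,2),(1,1),(2,-2),(2,-1),(2,0)], [(505,[(35,[525,53,36]),(113,[449,313]),(89,[394]),(60,[])]),(767,[(525,[197,385]),(53,[157]),(36,[])]),(514,[(24,[47]),(61,[])]),(756,[(47,[])]),(744,[])], 3297⟩,
  ⟨[(-1,0),(-1,1)], [(2,-2),(2,-1),(2,0)], [(514,[(346,[480]),(492,[])]),(756,[(480,[])]),(504,[])], 2034⟩,
  ⟨[(-2,1)], [(0,-2),(0,2),(1,-2),(1,1),(2,-2),(2,-1),(2,0),(1,-1),(1,0)], [(77,[(83,[29,35,60,401,60,35,29]),(29,[107,46,48,73,157,37]),(107,[381,419,335,225,229]),(60,[24,61,146,30]),(95,[47,193,158]),(119,[205,144]),(35,[265]),(169,[])]),(83,[(101,[361,329,413,373,237,217]),(35,[81,53,36,45,156]),(113,[449,313,146,206]),(89,[394,161,201]),(60,[28,144]),(177,[197]),(29,[])]),(101,[(107,[345,437,337,304,301]),(46,[24,61,146,30]),(48,[47,157,158]),(73,[200,144]),(157,[265]),(37,[])]),(107,[(81,[197,385,146,194]),(53,[157,161,156]),(36,[28,144]),(45,[145]),(156,[])]),(142,[(24,[47,146,158]),(61,[146,144]),(146,[30]),(30,[])]),(288,[(47,[161,144]),(161,[158]),(158,[])]),(132,[(28,[144]),(144,[])]),(190,[(265,[])]),(180,[])],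 4911⟩,
  ⟨[(-4,2),(-2,1)], [(0,-2),(0,2),(1,-2),(1,1),(2,-2),(2,-1),(2,0),(1,-1),(1,0)], [(77,[(83,[29,35,60,401,60,35,29]),(29,[107,46,48,73,157,37]),(107,[381,419,335,225,229]),(60,[24,61,146,30]),(95,[47,193,158]),(119,[205,144]),(35,[265]),(169,[])]),(83,[(101,[361,329,413,373,237,217]),(35,[81,53,36,45,156]),(113,[449,313,146,206]),(89,[394,161,201]),(60,[28,144]),(177,[197]),(29,[])]),(101,[(107,[345,437,337,304,301]),(46,[24,61,146,30]),(48,[47,157,158]),(73,[200,144]),(157,[265]),(37,[])]),(107,[(81,[197,385,146,194]),(53,[157,161,156]),(36,[28,144]),(45,[145]),(156,[])]),(142,[(24,[47,146,158]),(61,[146,144]),(146,[30]),(30,[])]),(288,[(47,[161,144]),(161,[158]),(158,[])]),(132,[(28,[144]),(144,[])]),(190,[(265,[])]),(180,[])], 4911⟩,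
  ⟨[(-2,0),(1,0)], [], [], 4⟩,
  ⟨[(-2,0),(0,2)], [(1,-2),(2,-2),(2,-1),(1,-1)], [(94,[(329,[449,146]),(413,[228]),(237,[])]),(118,[(449,[146]),(146,[])]),(89,[(228,[])]),(168,[])], 2099⟩,
  ⟨[(-4,2),(0,-1)], [(-1,2),(0,2),(1,1),(2,0)], [(671,[(37,[337,503]),(48,[491]),(526,[])]),(683,[(337,[491]),(503,[])]),(757,[(491,[])]),(515,[])], 2383⟩,
  ⟨[(-3,1),(0,1)], [(0,-2),(1,-2),(2,-2)], [(533,[(345,[485]),(497,[])]),(550,[(485,[])]),(509,[])], 1885⟩,
  ⟨[(-3,1),(-1,3)], [(0,-2),(1,-2),(2,-2),(2,-1),(2,0),(0,-1),(1,-1),(1,0)], [(533,[(29,[46,48,790,145,157,569]),(60,[797,814,145,146,557]),(95,[370,145,193,233]),(538,[145,205,144]),(145,[35,485]),(35,[449]),(485,[])]),(550,[(46,[797,814,238,146,557]),(48,[370,238,157,233]),(790,[238,200,144]),(238,[157,569]),(157,[449]),(569,[])]),(17,[(797,[370,562,146,233]),(814,[562,146,144]),(562,[146,557]),(146,[449]),(557,[])]),(545,[(370,[574,161,144]),(574,[144,233]),(161,[233]),(233,[])]),(538,[(490,[196,144]),(28,[144]),(144,[])]),(490,[(264,[449]),(485,[])]),(586,[(449,[])]),(485,[])],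 3770⟩,
  ⟨[(-3,0),(0,1)], [(0,-2),(1,-2),(2,-2)], [(502,[(345,[485]),(497,[])]),(646,[(485,[])]),(509,[])], 1713⟩,
  ⟨[(-3,1),(0,2)], [(0,-2),(1,-2),(2,-2),(2,-1),(0,-1),(1,-1)], [(533,[(29,[329,413,145,237]),(60,[449,145,146]),(401,[145,193]),(145,[345]),(35,[])]),(550,[(329,[449,238,146]),(413,[238,237]),(238,[237]),(237,[])]),(113,[(449,[562,146]),(562,[146]),(146,[])]),(89,[(574,[144]),(161,[])]),(490,[(345,[])]),(177,[])], 2911⟩,
  ⟨[(-2,0),(0,1)], [(1,-2),(2,-2)], [(94,[(485,[])]),(118,[])], 1280⟩,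
  ⟨[(-3,1),(1,-3)], [(-1,2),(0,2),(1,1),(2,-1),(2,0),(0,1),(1,0)], [(599,[(37,[35,817,60,145,29]),(48,[829,841,157,156]),(589,[346,302,305]),(82,[195,144]),(157,[361]),(46,[])]),(611,[(35,[829,841,145,156]),(817,[394,145,201]),(60,[145,144]),(145,[361]),(29,[])]),(623,[(829,[157,159,156]),(841,[159,144]),(159,[156]),(156,[])]),(589,[(47,[31,144]),(38,[146]),(158,[])]),(601,[(31,[144]),(144,[])]),(635,[(361,[])]),(625,[])], 3371⟩,
  ⟨[(-3,1),(1,-2)], [(-1,2),(0,2),(1,1),(2,0),(0,1)], [(599,[(37,[361,373,145]),(48,[337,157]),(349,[195]),(157,[])]),(611,[(361,[337,145]),(373,[145]),(145,[])]),(97,[(337,[159]),(159,[])]),(73,[(31,[])]),(635,[])], 2611⟩,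
  ⟨[(-2,1),(-1,0)], [(0,2),(1,1),(2,-2),(2,-1),(2,0)], [(83,[(35,[525,53,36]),(113,[449,313]),(89,[394]),(60,[])]),(107,[(525,[197,385]),(53,[157]),(36,[])]),(514,[(24,[47]),(61,[])]),(288,[(47,[])]),(132,[])], 3194⟩,
  ⟨[(-2,1),(1,-2)], [(0,2),(1,1),(2,0)], [(83,[(361,[337]),(373,[])]),(107,[(337,[])]),(73,[])], 1843⟩,
  ⟨[(-3,1),(1,-1)], [(-1,2),(0,2)], [(599,[(486,[])]),(611,[])], 1172⟩,
  ⟨[(-1,0)], [(0,2),(1,1),(2,-2),(2,-1),(2,0)], [(505,[(35,[525,53,36]),(113,[449,313]),(89,[394]),(60,[])]),(767,[(525,[197,385]),(53,[157]),(36,[])]),(514,[(24,[47]),(61,[])]),(756,[(47,[])]),(744,[])], 3297⟩,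
  ⟨[(-2,0),(-1,0)], [(0,2),(1,1),(2,-2),(2,-1),(2,0)], [(109,[(35,[525,53,36]),(118,[449,313]),(89,[394]),(60,[])]),(131,[(525,[197,385]),(53,[157]),(36,[])]),(118,[(24,[47]),(61,[])]),(120,[(47,[])]),(240,[])], 3284⟩,
  ⟨[(-3,1),(0,-1)], [(-1,2),(0,2),(1,1),(2,0)], [(599,[(37,[337,503]),(48,[491]),(526,[])]),(611,[(337,[491]),(503,[])]),(623,[(491,[])]),(515,[])], 2425⟩,
  ⟨[(-3,1),(0,-2)], [(-1,2),(0,2),(1,1),(2,-1),(2,0),(0,1),(1,0)], [(599,[(37,[35,401,60,145,29]),(48,[419,335,157,229]),(95,[346,302,305]),(82,[195,144]),(157,[337]),(46,[])]),(611,[(35,[419,335,145,229]),(401,[394,145,201]),(60,[145,144]),(145,[337]),(29,[])]),(623,[(419,[157,159,229]),(335,[159,144]),(159,[229]),(229,[])]),(95,[(47,[31,144]),(38,[146]),(158,[])]),(119,[(31,[144]),(144,[])]),(635,[(337,[])]),(169,[])], 3482⟩,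
  ⟨[(-3,1),(-2,0)], [(-1,2),(0,2),(1,-2),(1,1),(2,-2),(2,-1),(2,0),(0,1),(1,-1),(1,0)], [(599,[(37,[94,35,118,89,60,145,168,29]),(94,[48,46,48,349,157,157,313]),(48,[81,53,36,239,45,156]),(118,[370,382,230,146,226]),(106,[346,302,228,305]),(82,[195,28,144]),(157,[168,264]),(168,[394]),(46,[])]),(611,[(94,[361,329,413,373,145,237,217]),(35,[81,53,36,145,45,156]),(118,[449,313,145,146,206]),(89,[394,145,228,201]),(60,[145,28,144]),(145,[168,29]),(168,[197]),(29,[])]),(94,[(97,[345,437,337,239,304,301]),(46,[24,61,635,146,30]),(48,[47,38,228,158]),(73,[31,200,144]),(635,[197,385]),(157,[265]),(37,[])]),(623,[(81,[197,385,239,146,194]),(53,[157,239,228,156]),(36,[239,28,144]),(239,[45,156]),(45,[145]),(156,[])]),(118,[(24,[47,38,146,158]),(61,[31,146,144]),(635,[146,198]),(146,[30]),(30,[])]),(120,[(47,[31,228,144]),(38,[228,146]),(228,[158]),(158,[])]),(240,[(31,[28,144]),(28,[144]),(144,[])]),(635,[(168,[157]),(264,[])]),(168,[(265,[])]),(852,[])],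 5024⟩,
  ⟨[(-3,1),(-2,3)], [(0,-2),(1,-2),(1,1),(2,-2),(2,-1),(2,0),(0,-1),(1,-1),(1,0)], [(533,[(29,[598,46,48,73,145,157,37]),(598,[381,419,335,145,225,229]),(60,[24,61,145,146,30]),(95,[850,145,193,158]),(610,[145,205,144]),(145,[35,634]),(35,[370]),(634,[])]),(550,[(598,[345,437,337,238,304,301]),(46,[24,61,238,146,30]),(48,[850,238,157,158]),(73,[238,200,144]),(238,[157,37]),(157,[370]),(37,[])]),(598,[(81,[197,385,562,146,194]),(53,[157,574,161,156]),(36,[490,28,144]),(490,[393,203]),(45,[145]),(156,[])]),(17,[(24,[850,562,146,158]),(61,[562,146,144]),(562,[146,30]),(146,[370]),(30,[])]),(622,[(850,[574,161,144]),(574,[144,158]),(161,[158]),(158,[])]),(610,[(490,[196,144]),(28,[144]),(144,[])]),(490,[(264,[370]),(634,[])]),(586,[(370,[])]),(634,[])], 4338⟩,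
  ⟨[(-3,0),(-2,2)], [(0,-2),(1,-2),(1,1),(2,-2),(2,-1),(2,0),(0,-1),(1,-1),(1,0)], [(502,[(29,[84,46,48,73,145,157,37]),(84,[381,419,335,145,225,229]),(60,[24,61,145,146,30]),(95,[324,145,193,238]),(108,[145,205,144]),(145,[35,178]),(35,[346]),(178,[])]),(646,[(84,[345,437,337,233,304,301]),(46,[24,61,233,146,30]),(48,[324,233,157,238]),(73,[233,200,144]),(233,[157,37]),(157,[346]),(37,[])]),(84,[(81,[197,385,552,146,194]),(53,[157,336,161,238]),(36,[336,28,144]),(336,[393,203]),(45,[145]),(156,[])]),(245,[(24,[324,552,146,238]),(61,[552,146,144]),(552,[146,30]),(146,[346]),(30,[])]),(130,[(324,[336,161,144]),(336,[144,238]),(161,[238]),(238,[])]),(108,[(336,[196,144]),(28,[144]),(144,[])]),(336,[(264,[346]),(178,[])]),(648,[(346,[])]),(178,[])], 4236⟩,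
  ⟨[(-4,1),(-1,-1)], [(-2,2),(-1,2),(0,2),(1,1),(2,-2),(2,-1),(2,0),(0,1),(1,0)], [(383,[(30,[37,48,72,96,82,157,46]),(61,[35,72,89,60,145,29]),(84,[348,53,36,202,156]),(72,[24,61,24,30]),(96,[324,218,238]),(108,[204,144]),(24,[264]),(178,[])]),(719,[(37,[35,72,89,60,145,29]),(48,[348,53,36,157,156]),(72,[370,382,230,226]),(96,[346,302,305]),(82,[195,144]),(157,[264]),(46,[])]),(133,[(35,[348,53,36,145,156]),(72,[449,313,145,206]),(89,[394,145,201]),(60,[145,144]),(145,[29]),(29,[])]),(289,[(348,[197,385,159,194]),(53,[157,159,156]),(36,[159,144]),(159,[156]),(156,[])]),(72,[(24,[47,38,158]),(61,[31,144]),(731,[198]),(30,[])]),(96,[(47,[31,144]),(38,[146]),(158,[])]),(143,[(31,[144]),(144,[])]),(731,[(264,[])]),(191,[])], 4587⟩,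
  ⟨[(-3,1),(2,-1)], [(-1,2),(0,-2),(0,2)], [(599,[(785,[338]),(338,[])]),(785,[(74,[])]),(74,[])], 1640⟩,
  ⟨[(-3,1),(2,-2)], [(-1,2),(0,2),(1,1),(0,1)], [(599,[(330,[450,145]),(414,[230]),(230,[])]),(611,[(450,[145]),(145,[])]),(90,[(159,[])]),(635,[])], 1978⟩,
  ⟨[(-4,2),(-1,0)], [(0,2),(1,1),(2,-2),(2,-1),(2,0)], [(683,[(35,[525,53,36]),(113,[449,313]),(89,[394]),(60,[])]),(767,[(525,[197,385]),(53,[157]),(36,[])]),(514,[(24,[47]),(61,[])]),(756,[(47,[])]),(744,[])], 3237⟩,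
  ⟨[(-3,1),(-1,2)], [(0,-2),(1,-2),(2,-2),(2,-1),(2,0),(0,-1),(1,-1)], [(533,[(29,[46,48,349,145,157]),(60,[370,382,145,146]),(95,[346,145,193]),(82,[145,205]),(145,[35]),(35,[])]),(550,[(46,[370,382,238,146]),(48,[346,238,157]),(349,[238,200]),(238,[157]),(157,[])]),(137,[(370,[346,562,146]),(382,[562,146]),(562,[146]),(146,[])]),(106,[(346,[574,161]),(574,[144]),(161,[])]),(82,[(490,[196]),(28,[])]),(490,[(264,[])]),(586,[])], 3569⟩,
  ⟨[(-4,1),(-2,2)], [(-1,-1),(0,-2),(1,-2),(1,1),(2,-2),(2,-1),(2,0),(0,-1),(1,-1),(1,0)], [(418,[(45,[29,84,60,95,108,145,35,178]),(53,[84,46,48,73,233,157,37]),(84,[348,53,36,156,312,156]),(72,[24,61,199,146,30]),(96,[324,303,300,238]),(108,[236,216,144]),(156,[264,178]),(36,[346]),(178,[])]),(706,[(29,[84,46,48,73,145,157,37]),(84,[381,419,335,145,225,229]),(60,[24,61,145,146,30]),(95,[324,145,193,238]),(108,[145,205,144]),(145,[35,178]),(35,[346]),(178,[])]),(125,[(84,[345,437,337,233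,304,301]),(46,[24,61,233,146,30]),(48,[324,233,157,238]),(73,[233,200,144]),(233,[157,37]),(157,[346]),(37,[])]),(84,[(81,[197,385,27,146,194]),(53,[157,334,161,238]),(36,[334,28,144]),(334,[393,203]),(45,[145]),(156,[])]),(245,[(24,[324,27,146,238]),(61,[27,146,144]),(27,[146,30]),(146,[346]),(30,[])]),(130,[(324,[334,161,144]),(334,[144,238]),(161,[238]),(238,[])]),(108,[(334,[196,144]),(28,[144]),(144,[])]),(334,[(264,[346]),(178,[])]),(257,[(346,[])]),(178,[])], 4775⟩,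
  ⟨[(-4,0),(-2,1)], [(0,-2),(0,2),(1,-2),(1,1),(2,-2),(2,-1),(2,0),(1,-1),(1,0)], [(874,[(83,[29,35,60,401,60,35,29]),(29,[107,46,48,73,157,37]),(107,[381,419,335,225,229]),(60,[24,61,146,30]),(95,[47,193,158]),(119,[205,144]),(35,[265]),(169,[])]),(83,[(101,[361,329,413,373,237,217]),(35,[81,53,36,45,156]),(113,[449,313,146,206]),(89,[394,161,201]),(60,[28,144]),(177,[197]),(29,[])]),(101,[(107,[345,437,337,304,301]),(46,[24,61,146,30]),(48,[47,157,158]),(73,[200,144]),(157,[265]),(37,[])]),(107,[(81,[197,385,146,194]),(53,[157,161,156]),(36,[28,144]),(45,[145]),(156,[])]),(142,[(24,[47,146,158]),(61,[146,144]),(146,[30]),(30,[])]),(288,[(47,[161,144]),(161,[158]),(158,[])]),(132,[(28,[144]),(144,[])]),(190,[(265,[])]),(180,[])], 4783⟩,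
  ⟨[(-3,0),(-1,1)], [(0,-2),(1,-2),(2,-2),(2,-1),(2,0)], [(502,[(29,[46,48,517]),(60,[346,492]),(95,[480]),(119,[])]),(646,[(46,[346,492]),(48,[480]),(517,[])]),(749,[(346,[480]),(492,[])]),(766,[(480,[])]),(504,[])], 2980⟩,
  ⟨[(-4,2),(-1,-1)], [(-1,2),(0,2),(1,1),(2,-2),(2,-1),(2,0),(0,1),(1,0)], [(671,[(37,[35,72,89,60,145,29]),(48,[348,53,36,157,156]),(72,[370,382,230,226]),(96,[346,302,305]),(82,[195,144]),(157,[264]),(46,[])]),(683,[(35,[348,53,36,145,156]),(72,[449,313,145,206]),(89,[394,145,201]),(60,[145,144]),(145,[29]),(29,[])]),(289,[(348,[197,385,159,194]),(53,[157,159,156]),(36,[159,144]),(159,[156]),(156,[])]),(72,[(24,[47,38,158]),(61,[31,144]),(684,[198]),(30,[])]),(96,[(47,[31,144]),(38,[146]),(158,[])]),(143,[(31,[144]),(144,[])]),(684,[(264,[])]),(191,[])], 4090⟩,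
  ⟨[(-4,1),(-1,1)], [(0,-2),(1,-2),(2,-2),(2,-1),(2,0)], [(706,[(29,[46,48,517]),(60,[346,492]),(95,[480]),(119,[])]),(761,[(46,[346,492]),(48,[480]),(517,[])]),(749,[(346,[480]),(492,[])]),(766,[(480,[])]),(504,[])], 3169⟩,
  ⟨[(-3,0),(-1,2)], [(0,-2),(1,-2),(2,-2),(2,-1),(2,0),(0,-1),(1,-1)], [(502,[(29,[46,48,349,145,157]),(60,[370,382,145,146]),(95,[346,145,193]),(82,[145,205]),(145,[35]),(35,[])]),(646,[(46,[370,382,160,146]),(48,[346,160,157]),(349,[160,200]),(160,[157]),(157,[])]),(137,[(370,[346,552,146]),(382,[552,146]),(552,[146]),(146,[])]),(106,[(346,[336,161]),(336,[144]),(161,[])]),(82,[(336,[196]),(28,[])]),(336,[(264,[])]),(648,[])], 3352⟩,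
  ⟨[(-4,0),(-2,2)], [(-1,-1),(0,-2),(1,-2),(1,1),(2,-2),(2,-1),(2,0),(0,-1),(1,-1),(1,0)], [(828,[(45,[29,84,60,95,108,145,35,178]),(53,[84,46,48,73,233,157,37]),(84,[348,53,36,156,312,156]),(72,[24,61,199,146,30]),(96,[324,303,300,238]),(108,[236,216,144]),(156,[264,178]),(36,[346]),(178,[])]),(874,[(29,[84,46,48,73,145,157,37]),(84,[381,419,335,145,225,229]),(60,[24,61,145,146,30]),(95,[324,145,193,238]),(108,[145,205,144]),(145,[35,178]),(35,[346]),(178,[])]),(125,[(84,[345,437,337,233,304,301]),(46,[24,61,233,146,30]),(48,[324,233,157,238]),(73,[233,200,144]),(233,[157,37]),(157,[346]),(37,[])]),(84,[(81,[197,385,27,146,194]),(53,[157,840,161,238]),(36,[840,28,144]),(840,[393,203]),(45,[145]),(156,[])]),(245,[(24,[324,27,146,238]),(61,[27,146,144]),(27,[146,30]),(146,[346]),(30,[])]),(130,[(324,[840,161,144]),(840,[144,238]),(161,[238]),(238,[])]),(108,[(840,[196,144]),(28,[144]),(144,[])]),(840,[(264,[346]),(178,[])]),(257,[(346,[])]),(178,[])],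 4615⟩,
  ⟨[(-4,1),(0,-1)], [(-2,2),(-1,2),(0,2),(1,1),(2,0)], [(383,[(30,[37,48,526]),(61,[337,503]),(84,[491]),(108,[])]),(719,[(37,[337,503]),(48,[491]),(526,[])]),(745,[(337,[491]),(503,[])]),(757,[(491,[])]),(515,[])], 2871⟩,
  ⟨[(-4,1),(0,-2)], [(-2,2),(-1,2),(0,2),(1,1),(2,-1),(2,0),(-1,1),(0,1),(1,0)], [(383,[(30,[37,48,95,82,146,157,46]),(61,[35,401,60,146,145,29]),(84,[419,335,146,202,229]),(95,[324,146,218,238]),(108,[146,204,144]),(146,[24,178]),(24,[337]),(178,[])]),(719,[(37,[35,401,60,234,145,29]),(48,[419,335,234,157,229]),(95,[346,234,302,305]),(82,[234,195,144]),(234,[157,46]),(157,[337]),(46,[])]),(241,[(35,[419,335,371,145,229]),(401,[394,371,145,201]),(60,[371,145,144]),(371,[145,29]),(145,[337]),(29,[])]),(121,[(419,[157,371,159,229]),(335,[371,159,144]),(371,[144,229]),(159,[229]),(229,[])]),(95,[(47,[371,31,144]),(371,[386,192]),(38,[146]),(158,[])]),(119,[(371,[199,144]),(31,[144]),(144,[])]),(371,[(265,[337]),(169,[])]),(731,[(337,[])]),(169,[])],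 4110⟩,
  ⟨[(-4,1),(-1,2)], [(-1,-1),(0,-2),(1,-2),(2,-2),(2,-1),(2,0),(0,-1),(1,-1)], [(418,[(45,[29,60,95,82,145,35]),(53,[46,48,349,156,157]),(72,[370,382,199,146]),(96,[346,303,300]),(82,[236,216]),(156,[264]),(36,[])]),(706,[(29,[46,48,349,145,157]),(60,[370,382,145,146]),(95,[346,145,193]),(82,[145,205]),(145,[35]),(35,[])]),(293,[(46,[370,382,160,146]),(48,[346,160,157]),(349,[160,200]),(160,[157]),(157,[])]),(137,[(370,[346,27,146]),(382,[27,146]),(27,[146]),(146,[])]),(106,[(346,[334,161]),(334,[144]),(161,[])]),(82,[(334,[196]),(28,[])]),(334,[(264,[])]),(185,[])], 3883⟩,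
  ⟨[(-4,0),(-1,1)], [(0,-2),(1,-2),(2,-2),(2,-1),(2,0)], [(874,[(29,[46,48,517]),(60,[346,492]),(95,[480]),(119,[])]),(761,[(46,[346,492]),(48,[480]),(517,[])]),(749,[(346,[480]),(492,[])]),(766,[(480,[])]),(504,[])], 3091⟩,
  ⟨[(-3,1),(-2,-1)], [(-1,2),(0,2),(1,-2),(1,1),(2,-2),(2,-1),(2,0),(0,1),(1,-1),(1,0)], [(599,[(37,[588,35,600,89,60,145,624,29]),(588,[48,46,48,349,157,157,313]),(48,[81,53,36,157,45,156]),(600,[370,382,230,146,226]),(106,[346,302,161,305]),(82,[195,28,144]),(157,[624,264]),(624,[394]),(46,[])]),(611,[(588,[361,329,413,373,145,237,217]),(35,[81,53,36,145,45,156]),(600,[449,313,145,146,206]),(89,[394,145,161,201]),(60,[145,28,144]),(145,[624,29]),(624,[197]),(29,[])]),(588,[(97,[345,437,337,159,304,301]),(46,[24,61,635,146,30]),(48,[47,38,157,158]),(73,[31,200,144]),(635,[197,385]),(157,[265]),(37,[])]),(623,[(81,[197,385,159,146,194]),(53,[157,159,161,156]),(36,[159,28,144]),(159,[45,156]),(45,[145]),(156,[])]),(600,[(24,[47,38,146,158]),(61,[31,146,144]),(635,[146,198]),(146,[30]),(30,[])]),(612,[(47,[31,161,144]),(38,[161,146]),(161,[158]),(158,[])]),(12,[(31,[28,144]),(28,[144]),(144,[])]),(635,[(624,[157]),(264,[])]),(624,[(265,[])]),(852,[])],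 4907⟩,
  ⟨[(-3,0),(-2,0)], [(-1,2),(0,2),(1,-2),(1,1),(2,-2),(2,-1),(2,0),(0,1),(1,-1),(1,0)], [(637,[(37,[646,35,118,89,60,145,648,29]),(646,[48,46,48,349,157,157,313]),(48,[81,53,36,239,45,156]),(118,[370,382,230,146,226]),(106,[346,302,228,305]),(82,[195,28,144]),(157,[648,264]),(648,[394]),(46,[])]),(109,[(646,[361,329,413,373,145,237,217]),(35,[81,53,36,145,45,156]),(118,[449,313,145,146,206]),(89,[394,145,228,201]),(60,[145,28,144]),(145,[648,29]),(648,[197]),(29,[])]),(646,[(97,[345,437,337,239,304,301]),(46,[24,61,659,146,30]),(48,[47,38,228,158]),(73,[31,200,144]),(659,[197,385]),(157,[265]),(37,[])]),(131,[(81,[197,385,239,146,194]),(53,[157,239,228,156]),(36,[239,28,144]),(239,[45,156]),(45,[145]),(156,[])]),(118,[(24,[47,38,146,158]),(61,[31,146,144]),(659,[146,198]),(146,[30]),(30,[])]),(120,[(47,[31,228,144]),(38,[228,146]),(228,[158]),(158,[])]),(240,[(31,[28,144]),(28,[144]),(144,[])]),(659,[(648,[157]),(264,[])]),(648,[(265,[])]),(876,[])],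 5138⟩,
  ⟨[(-3,1),(-2,1)], [(0,-2),(0,2),(1,-2),(1,1),(2,-2),(2,-1),(2,0),(1,-1),(1,0)], [(533,[(83,[29,35,60,401,60,35,29]),(29,[107,46,48,73,157,37]),(107,[381,419,335,225,229]),(60,[24,61,146,30]),(95,[47,193,158]),(119,[205,144]),(35,[265]),(169,[])]),(83,[(550,[361,329,413,373,237,217]),(35,[81,53,36,45,156]),(113,[449,313,146,206]),(89,[394,161,201]),(60,[28,144]),(177,[197]),(29,[])]),(550,[(107,[345,437,337,304,301]),(46,[24,61,146,30]),(48,[47,157,158]),(73,[200,144]),(157,[265]),(37,[])]),(107,[(81,[197,385,146,194]),(53,[157,161,156]),(36,[28,144]),(45,[145]),(156,[])]),(142,[(24,[47,146,158]),(61,[146,144]),(146,[30]),(30,[])]),(288,[(47,[161,144]),(161,[158]),(158,[])]),(132,[(28,[144]),(144,[])]),(586,[(265,[])]),(180,[])], 4865⟩,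
  ⟨[(-3,0),(-2,3)], [(0,-2),(1,-2),(1,1),(2,-2),(2,-1),(2,0),(0,-1),(1,-1),(1,0)], [(502,[(29,[598,46,48,73,145,157,37]),(598,[381,419,335,145,225,229]),(60,[24,61,145,146,30]),(95,[850,145,193,158]),(610,[145,205,144]),(145,[35,634]),(35,[370]),(634,[])]),(646,[(598,[345,437,337,160,304,301]),(46,[24,61,160,146,30]),(48,[850,160,157,158]),(73,[160,200,144]),(160,[157,37]),(157,[370]),(37,[])]),(598,[(81,[197,385,552,146,194]),(53,[157,336,161,156]),(36,[336,28,144]),(336,[393,203]),(45,[145]),(156,[])]),(17,[(24,[850,552,146,158]),(61,[552,146,144]),(552,[146,30]),(146,[370]),(30,[])]),(622,[(850,[336,161,144]),(336,[144,158]),(161,[158]),(158,[])]),(610,[(336,[196,144]),(28,[144]),(144,[])]),(336,[(264,[370]),(634,[])]),(648,[(370,[])]),(634,[])], 4121⟩,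
  ⟨[(-3,0),(-1,3)], [(0,-2),(1,-2),(2,-2),(2,-1),(2,0),(0,-1),(1,-1),(1,0)], [(502,[(29,[46,48,790,145,157,569]),(60,[797,814,145,146,557]),(95,[370,145,193,233]),(538,[145,205,144]),(145,[35,485]),(35,[449]),(485,[])]),(646,[(46,[797,814,160,146,557]),(48,[370,160,157,233]),(790,[160,200,144]),(160,[157,569]),(157,[449]),(569,[])]),(17,[(797,[370,552,146,233]),(814,[552,146,144]),(552,[146,557]),(146,[449]),(557,[])]),(545,[(370,[336,161,144]),(336,[144,233]),(161,[233]),(233,[])]),(538,[(336,[196,144]),(28,[144]),(144,[])]),(336,[(264,[449]),(485,[])]),(648,[(449,[])]),(485,[])], 3553⟩,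
  ⟨[(-4,1),(1,-1)], [(-2,2),(-1,2),(0,2)], [(383,[(338,[486]),(498,[])]),(719,[(486,[])]),(510,[])], 1604⟩,
  ⟨[(-3,0),(0,2)], [(0,-2),(1,-2),(2,-2),(2,-1),(0,-1),(1,-1)], [(502,[(29,[329,413,145,237]),(60,[449,145,146]),(401,[145,193]),(145,[345]),(35,[])]),(646,[(329,[449,160,146]),(413,[160,237]),(160,[237]),(237,[])]),(113,[(449,[552,146]),(552,[146]),(146,[])]),(89,[(336,[144]),(161,[])]),(336,[(345,[])]),(648,[])], 2699⟩,
  ⟨[(-3,1),(1,2)], [(0,-2),(1,-2),(2,-2),(2,-1),(0,-1),(1,-1)], [(533,[(29,[849,837,145,157]),(60,[237,145,146]),(825,[145,193]),(145,[369]),(35,[])]),(550,[(849,[237,238,146]),(837,[238,157]),(238,[157]),(157,[])]),(609,[(237,[562,146]),(562,[146]),(146,[])]),(597,[(574,[144]),(161,[])]),(490,[(369,[])]),(633,[])], 2792⟩,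
  ⟨[(-3,1),(1,1)], [(0,-2),(1,-2),(2,-2),(0,-1)], [(533,[(369,[345,145]),(381,[145]),(145,[])]),(550,[(345,[238]),(238,[])]),(81,[(562,[])]),(490,[])], 2056⟩,
  ⟨[(-4,1),(0,1)], [(-1,-1),(0,-2),(1,-2),(2,-2)], [(418,[(45,[345,497]),(53,[485]),(516,[])]),(706,[(345,[485]),(497,[])]),(765,[(485,[])]),(509,[])], 2211⟩,
  ⟨[(-4,1),(-1,0)], [(0,2),(1,1),(2,-2),(2,-1),(2,0)], [(505,[(35,[525,53,36]),(113,[449,313]),(89,[394]),(60,[])]),(767,[(525,[197,385]),(53,[157]),(36,[])]),(514,[(24,[47]),(61,[])]),(756,[(47,[])]),(744,[])], 3297⟩,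
  ⟨[(-4,2),(0,-2)], [(-1,2),(0,2),(1,1),(2,-1),(2,0),(-1,1),(0,1),(1,0)], [(671,[(37,[35,401,60,234,145,29]),(48,[419,335,234,157,229]),(95,[346,234,302,305]),(82,[234,195,144]),(234,[157,46]),(157,[337]),(46,[])]),(683,[(35,[419,335,444,145,229]),(401,[394,444,145,201]),(60,[444,145,144]),(444,[145,29]),(145,[337]),(29,[])]),(121,[(419,[157,444,159,229]),(335,[444,159,144]),(444,[144,229]),(159,[229]),(229,[])]),(95,[(47,[444,31,144]),(444,[386,192]),(38,[146]),(158,[])]),(119,[(444,[199,144]),(31,[144]),(144,[])]),(444,[(265,[337]),(169,[])]),(684,[(337,[])]),(169,[])], 3577⟩,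
  ⟨[(-4,0),(-1,0)], [(0,2),(1,1),(2,-2),(2,-1),(2,0)], [(505,[(35,[525,53,36]),(113,[449,313]),(89,[394]),(60,[])]),(767,[(525,[197,385]),(53,[157]),(36,[])]),(514,[(24,[47]),(61,[])]),(756,[(47,[])]),(744,[])], 3297⟩
  ]

/-- The bound used for the site `u` when the sites `op` are explored. -/
def tv (op : List Site) (u : Site) (k : ℕ) : ℕ :=
  match table[k / 12]? with
  | some e => if ∀ c ∈ e.cs, u + sy (k % 12) c ∈ op then e.t else 9432
  | none => 9432

/-- Level zero: the union bound. -/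
def hb0 (op : List Site) : List Site → List ℕ → ℕ
  | [], _ => 0
  | u :: L, ks => 500 * hb0 op L ks.tail + 73 * (500 ^ (L.length + 1) * tv op u ks.headI)

/-- Level one. -/
def hb1 (op : List Site) : List Site → List (ℕ × List ℕ) → ℕ
  | [], _ => 0
  | u :: L, ks => 427 * hb1 op L ks.tail +
      73 * (500 ^ (L.length + 1) * tv op u ks.headI.1 + hb0 (u :: op) L ks.headI.2)

/-- Level two. -/
def hb2 (op : List Site) : List Site → List (ℕ × List (ℕ × List ℕ)) → ℕ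
  | [], _ => 0
  | u :: L, ks => 427 * hb2 op L ks.tail +
      73 * (500 ^ (L.length + 1) * tv op u ks.headI.1 + hb1 (u :: op) L ks.headI.2)

/-- The inequality for the entry `e`. -/
def good (e : Ent) : Bool :=
  Nat.ble (500 ^ (e.us.length + 1) + hb2 (0 :: e.cs) e.us e.tr) (e.t * 500 ^ (e.us.length + 1))

end MP_c38eaf_pr.Explore
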