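import Pool.Agent.Lib.MP_c38eaf_pr.Table

/-!
# Kernel checks of the table
-/

namespace MP_c38eaf_pr.Explore

set_option maxRecDepth 100000

/-- All the numerical inequalities. -/
theorem table_good : table.all good = true := by decide +kernel

/-- The ball of radius two as a list. -/
def ball0 : List Site := [(0, 0), (1, 0), (0, 1), (-1, 1), (-1, 0), (0, -1), (1, -1), (2, 0), (1, 1),
  (0, 2), (-1, 2), (-2, 2), (-2, 1), (-2, 0), (-1, -1), (0, -2), (1, -2), (2, -2), (2, -1)]

theorem table_nodup : ∀ e ∈ table, e.us.Nodup ∧ ∀ u ∈ e.us, u ∈ ball0 ∧ u ≠ 0 := by decide +kernel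

theorem table_cover : ∀ e ∈ table, ∀ w ∈ ball0, w = 0 ∨ w ∈ e.us ∨ ∃ c ∈ e.cs, w - c ∈ ball0 := by
  decide +kernel

theorem ball0_eq : insert (0 : Site) steps2 = ball0.toFinset := by decide +kernel

theorem table_zero : ∃ e ∈ table, e.cs = [] ∧ e.t = 9432 :=
  ⟨table[0], by simp [table], rfl, rfl⟩

end MP_c38eaf_pr.Explore
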