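import Pool.Agent.Lib.MP_c38eaf_pr.Strip

/-!
# Counting words, and probabilities of cylinder events
-/

open MeasureTheory ProbabilityTheory

namespace MP_c38eaf_pr

/-- The first `m` letters. -/
def letters (w : ℕ → Bool) (m : ℕ) : List Bool := (List.range m).map w

/-- The apexes met by a word. -/
def apexes : St → List Bool → List Site
  | _, [] => []
  | σ, b :: l => apex σ :: apexes (step σ b) l

lemma sts_succ' (σ : St) (w : ℕ → Bool) (j : ℕ) :
    sts σ w (j + 1) = sts (step σ (w 0)) (fun j => w (j + 1)) j := by
  induction j with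
  | zero => rfl
  | succ j ih => rw [sts, ih, sts]

lemma letters_succ' (w : ℕ → Bool) (m : ℕ) :
    letters w (m + 1) = w 0 :: letters (fun j => w (j + 1)) m := by
  rw [letters, List.range_succ_eq_map, List.map_cons, List.map_map]; rfl

lemma apexes_letters (w : ℕ → Bool) (m : ℕ) (σ : St) :
    apexes σ (letters w m) = (List.range m).map (fun j => apex (sts σ w j)) := by
  induction m generalizing σ w with
  | zero => rfl
  | succ m ih =>
    rw [letters_succ', apexes, ih, List.range_succ_eq_map, List.map_cons, List.map_map]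
    congr 1
    apply List.map_congr_left
    intro j _
    rw [← sts_succ']; rfl

lemma letters_add (w : ℕ → Bool) (a b : ℕ) :
    letters w (a + b) = letters w a ++ letters (fun j => w (a + j)) b := by
  rw [letters, List.range_add, List.map_append, List.map_map]; rfl

/-- The `31` blocks of five letters other than `LLLLL`. -/
def blocks : Finset (List Bool) :=
  ((Finset.univ : Finset (Bool × Bool × Bool × Bool × Bool)).image
    (fun t => [t.1, t.2.1, t.2.2.1, t.2.2.2.1, t.2.2.2.2])).erase [true, true, true, true, true]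

lemma card_blocks : blocks.card = 31 := by decide +kernel

/-- Words made of `m` blocks. -/
def words : ℕ → Finset (List Bool)
  | 0 => {[]}
  | m + 1 => Finset.image₂ (· ++ ·) blocks (words m)

lemma card_words (m : ℕ) : (words m).card ≤ 31 ^ m := by
  induction m with
  | zero => simp [words]
  | succ m ih =>
    calc (words (m + 1)).card ≤ blocks.card * (words m).card := Finset.card_image₂_le _ _ _
      _ ≤ 31 * 31 ^ m := by rw [card_blocks]; exact Nat.mul_le_mul_left _ ih
      _ = 31 ^ (m + 1) := by ring

lemma letters_mem_words (m : ℕ) (w : ℕ → Bool) (h : ∀ a, a + 5 ≤ 5 * m →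
    ¬ (w a = true ∧ w (a + 1) = true ∧ w (a + 2) = true ∧ w (a + 3) = true ∧ w (a + 4) = true)) :
    letters w (5 * m) ∈ words m := by
  induction m generalizing w with
  | zero => simp [letters, words]
  | succ m ih =>
    have e : 5 * (m + 1) = 5 + 5 * m := by ring
    rw [e, letters_add, words]
    apply Finset.mem_image₂_of_mem
    · have h0 := h 0 (by omega)
      rw [blocks, Finset.mem_erase, Finset.mem_image]
      refine ⟨?_, ⟨(w 0, w 1, w 2, w 3, w 4), Finset.mem_univ _, rfl⟩⟩
      intro h1
      apply h0
      have : letters w 5 = [w 0, w 1, w 2, w 3, w 4] := rfl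
      rw [this] at h1
      simpa using h1
    · apply ih
      intro a ha
      have := h (5 + a) (by omega)
      simpa [add_assoc] using this

/-- Density of label `s`. -/
noncomputable def dens (p : unitInterval) (s : Bool) : ENNReal := bernoulliMeasure true false p {s}

instance (p : unitInterval) : IsProbabilityMeasure (labels p) := by unfold labels; infer_instance

lemma labels_all (p : unitInterval) (s : Bool) (S : Finset Site) :
    labels p {ω | ∀ x ∈ S, ω x = s} = dens p s ^ S.card := by
  have h : {ω : Site → Bool | ∀ x ∈ S, ω x = s} = (S : Set Site).pi (fun _ => {s}) := by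
    ext ω; simp [Set.mem_pi]
  rw [h, labels, Measure.infinitePi_pi _ (fun _ _ => measurableSet_singleton _)]
  simp [dens]

lemma labels_all_list (p : unitInterval) (s : Bool) {l : List Site} (h : l.Nodup) :
    labels p {ω | ∀ x ∈ l, ω x = s} = dens p s ^ l.length := by
  have := labels_all p s l.toFinset
  rw [List.toFinset_card_of_nodup h] at this
  rw [← this]; congr 1; ext ω; simp

/-- The event that the strip graph of label `s` joins the edge `{(k,0), (k+1,0)}` to an edge of the
negative axis. -/
def Arc (s : Bool) (k : ℤ) : Set (Site → Bool) :=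
  {ω | ∃ j : ℕ, (strip ω s).Reachable (mid (k, 0) 0) (mid (-j - 1, 0) 0)}

lemma length_apexes (l : List Bool) (σ : St) : (apexes σ l).length = l.length := by
  induction l generalizing σ with
  | nil => rfl
  | cons b l ih => rw [apexes, List.length_cons, ih, List.length_cons]

lemma length_of_mem_words (m : ℕ) (l : List Bool) (h : l ∈ words m) : l.length = 5 * m := by
  induction m generalizing l with
  | zero => simp [words] at h; simp [h]
  | succ m ih =>
    rw [words, Finset.mem_image₂] at h
    obtain ⟨a, ha, b, hb, rfl⟩ := h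
    rw [List.length_append, ih b hb]
    rw [blocks, Finset.mem_erase, Finset.mem_image] at ha
    obtain ⟨_, t, _, rfl⟩ := ha
    simp; ring

/-- Every configuration in `Arc s k` has a monochromatic word. -/
theorem Arc_subset (s : Bool) (k : ℤ) (_hk : 0 ≤ k) (m : ℕ) (hm : 5 * (m : ℤ) + 1 ≤ 2 * k + 2) :
    Arc s k ⊆ ⋃ σ ∈ ({((k, 0), 0), rev ((k, 0), 0)} : Finset St),
      ⋃ l ∈ (words m).filter (fun l => (apexes σ l).Nodup), {ω | ∀ x ∈ apexes σ l, ω x = s} := by
  rintro ω ⟨j, hj⟩
  have hlen : ∀ p : (strip ω s).Walk (mid (k, 0) 0) (mid (-j - 1, 0) 0), 5 * m + 1 ≤ p.length := by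
    intro p
    have h1 := strip_walk_fst p
    have e1 : (mid (k, 0) 0).1 = k + k + 1 := rfl
    have e2 : (mid ((-j - 1 : ℤ), 0) 0).1 = (-j - 1) + (-j - 1) + 1 := rfl
    rw [e1, e2] at h1
    omega
  obtain ⟨e, he0, hgeo⟩ := exists_geo hj hlen
  obtain ⟨σ₀, hσ, w, hw1, hw2⟩ := hgeo.exists_word (by omega) (τ := ((k, 0), 0)) he0
  have hnod : (apexes σ₀ (letters w (5 * m))).Nodup := by
    rw [apexes_letters]
    apply List.Nodup.map_on _ List.nodup_range
    intro a ha b hb hab
    rw [List.mem_range] at ha hb
    by_contra hne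
    rcases Nat.lt_or_gt_of_ne hne with h | h
    · exact apex_inj hgeo hw1 hw2 h (by omega) hab
    · exact apex_inj hgeo hw1 hw2 h (by omega) hab.symm
  rw [Set.mem_iUnion₂]
  refine ⟨σ₀, by rcases hσ with rfl | rfl <;> simp, ?_⟩
  rw [Set.mem_iUnion₂]
  refine ⟨letters w (5 * m), ?_, ?_⟩
  · rw [Finset.mem_filter]
    refine ⟨letters_mem_words m w ?_, hnod⟩
    intro a ha
    exact no_five hgeo hw1 hw2 (by omega)
  · intro x hx
    rw [apexes_letters, List.mem_map] at hx
    obtain ⟨a, ha, rfl⟩ := hx
    rw [List.mem_range] at ha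
    exact (hw2 a (by omega)).2.2

theorem labels_Arc_le (p : unitInterval) (s : Bool) (k : ℤ) (hk : 0 ≤ k) (m : ℕ)
    (hm : 5 * (m : ℤ) + 1 ≤ 2 * k + 2) :
    labels p (Arc s k) ≤ 2 * (31 * dens p s ^ 5) ^ m := by
  calc labels p (Arc s k) ≤ labels p (⋃ σ ∈ ({((k, 0), 0), rev ((k, 0), 0)} : Finset St),
      ⋃ l ∈ (words m).filter (fun l => (apexes σ l).Nodup), {ω | ∀ x ∈ apexes σ l, ω x = s}) :=
        measure_mono (Arc_subset s k hk m hm)
    _ ≤ ∑ σ ∈ ({((k, 0), 0), rev ((k, 0), 0)} : Finset St), ∑ l ∈ (words m).filter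
          (fun l => (apexes σ l).Nodup), labels p {ω | ∀ x ∈ apexes σ l, ω x = s} :=
        (measure_biUnion_finset_le _ _).trans
          (Finset.sum_le_sum fun σ _ => measure_biUnion_finset_le _ _)
    _ ≤ ∑ σ ∈ ({((k, 0), 0), rev ((k, 0), 0)} : Finset St), (31 * dens p s ^ 5) ^ m := by
        apply Finset.sum_le_sum
        intro σ _
        calc ∑ l ∈ (words m).filter (fun l => (apexes σ l).Nodup),
              labels p {ω | ∀ x ∈ apexes σ l, ω x = s}
            = ∑ l ∈ (words m).filter (fun l => (apexes σ l).Nodup), dens p s ^ (5 * m) := by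
              apply Finset.sum_congr rfl
              intro l hl
              rw [Finset.mem_filter] at hl
              rw [labels_all_list p s hl.2, length_apexes, length_of_mem_words m l hl.1]
          _ = (((words m).filter (fun l => (apexes σ l).Nodup)).card : ENNReal) *
                dens p s ^ (5 * m) := by rw [Finset.sum_const, nsmul_eq_mul]
          _ ≤ (31 ^ m : ℕ) * dens p s ^ (5 * m) := by
              gcongr
              exact (Finset.card_filter_le _ _).trans (card_words m)
          _ = (31 * dens p s ^ 5) ^ m := by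
              push_cast; rw [mul_pow, pow_mul]
    _ ≤ 2 * (31 * dens p s ^ 5) ^ m := by
        rw [Finset.sum_const, nsmul_eq_mul]
        gcongr
        exact_mod_cast Finset.card_le_two

end MP_c38eaf_pr
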